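import Pool.Agent.RFR.DDefs

set_option autoImplicit false

/-! RFR-DBas (1.3): the lexicographic order of the potentials is right invariant.

If `w * u⁻¹ ∈ N k` then `f k w - f k u = φ k (w * u⁻¹)`, so the first difference of the potentials
of `u` and `w` only depends on `w * u⁻¹`. -/

namespace Pool.Agent.RFR

variable {H : Type} [Group H] (t : PT H)

theorem N_le_E (k : ℕ) : t.N k ≤ t.E k := fun g hg => t.ne k g hg

theorem N_anti {j k : ℕ} (h : j ≤ k) : t.N k ≤ t.N j :=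
  fun _ hg i hi => hg i (lt_of_lt_of_le hi h)

theorem f_sub {k : ℕ} {u w : H} (h : w * u⁻¹ ∈ t.E k) : t.f k w - t.f k u = t.φ k (w * u⁻¹) := by
  have h1 := t.f_mul k (w * u⁻¹) h u
  rw [inv_mul_cancel_right] at h1
  omega

theorem first_diff {k : ℕ} {u w : H} (h : ∀ j < k, t.f j u = t.f j w) : w * u⁻¹ ∈ t.N k := by
  induction k with
  | zero => exact fun j hj => absurd hj (Nat.not_lt_zero j)
  | succ k ih =>
    have h1 : w * u⁻¹ ∈ t.N k := ih fun j hj => h j (Nat.lt_succ_of_lt hj)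
    have h2 := N_le_E t k h1
    have h3 := f_sub t h2
    have h4 := h k (Nat.lt_succ_self k)
    intro j hj
    rcases Nat.lt_succ_iff_lt_or_eq.1 hj with h5 | h5
    · exact h1 j h5
    · rw [h5]
      exact ⟨h2, by omega⟩

theorem f_eq_of_mem_N {k : ℕ} {u w : H} (h : w * u⁻¹ ∈ t.N k) : ∀ j < k, t.f j u = t.f j w := by
  intro j hj
  have h1 := f_sub t (h j hj).1
  have h2 := (h j hj).2
  omega

theorem f_inj {u w : H} (h : ∀ k, t.f k u = t.f k w) : u = w := by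
  have h1 : w * u⁻¹ = 1 := t.sep _ fun j =>
    first_diff t (k := j + 1) (fun i _ => h i) j (Nat.lt_succ_self j)
  exact (mul_inv_eq_one.1 h1).symm

theorem f_mul_N {i : ℕ} (hn : (t.N i).Normal) {k : ℕ} (hk : k < i) {n : H} (h : n ∈ t.N i)
    (u : H) : t.f k (u * n) = t.f k u := by
  have h1 : u * n * u⁻¹ ∈ t.N i := hn.conj_mem n h u
  have h2 := t.f_mul k (u * n * u⁻¹) (h1 k hk).1 u
  rw [inv_mul_cancel_right, (h1 k hk).2, zero_add] at h2
  exact h2

theorem lt_mono {s : ℤ} {r r' : ℕ} (hr : r ≤ r') {u w : H} (h : t.lt s r u w) : t.lt s r' u w := by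
  obtain ⟨k, hk, h1⟩ := h
  exact ⟨k, lt_of_lt_of_le hk hr, h1⟩

theorem lt_mul_right {s : ℤ} {r : ℕ} {u w : H} (h : t.lt s r u w) (v : H) :
    t.lt s r (u * v) (w * v) := by
  obtain ⟨k, hk, h1, h2⟩ := h
  have h3 : w * u⁻¹ ∈ t.N k := first_diff t h1
  have e : w * v * (u * v)⁻¹ = w * u⁻¹ := by group
  have h4 : w * v * (u * v)⁻¹ ∈ t.N k := by
    rw [e]
    exact h3
  refine ⟨k, hk, f_eq_of_mem_N t h4, ?_⟩
  have h5 := f_sub t (N_le_E t k h4)
  rw [e, ← f_sub t (N_le_E t k h3)] at h5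
  have h6 : s * t.f k (w * v) - s * t.f k (u * v) = s * t.f k w - s * t.f k u := by
    rw [← mul_sub, ← mul_sub, h5]
  linarith

theorem lt_mul_left {s : ℤ} {r : ℕ} {u w : H} (h : t.lt s r u w) {e : H}
    (he : ∀ k < r, e ∈ t.E k) : t.lt s r (e * u) (e * w) := by
  obtain ⟨k, hk, h1, h2⟩ := h
  refine ⟨k, hk, fun j hj => ?_, ?_⟩
  · have hj' : e ∈ t.E j := he j (hj.trans hk)
    rw [t.f_mul j e hj', t.f_mul j e hj', h1 j hj]
  · have hk' : e ∈ t.E k := he k hk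
    rw [t.f_mul k e hk', t.f_mul k e hk', mul_add, mul_add]
    linarith

theorem lt_trans' {s : ℤ} {r : ℕ} {u v w : H} (h1 : t.lt s r u v) (h2 : t.lt s r v w) :
    t.lt s r u w := by
  obtain ⟨k, hk, h3, h4⟩ := h1
  obtain ⟨l, hl, h5, h6⟩ := h2
  rcases lt_trichotomy k l with h | h | h
  · refine ⟨k, hk, fun j hj => (h3 j hj).trans (h5 j (hj.trans h)), ?_⟩
    rw [← h5 k h]
    exact h4
  · subst h
    exact ⟨k, hk, fun j hj => (h3 j hj).trans (h5 j hj), h4.trans h6⟩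
  · refine ⟨l, hl, fun j hj => (h3 j (hj.trans h)).trans (h5 j hj), ?_⟩
    rw [h3 l h]
    exact h6

theorem lt_irrefl' {s : ℤ} {r : ℕ} {u : H} : ¬ t.lt s r u u := by
  rintro ⟨k, _, _, h⟩
  exact lt_irrefl _ h

theorem lt_or {s : ℤ} (hs : s ≠ 0) (r : ℕ) (u w : H) :
    t.lt s r u w ∨ w * u⁻¹ ∈ t.N r ∨ t.lt s r w u := by
  classical
  by_cases h : ∀ j < r, t.f j u = t.f j w
  · exact Or.inr (Or.inl (first_diff t h))
  · push Not at h
    have hex : ∃ k, k < r ∧ t.f k u ≠ t.f k w := h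
    obtain ⟨hk, hne⟩ := Nat.find_spec hex
    have hmin : ∀ j < Nat.find hex, t.f j u = t.f j w := by
      intro j hj
      by_contra hcon
      exact Nat.find_min hex hj ⟨hj.trans hk, hcon⟩
    have hne' : s * t.f (Nat.find hex) u ≠ s * t.f (Nat.find hex) w := by
      intro hcon
      exact hne (mul_left_cancel₀ hs hcon)
    rcases lt_or_gt_of_ne hne' with h1 | h1
    · exact Or.inl ⟨_, hk, hmin, h1⟩
    · exact Or.inr (Or.inr ⟨_, hk, fun j hj => (hmin j hj).symm, h1⟩)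

/-- the order only depends on the classes modulo `N r` -/
theorem lt_congr {s : ℤ} {r : ℕ} {u w u' w' : H} (hu : u' * u⁻¹ ∈ t.N r) (hw : w' * w⁻¹ ∈ t.N r)
    (h : t.lt s r u w) : t.lt s r u' w' := by
  obtain ⟨k, hk, h1, h2⟩ := h
  have h3 := f_eq_of_mem_N t hu
  have h4 := f_eq_of_mem_N t hw
  refine ⟨k, hk, fun j hj => ?_, ?_⟩
  · rw [← h3 j (hj.trans hk), ← h4 j (hj.trans hk)]
    exact h1 j hj
  · rw [← h3 k hk, ← h4 k hk]
    exact h2

end Pool.Agent.RFR
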