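import Pool.Agent.RFR.DMul
import Pool.Agent.RFR.DBas

set_option autoImplicit false

/-! RFR-DBarA (3.3): the sums defining `bar` are finite; elementary identities for convolutions.

The potentials of level below `r ≤ i` are constant on the cosets of `N i`, so the fibres of the map to the
quotient `H ⧸ N i` have bounded potential and are finite by `fin_T`; the convolution identities are checked by
additivity on the elements `single e a`. -/

namespace Pool.Agent.RFR

variable {H : Type} [Group H] {t : PT H}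

private theorem dbara_F {L : ℤ} {i : ℕ} [hn : (t.N i).Normal] {n : H} (h : n ∈ t.N i) (u : H) :
    ∀ k, k < i → t.F L k (u * n) = t.F L k u
  | 0, hk => f_mul_N t hn hk h u
  | k + 1, hk => by
    have h1 := dbara_F (L := L) h u k (by omega)
    have h2 := f_mul_N t hn hk h u
    show L * t.F L k (u * n) + t.f (k + 1) (u * n) = L * t.F L k u + t.f (k + 1) u
    rw [h1, h2]

theorem TT_mul_N {L : ℤ} {r i : ℕ} (hr : r ≤ i) [hn : (t.N i).Normal] {n : H} (h : n ∈ t.N i)
    (u : H) : t.TT L r (u * n) = t.TT L r u := by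
  unfold PT.TT
  refine Finset.sum_congr rfl fun k hk => ?_
  rw [Finset.mem_range] at hk
  exact dbara_F h u k (by omega)

theorem fin_bar {r : ℕ} {L C : ℤ} {X : Mx H} (h : Ty t r L C X) {i : ℕ} (hr : r ≤ i)
    [(t.N i).Normal] (s : ℤˣ) (u : H) (g : H ⧸ t.N i) :
    {w : H | X s u w ≠ 0 ∧ ((u⁻¹ * w : H) : H ⧸ t.N i) = g}.Finite := by
  rcases Set.eq_empty_or_nonempty
    {w : H | X s u w ≠ 0 ∧ ((u⁻¹ * w : H) : H ⧸ t.N i) = g} with he | ⟨w0, -, hw0⟩
  · rw [he]
    exact Set.finite_empty
  · refine (fin_T h s u ((s : ℤ) * (t.TT L r w0 - t.TT L r u))).subset ?_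
    rintro w ⟨hw, hwg⟩
    refine ⟨hw, le_of_eq ?_⟩
    have h1 : w0⁻¹ * w ∈ t.N i := by
      have h2 : ((u⁻¹ * w0 : H) : H ⧸ t.N i) = ((u⁻¹ * w : H) : H ⧸ t.N i) := by
        rw [hw0, hwg]
      rw [QuotientGroup.eq] at h2
      have h3 : (u⁻¹ * w0)⁻¹ * (u⁻¹ * w) = w0⁻¹ * w := by group
      rw [h3] at h2
      exact h2
    have h4 := TT_mul_N (L := L) hr h1 w0
    rw [mul_inv_cancel_left] at h4
    rw [h4]

section conv
variable {Q : Type} [Group Q]

private theorem dbara_cvl_zero (x : Q → ℚ) (g : Q) : cvl (0 : MonoidAlgebra ℚ Q) x g = 0 := by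
  unfold cvl
  rw [MonoidAlgebra.coeff_zero, Finsupp.sum_zero_index]

private theorem dbara_cvl_addl (q q' : MonoidAlgebra ℚ Q) (x : Q → ℚ) (g : Q) :
    cvl (q + q') x g = cvl q x g + cvl q' x g := by
  unfold cvl
  rw [MonoidAlgebra.coeff_add, Finsupp.sum_add_index' (fun _ => zero_mul _)
    (fun _ _ _ => add_mul _ _ _)]

private theorem dbara_cvl_single (e : Q) (a : ℚ) (x : Q → ℚ) (g : Q) :
    cvl (MonoidAlgebra.single e a) x g = a * x (e⁻¹ * g) := by
  unfold cvl
  rw [MonoidAlgebra.coeff_single, Finsupp.sum_single_index (zero_mul _)]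

private theorem dbara_cvr_zero (x : Q → ℚ) (g : Q) : cvr x (0 : MonoidAlgebra ℚ Q) g = 0 := by
  unfold cvr
  rw [MonoidAlgebra.coeff_zero, Finsupp.sum_zero_index]

private theorem dbara_cvr_addr (q q' : MonoidAlgebra ℚ Q) (x : Q → ℚ) (g : Q) :
    cvr x (q + q') g = cvr x q g + cvr x q' g := by
  unfold cvr
  rw [MonoidAlgebra.coeff_add, Finsupp.sum_add_index' (fun _ => mul_zero _)
    (fun _ _ _ => mul_add _ _ _)]

private theorem dbara_cvr_single (e : Q) (a : ℚ) (x : Q → ℚ) (g : Q) :
    cvr x (MonoidAlgebra.single e a) g = x (g * e⁻¹) * a := by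
  unfold cvr
  rw [MonoidAlgebra.coeff_single, Finsupp.sum_single_index (mul_zero _)]

theorem cvl_mul (q q' : MonoidAlgebra ℚ Q) (x : Q → ℚ) (g : Q) :
    cvl (q * q') x g = cvl q (cvl q' x) g := by
  induction q using MonoidAlgebra.induction_linear with
  | zero => rw [zero_mul, dbara_cvl_zero, dbara_cvl_zero]
  | add q1 q2 h1 h2 => rw [add_mul, dbara_cvl_addl, dbara_cvl_addl, h1, h2]
  | single e a =>
    rw [dbara_cvl_single]
    induction q' using MonoidAlgebra.induction_linear with
    | zero => rw [mul_zero, dbara_cvl_zero, dbara_cvl_zero, mul_zero]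
    | add q1 q2 h1 h2 => rw [mul_add, dbara_cvl_addl, dbara_cvl_addl, h1, h2, mul_add]
    | single e' a' =>
      rw [MonoidAlgebra.single_mul_single, dbara_cvl_single, dbara_cvl_single, mul_inv_rev,
        mul_assoc, mul_assoc]

theorem cvr_mul (x : Q → ℚ) (p p' : MonoidAlgebra ℚ Q) (g : Q) :
    cvr x (p * p') g = cvr (cvr x p) p' g := by
  induction p' using MonoidAlgebra.induction_linear with
  | zero => rw [mul_zero, dbara_cvr_zero, dbara_cvr_zero]
  | add q1 q2 h1 h2 => rw [mul_add, dbara_cvr_addr, dbara_cvr_addr, h1, h2]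
  | single e a =>
    rw [dbara_cvr_single]
    induction p using MonoidAlgebra.induction_linear with
    | zero => rw [zero_mul, dbara_cvr_zero, dbara_cvr_zero, zero_mul]
    | add q1 q2 h1 h2 => rw [add_mul, dbara_cvr_addr, dbara_cvr_addr, h1, h2, add_mul]
    | single e' a' =>
      rw [MonoidAlgebra.single_mul_single, dbara_cvr_single, dbara_cvr_single, mul_inv_rev,
        ← mul_assoc, ← mul_assoc]

private theorem dbara_cvr_addl (x y : Q → ℚ) (p : MonoidAlgebra ℚ Q) (g : Q) :
    cvr (fun a => x a + y a) p g = cvr x p g + cvr y p g := by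
  induction p using MonoidAlgebra.induction_linear with
  | zero => rw [dbara_cvr_zero, dbara_cvr_zero, dbara_cvr_zero, add_zero]
  | add q1 q2 h1 h2 =>
    rw [dbara_cvr_addr, dbara_cvr_addr, dbara_cvr_addr, h1, h2]
    ring
  | single e a => rw [dbara_cvr_single, dbara_cvr_single, dbara_cvr_single, add_mul]

theorem cvl_cvr (q : MonoidAlgebra ℚ Q) (x : Q → ℚ) (p : MonoidAlgebra ℚ Q) (g : Q) :
    cvl q (cvr x p) g = cvr (cvl q x) p g := by
  induction p using MonoidAlgebra.induction_linear with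
  | zero =>
    rw [dbara_cvr_zero]
    induction q using MonoidAlgebra.induction_linear with
    | zero => rw [dbara_cvl_zero]
    | add q1 q2 h1 h2 => rw [dbara_cvl_addl, h1, h2, add_zero]
    | single e a => rw [dbara_cvl_single, dbara_cvr_zero, mul_zero]
  | add p1 p2 h1 h2 =>
    rw [dbara_cvr_addr, ← h1, ← h2]
    induction q using MonoidAlgebra.induction_linear with
    | zero => rw [dbara_cvl_zero, dbara_cvl_zero, dbara_cvl_zero, add_zero]
    | add q1 q2 h1 h2 =>
      rw [dbara_cvl_addl, dbara_cvl_addl, dbara_cvl_addl]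
      have e1 : ∀ q : MonoidAlgebra ℚ Q,
          cvl q (cvr x (p1 + p2)) g = cvl q (cvr x p1) g + cvl q (cvr x p2) g := by
        intro q
        unfold cvl
        rw [← Finsupp.sum_add]
        refine Finsupp.sum_congr fun e _ => ?_
        rw [dbara_cvr_addr, mul_add]
      rw [e1, e1]
      ring
    | single e a => rw [dbara_cvl_single, dbara_cvl_single, dbara_cvl_single, dbara_cvr_addr, mul_add]
  | single e' a' =>
    rw [dbara_cvr_single]
    induction q using MonoidAlgebra.induction_linear with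
    | zero => rw [dbara_cvl_zero, dbara_cvl_zero, zero_mul]
    | add q1 q2 h1 h2 => rw [dbara_cvl_addl, dbara_cvl_addl, h1, h2, add_mul]
    | single e a =>
      rw [dbara_cvl_single, dbara_cvl_single, dbara_cvr_single, ← mul_assoc, mul_assoc e⁻¹ g e'⁻¹]

theorem cvr_coeff (q p : MonoidAlgebra ℚ Q) (g : Q) : cvr (fun a => q.coeff a) p g = (q * p).coeff g :=
  (MonoidAlgebra.coeff_mul_apply_right q p g).symm

theorem cvl_coeff (q p : MonoidAlgebra ℚ Q) (g : Q) : cvl q (fun a => p.coeff a) g = (q * p).coeff g :=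
  (MonoidAlgebra.coeff_mul_apply_left q p g).symm

/-- conjugation invariant elements act in the same way from both sides -/
theorem cvr_eq_cvl {B : Subgroup Q} {q : MonoidAlgebra ℚ Q} (hq : IsZ B q) (x : Q → ℚ) (g : Q) :
    cvr x q g = cvl q x g := by
  unfold cvr cvl Finsupp.sum
  refine Finset.sum_bij' (fun e _ => g * e * g⁻¹) (fun e _ => g⁻¹ * e * g) ?_ ?_ ?_ ?_ ?_
  · intro e he
    rw [Finsupp.mem_support_iff] at he ⊢
    rw [hq.2 g e]
    exact he
  · intro e he
    rw [Finsupp.mem_support_iff] at he ⊢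
    have h1 := hq.2 g⁻¹ e
    rw [inv_inv] at h1
    rw [h1]
    exact he
  · intro e _
    group
  · intro e _
    group
  · intro e _
    rw [hq.2 g e]
    have h1 : (g * e * g⁻¹)⁻¹ * g = g * e⁻¹ := by group
    show x (g * e⁻¹) * q.coeff e = q.coeff e * x ((g * e * g⁻¹)⁻¹ * g)
    rw [h1, mul_comm]

theorem cvl_add (q : MonoidAlgebra ℚ Q) (x y : Q → ℚ) (g : Q) :
    cvl q (fun a => x a + y a) g = cvl q x g + cvl q y g := by
  induction q using MonoidAlgebra.induction_linear with
  | zero => rw [dbara_cvl_zero, dbara_cvl_zero, dbara_cvl_zero, add_zero]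
  | add q1 q2 h1 h2 =>
    rw [dbara_cvl_addl, dbara_cvl_addl, dbara_cvl_addl, h1, h2]
    ring
  | single e a => rw [dbara_cvl_single, dbara_cvl_single, dbara_cvl_single, mul_add]

theorem cvl_neg (q : MonoidAlgebra ℚ Q) (x : Q → ℚ) (g : Q) :
    cvl q (fun a => - x a) g = - cvl q x g := by
  induction q using MonoidAlgebra.induction_linear with
  | zero => rw [dbara_cvl_zero, dbara_cvl_zero, neg_zero]
  | add q1 q2 h1 h2 => rw [dbara_cvl_addl, dbara_cvl_addl, h1, h2, neg_add]
  | single e a => rw [dbara_cvl_single, dbara_cvl_single, mul_neg]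

end conv

end Pool.Agent.RFR
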