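import Pool.Agent.RFR.DMul

set_option autoImplicit false

/-! RFR-DGm (2.2): matrices of group ring elements.

PLAN.  `gm_tame`: type `(0, 1, C)`, `C` = maximum of `ell` on the support (`E 0 = ⊤`, `(e u)⁻¹ (e w) = u⁻¹ w`).  `gm_mm`: the support of the `finsum` is contained in
`u * g`, `g` in the support of `a`: substitute `v = u * g` (`finsum_comp_equiv` with `Equiv.mulLeft u`), `finsum_eq_sum_of_support_subset`.  `mm_gm`: `v = w * g⁻¹`.
`gm_mul`: `gm_mm` and the coefficients of a product (`MonoidAlgebra.mul_def`, or by linearity from `single`). -/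

namespace Pool.Agent.RFR

variable {H : Type} [Group H] {t : PT H}

theorem gm_tame (t : PT H) (a : MonoidAlgebra ℚ H) : Tame t (gm a) := by
  refine ⟨0, 1, ((a.coeff.support.sup t.ell : ℕ) : ℤ), le_rfl, Int.natCast_nonneg _, ?_, ?_, ?_⟩
  · intro s e _ u w
    change a.coeff ((e * u)⁻¹ * (e * w)) = a.coeff (u⁻¹ * w)
    congr 1
    group
  · intro s u w _ k hk
    exact absurd hk (Nat.not_lt_zero k)
  · intro s u w hw
    have h1 : u⁻¹ * w ∈ a.coeff.support := Finsupp.mem_support_iff.2 hw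
    have h2 : t.ell (u⁻¹ * w) ≤ a.coeff.support.sup t.ell := Finset.le_sup h1
    rw [Finset.range_zero, Finset.sum_empty, add_zero, mul_one]
    exact_mod_cast h2

theorem gm_one : gm (1 : MonoidAlgebra ℚ H) = I1 := by
  classical
  funext s u w
  change (1 : MonoidAlgebra ℚ H).coeff (u⁻¹ * w) = if u = w then 1 else 0
  rw [MonoidAlgebra.one_def, MonoidAlgebra.coeff_single, Finsupp.single_apply]
  by_cases h : u = w
  · rw [if_pos h, if_pos (by rw [h, inv_mul_cancel])]
  · rw [if_neg h, if_neg]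
    intro h1
    exact h (inv_mul_eq_one.1 h1.symm)

theorem gm_add (a b : MonoidAlgebra ℚ H) : gm (a + b) = gm a + gm b := by
  funext s u w
  rfl

theorem gm_mm (a : MonoidAlgebra ℚ H) (Y : Mx H) (s : ℤˣ) (u w : H) :
    mm (gm a) Y s u w = a.coeff.sum fun g c => c * Y s (u * g) w := by
  change ∑ᶠ v : H, a.coeff (u⁻¹ * v) * Y s v w = _
  rw [← finsum_comp_equiv (Equiv.mulLeft u)]
  have h1 : (fun g : H => a.coeff (u⁻¹ * (Equiv.mulLeft u) g) * Y s ((Equiv.mulLeft u) g) w) =
      fun g : H => a.coeff g * Y s (u * g) w := by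
    funext g
    rw [Equiv.coe_mulLeft, inv_mul_cancel_left]
  rw [h1]
  refine finsum_eq_sum_of_support_subset _ ?_
  intro g hg
  refine Finset.mem_coe.2 (Finsupp.mem_support_iff.2 fun h => hg ?_)
  change a.coeff g * Y s (u * g) w = 0
  rw [h, zero_mul]

theorem mm_gm (X : Mx H) (a : MonoidAlgebra ℚ H) (s : ℤˣ) (u w : H) :
    mm X (gm a) s u w = a.coeff.sum fun g c => X s u (w * g⁻¹) * c := by
  change ∑ᶠ v : H, X s u v * a.coeff (v⁻¹ * w) = _
  rw [← finsum_comp_equiv ((Equiv.inv H).trans (Equiv.mulLeft w))]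
  have h1 : (fun g : H => X s u (((Equiv.inv H).trans (Equiv.mulLeft w)) g) *
      a.coeff ((((Equiv.inv H).trans (Equiv.mulLeft w)) g)⁻¹ * w)) =
      fun g : H => X s u (w * g⁻¹) * a.coeff g := by
    funext g
    have h2 : ((Equiv.inv H).trans (Equiv.mulLeft w)) g = w * g⁻¹ := rfl
    have h3 : (w * g⁻¹)⁻¹ * w = g := by group
    rw [h2, h3]
  rw [h1]
  refine finsum_eq_sum_of_support_subset _ ?_
  intro g hg
  refine Finset.mem_coe.2 (Finsupp.mem_support_iff.2 fun h => hg ?_)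
  change X s u (w * g⁻¹) * a.coeff g = 0
  rw [h, mul_zero]

theorem gm_mul (a b : MonoidAlgebra ℚ H) : gm (a * b) = mm (gm a) (gm b) := by
  funext s u w
  rw [gm_mm]
  change (a * b).coeff (u⁻¹ * w) = _
  rw [MonoidAlgebra.coeff_mul_apply_left]
  refine Finsupp.sum_congr fun g _ => ?_
  change a.coeff g * b.coeff (g⁻¹ * (u⁻¹ * w)) = a.coeff g * b.coeff ((u * g)⁻¹ * w)
  rw [mul_inv_rev, mul_assoc]

theorem gm_inj {a b : MonoidAlgebra ℚ H} (h : gm a = gm b) : a = b := by
  refine MonoidAlgebra.coeff_injective (Finsupp.ext fun g => ?_)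
  have h1 : a.coeff (1⁻¹ * g) = b.coeff (1⁻¹ * g) := congrFun (congrFun (congrFun h 1) 1) g
  rwa [inv_one, one_mul] at h1

end Pool.Agent.RFR
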