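import Pool.Agent.RFR.DBarA
import Pool.Agent.RFR.DGm

set_option autoImplicit false

/-! RFR-DBarB (3.4): `bar` of sums, products and group ring elements.

PLAN.  `bar_mul`: for `s, u, g` both sides are finite sums over pairs `(v, w)`, `X s u v * Y s v w` with `[u⁻¹ * w] = e⁻¹ * g`, see (3.4) in the paper proof: with `h = [v⁻¹ * u]`:
`[v⁻¹ * w] = h * e⁻¹ * g = (h * e * h⁻¹)⁻¹ * (h * g)` and `q e = q (h * e * h⁻¹)`, so the inner sum is `cvl q (bar Y s v) (h * g) = p (h * g)`; the right hand side is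
`∑_k bar X (k) * p (k⁻¹ * g)` = `∑ᶠ v, X s u v * p ([v⁻¹ * u] * g)`.  All sums are finite: `TT w` only takes finitely many values for `[u⁻¹ * w] = e⁻¹ * g`, so the pairs `(v, w)` are finitely many (`fin_bar` for
`mm`-type estimates: `s (TT v - TT u) ≤ s (TT w - TT u) + r C`, `fin_T`, then `fin_bar`). -/

namespace Pool.Agent.RFR

variable {H : Type} [Group H] {t : PT H}

private theorem dbb_fin0 {r : ℕ} {L C : ℤ} {X : Mx H} (h : Ty t r L C X) {i : ℕ} (hr : r ≤ i)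
    [(t.N i).Normal] (s : ℤˣ) (u : H) (g : H ⧸ t.N i) :
    ({w : H | ((u⁻¹ * w : H) : H ⧸ t.N i) = g} ∩ Function.support (X s u)).Finite := by
  refine (fin_bar h hr s u g).subset ?_
  rintro w ⟨h1, h2⟩
  exact ⟨h2, h1⟩

theorem bar_add {r : ℕ} {L C : ℤ} {X Y : Mx H} (hX : Ty t r L C X) (hY : Ty t r L C Y) {i : ℕ}
    (hr : r ≤ i) [(t.N i).Normal] (s : ℤˣ) (u : H) (g : H ⧸ t.N i) :
    bar t i (X + Y) s u g = bar t i X s u g + bar t i Y s u g := by
  unfold bar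
  exact finsum_mem_add_distrib' (s := {w : H | ((u⁻¹ * w : H) : H ⧸ t.N i) = g})
    (f := X s u) (g := Y s u) (dbb_fin0 hX hr s u g) (dbb_fin0 hY hr s u g)

theorem bar_neg (X : Mx H) (i : ℕ) (s : ℤˣ) (u : H) (g : H ⧸ t.N i) :
    bar t i (-X) s u g = - bar t i X s u g := by
  unfold bar
  rw [← finsum_neg_distrib]
  refine finsum_congr fun w => ?_
  rw [← finsum_neg_distrib]
  rfl

open scoped Classical in
private theorem dbb_gm1 (a : MonoidAlgebra ℚ H) (i : ℕ) [(t.N i).Normal] (g : H ⧸ t.N i) :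
    (MonoidAlgebra.mapDomain (QuotientGroup.mk' (t.N i)) a).coeff g =
      ∑ v ∈ a.coeff.support with ((v : H) : H ⧸ t.N i) = g, a.coeff v := by
  rw [MonoidAlgebra.mapDomain, MonoidAlgebra.coeff_ofCoeff, Finsupp.mapDomain, Finsupp.sum_apply,
    Finsupp.sum, Finset.sum_filter]
  refine Finset.sum_congr rfl fun v _ => ?_
  rw [Finsupp.single_apply]
  rfl

theorem bar_gm (a : MonoidAlgebra ℚ H) (i : ℕ) [(t.N i).Normal] (s : ℤˣ) (u : H)
    (g : H ⧸ t.N i) :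
    bar t i (gm a) s u g =
      (MonoidAlgebra.mapDomain (QuotientGroup.mk' (t.N i)) a).coeff g := by
  classical
  rw [dbb_gm1]
  unfold bar
  rw [← finsum_comp_equiv (Equiv.mulLeft u)]
  have h1 : ∀ v : H, (∑ᶠ (_ : ((u⁻¹ * (Equiv.mulLeft u) v : H) : H ⧸ t.N i) = g),
      gm a s u ((Equiv.mulLeft u) v)) = ∑ᶠ (_ : v ∈ {x : H | ((x : H) : H ⧸ t.N i) = g}),
        a.coeff v := by
    intro v
    have h2 : u⁻¹ * (Equiv.mulLeft u) v = v := by simp
    unfold gm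
    rw [h2]
    rfl
  rw [finsum_congr h1]
  refine finsum_mem_eq_sum_of_inter_support_eq _ ?_
  ext v
  simp only [Set.mem_inter_iff, Set.mem_ofPred_eq, Function.mem_support, Finset.coe_filter,
    Finsupp.mem_support_iff]
  tauto

private theorem dbb_fin1 {r : ℕ} {L C : ℤ} {X Y : Mx H} (hX : Ty t r L C X) (hY : Ty t r L C Y)
    {i : ℕ} (hr : r ≤ i) [(t.N i).Normal] (s : ℤˣ) (u : H) (k : H ⧸ t.N i) :
    {v : H | X s u v ≠ 0 ∧ ∃ w, Y s v w ≠ 0 ∧ ((u⁻¹ * w : H) : H ⧸ t.N i) = k}.Finite := by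
  induction k using QuotientGroup.induction_on with
  | H k0 =>
    refine (fin_T hX s u ((s : ℤ) * (t.TT L r (u * k0) - t.TT L r u) + r * C)).subset ?_
    rintro v ⟨hv, w, hw, hk⟩
    refine ⟨hv, ?_⟩
    have h1 := ty_T hY hw
    have h2 : t.TT L r w = t.TT L r (u * k0) := by
      have h3 : w = (u * k0) * (k0⁻¹ * (u⁻¹ * w)) := by group
      rw [h3]
      exact TT_mul_N hr (QuotientGroup.eq.1 hk.symm) _
    rw [← h2]
    linarith [mul_sub (s : ℤ) (t.TT L r w) (t.TT L r v), mul_sub (s : ℤ) (t.TT L r w) (t.TT L r u),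
      mul_sub (s : ℤ) (t.TT L r v) (t.TT L r u)]

private theorem dbb_cls {i : ℕ} [(t.N i).Normal] (u v w : H) (k : H ⧸ t.N i) :
    ((v⁻¹ * w : H) : H ⧸ t.N i) = ((v⁻¹ * u : H) : H ⧸ t.N i) * k ↔
      ((u⁻¹ * w : H) : H ⧸ t.N i) = k := by
  have h1 : ((v⁻¹ * w : H) : H ⧸ t.N i) =
      ((v⁻¹ * u : H) : H ⧸ t.N i) * ((u⁻¹ * w : H) : H ⧸ t.N i) := by
    rw [← QuotientGroup.mk_mul]
    congr 1
    group
  rw [h1]
  exact mul_right_inj _

open scoped Classical in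
private theorem dbb_mm {r : ℕ} {L C : ℤ} {X Y : Mx H} (hX : Ty t r L C X) (hY : Ty t r L C Y)
    {i : ℕ} (hr : r ≤ i) [(t.N i).Normal] (s : ℤˣ) (u : H) (k : H ⧸ t.N i) :
    (Function.support fun v => X s u v * bar t i Y s v (((v⁻¹ * u : H) : H ⧸ t.N i) * k)).Finite ∧
    bar t i (mm X Y) s u k =
      ∑ᶠ v : H, X s u v * bar t i Y s v (((v⁻¹ * u : H) : H ⧸ t.N i) * k) := by
  set V : Finset H := (dbb_fin1 hX hY hr s u k).toFinset with hV
  have hVm : ∀ v, v ∈ V ↔ X s u v ≠ 0 ∧ ∃ w, Y s v w ≠ 0 ∧ ((u⁻¹ * w : H) : H ⧸ t.N i) = k := by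
    intro v
    rw [hV, Set.Finite.mem_toFinset]
    rfl
  have hsup : (Function.support fun v =>
      X s u v * bar t i Y s v (((v⁻¹ * u : H) : H ⧸ t.N i) * k)) ⊆ (V : Set H) := by
    intro v hv
    have h1 : X s u v ≠ 0 := left_ne_zero_of_mul hv
    have h2 : bar t i Y s v (((v⁻¹ * u : H) : H ⧸ t.N i) * k) ≠ 0 := right_ne_zero_of_mul hv
    obtain ⟨w, hw1, hw2⟩ := exists_ne_zero_of_finsum_mem_ne_zero
      (s := {w : H | ((v⁻¹ * w : H) : H ⧸ t.N i) = ((v⁻¹ * u : H) : H ⧸ t.N i) * k})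
      (f := Y s v) h2
    exact (hVm v).2 ⟨h1, w, hw2, (dbb_cls u v w k).1 hw1⟩
  refine ⟨V.finite_toSet.subset hsup, ?_⟩
  rw [finsum_eq_sum_of_support_subset _ hsup]
  set W : Finset H := V.biUnion fun v =>
    (fin_bar hY hr s v (((v⁻¹ * u : H) : H ⧸ t.N i) * k)).toFinset with hW
  have hWm : ∀ w ∈ W, ((u⁻¹ * w : H) : H ⧸ t.N i) = k := by
    intro w hw
    rw [hW, Finset.mem_biUnion] at hw
    obtain ⟨v, _, hw⟩ := hw
    rw [Set.Finite.mem_toFinset] at hw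
    exact (dbb_cls u v w k).1 hw.2
  -- the entries of the product
  have h1 : ∀ w, ((u⁻¹ * w : H) : H ⧸ t.N i) = k →
      mm X Y s u w = ∑ v ∈ V, X s u v * Y s v w := by
    intro w hw
    unfold mm
    refine finsum_eq_sum_of_support_subset _ ?_
    intro v hv
    exact (hVm v).2 ⟨left_ne_zero_of_mul hv, w, right_ne_zero_of_mul hv, hw⟩
  have h2 : bar t i (mm X Y) s u k = ∑ w ∈ W, ∑ v ∈ V, X s u v * Y s v w := by
    have h3 : bar t i (mm X Y) s u k = ∑ w ∈ W, mm X Y s u w := by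
      unfold bar
      refine finsum_mem_eq_sum_of_inter_support_eq
        (s := {w : H | ((u⁻¹ * w : H) : H ⧸ t.N i) = k}) (f := mm X Y s u) ?_
      ext w
      simp only [Set.mem_inter_iff, Set.mem_ofPred_eq, Function.mem_support, Finset.mem_coe]
      refine ⟨fun h => ⟨?_, h.2⟩, fun h => ⟨hWm w h.1, h.2⟩⟩
      have h4 := h.2
      rw [h1 w h.1] at h4
      obtain ⟨v, hv, hv2⟩ := Finset.exists_ne_zero_of_sum_ne_zero h4
      rw [hW, Finset.mem_biUnion]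
      refine ⟨v, hv, ?_⟩
      rw [Set.Finite.mem_toFinset]
      exact ⟨right_ne_zero_of_mul hv2, (dbb_cls u v w k).2 h.1⟩
    rw [h3]
    exact Finset.sum_congr rfl fun w hw => h1 w (hWm w hw)
  rw [h2, Finset.sum_comm]
  refine Finset.sum_congr rfl fun v hv => ?_
  rw [← Finset.mul_sum]
  congr 1
  symm
  unfold bar
  refine finsum_mem_eq_sum_of_inter_support_eq
    (s := {w : H | ((v⁻¹ * w : H) : H ⧸ t.N i) = ((v⁻¹ * u : H) : H ⧸ t.N i) * k})
    (f := Y s v) ?_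
  ext w
  simp only [Set.mem_inter_iff, Set.mem_ofPred_eq, Function.mem_support, Finset.mem_coe]
  refine ⟨fun h => ⟨?_, h.2⟩, fun h => ⟨(dbb_cls u v w k).2 (hWm w h.1), h.2⟩⟩
  rw [hW, Finset.mem_biUnion]
  refine ⟨v, hv, ?_⟩
  rw [Set.Finite.mem_toFinset]
  exact ⟨h.2, h.1⟩

/-- conjugating the summation variable -/
private theorem dbb_conj {Q : Type} [Group Q] {B : Subgroup Q} {q : MonoidAlgebra ℚ Q}
    (hq : IsZ B q) (x : Q → ℚ) (h g : Q) :
    (q.coeff.sum fun e a => a * x (h * (e⁻¹ * g))) = cvl q x (h * g) := by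
  unfold cvl Finsupp.sum
  refine Finset.sum_bij' (fun e _ => h * e * h⁻¹) (fun e _ => h⁻¹ * e * h) ?_ ?_ ?_ ?_ ?_
  · intro e he
    rw [Finsupp.mem_support_iff] at he ⊢
    rwa [hq.2 h e]
  · intro e he
    rw [Finsupp.mem_support_iff] at he ⊢
    have h1 := hq.2 h⁻¹ e
    rw [inv_inv] at h1
    rwa [h1]
  · intro e _
    group
  · intro e _
    group
  · intro e _
    rw [hq.2 h e]
    group

open scoped Classical in
private theorem dbb_cvr {r : ℕ} {L C : ℤ} {X : Mx H} (hX : Ty t r L C X)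
    {i : ℕ} (hr : r ≤ i) [(t.N i).Normal] (s : ℤˣ) (u : H) (p : MonoidAlgebra ℚ (H ⧸ t.N i))
    (g : H ⧸ t.N i) : cvr (bar t i X s u) p g =
      ∑ᶠ v : H, X s u v * p.coeff (((v⁻¹ * u : H) : H ⧸ t.N i) * g) := by
  set V : Finset H := p.coeff.support.biUnion fun e =>
    (fin_bar hX hr s u (g * e⁻¹)).toFinset with hV
  have hVm : ∀ v, v ∈ V ↔ X s u v ≠ 0 ∧ p.coeff (((v⁻¹ * u : H) : H ⧸ t.N i) * g) ≠ 0 := by
    intro v
    have h5 : ∀ e : H ⧸ t.N i, ((u⁻¹ * v : H) : H ⧸ t.N i) = g * e⁻¹ ↔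
        e = ((v⁻¹ * u : H) : H ⧸ t.N i) * g := by
      intro e
      have h6 : ((v⁻¹ * u : H) : H ⧸ t.N i) = (((u⁻¹ * v : H) : H ⧸ t.N i))⁻¹ := by
        rw [← QuotientGroup.mk_inv]
        congr 1
        group
      rw [h6, eq_mul_inv_iff_mul_eq, eq_inv_mul_iff_mul_eq]
    rw [hV, Finset.mem_biUnion]
    constructor
    · rintro ⟨e, he, hv⟩
      rw [Set.Finite.mem_toFinset] at hv
      refine ⟨hv.1, ?_⟩
      rw [← (h5 e).1 hv.2]
      exact Finsupp.mem_support_iff.1 he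
    · rintro ⟨h1, h2⟩
      refine ⟨_, Finsupp.mem_support_iff.2 h2, ?_⟩
      rw [Set.Finite.mem_toFinset]
      exact ⟨h1, (h5 _).2 rfl⟩
  have h5 : ∀ (v : H) (e : H ⧸ t.N i), ((u⁻¹ * v : H) : H ⧸ t.N i) = g * e⁻¹ ↔
      e = ((v⁻¹ * u : H) : H ⧸ t.N i) * g := by
    intro v e
    have h6 : ((v⁻¹ * u : H) : H ⧸ t.N i) = (((u⁻¹ * v : H) : H ⧸ t.N i))⁻¹ := by
      rw [← QuotientGroup.mk_inv]
      congr 1
      group
    rw [h6, eq_mul_inv_iff_mul_eq, eq_inv_mul_iff_mul_eq]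
  rw [finsum_eq_sum_of_support_subset (s := V) _ (by
    intro v hv
    exact (hVm v).2 ⟨left_ne_zero_of_mul hv, right_ne_zero_of_mul hv⟩)]
  have h1 : ∀ e ∈ p.coeff.support, bar t i X s u (g * e⁻¹) =
      ∑ v ∈ V, if e = ((v⁻¹ * u : H) : H ⧸ t.N i) * g then X s u v else 0 := by
    intro e he
    rw [← Finset.sum_filter]
    unfold bar
    refine finsum_mem_eq_sum_of_inter_support_eq
      (s := {w : H | ((u⁻¹ * w : H) : H ⧸ t.N i) = g * e⁻¹}) (f := X s u) ?_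
    ext v
    simp only [Set.mem_inter_iff, Set.mem_ofPred_eq, Function.mem_support, Finset.coe_filter]
    rw [h5 v e, hVm v]
    constructor
    · rintro ⟨h2, h3⟩
      refine ⟨⟨⟨h3, ?_⟩, h2⟩, h3⟩
      rw [← h2]
      exact Finsupp.mem_support_iff.1 he
    · rintro ⟨⟨_, h2⟩, h3⟩
      exact ⟨h2, h3⟩
  have h7 : cvr (bar t i X s u) p g = ∑ e ∈ p.coeff.support, ∑ v ∈ V,
      (if e = ((v⁻¹ * u : H) : H ⧸ t.N i) * g then X s u v else 0) * p.coeff e := by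
    unfold cvr Finsupp.sum
    refine Finset.sum_congr rfl fun e he => ?_
    show bar t i X s u (g * e⁻¹) * p.coeff e = _
    rw [h1 e he, Finset.sum_mul]
  rw [h7, Finset.sum_comm]
  refine Finset.sum_congr rfl fun v hv => ?_
  rw [Finset.sum_eq_single (((v⁻¹ * u : H) : H ⧸ t.N i) * g)]
  · rw [if_pos rfl]
  · intro e _ he
    rw [if_neg he, zero_mul]
  · intro he
    exact absurd (Finsupp.mem_support_iff.2 ((hVm v).1 hv).2) he

theorem bar_mul {r : ℕ} {L C : ℤ} {X Y : Mx H} (hX : Ty t r L C X) (hY : Ty t r L C Y) {i : ℕ}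
    (hr : r ≤ i) [(t.N i).Normal] {B : Subgroup (H ⧸ t.N i)} {q p : MonoidAlgebra ℚ (H ⧸ t.N i)}
    (hq : IsZ B q) (h : ∀ s u g, cvl q (bar t i Y s u) g = p.coeff g) (s : ℤˣ) (u : H)
    (g : H ⧸ t.N i) : cvl q (bar t i (mm X Y) s u) g = cvr (bar t i X s u) p g := by
  rw [dbb_cvr hX hr s u p g]
  have h1 : ∀ v : H, X s u v * p.coeff (((v⁻¹ * u : H) : H ⧸ t.N i) * g) =
      ∑ e ∈ q.coeff.support, q.coeff e *
        (X s u v * bar t i Y s v (((v⁻¹ * u : H) : H ⧸ t.N i) * (e⁻¹ * g))) := by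
    intro v
    rw [← h s v, ← dbb_conj hq, Finsupp.sum, Finset.mul_sum]
    exact Finset.sum_congr rfl fun e _ => by ring
  rw [finsum_congr h1, finsum_sum_comm]
  · unfold cvl Finsupp.sum
    refine Finset.sum_congr rfl fun e _ => ?_
    show q.coeff e * bar t i (mm X Y) s u (e⁻¹ * g) = _
    rw [(dbb_mm hX hY hr s u (e⁻¹ * g)).2, mul_finsum]
  · intro e _
    refine (dbb_mm hX hY hr s u (e⁻¹ * g)).1.subset ?_
    intro v hv
    exact right_ne_zero_of_mul hv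

end Pool.Agent.RFR
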