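import Pool.Agent.RFR.DDefs

set_option autoImplicit false

/-! RFR-DCen (3.2): nonzero elements of the group ring of an abelian-by-finite group without zero divisors have nonzero central
multiples.  (Pure Mathlib, except for the definition `IsZ`.)

PLAN.  `R = MonoidAlgebra ℚ B` is a commutative ring (`B` is commutative by `hB`), a domain (it embeds in `A = MonoidAlgebra ℚ Q`).  `A` is a left `R`-module through the embedding
(`Module.compHom`), spanned by the finitely many representatives `u_j` of `B \ Q`.  The `u_j * p` and `1` are `m + 1` elements of a module spanned by `m` elements over a commutative domain: linearly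
dependent (`linearIndependent_le_span` or similar, `StrongRankCondition`): `∑ b_j * u_j * p = b_0`, not all zero.  If `b_0 = 0` then `∑ b_j u_j = 0`, all `b_j = 0` (look at the cosets), contradiction; so `a * p = b_0 ≠ 0`,
`b_0` supported in `B`.  `q` = product of the conjugates `u_j b_0 u_j⁻¹` (they commute, supported in `B`) is invariant under all conjugations (a conjugation permutes the factors), nonzero, and a left multiple of
`b_0` (one factor is `b_0`), so `a' * p = q`.  `q` is central: `(p * a' - q) * p = p * q - q * p = 0`, so `p * a' = q`. -/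

namespace Pool.Agent.RFR

open MonoidAlgebra in
private theorem dcen_single_mul {Q : Type} [Group Q] (h x : Q) (r : ℚ) (q : MonoidAlgebra ℚ Q) :
    (MonoidAlgebra.single h r * q).coeff x = r * q.coeff (h⁻¹ * x) := by
  refine coeff_single_mul_eq_mul_coeff _ ?_
  intro m _
  constructor
  · rintro rfl
    simp
  · rintro rfl
    simp

open MonoidAlgebra in
private theorem dcen_mul_single {Q : Type} [Group Q] (h x : Q) (r : ℚ) (q : MonoidAlgebra ℚ Q) :
    (q * MonoidAlgebra.single h r).coeff x = q.coeff (x * h⁻¹) * r := by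
  refine coeff_mul_single_eq_coeff_mul _ ?_
  intro m _
  constructor
  · rintro rfl
    simp
  · rintro rfl
    simp

private theorem dcen_comm_single {Q : Type} [Group Q] {q : MonoidAlgebra ℚ Q}
    (hq : ∀ h g, q.coeff (h * g * h⁻¹) = q.coeff g) (h : Q) (r : ℚ) :
    MonoidAlgebra.single h r * q = q * MonoidAlgebra.single h r := by
  apply MonoidAlgebra.coeff_injective
  ext x
  rw [dcen_single_mul, dcen_mul_single, mul_comm]
  congr 1
  rw [← hq h (h⁻¹ * x)]
  congr 1
  group

private theorem dcen_inv_of_comm {Q : Type} [Group Q] {q : MonoidAlgebra ℚ Q}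
    (hq : ∀ h : Q, MonoidAlgebra.single h (1 : ℚ) * q = q * MonoidAlgebra.single h (1 : ℚ)) (h g : Q) :
    q.coeff (h * g * h⁻¹) = q.coeff g := by
  have h1 := congrArg (fun z : MonoidAlgebra ℚ Q => z.coeff (h * g)) (hq h)
  simp only [dcen_single_mul, dcen_mul_single, one_mul, mul_one] at h1
  rw [← h1]
  congr 1
  group

/-- `IsZ` elements are central -/
theorem isZ_comm {Q : Type} [Group Q] {B : Subgroup Q} {q : MonoidAlgebra ℚ Q} (hq : IsZ B q)
    (p : MonoidAlgebra ℚ Q) : p * q = q * p := by
  induction p using MonoidAlgebra.induction_linear with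
  | zero => simp
  | add x y hx hy => rw [add_mul, mul_add, hx, hy]
  | single h r => exact dcen_comm_single hq.2 h r

theorem isZ_one {Q : Type} [Group Q] (B : Subgroup Q) : IsZ B (1 : MonoidAlgebra ℚ Q) := by
  classical
  refine ⟨?_, ?_⟩
  · intro g hg
    rw [MonoidAlgebra.one_def, MonoidAlgebra.coeff_single, Finsupp.single_apply] at hg
    by_cases h : (1 : Q) = g
    · rw [← h]
      exact one_mem _
    · exact absurd (if_neg h) hg
  · intro h g
    exact dcen_inv_of_comm (fun h => by rw [mul_one, one_mul]) h g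

theorem isZ_mul {Q : Type} [Group Q] {B : Subgroup Q} {q q' : MonoidAlgebra ℚ Q} (hq : IsZ B q)
    (hq' : IsZ B q') : IsZ B (q * q') := by
  classical
  refine ⟨?_, ?_⟩
  · intro g hg
    have h1 : g ∈ (q * q').coeff.support := Finsupp.mem_support_iff.2 hg
    have h2 := MonoidAlgebra.support_coeff_mul_subset q q' h1
    obtain ⟨a, ha, b, hb, rfl⟩ := Finset.mem_mul.1 h2
    exact mul_mem (hq.1 a (Finsupp.mem_support_iff.1 ha)) (hq'.1 b (Finsupp.mem_support_iff.1 hb))
  · intro h g
    refine dcen_inv_of_comm (fun h => ?_) h g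
    rw [← mul_assoc, isZ_comm hq, mul_assoc, isZ_comm hq', ← mul_assoc]

/-- the embedding of the group ring of `B` -/
private noncomputable def dcenI {Q : Type} [Group Q] (B : Subgroup Q) :
    MonoidAlgebra ℚ B →+* MonoidAlgebra ℚ Q :=
  MonoidAlgebra.mapDomainRingHom ℚ B.subtype

private theorem dcenI_inj {Q : Type} [Group Q] (B : Subgroup Q) : Function.Injective (dcenI B) := by
  have h : Function.Injective (MonoidAlgebra.mapDomain (R := ℚ) (B.subtype : B → Q)) :=
    MonoidAlgebra.mapDomain_injective B.subtype_injective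
  exact h

private theorem dcenI_single {Q : Type} [Group Q] (B : Subgroup Q) (b : B) (r : ℚ) :
    dcenI B (MonoidAlgebra.single b r) = MonoidAlgebra.single (b : Q) r := by
  unfold dcenI
  rw [MonoidAlgebra.mapDomainRingHom_apply, MonoidAlgebra.mapDomain_single]
  rfl

private theorem dcenI_coeff {Q : Type} [Group Q] (B : Subgroup Q) (x : MonoidAlgebra ℚ B) (b : B) :
    (dcenI B x).coeff (b : Q) = x.coeff b := by
  show (Finsupp.mapDomain (B.subtype : B → Q) x.coeff) (B.subtype b) = _
  exact Finsupp.mapDomain_apply B.subtype_injective _ _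

private theorem dcenI_supp {Q : Type} [Group Q] (B : Subgroup Q) (x : MonoidAlgebra ℚ B) (g : Q)
    (hg : (dcenI B x).coeff g ≠ 0) : g ∈ B := by
  by_contra hgB
  apply hg
  show (Finsupp.mapDomain (B.subtype : B → Q) x.coeff) g = 0
  apply Finsupp.mapDomain_of_notMem_range
  rintro ⟨b, rfl⟩
  exact hgB b.2

/-- conjugation on the group ring of `B` -/
private noncomputable def dcenC {Q : Type} [Group Q] (B : Subgroup Q) [B.Normal] (h : Q) :
    MonoidAlgebra ℚ B →+* MonoidAlgebra ℚ B :=
  MonoidAlgebra.mapDomainRingHom ℚ ((MulAut.conjNormal h : MulAut B).toMonoidHom : B →* B)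

private theorem dcenC_single {Q : Type} [Group Q] (B : Subgroup Q) [B.Normal] (h : Q) (b : B) (r : ℚ) :
    dcenC B h (MonoidAlgebra.single b r) = MonoidAlgebra.single (MulAut.conjNormal h b) r := by
  unfold dcenC
  rw [MonoidAlgebra.mapDomainRingHom_apply, MonoidAlgebra.mapDomain_single]
  rfl

private theorem dcenC_mul {Q : Type} [Group Q] (B : Subgroup Q) [B.Normal] (g h : Q)
    (x : MonoidAlgebra ℚ B) : dcenC B g (dcenC B h x) = dcenC B (g * h) x := by
  induction x using MonoidAlgebra.induction_linear with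
  | zero => simp
  | add x y hx hy => rw [map_add, map_add, map_add, hx, hy]
  | single b r =>
    rw [dcenC_single, dcenC_single, dcenC_single]
    congr 1
    rw [map_mul]
    rfl

private theorem dcenC_one {Q : Type} [Group Q] (B : Subgroup Q) [B.Normal]
    (x : MonoidAlgebra ℚ B) : dcenC B 1 x = x := by
  induction x using MonoidAlgebra.induction_linear with
  | zero => simp
  | add x y hx hy => rw [map_add, hx, hy]
  | single b r =>
    rw [dcenC_single]
    congr 1
    rw [map_one]
    rfl

private theorem dcenC_B {Q : Type} [Group Q] (B : Subgroup Q) [B.Normal]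
    (hB : ∀ a ∈ B, ∀ b ∈ B, a * b = b * a) (h : Q) (hh : h ∈ B)
    (x : MonoidAlgebra ℚ B) : dcenC B h x = x := by
  induction x using MonoidAlgebra.induction_linear with
  | zero => simp
  | add x y hx hy => rw [map_add, hx, hy]
  | single b r =>
    rw [dcenC_single]
    congr 1
    apply Subtype.ext
    rw [MulAut.conjNormal_apply, hB h hh b b.2]
    group

private theorem dcenC_inj {Q : Type} [Group Q] (B : Subgroup Q) [B.Normal] (h : Q) :
    Function.Injective (dcenC B h) := by
  intro x y hxy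
  have h1 := congrArg (dcenC B h⁻¹) hxy
  rw [dcenC_mul, dcenC_mul, inv_mul_cancel, dcenC_one, dcenC_one] at h1
  exact h1

private theorem dcenC_I {Q : Type} [Group Q] (B : Subgroup Q) [B.Normal] (h : Q)
    (x : MonoidAlgebra ℚ B) :
    MonoidAlgebra.single h (1 : ℚ) * dcenI B x = dcenI B (dcenC B h x) * MonoidAlgebra.single h (1 : ℚ) := by
  induction x using MonoidAlgebra.induction_linear with
  | zero => simp
  | add x y hx hy => rw [map_add, map_add, map_add, mul_add, add_mul, hx, hy]
  | single b r =>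
    rw [dcenC_single, dcenI_single, dcenI_single, MonoidAlgebra.single_mul_single,
      MonoidAlgebra.single_mul_single, MulAut.conjNormal_apply]
    congr 1
    · group
    · ring

/-- the element `∑ ι(b j) u_j` -/
private noncomputable def dcenS {Q : Type} [Group Q] (B : Subgroup Q) [B.Normal] [B.FiniteIndex]
    [Fintype (Q ⧸ B)] (b : Q ⧸ B → MonoidAlgebra ℚ B) : MonoidAlgebra ℚ Q :=
  ∑ j : Q ⧸ B, dcenI B (b j) * MonoidAlgebra.single j.out (1 : ℚ)

private theorem dcenS_eq_zero {Q : Type} [Group Q] (B : Subgroup Q) [B.Normal] [B.FiniteIndex]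
    [Fintype (Q ⧸ B)] (b : Q ⧸ B → MonoidAlgebra ℚ B) (h : dcenS B b = 0) (j : Q ⧸ B) :
    b j = 0 := by
  classical
  apply MonoidAlgebra.coeff_injective
  ext c
  have h1 := congrArg (fun z : MonoidAlgebra ℚ Q => z.coeff ((c : Q) * j.out)) h
  unfold dcenS at h1
  simp only [MonoidAlgebra.coeff_sum, Finsupp.finsetSum_apply, dcen_mul_single, mul_one,
    MonoidAlgebra.coeff_zero, Finsupp.coe_zero, Pi.zero_apply] at h1
  rw [Finset.sum_eq_single j] at h1
  · rw [mul_assoc, mul_inv_cancel, mul_one, dcenI_coeff] at h1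
    rw [h1]
    rfl
  · intro i _ hij
    by_contra hne
    apply hij
    have h2 := dcenI_supp B (b i) _ hne
    have h3 : ((((c : Q) * j.out) * (i.out)⁻¹ : Q) : Q ⧸ B) = 1 := (QuotientGroup.eq_one_iff _).2 h2
    rw [QuotientGroup.mk_mul, QuotientGroup.mk_mul, QuotientGroup.mk_inv,
      (QuotientGroup.eq_one_iff (c : Q)).2 c.2, one_mul] at h3
    have h4 : ((i.out : Q) : Q ⧸ B) = i := QuotientGroup.out_eq' i
    have h5 : ((j.out : Q) : Q ⧸ B) = j := QuotientGroup.out_eq' j
    rw [h4, h5] at h3
    exact (mul_inv_eq_one.1 h3).symm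
  · intro hj
    exact absurd (Finset.mem_univ j) hj

/-- every element of the group ring of `Q` is a combination of the representatives -/
private theorem dcenS_surj {Q : Type} [Group Q] (B : Subgroup Q) [B.Normal] [B.FiniteIndex]
    [Fintype (Q ⧸ B)] (x : MonoidAlgebra ℚ Q) : ∃ b : Q ⧸ B → MonoidAlgebra ℚ B, dcenS B b = x := by
  classical
  induction x using MonoidAlgebra.induction_linear with
  | zero =>
    refine ⟨fun _ => 0, ?_⟩
    unfold dcenS
    simp
  | add x y hx hy =>
    obtain ⟨b, rfl⟩ := hx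
    obtain ⟨c, rfl⟩ := hy
    refine ⟨fun j => b j + c j, ?_⟩
    unfold dcenS
    rw [← Finset.sum_add_distrib]
    refine Finset.sum_congr rfl fun j _ => ?_
    rw [map_add, add_mul]
  | single g r =>
    have hm : g * ((g : Q ⧸ B).out)⁻¹ ∈ B := by
      have h4 : (((g : Q ⧸ B).out : Q) : Q ⧸ B) = (g : Q ⧸ B) := QuotientGroup.out_eq' _
      apply (QuotientGroup.eq_one_iff _).1
      rw [QuotientGroup.mk_mul, QuotientGroup.mk_inv, h4, mul_inv_cancel]
    refine ⟨fun j => if j = (g : Q ⧸ B) then MonoidAlgebra.single ⟨_, hm⟩ r else 0, ?_⟩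
    unfold dcenS
    rw [Finset.sum_eq_single (g : Q ⧸ B)]
    · simp only [if_true]
      rw [dcenI_single, MonoidAlgebra.single_mul_single, mul_one]
      congr 1
      simp
    · intro j _ hj
      simp only [if_neg hj]
      rw [map_zero, zero_mul]
    · intro hj
      exact absurd (Finset.mem_univ _) hj

/-- a nonzero left multiple supported in `B` -/
private theorem dcen_rel {Q : Type} [Group Q] (B : Subgroup Q) [B.Normal] [B.FiniteIndex]
    (hB : ∀ a ∈ B, ∀ b ∈ B, a * b = b * a) [NoZeroDivisors (MonoidAlgebra ℚ Q)]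
    {p : MonoidAlgebra ℚ Q} (hp : p ≠ 0) :
    ∃ (a : MonoidAlgebra ℚ Q) (r : MonoidAlgebra ℚ B), r ≠ 0 ∧ a * p = dcenI B r := by
  classical
  have : Fintype (Q ⧸ B) := Fintype.ofFinite _
  let _ : CommGroup B := { (inferInstance : Group B) with
    mul_comm := fun a b => Subtype.ext (hB a a.2 b b.2) }
  let _ : CommRing (MonoidAlgebra ℚ B) := inferInstance
  let _ : Module (MonoidAlgebra ℚ B) (MonoidAlgebra ℚ Q) := Module.compHom _ (dcenI B)
  have hsm : ∀ (r : MonoidAlgebra ℚ B) (x : MonoidAlgebra ℚ Q), r • x = dcenI B r * x := fun _ _ => rfl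
  let v : Option (Q ⧸ B) → MonoidAlgebra ℚ Q := fun o =>
    o.elim 1 (fun j => MonoidAlgebra.single j.out (1 : ℚ) * p)
  have hdep : ¬ LinearIndependent (MonoidAlgebra ℚ B) v := by
    intro hli
    have h1 := linearIndependent_le_span v hli
      (Set.range fun j : Q ⧸ B => (MonoidAlgebra.single j.out (1 : ℚ) : MonoidAlgebra ℚ Q)) (by
        rw [eq_top_iff]
        rintro x -
        obtain ⟨b, rfl⟩ := dcenS_surj B x
        unfold dcenS
        refine Submodule.sum_mem _ fun j _ => ?_
        rw [← hsm]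
        exact Submodule.smul_mem _ _ (Submodule.subset_span ⟨j, rfl⟩))
    have h2 : Fintype.card (Set.range fun j : Q ⧸ B =>
        (MonoidAlgebra.single j.out (1 : ℚ) : MonoidAlgebra ℚ Q)) ≤ Fintype.card (Q ⧸ B) :=
      Fintype.card_range_le _
    rw [Cardinal.mk_fintype, Fintype.card_option] at h1
    have h3 : Fintype.card (Q ⧸ B) + 1 ≤ Fintype.card (Set.range fun j : Q ⧸ B =>
        (MonoidAlgebra.single j.out (1 : ℚ) : MonoidAlgebra ℚ Q)) := by
      exact_mod_cast h1
    omega
  rw [Fintype.not_linearIndependent_iff] at hdep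
  obtain ⟨c, hc, i, hi⟩ := hdep
  rw [Fintype.sum_option] at hc
  have hc' : dcenS B (fun j => c (some j)) * p = dcenI B (- c none) := by
    unfold dcenS
    rw [Finset.sum_mul, map_neg, eq_neg_iff_add_eq_zero, add_comm]
    rw [← hc]
    congr 1
    · show dcenI B (c none) = dcenI B (c none) * 1
      rw [mul_one]
    · refine Finset.sum_congr rfl fun j _ => ?_
      show dcenI B (c (some j)) * MonoidAlgebra.single j.out (1 : ℚ) * p =
        dcenI B (c (some j)) * (MonoidAlgebra.single j.out (1 : ℚ) * p)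
      rw [mul_assoc]
  refine ⟨_, - c none, ?_, hc'⟩
  intro h0
  rw [h0, map_zero] at hc'
  have h1 := (mul_eq_zero.1 hc').resolve_right hp
  have h2 := dcenS_eq_zero B _ h1
  cases i with
  | none =>
    apply hi
    exact neg_eq_zero.1 h0
  | some j => exact hi (h2 j)

/-- the invariant multiple -/
private theorem dcen_norm {Q : Type} [Group Q] (B : Subgroup Q) [B.Normal] [B.FiniteIndex]
    (hB : ∀ a ∈ B, ∀ b ∈ B, a * b = b * a) [NoZeroDivisors (MonoidAlgebra ℚ Q)]
    {r : MonoidAlgebra ℚ B} (hr : r ≠ 0) :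
    ∃ (s : MonoidAlgebra ℚ B), s * r ≠ 0 ∧ ∀ h, dcenC B h (s * r) = s * r := by
  classical
  have : Fintype (Q ⧸ B) := Fintype.ofFinite _
  let _ : CommGroup B := { (inferInstance : Group B) with
    mul_comm := fun a b => Subtype.ext (hB a a.2 b b.2) }
  let _ : CommRing (MonoidAlgebra ℚ B) := inferInstance
  have : NoZeroDivisors (MonoidAlgebra ℚ B) :=
    (dcenI_inj B).noZeroDivisors _ (map_zero _) (map_mul _)
  have : Nontrivial (MonoidAlgebra ℚ B) := ⟨r, 0, hr⟩
  have hcos : ∀ g h : Q, (g : Q ⧸ B) = (h : Q ⧸ B) → dcenC B g r = dcenC B h r := by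
    intro g h hgh
    have h1 : g⁻¹ * h ∈ B := QuotientGroup.eq.1 hgh
    have h2 : dcenC B g (dcenC B (g⁻¹ * h) r) = dcenC B h r := by
      rw [dcenC_mul]
      congr 2
      group
    rw [← h2, dcenC_B B hB _ h1]
  have hout : ∀ j : Q ⧸ B, ((j.out : Q) : Q ⧸ B) = j := fun j => QuotientGroup.out_eq' j
  refine ⟨∏ j ∈ Finset.univ.erase (1 : Q ⧸ B), dcenC B j.out r, ?_, ?_⟩
  all_goals
    have hq : (∏ j ∈ Finset.univ.erase (1 : Q ⧸ B), dcenC B j.out r) * r =
        ∏ j : Q ⧸ B, dcenC B j.out r := by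
      have h1 : dcenC B (1 : Q ⧸ B).out r = r := by
        rw [hcos _ 1 (by rw [hout]; rfl), dcenC_one]
      rw [← Finset.prod_erase_mul Finset.univ _ (Finset.mem_univ (1 : Q ⧸ B)), h1]
    rw [hq]
  · rw [Finset.prod_ne_zero_iff]
    intro j _ h0
    apply hr
    apply dcenC_inj B j.out
    rw [h0, map_zero]
  · intro h
    rw [map_prod]
    refine Fintype.prod_equiv (MulAction.toPerm h : Equiv.Perm (Q ⧸ B)) _ _ ?_
    intro j
    rw [dcenC_mul]
    apply hcos
    rw [hout]
    show ((h * j.out : Q) : Q ⧸ B) = h • j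
    conv_rhs => rw [← hout j]
    rfl

theorem central_multiple {Q : Type} [Group Q] (B : Subgroup Q) [B.Normal] [B.FiniteIndex]
    (hB : ∀ a ∈ B, ∀ b ∈ B, a * b = b * a) [NoZeroDivisors (MonoidAlgebra ℚ Q)]
    {p : MonoidAlgebra ℚ Q} (hp : p ≠ 0) :
    ∃ p' q : MonoidAlgebra ℚ Q, q ≠ 0 ∧ IsZ B q ∧ p * p' = q ∧ p' * p = q := by
  obtain ⟨a, r, hr, har⟩ := dcen_rel B hB hp
  obtain ⟨s, hs, hinv⟩ := dcen_norm B hB hr
  have hZ : IsZ B (dcenI B (s * r)) := by
    refine ⟨dcenI_supp B _, ?_⟩
    refine dcen_inv_of_comm fun h => ?_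
    rw [dcenC_I, hinv]
  have hq : dcenI B s * a * p = dcenI B (s * r) := by
    rw [mul_assoc, har, map_mul]
  refine ⟨dcenI B s * a, dcenI B (s * r), ?_, hZ, ?_, hq⟩
  · intro h0
    apply hs
    apply dcenI_inj B
    rw [h0, map_zero]
  · have h1 : (p * (dcenI B s * a) - dcenI B (s * r)) * p = 0 := by
      rw [sub_mul, mul_assoc p, hq, isZ_comm hZ, sub_self]
    exact sub_eq_zero.1 ((mul_eq_zero.1 h1).resolve_right hp)

end Pool.Agent.RFR
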