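import Pool.Agent.RFR.DBas

set_option autoImplicit false

/-! RFR-DQuo (3.1): the group ring of `H ⧸ N i` has no zero divisors.

PLAN.  The map `H ⧸ N i → Lex (Fin i → ℤ)`, class of `u` ↦ `(f k u)_k` is well defined (`f_mul_N`) and injective (`first_diff`: equal values give `w * u⁻¹ ∈ N i`; `N i` is normal).
Pull back the linear order; it is right invariant (`lt_mul_right`), so `UniqueProds` (`TwoUniqueProds.of_covariant_right` / `of_covariant_left` and
`TwoUniqueProds.toUniqueProds`), and Mathlib has `NoZeroDivisors (MonoidAlgebra R A)` for `UniqueProds A`. -/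

namespace Pool.Agent.RFR

variable {H : Type} [Group H] (t : PT H)

/-- the potentials as a map on the quotient -/
private def DQuo_F (i : ℕ) [hn : (t.N i).Normal] : H ⧸ t.N i → Lex (Fin i → ℤ) := fun q =>
  Quotient.liftOn' q (fun u => toLex (fun k : Fin i => t.f k u)) (by
    intro a b hab
    rw [QuotientGroup.leftRel_apply] at hab
    have h : b = a * (a⁻¹ * b) := by group
    have h1 : ∀ k : Fin i, t.f k a = t.f k b := by
      intro k
      rw [h]
      exact (f_mul_N t hn k.2 hab a).symm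
    exact congrArg toLex (funext h1))

private theorem DQuo_F_mk (i : ℕ) [(t.N i).Normal] (u : H) :
    DQuo_F t i (u : H ⧸ t.N i) = toLex (fun k : Fin i => t.f k u) := rfl

private theorem DQuo_inj (i : ℕ) [hn : (t.N i).Normal] : Function.Injective (DQuo_F t i) := by
  intro p q h
  obtain ⟨u, rfl⟩ := QuotientGroup.mk_surjective p
  obtain ⟨w, rfl⟩ := QuotientGroup.mk_surjective q
  have h' : toLex (fun k : Fin i => t.f k u) = toLex (fun k : Fin i => t.f k w) := h
  have h1 : (fun k : Fin i => t.f k u) = (fun k : Fin i => t.f k w) := toLex.injective h'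
  have h2 : w * u⁻¹ ∈ t.N i := first_diff t fun j hj => congrFun h1 ⟨j, hj⟩
  exact QuotientGroup.eq.2 (hn.mem_comm h2)

private theorem DQuo_lt (i : ℕ) [(t.N i).Normal] (u w : H) :
    DQuo_F t i (u : H ⧸ t.N i) < DQuo_F t i (w : H ⧸ t.N i) ↔ t.lt 1 i u w := by
  rw [DQuo_F_mk, DQuo_F_mk]
  constructor
  · rintro ⟨k, hk, h1⟩
    refine ⟨k, k.2, fun j hj => hk ⟨j, hj.trans k.2⟩ hj, ?_⟩
    rw [one_mul, one_mul]
    exact h1
  · rintro ⟨k, hk, h1, h2⟩
    rw [one_mul, one_mul] at h2
    exact ⟨⟨k, hk⟩, fun j hj => h1 j hj, h2⟩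

theorem quo_nzd (i : ℕ) [(t.N i).Normal] : NoZeroDivisors (MonoidAlgebra ℚ (H ⧸ t.N i)) := by
  letI : LinearOrder (H ⧸ t.N i) := LinearOrder.lift' (DQuo_F t i) (DQuo_inj t i)
  haveI : MulRightStrictMono (H ⧸ t.N i) := by
    constructor
    intro c a b hab
    obtain ⟨v, rfl⟩ := QuotientGroup.mk_surjective c
    obtain ⟨u, rfl⟩ := QuotientGroup.mk_surjective a
    obtain ⟨w, rfl⟩ := QuotientGroup.mk_surjective b
    have h1 : DQuo_F t i (u : H ⧸ t.N i) < DQuo_F t i (w : H ⧸ t.N i) := hab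
    have h2 := lt_mul_right t ((DQuo_lt t i u w).1 h1) v
    have h3 : DQuo_F t i ((u * v : H) : H ⧸ t.N i) < DQuo_F t i ((w * v : H) : H ⧸ t.N i) :=
      (DQuo_lt t i (u * v) (w * v)).2 h2
    exact h3
  haveI : TwoUniqueProds (H ⧸ t.N i) := TwoUniqueProds.of_covariant_left
  infer_instance

end Pool.Agent.RFR
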