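import Pool.Agent.RFR.DBarB
import Pool.Agent.RFR.DQuo
import Pool.Agent.RFR.DCen

set_option autoImplicit false

/-! RFR-DCoh (3.4), (3.8): coherent matrices form a ring, inverses are coherent.

PLAN.  Common type, `i` good and large.  `coh_add`: `q = q1 * q2` (nonzero by `quo_nzd`, `IsZ` by `isZ_mul`), `p = q2 * p1 + q1 * p2` (`cvl_mul`, `cvl_add`, `isZ_comm`, `cvl_coeff`).  `coh_mul`: `bar_mul` gives
`cvl q2 (bar (mm X Y)) = cvr (bar X) p2`, then `cvl q1 (cvr (bar X) p2) = cvr (cvl q1 (bar X)) p2 = (p1 * p2)`.  `coh_gm`: `q = 1`.  `coh_inv`: `mm V X = I1`: `bar_mul` with `Y = X`: `cvl q (bar I1) = cvr (bar V) p`,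
`bar I1 s u` is the coefficient function of `1` (`gm_one`, `bar_gm`), so `cvr (bar V s u) p = q`.  `p ≠ 0` (`q ≠ 0`).  `central_multiple` for `t.BB i` (normal, of finite index, commutative: image of `E (i - 1)`, `Good`):
`p * p' = q'`.  `cvr (bar V) q' = cvr (cvr (bar V) p) p' = (q * p')`, and `cvr_eq_cvl`. -/

namespace Pool.Agent.RFR

variable {H : Type} [Group H] {t : PT H}

private theorem dcoh_add_at {X Y : Mx H} {r : ℕ} {L C : ℤ} (hX : Ty t r L C X)
    (hY : Ty t r L C Y) {i : ℕ} (hr : r ≤ i) [(t.N i).Normal] (cX : CohAt t i X)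
    (cY : CohAt t i Y) : CohAt t i (X + Y) := by
  have := quo_nzd t i
  obtain ⟨q1, p1, hq1, z1, h1⟩ := cX
  obtain ⟨q2, p2, hq2, z2, h2⟩ := cY
  refine ⟨q1 * q2, q2 * p1 + q1 * p2, mul_ne_zero hq1 hq2, isZ_mul z1 z2, fun s u g => ?_⟩
  have e : bar t i (X + Y) s u = fun a => bar t i X s u a + bar t i Y s u a :=
    funext fun a => bar_add hX hY hr s u a
  have e1 : cvl (q1 * q2) (bar t i X s u) g = (q2 * p1).coeff g := by
    have f1 : cvl q1 (bar t i X s u) = fun a => p1.coeff a := funext (h1 s u)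
    rw [isZ_comm z2 q1, cvl_mul, f1, cvl_coeff]
  have e2 : cvl (q1 * q2) (bar t i Y s u) g = (q1 * p2).coeff g := by
    have f1 : cvl q2 (bar t i Y s u) = fun a => p2.coeff a := funext (h2 s u)
    rw [cvl_mul, f1, cvl_coeff]
  rw [e, cvl_add, e1, e2, MonoidAlgebra.coeff_add, Finsupp.add_apply]

theorem coh_add {X Y : Mx H} (hX : Tame t X) (hY : Tame t Y) (cX : Coh t X) (cY : Coh t Y) :
    Coh t (X + Y) := by
  obtain ⟨r, hr⟩ := tame_two hX hY
  obtain ⟨L, hL⟩ := hr r le_rfl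
  obtain ⟨C, h1, h2⟩ := hL L le_rfl
  obtain ⟨i1, c1⟩ := cX
  obtain ⟨i2, c2⟩ := cY
  refine ⟨max r (max i1 i2), fun i hi hg => ?_⟩
  have := hg.2.1
  exact dcoh_add_at h1 h2 (le_trans (le_max_left _ _) hi)
    (c1 i (le_trans (le_trans (le_max_left _ _) (le_max_right _ _)) hi) hg)
    (c2 i (le_trans (le_trans (le_max_right _ _) (le_max_right _ _)) hi) hg)

theorem coh_neg {X : Mx H} (cX : Coh t X) : Coh t (-X) := by
  obtain ⟨i1, c1⟩ := cX
  refine ⟨i1, fun i hi hg => ?_⟩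
  have := hg.2.1
  obtain ⟨q, p, hq, z, h⟩ := c1 i hi hg
  refine ⟨q, -p, hq, z, fun s u g => ?_⟩
  have e : bar t i (-X) s u = fun a => - bar t i X s u a := funext fun a => bar_neg X i s u a
  rw [e, cvl_neg, h, MonoidAlgebra.coeff_neg, Finsupp.neg_apply]

private theorem dcoh_mul_at {X Y : Mx H} {r : ℕ} {L C : ℤ} (hX : Ty t r L C X)
    (hY : Ty t r L C Y) {i : ℕ} (hr : r ≤ i) [(t.N i).Normal] (cX : CohAt t i X)
    (cY : CohAt t i Y) : CohAt t i (mm X Y) := by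
  have := quo_nzd t i
  obtain ⟨q1, p1, hq1, z1, h1⟩ := cX
  obtain ⟨q2, p2, hq2, z2, h2⟩ := cY
  refine ⟨q1 * q2, p1 * p2, mul_ne_zero hq1 hq2, isZ_mul z1 z2, fun s u g => ?_⟩
  have e2 : cvl q2 (bar t i (mm X Y) s u) = cvr (bar t i X s u) p2 :=
    funext fun a => bar_mul hX hY hr z2 h2 s u a
  have f1 : cvl q1 (bar t i X s u) = fun a => p1.coeff a := funext (h1 s u)
  rw [cvl_mul, e2, cvl_cvr, f1, cvr_coeff]

theorem coh_mul {X Y : Mx H} (hX : Tame t X) (hY : Tame t Y) (cX : Coh t X) (cY : Coh t Y) :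
    Coh t (mm X Y) := by
  obtain ⟨r, hr⟩ := tame_two hX hY
  obtain ⟨L, hL⟩ := hr r le_rfl
  obtain ⟨C, h1, h2⟩ := hL L le_rfl
  obtain ⟨i1, c1⟩ := cX
  obtain ⟨i2, c2⟩ := cY
  refine ⟨max r (max i1 i2), fun i hi hg => ?_⟩
  have := hg.2.1
  exact dcoh_mul_at h1 h2 (le_trans (le_max_left _ _) hi)
    (c1 i (le_trans (le_trans (le_max_left _ _) (le_max_right _ _)) hi) hg)
    (c2 i (le_trans (le_trans (le_max_right _ _) (le_max_right _ _)) hi) hg)

theorem coh_gm (a : MonoidAlgebra ℚ H) : Coh t (gm a) := by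
  refine ⟨0, fun i hi hg => ?_⟩
  have := hg.2.1
  refine ⟨1, MonoidAlgebra.mapDomain (QuotientGroup.mk' (t.N i)) a, one_ne_zero, isZ_one _,
    fun s u g => ?_⟩
  have e : bar t i (gm a) s u = fun g =>
      (MonoidAlgebra.mapDomain (QuotientGroup.mk' (t.N i)) a).coeff g :=
    funext fun g => bar_gm a i s u g
  rw [e, cvl_coeff, one_mul]

private theorem dcoh_inv_at {X V : Mx H} {r : ℕ} {L C : ℤ} (hX : Ty t r L C X)
    (hV : Ty t r L C V) {i : ℕ} (hr : r ≤ i) [(t.N i).Normal] (hg : t.Good i)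
    (cX : CohAt t i X) (h : mm V X = I1) : CohAt t i V := by
  have := quo_nzd t i
  obtain ⟨q, p, hq, z, h1⟩ := cX
  have e1 : ∀ s u, cvr (bar t i V s u) p = fun g => q.coeff g := by
    intro s u
    funext g
    rw [← bar_mul hV hX hr z h1 s u g, h, ← gm_one]
    have e : bar t i (gm (1 : MonoidAlgebra ℚ H)) s u = fun g =>
        (MonoidAlgebra.mapDomain (QuotientGroup.mk' (t.N i)) (1 : MonoidAlgebra ℚ H)).coeff g :=
      funext fun g => bar_gm 1 i s u g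
    rw [e, cvl_coeff, MonoidAlgebra.mapDomain_one, mul_one]
  have hp : p ≠ 0 := by
    rintro rfl
    apply hq
    ext g
    have h2 := congrFun (e1 1 1) g
    rw [← h2]
    simp [cvr]
  have hE : (t.E (i - 1)).Normal := t.nrm (i - 1)
  have hF : (t.E (i - 1)).FiniteIndex := t.fin (i - 1)
  have hsurj : Function.Surjective (QuotientGroup.mk' (t.N i)) := QuotientGroup.mk'_surjective _
  have hB1 : (t.BB i).Normal := hE.map _ hsurj
  have hB2 : (t.BB i).FiniteIndex := by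
    refine ⟨fun h0 => hF.index_ne_zero ?_⟩
    have h3 : (t.BB i).index ∣ (t.E (i - 1)).index := Subgroup.index_map_dvd _ hsurj
    rw [h0] at h3
    exact Nat.eq_zero_of_zero_dvd h3
  have hcom : ∀ a ∈ t.BB i, ∀ b ∈ t.BB i, a * b = b * a := by
    rintro a ⟨x, hx, rfl⟩ b ⟨y, hy, rfl⟩
    have h4 := hg.2.2 x hx y hy
    have h5 : (QuotientGroup.mk' (t.N i)) (x * y * x⁻¹ * y⁻¹) = 1 :=
      (QuotientGroup.eq_one_iff _).2 h4
    rw [map_mul, map_mul, map_mul, map_inv, map_inv, mul_inv_eq_one, mul_inv_eq_iff_eq_mul] at h5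
    exact h5
  obtain ⟨p', q', hq', z', h2, h3⟩ := central_multiple (t.BB i) hcom hp
  refine ⟨q', q * p', hq', z', fun s u g => ?_⟩
  rw [← cvr_eq_cvl z', ← h2, cvr_mul, e1, cvr_coeff]

theorem coh_inv {X V : Mx H} (hX : Tame t X) (hV : Tame t V) (cX : Coh t X) (h : mm V X = I1) :
    Coh t V := by
  obtain ⟨r, hr⟩ := tame_two hX hV
  obtain ⟨L, hL⟩ := hr r le_rfl
  obtain ⟨C, h1, h2⟩ := hL L le_rfl
  obtain ⟨i1, c1⟩ := cX
  refine ⟨max r i1, fun i hi hg => ?_⟩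
  have := hg.2.1
  exact dcoh_inv_at h1 h2 (le_trans (le_max_left _ _) hi) hg
    (c1 i (le_trans (le_max_right _ _) hi) hg) h

end Pool.Agent.RFR
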