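import Mathlib

set_option autoImplicit false

/-! Project RFR (MP_8a0829_al, Theorem R; paper proof /team-store/rfr_proof.md), part D (sections 1-3):
towers, potentials, tame matrices, coherence: definitions. -/

namespace Pool.Agent.RFR

/-- towers of subgroups of finite index with homomorphisms `φ k : E k → ℤ`, potentials `f k` and a
length function `ell` -/
structure PT (H : Type) [Group H] where
  E : ℕ → Subgroup H
  nrm : ∀ k, (E k).Normal
  fin : ∀ k, (E k).FiniteIndex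
  zero : E 0 = ⊤
  anti : ∀ k, E (k + 1) ≤ E k
  φ : ℕ → H → ℤ
  hom : ∀ k, ∀ g ∈ E k, ∀ h ∈ E k, φ k (g * h) = φ k g + φ k h
  f : ℕ → H → ℤ
  f_mul : ∀ k, ∀ e ∈ E k, ∀ u, f k (e * u) = φ k e + f k u
  ell : H → ℕ
  ell_one : ell 1 = 0
  ell_mul : ∀ g h, ell (g * h) ≤ ell g + ell h
  ell_fin : ∀ n, {g | ell g ≤ n}.Finite
  lip : ∀ k, ∃ A : ℕ, ∀ u g, |f k (u * g) - f k u| ≤ A * ell g
  ne : ∀ k g, (∀ j < k, g ∈ E j ∧ φ j g = 0) → g ∈ E k
  sep : ∀ g, (∀ j, g ∈ E j ∧ φ j g = 0) → g = 1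

variable {H : Type} [Group H]

theorem PT.E_le (t : PT H) {j k : ℕ} (h : j ≤ k) : t.E k ≤ t.E j :=
  antitone_nat_of_succ_le t.anti h

theorem PT.phi_one (t : PT H) (k : ℕ) : t.φ k 1 = 0 := by
  have h := t.hom k 1 (one_mem _) 1 (one_mem _)
  rw [mul_one] at h
  omega

theorem PT.phi_inv (t : PT H) (k : ℕ) {g : H} (hg : g ∈ t.E k) : t.φ k g⁻¹ = - t.φ k g := by
  have h := t.hom k g hg g⁻¹ (inv_mem hg)
  rw [mul_inv_cancel, t.phi_one] at h
  omega

/-- `N k = {g | g ∈ E j, φ j g = 0 for all j < k}` -/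
def PT.N (t : PT H) (k : ℕ) : Subgroup H where
  carrier := {g | ∀ j < k, g ∈ t.E j ∧ t.φ j g = 0}
  mul_mem' := by
    intro a b ha hb j hj
    refine ⟨mul_mem (ha j hj).1 (hb j hj).1, ?_⟩
    rw [t.hom j a (ha j hj).1 b (hb j hj).1, (ha j hj).2, (hb j hj).2, add_zero]
  one_mem' := fun j _ => ⟨one_mem _, t.phi_one j⟩
  inv_mem' := by
    intro a ha j hj
    refine ⟨inv_mem (ha j hj).1, ?_⟩
    rw [t.phi_inv j (ha j hj).1, (ha j hj).2, neg_zero]

theorem PT.mem_N (t : PT H) {k : ℕ} {g : H} : g ∈ t.N k ↔ ∀ j < k, g ∈ t.E j ∧ t.φ j g = 0 :=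
  Iff.rfl

/-- good levels -/
def PT.Good (t : PT H) (i : ℕ) : Prop :=
  1 ≤ i ∧ (t.N i).Normal ∧ ∀ a ∈ t.E (i - 1), ∀ b ∈ t.E (i - 1), a * b * a⁻¹ * b⁻¹ ∈ t.N i

/-- infinitely many good levels -/
def PT.IsT (t : PT H) : Prop := ∀ k, ∃ i, k ≤ i ∧ t.Good i

/-- the potentials `F k` (for the weight `L`): `F 0 = f 0`, `F (k + 1) = L * F k + f (k + 1)` -/
def PT.F (t : PT H) (L : ℤ) : ℕ → H → ℤ
  | 0 => t.f 0
  | k + 1 => fun u => L * PT.F t L k u + t.f (k + 1) u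

/-- the sum of the potentials `F k`, `k < r` -/
def PT.TT (t : PT H) (L : ℤ) (r : ℕ) (u : H) : ℤ := ∑ k ∈ Finset.range r, t.F L k u

/-- the lexicographic order (with a sign) given by `f k`, `k < r` -/
def PT.lt (t : PT H) (s : ℤ) (r : ℕ) (u w : H) : Prop :=
  ∃ k < r, (∀ j < k, t.f j u = t.f j w) ∧ s * t.f k u < s * t.f k w

/-- matrices with two sheets and rows and columns indexed by `H` -/
abbrev Mx (H : Type) : Type := ℤˣ → H → H → ℚ

/-- the matrix product -/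
noncomputable def mm (X Y : Mx H) : Mx H := fun s u w => ∑ᶠ v : H, X s u v * Y s v w

open scoped Classical in
/-- the unit matrix -/
noncomputable def I1 : Mx H := fun _ u w => if u = w then 1 else 0

/-- the matrix of an element of the group ring -/
noncomputable def gm (a : MonoidAlgebra ℚ H) : Mx H := fun _ u w => a.coeff (u⁻¹ * w)

/-- tame matrices of type `(r, L, C)` -/
structure Ty (t : PT H) (r : ℕ) (L C : ℤ) (X : Mx H) : Prop where
  L1 : 1 ≤ L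
  C0 : 0 ≤ C
  inv : ∀ s, ∀ e ∈ t.E r, ∀ u w, X s (e * u) (e * w) = X s u w
  low : ∀ s u w, X s u w ≠ 0 → ∀ k < r, -C ≤ (s : ℤ) * (t.F L k w - t.F L k u)
  len : ∀ s u w, X s u w ≠ 0 → (t.ell (u⁻¹ * w) : ℤ) ≤
    C * (1 + ∑ k ∈ Finset.range r, ((s : ℤ) * (t.F L k w - t.F L k u) + C))

/-- tame matrices -/
def Tame (t : PT H) (X : Mx H) : Prop := ∃ r L C, Ty t r L C X

/-- the row `(s, u)` of `X`, pushed to the quotient `H ⧸ N i` (position `u⁻¹ * w`) -/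
noncomputable def bar (t : PT H) (i : ℕ) (X : Mx H) (s : ℤˣ) (u : H) (g : H ⧸ t.N i) : ℚ :=
  ∑ᶠ (w : H) (_ : ((u⁻¹ * w : H) : H ⧸ t.N i) = g), X s u w

/-- left convolution with an element of a group ring -/
noncomputable def cvl {Q : Type} [Group Q] (q : MonoidAlgebra ℚ Q) (x : Q → ℚ) (g : Q) : ℚ :=
  q.coeff.sum fun e a => a * x (e⁻¹ * g)

/-- right convolution with an element of a group ring -/
noncomputable def cvr {Q : Type} [Group Q] (x : Q → ℚ) (p : MonoidAlgebra ℚ Q) (g : Q) : ℚ :=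
  p.coeff.sum fun e a => x (g * e⁻¹) * a

/-- elements of the group ring of `Q` with support in `B`, invariant under conjugation -/
def IsZ {Q : Type} [Group Q] (B : Subgroup Q) (q : MonoidAlgebra ℚ Q) : Prop :=
  (∀ g, q.coeff g ≠ 0 → g ∈ B) ∧ ∀ h g, q.coeff (h * g * h⁻¹) = q.coeff g

/-- the image of `E (i - 1)` in `H ⧸ N i` -/
def PT.BB (t : PT H) (i : ℕ) [(t.N i).Normal] : Subgroup (H ⧸ t.N i) :=
  (t.E (i - 1)).map (QuotientGroup.mk' (t.N i))

/-- coherence at the level `i` -/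
def CohAt (t : PT H) (i : ℕ) [(t.N i).Normal] (X : Mx H) : Prop :=
  ∃ q p : MonoidAlgebra ℚ (H ⧸ t.N i), q ≠ 0 ∧ IsZ (t.BB i) q ∧
    ∀ s u g, cvl q (bar t i X s u) g = p.coeff g

/-- coherent matrices -/
def Coh (t : PT H) (X : Mx H) : Prop :=
  ∃ i0, ∀ i, i0 ≤ i → ∀ hi : t.Good i, haveI := hi.2.1; CohAt t i X

/-- `w` is the leading column of the row `(s, u)` -/
def Ld (t : PT H) (r : ℕ) (X : Mx H) (s : ℤˣ) (u w : H) : Prop :=
  X s u w ≠ 0 ∧ ∀ w', X s u w' ≠ 0 → w' ≠ w → t.lt s r w w'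

end Pool.Agent.RFR
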