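import Pool.Agent.RFR.DInv
import Pool.Agent.RFR.DCoh

set_option autoImplicit false

/-! RFR-DDiv: the division ring of coherent tame matrices. -/

namespace Pool.Agent.RFR

variable {H : Type} [Group H]

/-- coherent tame matrices -/
def DD (t : PT H) : Type := {X : Mx H // Tame t X ∧ Coh t X}

variable {t : PT H}

theorem I1_mem (t : PT H) : Tame t (I1 : Mx H) ∧ Coh t (I1 : Mx H) := by
  rw [← gm_one]
  exact ⟨gm_tame t 1, coh_gm 1⟩

theorem zero_mem' (t : PT H) : Tame t (0 : Mx H) ∧ Coh t (0 : Mx H) := by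
  have h : (0 : Mx H) = gm 0 := by
    funext s u w
    rfl
  rw [h]
  exact ⟨gm_tame t 0, coh_gm 0⟩

noncomputable instance instAddDD : Add (DD t) :=
  ⟨fun X Y => ⟨X.1 + Y.1, tame_add X.2.1 Y.2.1, coh_add X.2.1 Y.2.1 X.2.2 Y.2.2⟩⟩

noncomputable instance instZeroDD : Zero (DD t) := ⟨⟨0, zero_mem' t⟩⟩

noncomputable instance instNegDD : Neg (DD t) := ⟨fun X => ⟨-X.1, tame_neg X.2.1, coh_neg X.2.2⟩⟩

noncomputable instance instMulDD : Mul (DD t) :=
  ⟨fun X Y => ⟨mm X.1 Y.1, tame_mul X.2.1 Y.2.1, coh_mul X.2.1 Y.2.1 X.2.2 Y.2.2⟩⟩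

noncomputable instance instOneDD : One (DD t) := ⟨⟨I1, I1_mem t⟩⟩

noncomputable instance instRingDD : Ring (DD t) where
  add_assoc X Y Z := Subtype.ext (add_assoc X.1 Y.1 Z.1)
  zero_add X := Subtype.ext (zero_add X.1)
  add_zero X := Subtype.ext (add_zero X.1)
  add_comm X Y := Subtype.ext (add_comm X.1 Y.1)
  neg_add_cancel X := Subtype.ext (neg_add_cancel X.1)
  mul_assoc X Y Z := Subtype.ext (mm_assoc X.2.1 Y.2.1 Z.2.1)
  one_mul X := Subtype.ext (one_mm X.1)
  mul_one X := Subtype.ext (mm_one X.1)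
  left_distrib X Y Z := Subtype.ext (mm_add X.2.1 Y.2.1 Z.2.1)
  right_distrib X Y Z := Subtype.ext (add_mm X.2.1 Y.2.1 Z.2.1)
  zero_mul X := Subtype.ext (zero_mm X.1)
  mul_zero X := Subtype.ext (mm_zero X.1)
  nsmul := nsmulRec
  zsmul := zsmulRec

theorem DD_inv (ht : t.IsT) (X : DD t) (h : X ≠ 0) : ∃ V : DD t, X * V = 1 ∧ V * X = 1 := by
  have hne : X.1 ≠ 0 := fun h0 => h (Subtype.ext h0)
  obtain ⟨V, hV, h1, h2⟩ := exists_inv ht X.2.1 X.2.2 hne
  exact ⟨⟨V, hV, coh_inv X.2.1 hV X.2.2 h2⟩, Subtype.ext h1, Subtype.ext h2⟩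

theorem exists_D (t : PT H) (ht : t.IsT) :
    ∃ (D : Type) (_ : DivisionRing D) (ev : D → Mx H) (j : MonoidAlgebra ℚ H →+* D),
      Function.Injective ev ∧ Function.Injective j ∧ (∀ a b, ev (a + b) = ev a + ev b) ∧
      (∀ a b, ev (a * b) = mm (ev a) (ev b)) ∧ (∀ a, ev (j a) = gm a) ∧ ∀ d, Tame t (ev d) := by
  classical
  have hz : (1 : DD t) ≠ 0 := by
    intro h
    have h1 : (I1 : Mx H) = 0 := congrArg Subtype.val h
    have h2 : (I1 : Mx H) 1 1 1 = 0 := by rw [h1]; rfl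
    unfold I1 at h2
    rw [if_pos rfl] at h2
    exact one_ne_zero h2
  let inv : DD t → DD t := fun X => if h : X = 0 then 0 else (DD_inv ht X h).choose
  have hinv : ∀ X : DD t, X ≠ 0 → X * inv X = 1 := by
    intro X hX
    change X * (if h : X = 0 then 0 else (DD_inv ht X h).choose) = 1
    rw [dif_neg hX]
    exact (DD_inv ht X hX).choose_spec.1
  have hinv0 : inv 0 = 0 := dif_pos rfl
  let dr : DivisionRing (DD t) :=
    { instRingDD (t := t) with
      inv := inv
      exists_pair_ne := ⟨1, 0, hz⟩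
      mul_inv_cancel := hinv
      inv_zero := hinv0
      nnqsmul := _
      nnqsmul_def := fun _ _ => rfl
      qsmul := _
      qsmul_def := fun _ _ => rfl }
  refine ⟨DD t, dr, Subtype.val, ?_, Subtype.val_injective, ?_, ?_, ?_, ?_, ?_⟩
  · exact
      { toFun := fun a => ⟨gm a, gm_tame t a, coh_gm a⟩
        map_one' := Subtype.ext gm_one
        map_mul' := fun a b => Subtype.ext (gm_mul a b)
        map_zero' := Subtype.ext rfl
        map_add' := fun a b => Subtype.ext (gm_add a b) }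
  · intro a b hab
    exact gm_inj (congrArg Subtype.val hab)
  · intro a b
    rfl
  · intro a b
    rfl
  · intro a
    rfl
  · intro d
    exact d.2.1

end Pool.Agent.RFR
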