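import Pool.Agent.RFR.DMonB

set_option autoImplicit false

/-! RFR-DGeoA (2.3): for large `L` lexicographically positive entries have non-negative increments.

PLAN.  `L' = L + C + 1`.  `ty_L` gives the type for `L'`.  For a nonzero entry let `k0 < r` be the first difference, `D_j = s (F L j w - F L j u)`: `D_j = 0` for `j < k0`, `D_k0 ≥ 1`
(`F_first`), `D_j ≥ - C` for `k0 < j < r`.  `F_change`: `D'_k = D_k` for `k ≤ k0`; for `k > k0`: `D'_k = D_k + (L' - L) * (L' ^ (k-1-k0) * D_k0 + ∑_{k0 < j < k} L' ^ (k-1-j) * D_j)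
≥ - C + (L' - L) * 1 ≥ 0`, because `L' ^ m - C * (1 + L' + ... + L' ^ (m-1)) ≥ 1` when `L' ≥ C + 1`, `m = k-1-k0` (induction on `m`: `L' ^ (m+1) - C * ∑_{i ≤ m} L' ^ i =
L' * (L' ^ m - C * ∑_{i<m} L' ^ i) - C ≥ ...`; or `C * ∑_{i<m} L' ^ i ≤ (L' - 1) * ∑ = L' ^ m - 1`).  The sum of all `D'_k` is at least `D'_k0 ≥ 1`. -/

namespace Pool.Agent.RFR

variable {H : Type} [Group H] {t : PT H}

private theorem dgeoa_rec (M : ℤ) (D : ℕ → ℤ) (k : ℕ) :
    ∑ j ∈ Finset.range (k + 1), M ^ (k + 1 - 1 - j) * D j =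
      M * ∑ j ∈ Finset.range k, M ^ (k - 1 - j) * D j + D k := by
  rw [Finset.sum_range_succ, Finset.mul_sum]
  congr 1
  · refine Finset.sum_congr rfl fun j hj => ?_
    have hj' := Finset.mem_range.1 hj
    have e : k + 1 - 1 - j = (k - 1 - j) + 1 := by omega
    rw [e, pow_succ]
    ring
  · have e : k + 1 - 1 - k = 0 := by omega
    rw [e, pow_zero, one_mul]

private theorem dgeoa_S {M C : ℤ} (hM : C + 1 ≤ M) (hC : 0 ≤ C) {D : ℕ → ℤ} {k0 r : ℕ}
    (h0 : ∀ j < k0, D j = 0) (h1 : 1 ≤ D k0) (h2 : ∀ j < r, -C ≤ D j) :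
    (∀ k ≤ k0, ∑ j ∈ Finset.range k, M ^ (k - 1 - j) * D j = 0) ∧
      ∀ k, k0 < k → k ≤ r → 1 ≤ ∑ j ∈ Finset.range k, M ^ (k - 1 - j) * D j := by
  have hz : ∀ k ≤ k0, ∑ j ∈ Finset.range k, M ^ (k - 1 - j) * D j = 0 := by
    intro k hk
    refine Finset.sum_eq_zero fun j hj => ?_
    have hj' := Finset.mem_range.1 hj
    rw [h0 j (by omega), mul_zero]
  refine ⟨hz, fun k hk => ?_⟩
  induction k, hk using Nat.le_induction with
  | base =>
    intro _
    rw [dgeoa_rec, hz k0 le_rfl, mul_zero, zero_add]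
    exact h1
  | succ k hk ih =>
    intro hr
    have h3 := ih (by omega)
    have h4 := h2 k (by omega)
    rw [dgeoa_rec]
    nlinarith

theorem pos_incr {r : ℕ} {L C : ℤ} {Y : Mx H} (hY : Ty t r L C Y)
    (hpos : ∀ s u w, Y s u w ≠ 0 → t.lt s r u w) :
    ∃ L' C', Ty t r L' C' Y ∧ ∀ s u w, Y s u w ≠ 0 →
      (∀ k < r, 0 ≤ (s : ℤ) * (t.F L' k w - t.F L' k u)) ∧
      1 ≤ (s : ℤ) * (t.TT L' r w - t.TT L' r u) := by
  have hL1 := hY.L1
  have hC0 := hY.C0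
  obtain ⟨C', -, hT, -⟩ := ty_L hY (L' := L + C + 1) (by omega)
  refine ⟨L + C + 1, C', hT, fun s u w hne => ?_⟩
  obtain ⟨k0, hk0, h1, h2⟩ := hpos s u w hne
  obtain ⟨h3, h4⟩ := F_first t L h1
  set D : ℕ → ℤ := fun j => (s : ℤ) * (t.F L j w - t.F L j u) with hD
  have d0 : ∀ j < k0, D j = 0 := fun j hj => by
    show (s : ℤ) * (t.F L j w - t.F L j u) = 0
    rw [h3 j hj, sub_self, mul_zero]
  have d1 : 1 ≤ D k0 := by
    show 1 ≤ (s : ℤ) * (t.F L k0 w - t.F L k0 u)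
    rw [h4, mul_sub]
    omega
  have d2 : ∀ j < r, -C ≤ D j := fun j hj => hY.low s u w hne j hj
  obtain ⟨hz, hp⟩ := dgeoa_S (M := L + C + 1) (C := C) (by omega) hC0 d0 d1 d2
  have hch : ∀ k, (s : ℤ) * (t.F (L + C + 1) k w - t.F (L + C + 1) k u) =
      D k + (C + 1) * ∑ j ∈ Finset.range k, (L + C + 1) ^ (k - 1 - j) * D j := by
    intro k
    have e1 : ∑ j ∈ Finset.range k, (L + C + 1) ^ (k - 1 - j) * D j =
        (s : ℤ) * ∑ j ∈ Finset.range k, (L + C + 1) ^ (k - 1 - j) * t.F L j w -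
        (s : ℤ) * ∑ j ∈ Finset.range k, (L + C + 1) ^ (k - 1 - j) * t.F L j u := by
      rw [Finset.mul_sum, Finset.mul_sum, ← Finset.sum_sub_distrib]
      refine Finset.sum_congr rfl fun j _ => ?_
      show (L + C + 1) ^ (k - 1 - j) * ((s : ℤ) * (t.F L j w - t.F L j u)) = _
      ring
    rw [e1, F_change t L (L + C + 1) k w, F_change t L (L + C + 1) k u]
    show _ = (s : ℤ) * (t.F L k w - t.F L k u) + _
    ring
  have hk : ∀ k < r, 0 ≤ (s : ℤ) * (t.F (L + C + 1) k w - t.F (L + C + 1) k u) := by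
    intro k hkr
    rw [hch]
    rcases Nat.lt_or_ge k0 k with h5 | h5
    · have h6 := hp k h5 hkr.le
      have h7 := d2 k hkr
      nlinarith
    · rw [hz k h5, mul_zero, add_zero]
      rcases Nat.lt_or_ge k k0 with h6 | h6
      · rw [d0 k h6]
      · have h7 : k = k0 := le_antisymm h5 h6
        rw [h7]
        omega
  refine ⟨hk, ?_⟩
  have e2 : (s : ℤ) * (t.TT (L + C + 1) r w - t.TT (L + C + 1) r u) =
      ∑ k ∈ Finset.range r, (s : ℤ) * (t.F (L + C + 1) k w - t.F (L + C + 1) k u) := by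
    rw [← Finset.mul_sum, Finset.sum_sub_distrib]
    rfl
  have h5 : (s : ℤ) * (t.F (L + C + 1) k0 w - t.F (L + C + 1) k0 u) = D k0 := by
    rw [hch, hz k0 le_rfl, mul_zero, add_zero]
  rw [e2]
  refine le_trans ?_ (Finset.single_le_sum (f := fun k =>
    (s : ℤ) * (t.F (L + C + 1) k w - t.F (L + C + 1) k u))
    (fun k hkr => hk k (Finset.mem_range.1 hkr)) (Finset.mem_range.2 hk0))
  show 1 ≤ (s : ℤ) * (t.F (L + C + 1) k0 w - t.F (L + C + 1) k0 u)
  rw [h5]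
  exact d1

end Pool.Agent.RFR
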