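import Pool.Agent.RFR.DRng
import Pool.Agent.RFR.DGeoA

set_option autoImplicit false

/-! RFR-DGeoB (2.3): the geometric series `Z = ∑ Y ^ n` of a tame matrix `Y` with lexicographically
positive entries is tame and is inverse to `I1 - Y`. -/

namespace Pool.Agent.RFR

variable {H : Type} [Group H] {t : PT H}

/-- the powers of `Y` -/
private noncomputable def DGeoB_P (Y : Mx H) : ℕ → Mx H
  | 0 => I1
  | n + 1 => mm Y (DGeoB_P Y n)

private theorem DGeoB_TT (L : ℤ) (r : ℕ) (s : ℤˣ) (u w : H) :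
    (s : ℤ) * (t.TT L r w - t.TT L r u)
      = ∑ k ∈ Finset.range r, (s : ℤ) * (t.F L k w - t.F L k u) := by
  unfold PT.TT
  rw [← Finset.sum_sub_distrib, Finset.mul_sum]

omit [Group H] in
private theorem DGeoB_mm_ne {X Y : Mx H} {s : ℤˣ} {u w : H} (h : mm X Y s u w ≠ 0) :
    ∃ v, X s u v ≠ 0 ∧ Y s v w ≠ 0 := by
  by_contra hcon
  push Not at hcon
  apply h
  unfold mm
  have h0 : ∀ v : H, X s u v * Y s v w = 0 := by
    intro v
    by_cases hx : X s u v = 0
    · rw [hx, zero_mul]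
    · rw [hcon v hx, mul_zero]
  simp only [h0]
  exact finsum_zero

private theorem DGeoB_key {r : ℕ} {L C : ℤ} {Y : Mx H} (hY : Ty t r L C Y)
    (hp : ∀ s u w, Y s u w ≠ 0 →
      (∀ k < r, 0 ≤ (s : ℤ) * (t.F L k w - t.F L k u)) ∧
      1 ≤ (s : ℤ) * (t.TT L r w - t.TT L r u)) (n : ℕ) :
    ∀ s u w, DGeoB_P Y n s u w ≠ 0 →
      (∀ k < r, 0 ≤ (s : ℤ) * (t.F L k w - t.F L k u)) ∧
      (n : ℤ) ≤ (s : ℤ) * (t.TT L r w - t.TT L r u) ∧
      (t.ell (u⁻¹ * w) : ℤ) ≤
        C * (n * (1 + r * C) + (s : ℤ) * (t.TT L r w - t.TT L r u)) := by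
  induction n with
  | zero =>
    intro s u w h
    have huw : u = w := by
      by_contra hne
      apply h
      simp [DGeoB_P, I1, hne]
    subst huw
    simp [t.ell_one]
  | succ n ih =>
    intro s u w h
    obtain ⟨v, hv1, hv2⟩ := DGeoB_mm_ne (X := Y) (Y := DGeoB_P Y n) h
    obtain ⟨a1, a2⟩ := hp s u v hv1
    obtain ⟨b1, b2, b3⟩ := ih s v w hv2
    have a3 := hY.len s u v hv1
    refine ⟨?_, ?_, ?_⟩
    · intro k hk
      have h1 := a1 k hk
      have h2 := b1 k hk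
      have h3 : (s : ℤ) * (t.F L k w - t.F L k u) = (s : ℤ) * (t.F L k v - t.F L k u)
        + (s : ℤ) * (t.F L k w - t.F L k v) := by ring
      rw [h3]
      exact add_nonneg h1 h2
    · have h3 : (s : ℤ) * (t.TT L r w - t.TT L r u) = (s : ℤ) * (t.TT L r v - t.TT L r u)
        + (s : ℤ) * (t.TT L r w - t.TT L r v) := by ring
      rw [h3]
      push_cast
      linarith
    · have h3 : u⁻¹ * w = (u⁻¹ * v) * (v⁻¹ * w) := by group
      have h4 : (t.ell (u⁻¹ * w) : ℤ) ≤ t.ell (u⁻¹ * v) + t.ell (v⁻¹ * w) := by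
        rw [h3]
        exact_mod_cast t.ell_mul _ _
      have h5 : ∑ k ∈ Finset.range r, ((s : ℤ) * (t.F L k v - t.F L k u) + C)
          = (s : ℤ) * (t.TT L r v - t.TT L r u) + r * C := by
        rw [Finset.sum_add_distrib, ← DGeoB_TT]
        simp
      rw [h5] at a3
      push_cast
      linear_combination h4 + a3 + b3

private theorem DGeoB_inv {r : ℕ} {L C : ℤ} {Y : Mx H} (hY : Ty t r L C Y) (n : ℕ) :
    ∀ s, ∀ e ∈ t.E r, ∀ u w, DGeoB_P Y n s (e * u) (e * w) = DGeoB_P Y n s u w := by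
  induction n with
  | zero =>
    intro s e _ u w
    simp only [DGeoB_P, I1]
    by_cases h : u = w
    · rw [if_pos h, if_pos (by rw [h])]
    · rw [if_neg h, if_neg fun h' => h (mul_left_cancel h')]
  | succ n ih =>
    intro s e he u w
    show mm Y (DGeoB_P Y n) s (e * u) (e * w) = mm Y (DGeoB_P Y n) s u w
    unfold mm
    rw [← finsum_comp_equiv (Equiv.mulLeft e)]
    refine finsum_congr fun v => ?_
    rw [Equiv.coe_mulLeft, hY.inv s e he, ih s e he]

private theorem DGeoB_cc {r : ℕ} {C T n l : ℤ} (hC : 0 ≤ C) (hn : n ≤ T)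
    (h : l ≤ C * (n * (1 + r * C) + T)) :
    l ≤ C * (2 + r * C) * (1 + (T + r * (C * (2 + r * C)))) := by
  have hr0 : (0 : ℤ) ≤ r := Int.natCast_nonneg r
  have h1 : (0 : ℤ) ≤ 1 + r * C := by positivity
  have h2 : n * (1 + r * C) ≤ T * (1 + r * C) := mul_le_mul_of_nonneg_right hn h1
  have h3 : C * (n * (1 + r * C) + T) ≤ C * (T * (1 + r * C) + T) :=
    mul_le_mul_of_nonneg_left (by linarith) hC
  have h4 : C * (T * (1 + r * C) + T) = C * (2 + r * C) * T := by ring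
  have h5 : (0 : ℤ) ≤ C * (2 + r * C) := by positivity
  have h6 : C * (2 + r * C) * T ≤ C * (2 + r * C) * (1 + (T + r * (C * (2 + r * C)))) := by
    apply mul_le_mul_of_nonneg_left _ h5
    have : (0 : ℤ) ≤ r * (C * (2 + r * C)) := by positivity
    linarith
  linarith

/-- a matrix all of whose entries are dominated by the powers of `Y` is of a fixed type -/
private theorem DGeoB_ty {r : ℕ} {L C : ℤ} {Y : Mx H} (hY : Ty t r L C Y)
    (hp : ∀ s u w, Y s u w ≠ 0 →
      (∀ k < r, 0 ≤ (s : ℤ) * (t.F L k w - t.F L k u)) ∧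
      1 ≤ (s : ℤ) * (t.TT L r w - t.TT L r u)) {Z : Mx H}
    (hinv : ∀ s, ∀ e ∈ t.E r, ∀ u w, Z s (e * u) (e * w) = Z s u w)
    (hne : ∀ s u w, Z s u w ≠ 0 → ∃ n, DGeoB_P Y n s u w ≠ 0) :
    Ty t r L (C * (2 + r * C)) Z := by
  have hr0 : (0 : ℤ) ≤ r := Int.natCast_nonneg r
  have hC := hY.C0
  have h5 : (0 : ℤ) ≤ C * (2 + r * C) := by positivity
  refine ⟨hY.L1, h5, hinv, ?_, ?_⟩
  · intro s u w h k hk
    obtain ⟨n, hn⟩ := hne s u w h
    have h1 := (DGeoB_key hY hp n s u w hn).1 k hk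
    linarith
  · intro s u w h
    obtain ⟨n, hn⟩ := hne s u w h
    obtain ⟨h1, h2, h3⟩ := DGeoB_key hY hp n s u w hn
    have h6 : ∑ k ∈ Finset.range r, ((s : ℤ) * (t.F L k w - t.F L k u) + C * (2 + r * C))
        = (s : ℤ) * (t.TT L r w - t.TT L r u) + r * (C * (2 + r * C)) := by
      rw [Finset.sum_add_distrib, ← DGeoB_TT]
      simp
    rw [h6]
    exact DGeoB_cc hC h2 h3

/-- the geometric series -/
private noncomputable def DGeoB_Z (t : PT H) (L : ℤ) (r : ℕ) (Y : Mx H) : Mx H :=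
  fun s u w => ∑ n ∈ Finset.range (((s : ℤ) * (t.TT L r w - t.TT L r u)).toNat + 1),
    DGeoB_P Y n s u w

private theorem DGeoB_Z_eq {r : ℕ} {L C : ℤ} {Y : Mx H} (hY : Ty t r L C Y)
    (hp : ∀ s u w, Y s u w ≠ 0 →
      (∀ k < r, 0 ≤ (s : ℤ) * (t.F L k w - t.F L k u)) ∧
      1 ≤ (s : ℤ) * (t.TT L r w - t.TT L r u)) (s : ℤˣ) (u w : H) {M : ℕ}
    (hM : (s : ℤ) * (t.TT L r w - t.TT L r u) < M) (hM1 : 1 ≤ M) :
    DGeoB_Z t L r Y s u w = ∑ n ∈ Finset.range M, DGeoB_P Y n s u w := by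
  unfold DGeoB_Z
  apply Finset.sum_subset
  · intro x hx
    rw [Finset.mem_range] at hx ⊢
    omega
  · intro n _ hn
    rw [Finset.mem_range, not_lt] at hn
    by_contra hne
    have h2 := (DGeoB_key hY hp n s u w hne).2.1
    omega

theorem geo {r : ℕ} {L C : ℤ} {Y : Mx H} (hY : Ty t r L C Y)
    (hpos : ∀ s u w, Y s u w ≠ 0 → t.lt s r u w) :
    ∃ Z : Mx H, Tame t Z ∧ mm (I1 - Y) Z = I1 ∧ mm Z (I1 - Y) = I1 := by
  obtain ⟨L', C', hT, hp⟩ := pos_incr hY hpos
  have hr0 : (0 : ℤ) ≤ r := Int.natCast_nonneg r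
  have hC := hT.C0
  have hC2 : C' ≤ C' * (2 + r * C') := by
    have h1 : (0 : ℤ) ≤ C' * (1 + r * C') := by positivity
    linarith
  have hT2 : Ty t r L' (C' * (2 + r * C')) Y := ty_C hT hC2
  have hP : ∀ n, Ty t r L' (C' * (2 + r * C')) (DGeoB_P Y n) := fun n =>
    DGeoB_ty hT hp (DGeoB_inv hT n) (fun s u w h => ⟨n, h⟩)
  have hZ : Ty t r L' (C' * (2 + r * C')) (DGeoB_Z t L' r Y) := by
    apply DGeoB_ty hT hp
    · intro s e he u w
      unfold DGeoB_Z
      have h1 : t.TT L' r (e * w) - t.TT L' r (e * u) = t.TT L' r w - t.TT L' r u := by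
        rw [TT_mul t L' r he w, TT_mul t L' r he u]
        ring
      rw [h1]
      exact Finset.sum_congr rfl fun n _ => DGeoB_inv hT n s e he u w
    · intro s u w h
      obtain ⟨n, _, hn⟩ := Finset.exists_ne_zero_of_sum_ne_zero h
      exact ⟨n, hn⟩
  have hYt : Tame t Y := ⟨_, _, _, hT2⟩
  have hPt : ∀ n, Tame t (DGeoB_P Y n) := fun n => ⟨_, _, _, hP n⟩
  have hZt : Tame t (DGeoB_Z t L' r Y) := ⟨_, _, _, hZ⟩
  have hIt : Tame t (I1 : Mx H) := hPt 0
  have hPY : ∀ n, mm (DGeoB_P Y n) Y = DGeoB_P Y (n + 1) := by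
    intro n
    induction n with
    | zero =>
      show mm I1 Y = mm Y I1
      rw [one_mm, mm_one]
    | succ n ih =>
      show mm (mm Y (DGeoB_P Y n)) Y = mm Y (DGeoB_P Y (n + 1))
      rw [mm_assoc hYt (hPt n) hYt, ih]
  have hsum : ∀ (s : ℤˣ) (u w : H), ∑ n ∈ Finset.range
      (((s : ℤ) * (t.TT L' r w - t.TT L' r u)).toNat + 1), DGeoB_P Y (n + 1) s u w
      = DGeoB_Z t L' r Y s u w - I1 s u w := by
    intro s u w
    rw [DGeoB_Z_eq hT hp s u w
      (M := ((s : ℤ) * (t.TT L' r w - t.TT L' r u)).toNat + 1 + 1) (by omega) (by omega),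
      Finset.sum_range_succ' _ (((s : ℤ) * (t.TT L' r w - t.TT L' r u)).toNat + 1)]
    show _ = _ + DGeoB_P Y 0 s u w - I1 s u w
    simp [DGeoB_P]
  have hYZ : mm Y (DGeoB_Z t L' r Y) = DGeoB_Z t L' r Y - I1 := by
    funext s u w
    show mm Y (DGeoB_Z t L' r Y) s u w = DGeoB_Z t L' r Y s u w - I1 s u w
    rw [← hsum s u w]
    unfold mm
    have h1 : ∀ v : H, Y s u v * DGeoB_Z t L' r Y s v w
        = ∑ n ∈ Finset.range (((s : ℤ) * (t.TT L' r w - t.TT L' r u)).toNat + 1),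
          Y s u v * DGeoB_P Y n s v w := by
      intro v
      by_cases hv : Y s u v = 0
      · simp [hv]
      · have h2 := (hp s u v hv).2
        rw [DGeoB_Z_eq hT hp s v w
          (M := ((s : ℤ) * (t.TT L' r w - t.TT L' r u)).toNat + 1) ?_ (by omega),
          Finset.mul_sum]
        have h3 : (s : ℤ) * (t.TT L' r w - t.TT L' r u) = (s : ℤ) * (t.TT L' r v - t.TT L' r u)
          + (s : ℤ) * (t.TT L' r w - t.TT L' r v) := by ring
        omega
    rw [finsum_congr h1, finsum_sum_comm]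
    · rfl
    · intro n _
      refine (fin_mul hT2 (hP n) s u w).subset ?_
      intro v hv
      rw [Function.mem_support] at hv
      exact ⟨left_ne_zero_of_mul hv, right_ne_zero_of_mul hv⟩
  have hZY : mm (DGeoB_Z t L' r Y) Y = DGeoB_Z t L' r Y - I1 := by
    funext s u w
    show mm (DGeoB_Z t L' r Y) Y s u w = DGeoB_Z t L' r Y s u w - I1 s u w
    rw [← hsum s u w]
    unfold mm
    have h1 : ∀ v : H, DGeoB_Z t L' r Y s u v * Y s v w
        = ∑ n ∈ Finset.range (((s : ℤ) * (t.TT L' r w - t.TT L' r u)).toNat + 1),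
          DGeoB_P Y n s u v * Y s v w := by
      intro v
      by_cases hv : Y s v w = 0
      · simp [hv]
      · have h2 := (hp s v w hv).2
        rw [DGeoB_Z_eq hT hp s u v
          (M := ((s : ℤ) * (t.TT L' r w - t.TT L' r u)).toNat + 1) ?_ (by omega),
          Finset.sum_mul]
        have h3 : (s : ℤ) * (t.TT L' r w - t.TT L' r u) = (s : ℤ) * (t.TT L' r v - t.TT L' r u)
          + (s : ℤ) * (t.TT L' r w - t.TT L' r v) := by ring
        omega
    rw [finsum_congr h1, finsum_sum_comm]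
    · refine Finset.sum_congr rfl fun n _ => ?_
      rw [← hPY n]
      rfl
    · intro n _
      refine (fin_mul (hP n) hT2 s u w).subset ?_
      intro v hv
      rw [Function.mem_support] at hv
      exact ⟨left_ne_zero_of_mul hv, right_ne_zero_of_mul hv⟩
  refine ⟨DGeoB_Z t L' r Y, hZt, ?_, ?_⟩
  · rw [sub_eq_add_neg, add_mm hIt (tame_neg hYt) hZt, one_mm]
    have h1 : mm (-Y) (DGeoB_Z t L' r Y) = - mm Y (DGeoB_Z t L' r Y) := by
      funext s u w
      show ∑ᶠ v, (-Y) s u v * DGeoB_Z t L' r Y s v w = - ∑ᶠ v, Y s u v * DGeoB_Z t L' r Y s v w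
      rw [← finsum_neg_distrib]
      refine finsum_congr fun v => ?_
      show - Y s u v * _ = _
      ring
    rw [h1, hYZ]
    abel
  · rw [sub_eq_add_neg, mm_add hZt hIt (tame_neg hYt), mm_one]
    have h1 : mm (DGeoB_Z t L' r Y) (-Y) = - mm (DGeoB_Z t L' r Y) Y := by
      funext s u w
      show ∑ᶠ v, DGeoB_Z t L' r Y s u v * (-Y) s v w = - ∑ᶠ v, DGeoB_Z t L' r Y s u v * Y s v w
      rw [← finsum_neg_distrib]
      refine finsum_congr fun v => ?_
      show _ * - Y s v w = _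
      ring
    rw [h1, hZY]
    abel

end Pool.Agent.RFR
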