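import Pool.Agent.RFR.DMul
import Pool.Agent.RFR.DBas

set_option autoImplicit false

/-! RFR-DLead (3.5): leading columns exist, uniformly.

Let `X` be of type `(r0, L, C)`.  The set `dleadM` of the columns of a nonzero row `(s, u)` that are minimal for the first `r0` potentials is not empty (`dlead_ne`: the values of the potentials are bounded
below) and finite (`dlead_fin`), and it is translated by `E r0` (`dlead_mul`).  `E r0` has finitely many cosets and there are two signs, so at a good level `r` no two different elements of such a set are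
congruent modulo `N r`, and for `r' ≥ r` the minimum of `dleadM` for `t.lt s r'` is the leading column. -/

namespace Pool.Agent.RFR

variable {H : Type} [Group H] {t : PT H}

/-- the columns of the row `(s, u)` which are minimal for the first `r0` potentials -/
private def dleadM (t : PT H) (r0 : ℕ) (X : Mx H) (s : ℤˣ) (u : H) : Set H :=
  {w | X s u w ≠ 0 ∧ ∀ w', X s u w' ≠ 0 → ¬ t.lt s r0 w' w}

private theorem dlead_ne {r0 : ℕ} {L C : ℤ} {X : Mx H} (hX : Ty t r0 L C X) {s : ℤˣ} {u : H}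
    (h : ∃ w, X s u w ≠ 0) (k : ℕ) (hk : k ≤ r0) :
    ∃ w, X s u w ≠ 0 ∧ ∀ w', X s u w' ≠ 0 → ¬ t.lt s k w' w := by
  classical
  induction k with
  | zero =>
    obtain ⟨w, hw⟩ := h
    refine ⟨w, hw, fun w' _ => ?_⟩
    rintro ⟨j, hj, _⟩
    exact Nat.not_lt_zero j hj
  | succ k ih =>
    obtain ⟨w0, h0, h1⟩ := ih (by omega)
    have hex : ∃ n : ℕ, ∃ w, X s u w ≠ 0 ∧ (∀ j < k, t.f j w = t.f j w0) ∧
        ((s : ℤ) * (t.F L k w - t.F L k u) + C).toNat = n :=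
      ⟨_, w0, h0, fun _ _ => rfl, rfl⟩
    obtain ⟨w1, h2, h3, h4⟩ := Nat.find_spec hex
    refine ⟨w1, h2, fun w' hw' => ?_⟩
    rintro ⟨j, hj, h5, h6⟩
    rcases Nat.lt_succ_iff_lt_or_eq.1 hj with h7 | h7
    · apply h1 w' hw'
      refine ⟨j, h7, fun i hi => (h5 i hi).trans (h3 i (hi.trans h7)), ?_⟩
      rw [← h3 j h7]
      exact h6
    · subst h7
      have h8 : ∀ i < j, t.f i w' = t.f i w0 := fun i hi => (h5 i hi).trans (h3 i hi)
      have h9 := Nat.find_min' hex ⟨w', hw', h8, rfl⟩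
      rw [← h4] at h9
      have h10 := (F_first t L (k := j) h5).2
      have h11 := hX.low s u w' hw' j (by omega)
      have h12 := hX.low s u w1 h2 j (by omega)
      have h13 : (s : ℤ) * (t.F L j w1 - t.F L j u) - (s : ℤ) * (t.F L j w' - t.F L j u) =
          (s : ℤ) * t.f j w1 - (s : ℤ) * t.f j w' := by
        linear_combination (s : ℤ) * h10
      generalize (s : ℤ) * (t.F L j w1 - t.F L j u) = a at *
      generalize (s : ℤ) * (t.F L j w' - t.F L j u) = b at *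
      generalize (s : ℤ) * t.f j w1 = c at *
      generalize (s : ℤ) * t.f j w' = d at *
      omega

private theorem dlead_N {r0 : ℕ} {X : Mx H} {s : ℤˣ} {u w w' : H}
    (hw : w ∈ dleadM t r0 X s u) (hw' : w' ∈ dleadM t r0 X s u) : w' * w⁻¹ ∈ t.N r0 := by
  rcases lt_or t (s := (s : ℤ)) s.ne_zero r0 w w' with h | h | h
  · exact absurd h (hw'.2 w hw.1)
  · exact h
  · exact absurd h (hw.2 w' hw'.1)

private theorem dlead_cong {r0 : ℕ} {X : Mx H} {s : ℤˣ} {u w w' : H}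
    (hw : w ∈ dleadM t r0 X s u) (hX : X s u w' ≠ 0) (hN : w * w'⁻¹ ∈ t.N r0) :
    w' ∈ dleadM t r0 X s u := by
  refine ⟨hX, fun w'' h1 h2 => hw.2 w'' h1 ?_⟩
  refine lt_congr t ?_ hN h2
  rw [mul_inv_cancel]
  exact one_mem _

private theorem dlead_fin {r0 : ℕ} {L C : ℤ} {X : Mx H} (hX : Ty t r0 L C X) (s : ℤˣ) (u : H) :
    (dleadM t r0 X s u).Finite := by
  rcases (dleadM t r0 X s u).eq_empty_or_nonempty with h | ⟨w0, h0⟩
  · rw [h]
    exact Set.finite_empty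
  · refine (fin_T hX s u ((s : ℤ) * (t.TT L r0 w0 - t.TT L r0 u))).subset ?_
    intro w hw
    refine ⟨hw.1, le_of_eq ?_⟩
    have h1 := f_eq_of_mem_N t (dlead_N h0 hw)
    have h2 := (F_first t L h1).1
    have h3 : t.TT L r0 w = t.TT L r0 w0 :=
      Finset.sum_congr rfl fun j hj => (h2 j (Finset.mem_range.1 hj)).symm
    rw [h3]

private theorem dlead_mul {r0 : ℕ} {L C : ℤ} {X : Mx H} (hX : Ty t r0 L C X) {s : ℤˣ} {u : H}
    {e : H} (he : e ∈ t.E r0) {w : H} (hw : w ∈ dleadM t r0 X s u) :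
    e * w ∈ dleadM t r0 X s (e * u) := by
  refine ⟨?_, fun w' h1 h2 => ?_⟩
  · rw [hX.inv s e he]
    exact hw.1
  · have h3 : X s u (e⁻¹ * w') ≠ 0 := by
      rw [← hX.inv s e he, mul_inv_cancel_left]
      exact h1
    apply hw.2 _ h3
    have h4 := lt_mul_left t h2 (e := e⁻¹) fun k hk => inv_mem (t.E_le hk.le he)
    rw [inv_mul_cancel_left] at h4
    exact h4

private theorem dlead_sep (t : PT H) (g : H) : ∃ k, g ≠ 1 → g ∉ t.N k := by
  by_cases h : g = 1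
  · exact ⟨0, fun h1 => absurd h h1⟩
  · by_contra hc
    push Not at hc
    exact h (t.sep g fun j => (hc (j + 1)).2 j (Nat.lt_succ_self j))

private theorem dlead_sepM (t : PT H) {M : Set H} (hM : M.Finite) :
    ∃ k, ∀ k', k ≤ k' → ∀ w ∈ M, ∀ w' ∈ M, w' ≠ w → w' * w⁻¹ ∉ t.N k' := by
  choose K hK using dlead_sep t
  obtain ⟨k, hk⟩ := (((hM.prod hM).image fun p => p.2 * p.1⁻¹).image K).bddAbove
  refine ⟨k, fun k' hk' w hw w' hw' hne hmem => ?_⟩
  have h1 : K (w' * w⁻¹) ≤ k :=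
    hk ⟨_, ⟨(w, w'), ⟨hw, hw'⟩, rfl⟩, rfl⟩
  exact hK (w' * w⁻¹) (fun h => hne (mul_inv_eq_one.1 h)) (N_anti t (h1.trans hk') hmem)

theorem lead_exists (ht : t.IsT) {r0 : ℕ} {L C : ℤ} {X : Mx H} (hX : Ty t r0 L C X) :
    ∃ r, r0 ≤ r ∧ ∀ r', r ≤ r' → ∀ s u, (∃ w, X s u w ≠ 0) → ∃ w, Ld t r' X s u w := by
  classical
  have hfin : (t.E r0).FiniteIndex := t.fin r0
  have hq : Finite (H ⧸ t.E r0) := Subgroup.finite_quotient_of_finiteIndex
  choose K hK using fun (p : ℤˣ × (H ⧸ t.E r0)) => dlead_sepM t (dlead_fin hX p.1 p.2.out)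
  obtain ⟨k, hk⟩ := (Set.finite_range K).bddAbove
  obtain ⟨r, hr, hg⟩ := ht (max k r0)
  refine ⟨r, (le_max_right _ _).trans hr, fun r' hr' s u hne => ?_⟩
  have hr0 : r0 ≤ r' := (le_max_right _ _).trans (hr.trans hr')
  -- different elements of `dleadM` are not congruent modulo `N r'`
  have hsep : ∀ w ∈ dleadM t r0 X s u, ∀ w' ∈ dleadM t r0 X s u, w' ≠ w → w' * w⁻¹ ∉ t.N r' := by
    intro w hw w' hw' hww hmem
    have hnr := t.nrm r0
    have h1 : ((u : H ⧸ t.E r0).out)⁻¹ * u ∈ t.E r0 := by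
      rw [← QuotientGroup.eq, QuotientGroup.out_eq']
    have h2 := hnr.conj_mem _ (inv_mem h1) (u : H ⧸ t.E r0).out
    set u0 := (u : H ⧸ t.E r0).out with hu0
    have h3 : u0 * (u0⁻¹ * u)⁻¹ * u0⁻¹ * u = u0 := by group
    have h4 := dlead_mul hX h2 hw
    have h5 := dlead_mul hX h2 hw'
    rw [h3] at h4 h5
    have h6 := hK (s, (u : H ⧸ t.E r0)) r
      ((hk ⟨_, rfl⟩).trans ((le_max_left _ _).trans hr)) _ h4 _ h5
      (fun h => hww (mul_left_cancel h))
    apply h6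
    have h7 := hg.2.1.conj_mem _ (N_anti t hr' hmem) (u0 * (u0⁻¹ * u)⁻¹ * u0⁻¹)
    have h8 : u0 * (u0⁻¹ * u)⁻¹ * u0⁻¹ * (w' * w⁻¹) * (u0 * (u0⁻¹ * u)⁻¹ * u0⁻¹)⁻¹ =
        u0 * (u0⁻¹ * u)⁻¹ * u0⁻¹ * w' * (u0 * (u0⁻¹ * u)⁻¹ * u0⁻¹ * w)⁻¹ := by group
    rw [h8] at h7
    exact h7
  -- the minimum
  obtain ⟨w0, h0, h0'⟩ := dlead_ne hX hne r0 le_rfl
  have hM0 : w0 ∈ dleadM t r0 X s u := ⟨h0, h0'⟩
  have hMf : Finite (dleadM t r0 X s u) := (dlead_fin hX s u).to_subtype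
  let R : dleadM t r0 X s u → dleadM t r0 X s u → Prop := fun a b => t.lt s r' a b
  have hR : WellFounded R := by
    have : IsTrans _ R := ⟨fun a b c h1 h2 => lt_trans' t h1 h2⟩
    have : Std.Irrefl R := ⟨fun a h1 => lt_irrefl' t h1⟩
    exact Finite.wellFounded_of_trans_of_irrefl R
  obtain ⟨⟨w, hw⟩, -, hmin⟩ := hR.has_min Set.univ ⟨⟨w0, hM0⟩, trivial⟩
  refine ⟨w, hw.1, fun w' hX' hne' => ?_⟩
  have hin : w * w'⁻¹ ∈ t.N r0 → t.lt s r' w w' := by
    intro hN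
    have h1 := dlead_cong hw hX' hN
    rcases lt_or t (s := (s : ℤ)) s.ne_zero r' w w' with h | h | h
    · exact h
    · exact absurd h (hsep w hw w' h1 hne')
    · exact absurd h (hmin ⟨w', h1⟩ trivial)
  rcases lt_or t (s := (s : ℤ)) s.ne_zero r0 w w' with h | h | h
  · exact lt_mono t hr0 h
  · apply hin
    have h1 := inv_mem h
    rw [mul_inv_rev, inv_inv] at h1
    exact h1
  · exact absurd h (hw.2 w' hX')

end Pool.Agent.RFR
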