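import Pool.Agent.RFR.DNz
import Pool.Agent.RFR.DLead

set_option autoImplicit false

/-! RFR-DInj (3.6), (3.7): in a coherent nonzero matrix all rows are nonzero, leading columns are different.

PLAN.  `rows_ne`: `X s0 u0 w0 ≠ 0`; `lead_exists`, a good `i` which is large (`IsT`, `Coh`); `q_min`, `lead_bar` for the row `(s0, u0)`: `p ≠ 0`.  If the row `(s, u)` is zero then `bar X s u = 0`, `p = 0`.
`lead_inj`: for all large good `i`: `q_min` for `s`, `lead_bar` for both rows: `e * w` is minimal in `u1 · supp p` and in `u2 · supp p`.  `lt_or` for `u1, u2`: if `t.lt s i u1 u2` let `z = u2⁻¹ * (e * w)`, `p [z] ≠ 0`, so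
`u1 * z` is in `u1 · supp p` and `t.lt s i (u1 * z) (e * w)` (`lt_mul_right`), contradiction (`lt_trans'`, `lt_irrefl'`, `lt_congr`).  So `u2 * u1⁻¹ ∈ N i` for arbitrarily large `i`: `PT.sep`. -/

namespace Pool.Agent.RFR

variable {H : Type} [Group H] {t : PT H}

theorem rows_ne (ht : t.IsT) {X : Mx H} (hX : Tame t X) (cX : Coh t X) (hne : X ≠ 0) (s : ℤˣ)
    (u : H) : ∃ w, X s u w ≠ 0 := by
  by_contra hcon
  push Not at hcon
  obtain ⟨s0, u0, w00, h00⟩ : ∃ s0 u0 w0, X s0 u0 w0 ≠ 0 := by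
    by_contra h
    push Not at h
    exact hne (by funext a b c; exact h a b c)
  obtain ⟨r0, L, C, hX0⟩ := hX
  obtain ⟨r, hr, hLd⟩ := lead_exists ht hX0
  obtain ⟨w0, hw0⟩ := hLd r le_rfl s0 u0 ⟨w00, h00⟩
  obtain ⟨L0, hL0⟩ := ty_up hX0 hr
  obtain ⟨C', hX1⟩ := hL0 L0 le_rfl
  obtain ⟨i0, hi0⟩ := cX
  obtain ⟨i, hi, hgood⟩ := ht (max i0 (r + 1))
  have := hgood.2.1
  obtain ⟨q, p, hq, hZ, h⟩ := hi0 i (le_trans (le_max_left _ _) hi) hgood
  obtain ⟨e, he, hqe, hmin⟩ := q_min hq hZ (s0 : ℤˣ)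
  have hlb := (lead_bar hgood hX1 (le_trans (le_max_right _ _) hi) hZ h he hqe hmin hw0).1
  apply hlb
  rw [← h s u]
  have hbar : ∀ g, bar t i X s u g = 0 := by
    intro g
    unfold bar
    simp [hcon]
  unfold cvl
  rw [Finsupp.sum]
  exact Finset.sum_eq_zero fun x _ => by rw [hbar, mul_zero]

theorem lead_inj (ht : t.IsT) {r : ℕ} {L C : ℤ} {X : Mx H} (hX : Ty t r L C X) (cX : Coh t X)
    {s : ℤˣ} {u1 u2 w : H} (h1 : Ld t r X s u1 w) (h2 : Ld t r X s u2 w) : u1 = u2 := by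
  obtain ⟨i0, hi0⟩ := cX
  have key : ∀ k, u2 * u1⁻¹ ∈ t.N k := by
    intro k
    obtain ⟨i, hi, hgood⟩ := ht (max k (max i0 (r + 1)))
    have hik : k ≤ i := le_trans (le_max_left _ _) hi
    have hii0 : i0 ≤ i := le_trans (le_trans (le_max_left _ _) (le_max_right _ _)) hi
    have hir : r + 1 ≤ i := le_trans (le_trans (le_max_right _ _) (le_max_right _ _)) hi
    have := hgood.2.1
    obtain ⟨q, p, hq, hZ, h⟩ := hi0 i hii0 hgood
    obtain ⟨e, he, hqe, hmin⟩ := q_min hq hZ (s : ℤˣ)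
    have l1 := lead_bar hgood hX hir hZ h he hqe hmin h1
    have l2 := lead_bar hgood hX hir hZ h he hqe hmin h2
    have aux : ∀ a b : H, (p.coeff ((b⁻¹ * (e * w) : H) : H ⧸ t.N i) ≠ 0) →
        (∀ w' : H, p.coeff ((a⁻¹ * w' : H) : H ⧸ t.N i) ≠ 0 →
          w' * (e * w)⁻¹ ∈ t.N i ∨ t.lt s i (e * w) w') → ¬ t.lt s i a b := by
      intro a b hb ha hlt
      have hz : a⁻¹ * (a * (b⁻¹ * (e * w))) = b⁻¹ * (e * w) := by group
      have h3 := ha (a * (b⁻¹ * (e * w))) (by rw [hz]; exact hb)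
      have h4 := lt_mul_right t hlt (b⁻¹ * (e * w))
      have h5 : b * (b⁻¹ * (e * w)) = e * w := by group
      rw [h5] at h4
      rcases h3 with h3 | h3
      · have h6 : (e * w) * (a * (b⁻¹ * (e * w)))⁻¹ ∈ t.N i := by
          have h7 := inv_mem h3
          rwa [mul_inv_rev, inv_inv] at h7
        have h8 : (e * w) * (e * w)⁻¹ ∈ t.N i := by
          rw [mul_inv_cancel]
          exact one_mem _
        exact lt_irrefl' t (lt_congr t h6 h8 h4)
      · exact lt_irrefl' t (lt_trans' t h3 h4)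
    have hs : (s : ℤ) ≠ 0 := by
      rcases Int.units_eq_one_or s with h | h <;> simp [h]
    rcases lt_or t hs i u1 u2 with h3 | h3 | h3
    · exact absurd h3 (aux u1 u2 l2.1 l1.2)
    · exact N_anti t hik h3
    · exact absurd h3 (aux u2 u1 l1.1 l2.2)
  have h9 := t.sep (u2 * u1⁻¹) fun j => (t.mem_N.1 (key (j + 1))) j (Nat.lt_succ_self j)
  have h10 : u2 = u1 := by
    rwa [mul_inv_eq_one] at h9
  exact h10.symm

end Pool.Agent.RFR
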