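import Pool.Agent.RFR.DInj
import Pool.Agent.RFR.DGeoB

set_option autoImplicit false

/-! RFR-DInv (3.8): nonzero coherent tame matrices have tame inverses.

PLAN.  `lead_exists` gives `r`, then a type `(r, L, C)` (`ty_up`); `rows_ne`: all rows have a leading column `π s u` (unique).  `π s (e * u) = e * π s u` for `e ∈ E r` (uniqueness, `lt_mul_left`, `Ty.inv`).  `π s` is injective (`lead_inj`) and onto: it
induces an injective self-map of the finite set of cosets `E r u`.  `Λ⁻¹ s w u := (X s u w)⁻¹` if `w = π s u`, `0` otherwise, and `Λ s u w := X s u w` if `w = π s u` are of a common type (the elements `u⁻¹ * π s u` take finitely many values, by equivariance; they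
are bounded in `ell`, and increments of `F` are bounded by `F_lip`).  `Y := I1 - mm Λ⁻¹ X`: `Y s (π s u) w = - X s u w / X s u (π s u)` for `w ≠ π s u`, `0` for `w = π s u`; it is tame (of a type with level `r`: common type and
`mul_ty`) and satisfies the hypothesis of `geo`.  `V := mm Z Λ⁻¹` where `mm (I1 - Y) Z = I1 = mm Z (I1 - Y)`: `mm V X = mm Z (mm Λ⁻¹ X) = I1`, `mm X V = mm Λ (mm (I1 - Y) (mm Z Λ⁻¹)) = I1` (`mm_assoc`). -/

namespace Pool.Agent.RFR

variable {H : Type} [Group H] {t : PT H}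

/-- the leading column is unique -/
private theorem DInv_uniq {r : ℕ} {X : Mx H} {s : ℤˣ} {u w w' : H} (h : Ld t r X s u w)
    (h' : Ld t r X s u w') : w = w' := by
  by_contra hne
  have h1 := h.2 w' h'.1 (fun h2 => hne h2.symm)
  have h2 := h'.2 w h.1 hne
  exact lt_irrefl' t (lt_trans' t h1 h2)

private theorem DInv_mul {r : ℕ} {L C : ℤ} {X : Mx H} (hX : Ty t r L C X) {s : ℤˣ} {u w : H}
    (h : Ld t r X s u w) {e : H} (he : e ∈ t.E r) : Ld t r X s (e * u) (e * w) := by
  refine ⟨?_, fun w' h1 h2 => ?_⟩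
  · rw [hX.inv s e he]
    exact h.1
  · have h3 : X s u (e⁻¹ * w') ≠ 0 := by
      rw [← hX.inv s e he, mul_inv_cancel_left]
      exact h1
    have h4 : e⁻¹ * w' ≠ w := by
      intro h5
      apply h2
      rw [← h5, mul_inv_cancel_left]
    have h5 := lt_mul_left t (h.2 _ h3 h4) (e := e) fun k hk => t.E_le hk.le he
    rwa [mul_inv_cancel_left] at h5

/-- `u` and `u₀` are congruent modulo the normal subgroup `E r` -/
private theorem DInv_coset (t : PT H) (r : ℕ) {u v : H} (h : u⁻¹ * v ∈ t.E r) :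
    v * u⁻¹ ∈ t.E r := by
  have h1 := (t.nrm r).conj_mem _ h u
  have h2 : u * (u⁻¹ * v) * u⁻¹ = v * u⁻¹ := by group
  rwa [h2] at h1

private theorem DInv_coset' (t : PT H) (r : ℕ) {u v : H} (h : v * u⁻¹ ∈ t.E r) :
    u⁻¹ * v ∈ t.E r := by
  have h1 := (t.nrm r).conj_mem _ h u⁻¹
  have h2 : u⁻¹ * (v * u⁻¹) * u⁻¹⁻¹ = u⁻¹ * v := by group
  rwa [h2] at h1

/-- the leading columns form a permutation for each sign -/
theorem exists_pi (ht : t.IsT) {X : Mx H} (hX : Tame t X) (cX : Coh t X) (hne : X ≠ 0) :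
    ∃ (r : ℕ) (L C : ℤ) (π : ℤˣ → Equiv.Perm H), Ty t r L C X ∧ (∀ s u, Ld t r X s u (π s u)) ∧
      ∀ s, ∀ e ∈ t.E r, ∀ u, π s (e * u) = e * π s u := by
  obtain ⟨r0, L0, C0, hX0⟩ := id hX
  obtain ⟨r, hr, hLd⟩ := lead_exists ht hX0
  obtain ⟨L, hL⟩ := ty_up hX0 hr
  obtain ⟨C, hX1⟩ := hL L le_rfl
  choose p hp using fun (s : ℤˣ) (u : H) => hLd r le_rfl s u (rows_ne ht hX cX hne s u)
  have heq : ∀ s, ∀ e ∈ t.E r, ∀ u, p s (e * u) = e * p s u := fun s e he u =>
    DInv_uniq (hp s (e * u)) (DInv_mul hX1 (hp s u) he)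
  have hinj : ∀ s, Function.Injective (p s) := by
    intro s u1 u2 h
    have h2 := hp s u2
    rw [← h] at h2
    exact lead_inj ht hX1 cX (hp s u1) h2
  have hfi : (t.E r).FiniteIndex := t.fin r
  have hq : Finite (H ⧸ t.E r) := Subgroup.finite_quotient_of_finiteIndex
  have hsurj : ∀ s, Function.Surjective (p s) := by
    intro s
    have hg : Function.Injective
        (fun q : H ⧸ t.E r => ((p s q.out : H) : H ⧸ t.E r)) := by
      intro q1 q2 h
      have h1 : (p s q1.out)⁻¹ * p s q2.out ∈ t.E r := QuotientGroup.eq.1 h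
      have h2 := DInv_coset t r h1
      have h3 : p s (p s q2.out * (p s q1.out)⁻¹ * q1.out) = p s q2.out := by
        rw [heq s _ h2, inv_mul_cancel_right]
      have h4 := hinj s h3
      have h5 : q2.out * q1.out⁻¹ ∈ t.E r := by
        rw [← h4, mul_inv_cancel_right]
        exact h2
      have h6 := DInv_coset' t r h5
      have h7 : ((q1.out : H) : H ⧸ t.E r) = ((q2.out : H) : H ⧸ t.E r) := QuotientGroup.eq.2 h6
      rwa [QuotientGroup.out_eq', QuotientGroup.out_eq'] at h7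
    have hs := Finite.surjective_of_injective hg
    intro w
    obtain ⟨q, hq'⟩ := hs (w : H ⧸ t.E r)
    have h1 : (p s q.out)⁻¹ * w ∈ t.E r := QuotientGroup.eq.1 hq'
    have h2 := DInv_coset t r h1
    refine ⟨w * (p s q.out)⁻¹ * q.out, ?_⟩
    rw [heq s _ h2, inv_mul_cancel_right]
  refine ⟨r, L, C, fun s => Equiv.ofBijective (p s) ⟨hinj s, hsurj s⟩, hX1, hp, heq⟩

/-- equivariant matrices with entries near the diagonal are of some type -/
private theorem DInv_near {r : ℕ} {L : ℤ} (hL : 1 ≤ L) {A : Mx H} {B : ℕ}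
    (hinv : ∀ s, ∀ e ∈ t.E r, ∀ u w, A s (e * u) (e * w) = A s u w)
    (hB : ∀ s u w, A s u w ≠ 0 → t.ell (u⁻¹ * w) ≤ B) : ∃ C, Ty t r L C A := by
  choose a ha using fun k => F_lip (t := t) L k
  have hb : ∀ s u w, A s u w ≠ 0 → ∀ k < r,
      -((B : ℤ) * (1 + ∑ j ∈ Finset.range r, (a j : ℤ))) ≤
        (s : ℤ) * (t.F L k w - t.F L k u) := by
    intro s u w h k hk
    have h1 := ha k u (u⁻¹ * w)
    rw [mul_inv_cancel_left] at h1
    have h2 : (a k : ℤ) * t.ell (u⁻¹ * w) ≤ a k * B := by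
      have h3 := hB s u w h
      exact mul_le_mul_of_nonneg_left (by exact_mod_cast h3) (Int.natCast_nonneg _)
    have h3 : (a k : ℤ) ≤ ∑ j ∈ Finset.range r, (a j : ℤ) :=
      Finset.single_le_sum (f := fun j => (a j : ℤ)) (fun j _ => Int.natCast_nonneg _)
        (Finset.mem_range.2 hk)
    have h4 : (a k : ℤ) * B ≤ (B : ℤ) * (1 + ∑ j ∈ Finset.range r, (a j : ℤ)) := by
      rw [mul_comm]
      exact mul_le_mul_of_nonneg_left (by linarith) (Int.natCast_nonneg _)
    have h5 := abs_le.1 (h1.trans (h2.trans h4))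
    rcases Int.units_eq_one_or s with hs | hs
    · rw [hs, Units.val_one, one_mul]
      exact h5.1
    · rw [hs, Units.val_neg, Units.val_one, neg_one_mul]
      linarith [h5.2]
  have hc0 : (0 : ℤ) ≤ ∑ j ∈ Finset.range r, (a j : ℤ) :=
    Finset.sum_nonneg fun j _ => Int.natCast_nonneg _
  have hB0 : (0 : ℤ) ≤ B := Int.natCast_nonneg _
  have hBC : (B : ℤ) ≤ (B : ℤ) * (1 + ∑ j ∈ Finset.range r, (a j : ℤ)) := by
    have := mul_nonneg hB0 hc0
    linarith
  refine ⟨(B : ℤ) * (1 + ∑ j ∈ Finset.range r, (a j : ℤ)), hL, by positivity, hinv, hb, ?_⟩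
  intro s u w h
  have h1 : (t.ell (u⁻¹ * w) : ℤ) ≤ B := by exact_mod_cast hB s u w h
  have h2 : 0 ≤ ∑ k ∈ Finset.range r, ((s : ℤ) * (t.F L k w - t.F L k u) +
      (B : ℤ) * (1 + ∑ j ∈ Finset.range r, (a j : ℤ))) :=
    Finset.sum_nonneg fun k hk => by
      have := hb s u w h k (Finset.mem_range.1 hk)
      linarith
  have h3 : (0 : ℤ) ≤ (B : ℤ) * (1 + ∑ j ∈ Finset.range r, (a j : ℤ)) := hB0.trans hBC
  have h4 := mul_nonneg h3 h2
  generalize (B : ℤ) * (1 + ∑ j ∈ Finset.range r, (a j : ℤ)) = M at *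
  rw [mul_add, mul_one]
  linarith

private theorem DInv_bd {r : ℕ} {π : ℤˣ → Equiv.Perm H}
    (hπ : ∀ s, ∀ e ∈ t.E r, ∀ u, π s (e * u) = e * π s u) :
    ∃ B : ℕ, ∀ s u, t.ell (u⁻¹ * π s u) ≤ B ∧ t.ell ((π s u)⁻¹ * u) ≤ B := by
  have hfi : (t.E r).FiniteIndex := t.fin r
  have hq : Finite (H ⧸ t.E r) := Subgroup.finite_quotient_of_finiteIndex
  obtain ⟨M, hM⟩ := Finite.exists_le (fun q : ℤˣ × (H ⧸ t.E r) =>
    max (t.ell (q.2.out⁻¹ * π q.1 q.2.out)) (t.ell ((π q.1 q.2.out)⁻¹ * q.2.out)))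
  refine ⟨M, fun s u => ?_⟩
  have h1 : ((u : H ⧸ t.E r).out)⁻¹ * u ∈ t.E r := by
    rw [← QuotientGroup.eq, QuotientGroup.out_eq']
  have h2 := DInv_coset t r h1
  have h3 := hM (s, (u : H ⧸ t.E r))
  set u0 := (u : H ⧸ t.E r).out with hu0
  have h4 : u = (u * u0⁻¹) * u0 := by group
  have h5 : π s u = (u * u0⁻¹) * π s u0 := by
    conv_lhs => rw [h4]
    exact hπ s _ h2 u0
  have h6 : u⁻¹ * π s u = u0⁻¹ * π s u0 := by
    rw [h5]
    group
  have h7 : (π s u)⁻¹ * u = (π s u0)⁻¹ * u0 := by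
    rw [h5]
    group
  rw [h6, h7]
  exact max_le_iff.1 h3

open scoped Classical in
/-- the diagonal part -/
private noncomputable def DInv_La (π : ℤˣ → Equiv.Perm H) (X : Mx H) : Mx H :=
  fun s u w => if w = π s u then X s u w else 0

open scoped Classical in
/-- the inverse of the diagonal part -/
private noncomputable def DInv_Li (π : ℤˣ → Equiv.Perm H) (X : Mx H) : Mx H :=
  fun s u w => if u = π s w then (X s w u)⁻¹ else 0

theorem exists_inv (ht : t.IsT) {X : Mx H} (hX : Tame t X) (cX : Coh t X) (hne : X ≠ 0) :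
    ∃ V : Mx H, Tame t V ∧ mm X V = I1 ∧ mm V X = I1 := by
  classical
  obtain ⟨r, L, C, π, hX1, hLd, hπ⟩ := exists_pi ht hX cX hne
  obtain ⟨B, hB⟩ := DInv_bd (t := t) hπ
  have hL1 := hX1.L1
  have hπ' : ∀ s, ∀ e ∈ t.E r, ∀ u w, e * w = π s (e * u) ↔ w = π s u := by
    intro s e he u w
    rw [hπ s e he]
    exact mul_right_inj e
  -- the types
  obtain ⟨C1, hLa⟩ : ∃ C, Ty t r L C (DInv_La π X) := by
    apply DInv_near hL1 (B := B)
    · intro s e he u w
      unfold DInv_La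
      rw [hX1.inv s e he]
      by_cases h : w = π s u
      · rw [if_pos h, if_pos ((hπ' s e he u w).2 h)]
      · rw [if_neg h, if_neg fun h1 => h ((hπ' s e he u w).1 h1)]
    · intro s u w h
      unfold DInv_La at h
      have h1 : w = π s u := by
        by_contra h2
        exact h (if_neg h2)
      rw [h1]
      exact (hB s u).1
  obtain ⟨C2, hLi⟩ : ∃ C, Ty t r L C (DInv_Li π X) := by
    apply DInv_near hL1 (B := B)
    · intro s e he u w
      unfold DInv_Li
      rw [hX1.inv s e he]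
      by_cases h : u = π s w
      · rw [if_pos h, if_pos ((hπ' s e he w u).2 h)]
      · rw [if_neg h, if_neg fun h1 => h ((hπ' s e he w u).1 h1)]
    · intro s u w h
      unfold DInv_Li at h
      have h1 : u = π s w := by
        by_contra h2
        exact h (if_neg h2)
      rw [h1]
      exact (hB s w).2
  obtain ⟨C3, hI⟩ : ∃ C, Ty t r L C (I1 : Mx H) := by
    apply DInv_near hL1 (B := 0)
    · intro s e he u w
      unfold I1
      by_cases h : u = w
      · rw [if_pos h, if_pos (by rw [h])]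
      · rw [if_neg h, if_neg fun h1 => h (mul_left_cancel h1)]
    · intro s u w h
      unfold I1 at h
      have h1 : u = w := by
        by_contra h2
        exact h (if_neg h2)
      rw [h1, inv_mul_cancel, t.ell_one]
  -- the product
  have hmm : ∀ (s : ℤˣ) (u w : H), mm (DInv_Li π X) X s (π s u) w = (X s u (π s u))⁻¹ * X s u w := by
    intro s u w
    unfold mm
    rw [finsum_eq_single _ u]
    · unfold DInv_Li
      rw [if_pos rfl]
    · intro v hv
      unfold DInv_Li
      rw [if_neg, zero_mul]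
      intro h
      exact hv ((π s).injective h).symm
  have hM : Ty t r L (2 * max C C2) (mm (DInv_Li π X) X) :=
    mul_ty (ty_C hLi (le_max_right _ _)) (ty_C hX1 (le_max_left _ _))
  have hY : Ty t r L (max C3 (2 * max C C2)) (I1 + -mm (DInv_Li π X) X) :=
    add_ty (ty_C hI (le_max_left _ _)) (neg_ty (ty_C hM (le_max_right _ _)))
  have hpos : ∀ (s : ℤˣ) (u w : H), (I1 + -mm (DInv_Li π X) X : Mx H) s u w ≠ 0 → t.lt s r u w := by
    intro s a w h
    obtain ⟨u, rfl⟩ := (π s).surjective a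
    have h1 : (I1 + -mm (DInv_Li π X) X : Mx H) s (π s u) w =
        (if π s u = w then (1 : ℚ) else 0) - (X s u (π s u))⁻¹ * X s u w := by
      rw [← hmm s u w]
      show I1 s (π s u) w + -mm (DInv_Li π X) X s (π s u) w = _
      unfold I1
      rw [sub_eq_add_neg]
    rw [h1] at h
    by_cases h2 : π s u = w
    · exfalso
      apply h
      rw [if_pos h2, ← h2, inv_mul_cancel₀ (hLd s u).1, sub_self]
    · rw [if_neg h2, zero_sub] at h
      apply (hLd s u).2 w
      · intro h3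
        apply h
        rw [h3, mul_zero, neg_zero]
      · exact fun h3 => h2 h3.symm
  obtain ⟨Z, hZ, hZ1, hZ2⟩ := geo hY hpos
  have hIY : I1 - (I1 + -mm (DInv_Li π X) X) = mm (DInv_Li π X) X := by
    abel
  rw [hIY] at hZ1 hZ2
  have tLa : Tame t (DInv_La π X) := ⟨_, _, _, hLa⟩
  have tLi : Tame t (DInv_Li π X) := ⟨_, _, _, hLi⟩
  have tM : Tame t (mm (DInv_Li π X) X) := ⟨_, _, _, hM⟩
  have hLL : mm (DInv_La π X) (DInv_Li π X) = I1 := by
    funext s u w
    unfold mm
    rw [finsum_eq_single _ (π s u)]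
    · unfold DInv_La DInv_Li I1
      rw [if_pos rfl]
      by_cases h : u = w
      · rw [if_pos h, if_pos (by rw [h]), ← h, mul_inv_cancel₀ (hLd s u).1]
      · rw [if_neg h, if_neg fun h1 => h ((π s).injective h1), mul_zero]
    · intro v hv
      unfold DInv_La
      rw [if_neg hv, zero_mul]
  have hXX : X = mm (DInv_La π X) (mm (DInv_Li π X) X) := by
    rw [← mm_assoc tLa tLi hX, hLL, one_mm]
  refine ⟨mm Z (DInv_Li π X), tame_mul hZ tLi, ?_, ?_⟩
  · calc mm X (mm Z (DInv_Li π X))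
        = mm (mm (DInv_La π X) (mm (DInv_Li π X) X)) (mm Z (DInv_Li π X)) := by rw [← hXX]
      _ = mm (DInv_La π X) (mm (mm (DInv_Li π X) X) (mm Z (DInv_Li π X))) :=
          mm_assoc tLa tM (tame_mul hZ tLi)
      _ = mm (DInv_La π X) (mm (mm (mm (DInv_Li π X) X) Z) (DInv_Li π X)) := by
          rw [mm_assoc tM hZ tLi]
      _ = I1 := by rw [hZ1, one_mm, hLL]
  · rw [mm_assoc hZ tLi hX, hZ2]

end Pool.Agent.RFR
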