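import Pool.Agent.RFR.DPot

set_option autoImplicit false

/-! RFR-DMonA (2.1): larger `C`, larger `L`, one more level.

PLAN.  `ty_C`: monotone.  `ty_L`: `F_change`; `C' = C * (1 + (L' - L) * ∑ j < r, L' ^ j)`; then `D'_k + C' ≥ D_k + C` for all `k < r` (`D_k = s (F_k w - F_k u)`), because all
`D_j + C ≥ 0`.  `ty_succ`: see (2.1) in the paper proof: `L0 = max (L + 1) (A * C)` with `A` from `lip r`; `C'' = L' * C' + A * C` (and at least `C'`); for `r = 0`: `D_0 ≥ - A * C`. -/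

namespace Pool.Agent.RFR

variable {H : Type} [Group H] {t : PT H}

private theorem dmona_abs (s : ℤˣ) (x : ℤ) : -|x| ≤ (s : ℤ) * x := by
  rcases Int.units_eq_one_or s with h | h
  · rw [h, Units.val_one, one_mul]
    exact neg_abs_le x
  · rw [h, Units.val_neg, Units.val_one, neg_one_mul]
    exact neg_le_neg (le_abs_self x)

private theorem dmona_D (t : PT H) (L L' : ℤ) (k : ℕ) (s : ℤˣ) (u w : H) :
    (s : ℤ) * (t.F L' k w - t.F L' k u) = (s : ℤ) * (t.F L k w - t.F L k u) +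
      (L' - L) * ∑ j ∈ Finset.range k, L' ^ (k - 1 - j) * ((s : ℤ) * (t.F L j w - t.F L j u)) := by
  rw [F_change t L L' k w, F_change t L L' k u]
  have h : ∑ j ∈ Finset.range k, L' ^ (k - 1 - j) * ((s : ℤ) * (t.F L j w - t.F L j u)) =
      (s : ℤ) * (∑ j ∈ Finset.range k, L' ^ (k - 1 - j) * t.F L j w -
        ∑ j ∈ Finset.range k, L' ^ (k - 1 - j) * t.F L j u) := by
    rw [← Finset.sum_sub_distrib, Finset.mul_sum]
    refine Finset.sum_congr rfl fun j _ => ?_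
    ring
  rw [h]
  ring

private theorem dmona_sum {L' C : ℤ} (hL' : 1 ≤ L') (hC : 0 ≤ C) {r k : ℕ} (hk : k < r) :
    C * ∑ j ∈ Finset.range k, L' ^ (k - 1 - j) ≤ C * ∑ j ∈ Finset.range r, L' ^ j := by
  refine mul_le_mul_of_nonneg_left ?_ hC
  rw [Finset.sum_range_reflect (fun j => L' ^ j) k]
  exact Finset.sum_le_sum_of_subset_of_nonneg (Finset.range_mono hk.le)
    (fun j _ _ => pow_nonneg (by omega) j)

private theorem dmona_main {L L' C : ℤ} (hL : 1 ≤ L) (hLL : L ≤ L') (hC : 0 ≤ C) {r k : ℕ}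
    (hk : k < r) (D : ℕ → ℤ) :
    D k + C + (L' - L) * ∑ j ∈ Finset.range k, L' ^ (k - 1 - j) * (D j + C) ≤
      D k + (L' - L) * ∑ j ∈ Finset.range k, L' ^ (k - 1 - j) * D j +
        C * (1 + (L' - L) * ∑ j ∈ Finset.range r, L' ^ j) := by
  have h1 := dmona_sum (L' := L') (by omega) hC hk
  have h2 : ∑ j ∈ Finset.range k, L' ^ (k - 1 - j) * (D j + C) =
      ∑ j ∈ Finset.range k, L' ^ (k - 1 - j) * D j +
        C * ∑ j ∈ Finset.range k, L' ^ (k - 1 - j) := by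
    rw [Finset.mul_sum, ← Finset.sum_add_distrib]
    refine Finset.sum_congr rfl fun j _ => ?_
    ring
  rw [h2]
  have h3 : (L' - L) * (C * ∑ j ∈ Finset.range k, L' ^ (k - 1 - j)) ≤
      (L' - L) * (C * ∑ j ∈ Finset.range r, L' ^ j) :=
    mul_le_mul_of_nonneg_left h1 (by omega)
  have h4 : (L' - L) * (∑ j ∈ Finset.range k, L' ^ (k - 1 - j) * D j +
        C * ∑ j ∈ Finset.range k, L' ^ (k - 1 - j)) =
      (L' - L) * ∑ j ∈ Finset.range k, L' ^ (k - 1 - j) * D j +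
        (L' - L) * (C * ∑ j ∈ Finset.range k, L' ^ (k - 1 - j)) := by ring
  have h5 : C * (1 + (L' - L) * ∑ j ∈ Finset.range r, L' ^ j) =
      C + (L' - L) * (C * ∑ j ∈ Finset.range r, L' ^ j) := by ring
  rw [h4, h5]
  linarith

private theorem dmona_low {L L' C : ℤ} (hL : 1 ≤ L) (hLL : L ≤ L') (hC : 0 ≤ C) {r k : ℕ}
    (hk : k < r) (D : ℕ → ℤ) (hD : ∀ j < r, -C ≤ D j) :
    D k + C ≤ D k + (L' - L) * ∑ j ∈ Finset.range k, L' ^ (k - 1 - j) * D j +
        C * (1 + (L' - L) * ∑ j ∈ Finset.range r, L' ^ j) := by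
  have h1 := dmona_main hL hLL hC hk D
  have h2 : 0 ≤ (L' - L) * ∑ j ∈ Finset.range k, L' ^ (k - 1 - j) * (D j + C) := by
    refine mul_nonneg (by omega) (Finset.sum_nonneg fun j hj => ?_)
    have h3 := hD j ((Finset.mem_range.1 hj).trans hk)
    exact mul_nonneg (pow_nonneg (by omega) _) (by omega)
  linarith

private theorem dmona_top {L L' C : ℤ} (hL : 1 ≤ L) (hLL : L + 1 ≤ L') (hC : 0 ≤ C) {k : ℕ}
    (D : ℕ → ℤ) (hD : ∀ j < k + 1, -C ≤ D j) :
    ∑ j ∈ Finset.range (k + 1), (D j + C) ≤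
      D k + (L' - L) * ∑ j ∈ Finset.range k, L' ^ (k - 1 - j) * D j +
        C * (1 + (L' - L) * ∑ j ∈ Finset.range (k + 1), L' ^ j) := by
  have h1 := dmona_main hL (by omega : L ≤ L') hC (Nat.lt_succ_self k) D
  have h2 : ∑ j ∈ Finset.range k, (D j + C) ≤
      (L' - L) * ∑ j ∈ Finset.range k, L' ^ (k - 1 - j) * (D j + C) := by
    rw [Finset.mul_sum]
    refine Finset.sum_le_sum fun j hj => ?_
    have h3 := hD j ((Finset.mem_range.1 hj).trans (Nat.lt_succ_self k))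
    have h4 : (1 : ℤ) ≤ L' ^ (k - 1 - j) := one_le_pow₀ (by omega)
    have h5 : (1 : ℤ) ≤ L' - L := by omega
    have h6 : (1 : ℤ) ≤ (L' - L) * L' ^ (k - 1 - j) := by nlinarith
    have h7 : 0 ≤ D j + C := by omega
    calc D j + C = 1 * (D j + C) := (one_mul _).symm
      _ ≤ ((L' - L) * L' ^ (k - 1 - j)) * (D j + C) := mul_le_mul_of_nonneg_right h6 h7
      _ = (L' - L) * (L' ^ (k - 1 - j) * (D j + C)) := by ring
  rw [Finset.sum_range_succ]
  linarith

theorem ty_C {r : ℕ} {L C C' : ℤ} {X : Mx H} (h : Ty t r L C X) (hC : C ≤ C') :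
    Ty t r L C' X where
  L1 := h.L1
  C0 := h.C0.trans hC
  inv := h.inv
  low := by
    intro s u w hX k hk
    have h1 := h.low s u w hX k hk
    omega
  len := by
    intro s u w hX
    have h1 := h.len s u w hX
    have h2 : 0 ≤ ∑ k ∈ Finset.range r, ((s : ℤ) * (t.F L k w - t.F L k u) + C) := by
      refine Finset.sum_nonneg fun k hk => ?_
      have h3 := h.low s u w hX k (Finset.mem_range.1 hk)
      omega
    have h4 : ∑ k ∈ Finset.range r, ((s : ℤ) * (t.F L k w - t.F L k u) + C) ≤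
        ∑ k ∈ Finset.range r, ((s : ℤ) * (t.F L k w - t.F L k u) + C') :=
      Finset.sum_le_sum fun k _ => by omega
    exact h1.trans (mul_le_mul hC (by omega) (by omega) (h.C0.trans hC))

private theorem dmona_ty {r : ℕ} {L C : ℤ} {X : Mx H} (h : Ty t r L C X) {L' : ℤ} (hL : L ≤ L') :
    C ≤ C * (1 + (L' - L) * ∑ j ∈ Finset.range r, L' ^ j) ∧
    Ty t r L' (C * (1 + (L' - L) * ∑ j ∈ Finset.range r, L' ^ j)) X ∧
    ∀ s u w, X s u w ≠ 0 → ∀ k < r,
      (s : ℤ) * (t.F L k w - t.F L k u) + C ≤ (s : ℤ) * (t.F L' k w - t.F L' k u) +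
        C * (1 + (L' - L) * ∑ j ∈ Finset.range r, L' ^ j) := by
  have hL1 := h.L1
  have hC0 := h.C0
  have e1 : ∀ s u w, X s u w ≠ 0 → ∀ k < r,
      (s : ℤ) * (t.F L k w - t.F L k u) + C ≤ (s : ℤ) * (t.F L' k w - t.F L' k u) +
        C * (1 + (L' - L) * ∑ j ∈ Finset.range r, L' ^ j) := by
    intro s u w hX k hk
    rw [dmona_D t L L' k s u w]
    exact dmona_low hL1 hL hC0 hk (fun j => (s : ℤ) * (t.F L j w - t.F L j u))
      (fun j hj => h.low s u w hX j hj)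
  have e2 : 0 ≤ (L' - L) * ∑ j ∈ Finset.range r, L' ^ j :=
    mul_nonneg (by omega) (Finset.sum_nonneg fun j _ => pow_nonneg (by omega) j)
  have e3 : C ≤ C * (1 + (L' - L) * ∑ j ∈ Finset.range r, L' ^ j) := by nlinarith
  refine ⟨e3, ?_, e1⟩
  refine ⟨by omega, hC0.trans e3, h.inv, ?_, ?_⟩
  · intro s u w hX k hk
    have h1 := e1 s u w hX k hk
    have h2 := h.low s u w hX k hk
    omega
  · intro s u w hX
    have h1 := h.len s u w hX
    have h2 : 0 ≤ ∑ k ∈ Finset.range r, ((s : ℤ) * (t.F L k w - t.F L k u) + C) := by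
      refine Finset.sum_nonneg fun k hk => ?_
      have h3 := h.low s u w hX k (Finset.mem_range.1 hk)
      omega
    have h4 := Finset.sum_le_sum fun k hk => e1 s u w hX k (Finset.mem_range.1 hk)
    exact h1.trans (mul_le_mul e3 (by omega) (by omega) (hC0.trans e3))

/-- with the comparison of the increments -/
theorem ty_L {r : ℕ} {L C : ℤ} {X : Mx H} (h : Ty t r L C X) {L' : ℤ} (hL : L ≤ L') :
    ∃ C', C ≤ C' ∧ Ty t r L' C' X ∧ ∀ s u w, X s u w ≠ 0 → ∀ k < r,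
      (s : ℤ) * (t.F L k w - t.F L k u) + C ≤ (s : ℤ) * (t.F L' k w - t.F L' k u) + C' :=
  ⟨_, dmona_ty h hL⟩

/-- the lower bound at the new level -/
private theorem dmona_new {r : ℕ} {L C : ℤ} {X : Mx H} (h : Ty t r L C X) {A : ℕ}
    (hA : ∀ u g, |t.f r (u * g) - t.f r u| ≤ A * t.ell g) {L' : ℤ} (hL : L + 1 ≤ L')
    (hLA : A * C ≤ L') {C' : ℤ} (hC' : C' = C * (1 + (L' - L) * ∑ j ∈ Finset.range r, L' ^ j))
    (s : ℤˣ) (u w : H) (hX : X s u w ≠ 0) :
    -(L' * C' + A * C) ≤ (s : ℤ) * (t.F L' r w - t.F L' r u) := by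
  have hL1 := h.L1
  have hC0 := h.C0
  have hw : u * (u⁻¹ * w) = w := by group
  have h1 := hA u (u⁻¹ * w)
  rw [hw] at h1
  have h2 := dmona_abs s (t.f r w - t.f r u)
  have h3 := h.len s u w hX
  have hA0 : (0 : ℤ) ≤ A := Int.natCast_nonneg _
  have h4 : (A : ℤ) * t.ell (u⁻¹ * w) ≤ A * (C * (1 + ∑ k ∈ Finset.range r,
      ((s : ℤ) * (t.F L k w - t.F L k u) + C))) := mul_le_mul_of_nonneg_left h3 hA0
  have hC'0 : 0 ≤ C' := by
    rw [hC']
    refine mul_nonneg hC0 ?_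
    have e2 : 0 ≤ (L' - L) * ∑ j ∈ Finset.range r, L' ^ j :=
      mul_nonneg (by omega) (Finset.sum_nonneg fun j _ => pow_nonneg (by omega) j)
    omega
  have hLC : 0 ≤ L' * C' := mul_nonneg (by omega) hC'0
  rcases Nat.eq_zero_or_pos r with hr | hr
  · subst hr
    rw [Finset.range_zero, Finset.sum_empty, add_zero, mul_one] at h4
    change -(L' * C' + A * C) ≤ (s : ℤ) * (t.f 0 w - t.f 0 u)
    linarith
  · obtain ⟨k, rfl⟩ : ∃ k, r = k + 1 := ⟨r - 1, by omega⟩
    have h5 := dmona_top hL1 hL hC0 (k := k) (fun j => (s : ℤ) * (t.F L j w - t.F L j u))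
      (fun j hj => h.low s u w hX j hj)
    rw [← dmona_D t L L' k s u w, ← hC'] at h5
    set S : ℤ := ∑ j ∈ Finset.range (k + 1), ((s : ℤ) * (t.F L j w - t.F L j u) + C) with hS
    have hS0 : 0 ≤ S := by
      rw [hS]
      refine Finset.sum_nonneg fun j hj => ?_
      have h6 := h.low s u w hX j (Finset.mem_range.1 hj)
      omega
    have h7 : (s : ℤ) * (t.F L' (k + 1) w - t.F L' (k + 1) u) =
        L' * ((s : ℤ) * (t.F L' k w - t.F L' k u)) + (s : ℤ) * (t.f (k + 1) w - t.f (k + 1) u) := by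
      change (s : ℤ) * ((L' * t.F L' k w + t.f (k + 1) w) - (L' * t.F L' k u + t.f (k + 1) u)) = _
      ring
    rw [h7]
    set D : ℤ := (s : ℤ) * (t.F L' k w - t.F L' k u) with hD
    have h8 : (A : ℤ) * C * S ≤ L' * S := mul_le_mul_of_nonneg_right hLA hS0
    have h9 : L' * S ≤ L' * (D + C') := mul_le_mul_of_nonneg_left h5 (by omega)
    have h10 : (A : ℤ) * (C * (1 + S)) = A * C + A * C * S := by ring
    rw [h10] at h4
    have h11 : L' * (D + C') = L' * D + L' * C' := by ring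
    linarith

theorem ty_succ {r : ℕ} {L C : ℤ} {X : Mx H} (h : Ty t r L C X) :
    ∃ L0, ∀ L', L0 ≤ L' → ∃ C', Ty t (r + 1) L' C' X := by
  obtain ⟨A, hA⟩ := t.lip r
  refine ⟨max (L + 1) (A * C), fun L' hL' => ?_⟩
  have hLL : L + 1 ≤ L' := (le_max_left _ _).trans hL'
  have hLA : A * C ≤ L' := (le_max_right _ _).trans hL'
  have hL1 := h.L1
  have hC0 := h.C0
  have hA0 : (0 : ℤ) ≤ A := Int.natCast_nonneg _
  obtain ⟨e1, e2, e3⟩ := dmona_ty h (by omega : L ≤ L')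
  set C' : ℤ := C * (1 + (L' - L) * ∑ j ∈ Finset.range r, L' ^ j) with hC'
  have hC'0 : 0 ≤ C' := e2.C0
  have hAC : 0 ≤ (A : ℤ) * C := mul_nonneg hA0 hC0
  have e4 : C' ≤ L' * C' + A * C := by nlinarith
  have e5 : ∀ s u w, X s u w ≠ 0 → ∀ k < r + 1,
      -(L' * C' + A * C) ≤ (s : ℤ) * (t.F L' k w - t.F L' k u) := by
    intro s u w hX k hk
    rcases Nat.lt_succ_iff_lt_or_eq.1 hk with hk | hk
    · have h1 := e2.low s u w hX k hk
      omega
    · rw [hk]
      exact dmona_new h hA hLL hLA hC' s u w hX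
  refine ⟨L' * C' + A * C, by omega, hC'0.trans e4, ?_, e5, ?_⟩
  · intro s e he u w
    exact h.inv s e (t.anti r he) u w
  · intro s u w hX
    have h1 := e2.len s u w hX
    have h2 : 0 ≤ ∑ k ∈ Finset.range r, ((s : ℤ) * (t.F L' k w - t.F L' k u) + C') := by
      refine Finset.sum_nonneg fun k hk => ?_
      have h3 := e2.low s u w hX k (Finset.mem_range.1 hk)
      omega
    have h4 : ∑ k ∈ Finset.range r, ((s : ℤ) * (t.F L' k w - t.F L' k u) + C') ≤
        ∑ k ∈ Finset.range (r + 1), ((s : ℤ) * (t.F L' k w - t.F L' k u) +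
          (L' * C' + A * C)) := by
      rw [Finset.sum_range_succ]
      have h5 := e5 s u w hX r (Nat.lt_succ_self r)
      have h6 : ∑ k ∈ Finset.range r, ((s : ℤ) * (t.F L' k w - t.F L' k u) + C') ≤
          ∑ k ∈ Finset.range r, ((s : ℤ) * (t.F L' k w - t.F L' k u) + (L' * C' + A * C)) :=
        Finset.sum_le_sum fun k _ => by omega
      omega
    exact h1.trans (mul_le_mul e4 (by omega) (by omega) (hC'0.trans e4))

end Pool.Agent.RFR
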