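import Pool.Agent.RFR.DMonA

set_option autoImplicit false

/-! RFR-DMonB (2.1): common types of finitely many tame matrices. -/

namespace Pool.Agent.RFR

variable {H : Type} [Group H] {t : PT H}

theorem ty_up {r : ℕ} {L C : ℤ} {X : Mx H} (h : Ty t r L C X) {r' : ℕ} (hr : r ≤ r') :
    ∃ L0, ∀ L', L0 ≤ L' → ∃ C', Ty t r' L' C' X := by
  induction r', hr using Nat.le_induction with
  | base =>
    refine ⟨L, fun L' hL => ?_⟩
    obtain ⟨C', -, h1, -⟩ := ty_L h hL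
    exact ⟨C', h1⟩
  | succ k _ ih =>
    obtain ⟨L0, h0⟩ := ih
    obtain ⟨C0, hC0⟩ := h0 L0 le_rfl
    exact ty_succ hC0

theorem tame_all {n : ℕ} {X : Fin n → Mx H} (h : ∀ i, Tame t (X i)) :
    ∃ r0, ∀ r, r0 ≤ r → ∃ L0, ∀ L, L0 ≤ L → ∃ C, ∀ i, Ty t r L C (X i) := by
  choose r0 L0 C0 h0 using h
  obtain ⟨R, hR⟩ := Finite.exists_le r0
  refine ⟨R, fun r hr => ?_⟩
  choose L1 h1 using fun i => ty_up (h0 i) ((hR i).trans hr)
  obtain ⟨M, hM⟩ := Finite.exists_le L1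
  refine ⟨M, fun L hL => ?_⟩
  choose C1 h2 using fun i => h1 i L ((hM i).trans hL)
  obtain ⟨C, hC⟩ := Finite.exists_le C1
  exact ⟨C, fun i => ty_C (h2 i) (hC i)⟩

theorem tame_two {X Y : Mx H} (hX : Tame t X) (hY : Tame t Y) :
    ∃ r0, ∀ r, r0 ≤ r → ∃ L0, ∀ L, L0 ≤ L → ∃ C, Ty t r L C X ∧ Ty t r L C Y := by
  have h : ∀ i : Fin 2, Tame t ((![X, Y] : Fin 2 → Mx H) i) := by
    intro i
    fin_cases i
    · exact hX
    · exact hY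
  obtain ⟨r0, h0⟩ := tame_all h
  refine ⟨r0, fun r hr => ?_⟩
  obtain ⟨L0, h1⟩ := h0 r hr
  refine ⟨L0, fun L hL => ?_⟩
  obtain ⟨C, h2⟩ := h1 L hL
  exact ⟨C, h2 0, h2 1⟩

end Pool.Agent.RFR
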