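import Pool.Agent.RFR.DMonB

set_option autoImplicit false

/-! RFR-DMul (2.2): products of tame matrices.

PLAN.  `fin_T`: `ell (u⁻¹ * w) ≤ C * (1 + m + r * C)`, balls are finite (`ell_fin`), translate by `u`.  `fin_mul`: `TT v - TT u` is bounded by `TT w - TT u + r * C` (times `s`), because
`s (TT w - TT v) ≥ - r * C`.  `mul_ty`: a nonzero entry of the product has some `v` with `X s u v ≠ 0`, `Y s v w ≠ 0` (`finsum` of zeros is zero); add the inequalities;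
`inv`: reindex the `finsum` by `v ↦ e * v` (`finsum_comp_equiv`, `Equiv.mulLeft`). -/

namespace Pool.Agent.RFR

variable {H : Type} [Group H] {t : PT H}

private theorem dmul_TT (L : ℤ) (r : ℕ) (s : ℤ) (u w : H) :
    s * (t.TT L r w - t.TT L r u) =
      ∑ k ∈ Finset.range r, s * (t.F L k w - t.F L k u) := by
  unfold PT.TT
  rw [← Finset.sum_sub_distrib, Finset.mul_sum]

private theorem dmul_len {r : ℕ} {L C : ℤ} {X : Mx H} (h : Ty t r L C X) {s : ℤˣ} {u w : H}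
    (hw : X s u w ≠ 0) : (t.ell (u⁻¹ * w) : ℤ) ≤
      C * (1 + (s : ℤ) * (t.TT L r w - t.TT L r u) + r * C) := by
  have h1 := h.len s u w hw
  rw [Finset.sum_add_distrib, Finset.sum_const, Finset.card_range, ← dmul_TT, nsmul_eq_mul,
    ← add_assoc] at h1
  exact h1

omit [Group H] in
private theorem dmul_ne {X Y : Mx H} {s : ℤˣ} {u w : H} (h : mm X Y s u w ≠ 0) :
    ∃ v, X s u v ≠ 0 ∧ Y s v w ≠ 0 := by
  by_contra hc
  apply h
  refine finsum_eq_zero_of_forall_eq_zero fun v => ?_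
  by_contra hv
  exact hc ⟨v, left_ne_zero_of_mul hv, right_ne_zero_of_mul hv⟩

theorem ty_T {r : ℕ} {L C : ℤ} {X : Mx H} (h : Ty t r L C X) {s : ℤˣ} {u w : H}
    (hw : X s u w ≠ 0) : -(r * C) ≤ (s : ℤ) * (t.TT L r w - t.TT L r u) := by
  rw [dmul_TT]
  have h1 : ∑ _k ∈ Finset.range r, (-C) ≤
      ∑ k ∈ Finset.range r, (s : ℤ) * (t.F L k w - t.F L k u) :=
    Finset.sum_le_sum fun k hk => h.low s u w hw k (Finset.mem_range.1 hk)
  rw [Finset.sum_const, Finset.card_range, nsmul_eq_mul] at h1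
  linarith [show (r : ℤ) * -C = -(r * C) by ring]

theorem fin_T {r : ℕ} {L C : ℤ} {X : Mx H} (h : Ty t r L C X) (s : ℤˣ) (u : H) (m : ℤ) :
    {w | X s u w ≠ 0 ∧ (s : ℤ) * (t.TT L r w - t.TT L r u) ≤ m}.Finite := by
  refine ((t.ell_fin (C * (1 + m + r * C)).toNat).image (fun g => u * g)).subset ?_
  rintro w ⟨hw, hm⟩
  refine ⟨u⁻¹ * w, ?_, mul_inv_cancel_left u w⟩
  have h1 := dmul_len h hw
  have h2 : C * (1 + (s : ℤ) * (t.TT L r w - t.TT L r u) + r * C) ≤ C * (1 + m + r * C) :=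
    mul_le_mul_of_nonneg_left (by linarith) h.C0
  have h3 := h1.trans h2
  show t.ell (u⁻¹ * w) ≤ (C * (1 + m + r * C)).toNat
  generalize C * (1 + m + r * C) = B at h3 ⊢
  omega

theorem fin_mul {r : ℕ} {L C : ℤ} {X Y : Mx H} (hX : Ty t r L C X) (hY : Ty t r L C Y) (s : ℤˣ)
    (u w : H) : {v | X s u v ≠ 0 ∧ Y s v w ≠ 0}.Finite := by
  refine (fin_T hX s u ((s : ℤ) * (t.TT L r w - t.TT L r u) + r * C)).subset ?_
  rintro v ⟨h1, h2⟩
  refine ⟨h1, ?_⟩
  have h3 := ty_T hY h2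
  have h4 : (s : ℤ) * (t.TT L r v - t.TT L r u) = (s : ℤ) * (t.TT L r w - t.TT L r u) -
      (s : ℤ) * (t.TT L r w - t.TT L r v) := by ring
  rw [h4]
  linarith

theorem mul_ty {r : ℕ} {L C : ℤ} {X Y : Mx H} (hX : Ty t r L C X) (hY : Ty t r L C Y) :
    Ty t r L (2 * C) (mm X Y) := by
  have hC := hX.C0
  have hlow : ∀ s u w, mm X Y s u w ≠ 0 → ∀ k < r,
      -(2 * C) ≤ (s : ℤ) * (t.F L k w - t.F L k u) := by
    intro s u w hw k hk
    obtain ⟨v, h1, h2⟩ := dmul_ne hw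
    have h3 := hX.low s u v h1 k hk
    have h4 := hY.low s v w h2 k hk
    have h5 : (s : ℤ) * (t.F L k w - t.F L k u) = (s : ℤ) * (t.F L k v - t.F L k u) +
        (s : ℤ) * (t.F L k w - t.F L k v) := by ring
    rw [h5]
    linarith
  refine ⟨hX.L1, by linarith, ?_, hlow, ?_⟩
  · intro s e he u w
    show ∑ᶠ v : H, X s (e * u) v * Y s v (e * w) = ∑ᶠ v : H, X s u v * Y s v w
    rw [← finsum_comp_equiv (Equiv.mulLeft e)]
    refine finsum_congr fun v => ?_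
    rw [Equiv.coe_mulLeft, hX.inv s e he, hY.inv s e he]
  · intro s u w hw
    obtain ⟨v, h1, h2⟩ := dmul_ne hw
    have h3 := dmul_len hX h1
    have h4 := dmul_len hY h2
    have h5 : (t.ell (u⁻¹ * w) : ℤ) ≤ t.ell (u⁻¹ * v) + t.ell (v⁻¹ * w) := by
      have h6 := t.ell_mul (u⁻¹ * v) (v⁻¹ * w)
      have h7 : u⁻¹ * v * (v⁻¹ * w) = u⁻¹ * w := by group
      rw [h7] at h6
      exact_mod_cast h6
    have h8 : 0 ≤ ∑ k ∈ Finset.range r, ((s : ℤ) * (t.F L k w - t.F L k u) + 2 * C) :=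
      Finset.sum_nonneg fun k hk => by linarith [hlow s u w hw k (Finset.mem_range.1 hk)]
    rw [Finset.sum_add_distrib, Finset.sum_const, Finset.card_range, ← dmul_TT,
      nsmul_eq_mul] at h8 ⊢
    have h9 : C * (1 + (s : ℤ) * (t.TT L r v - t.TT L r u) + r * C) +
        C * (1 + (s : ℤ) * (t.TT L r w - t.TT L r v) + r * C) =
        2 * C * (1 + ((s : ℤ) * (t.TT L r w - t.TT L r u) + r * (2 * C))) -
          C * ((s : ℤ) * (t.TT L r w - t.TT L r u) + r * (2 * C)) := by ring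
    have h10 := mul_nonneg hC h8
    linarith

theorem add_ty {r : ℕ} {L C : ℤ} {X Y : Mx H} (hX : Ty t r L C X) (hY : Ty t r L C Y) :
    Ty t r L C (X + Y) := by
  have hor : ∀ s u w, (X + Y) s u w ≠ 0 → X s u w ≠ 0 ∨ Y s u w ≠ 0 := by
    intro s u w hw
    by_contra hc
    rw [not_or, not_not, not_not] at hc
    apply hw
    show X s u w + Y s u w = 0
    rw [hc.1, hc.2, add_zero]
  refine ⟨hX.L1, hX.C0, ?_, ?_, ?_⟩
  · intro s e he u w
    show X s (e * u) (e * w) + Y s (e * u) (e * w) = X s u w + Y s u w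
    rw [hX.inv s e he, hY.inv s e he]
  · intro s u w hw
    rcases hor s u w hw with h | h
    · exact hX.low s u w h
    · exact hY.low s u w h
  · intro s u w hw
    rcases hor s u w hw with h | h
    · exact hX.len s u w h
    · exact hY.len s u w h

theorem neg_ty {r : ℕ} {L C : ℤ} {X : Mx H} (hX : Ty t r L C X) : Ty t r L C (-X) := by
  have hor : ∀ s u w, (-X) s u w ≠ 0 → X s u w ≠ 0 := by
    intro s u w hw hc
    apply hw
    show -(X s u w) = 0
    rw [hc, neg_zero]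
  refine ⟨hX.L1, hX.C0, ?_, fun s u w hw => hX.low s u w (hor s u w hw),
    fun s u w hw => hX.len s u w (hor s u w hw)⟩
  intro s e he u w
  show -(X s (e * u) (e * w)) = -(X s u w)
  rw [hX.inv s e he]

theorem zero_ty (r : ℕ) {L C : ℤ} (hL : 1 ≤ L) (hC : 0 ≤ C) : Ty t r L C (0 : Mx H) := by
  exact ⟨hL, hC, fun _ _ _ _ _ => rfl, fun _ _ _ hw => absurd rfl hw,
    fun _ _ _ hw => absurd rfl hw⟩

theorem tame_mul {X Y : Mx H} (hX : Tame t X) (hY : Tame t Y) : Tame t (mm X Y) := by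
  obtain ⟨r, hr⟩ := tame_two hX hY
  obtain ⟨L, hL⟩ := hr r le_rfl
  obtain ⟨C, h1, h2⟩ := hL L le_rfl
  exact ⟨_, _, _, mul_ty h1 h2⟩

theorem tame_add {X Y : Mx H} (hX : Tame t X) (hY : Tame t Y) : Tame t (X + Y) := by
  obtain ⟨r, hr⟩ := tame_two hX hY
  obtain ⟨L, hL⟩ := hr r le_rfl
  obtain ⟨C, h1, h2⟩ := hL L le_rfl
  exact ⟨_, _, _, add_ty h1 h2⟩

theorem tame_neg {X : Mx H} (hX : Tame t X) : Tame t (-X) := by
  obtain ⟨r, L, C, h⟩ := hX
  exact ⟨_, _, _, neg_ty h⟩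

theorem tame_zero : Tame t (0 : Mx H) := ⟨0, 1, 0, zero_ty 0 le_rfl le_rfl⟩

end Pool.Agent.RFR
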