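import Pool.Agent.RFR.DBarA

set_option autoImplicit false

/-! RFR-DNz (3.6): leading terms of `q * X`.

PLAN.  `q_min`: the finite nonempty set of the classes in the support of `q` (they are classes of elements of `E (i - 1)`) has a `t.lt s i`-minimum (`lt_or`, `lt_congr`).  `lead_bar`: see (3.6) of the paper proof: for `w : H`:
`p [u⁻¹ w] = cvl q (bar X s u) [u⁻¹ w] = ∑_{e'} q e' * bar X s u (e'⁻¹ [u⁻¹ w])`, `e'⁻¹ u⁻¹ w = u⁻¹ (u e' u⁻¹)⁻¹ w`, `q (u e' u⁻¹) = q e'`, so it is the sum over `e` in the support of `q` of `q e * ∑ X s u w'`,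
`w'` with `[e w'] = [w]`.  For `e ∈ E (i - 1)` and `k < i`: `f k (e * w') = φ k e + f k w'` and `f k (e * w') - f k (e0 * w0) = (φ k e - φ k e0) + (f k w' - f k w0)`: at the first difference of
either pair it is positive (times `s`) unless `e ≡ e0` and `w' ≡ w0` modulo `N i`; `w' ≡ w0` and `X s u w' ≠ 0` imply `w' = w0` by `Ld` (`r ≤ i`). -/

namespace Pool.Agent.RFR

variable {H : Type} [Group H] {t : PT H}

private def dnz_R (t : PT H) (s : ℤ) (i : ℕ) (a b : H) : Prop := t.lt s i a b ∨ b * a⁻¹ ∈ t.N i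

private theorem dnz_self (i : ℕ) (a : H) : a * a⁻¹ ∈ t.N i := by
  rw [mul_inv_cancel]
  exact one_mem _

private theorem dnz_lt_R {s : ℤ} {i : ℕ} {a b c : H} (h : t.lt s i a b) (h' : dnz_R t s i b c) :
    t.lt s i a c := by
  rcases h' with h' | h'
  · exact lt_trans' t h h'
  · exact lt_congr t (dnz_self i a) h' h

private theorem dnz_R_lt {s : ℤ} {i : ℕ} {a b c : H} (h : dnz_R t s i a b) (h' : t.lt s i b c) :
    t.lt s i a c := by
  rcases h with h | h
  · exact lt_trans' t h h'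
  · refine lt_congr t (u := b) (w := c) ?_ (dnz_self i c) h'
    have h2 := inv_mem h
    rwa [mul_inv_rev, inv_inv] at h2

private theorem dnz_trans {s : ℤ} {i : ℕ} {a b c : H} (h : dnz_R t s i a b)
    (h' : dnz_R t s i b c) : dnz_R t s i a c := by
  rcases h with h | h
  · exact Or.inl (dnz_lt_R h h')
  · rcases h' with h' | h'
    · exact Or.inl (dnz_R_lt (Or.inr h) h')
    · right
      have h2 : c * a⁻¹ = (c * b⁻¹) * (b * a⁻¹) := by group
      rw [h2]
      exact mul_mem h' h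

private theorem dnz_total {s : ℤ} (hs : s ≠ 0) (i : ℕ) (a b : H) :
    dnz_R t s i a b ∨ dnz_R t s i b a := by
  rcases lt_or t hs i a b with h | h | h
  · exact Or.inl (Or.inl h)
  · exact Or.inl (Or.inr h)
  · exact Or.inr (Or.inl h)

private theorem dnz_min {s : ℤ} (hs : s ≠ 0) (i : ℕ) (S : Finset H) (hS : S.Nonempty) :
    ∃ e ∈ S, ∀ e' ∈ S, dnz_R t s i e e' := by
  classical
  induction hS using Finset.Nonempty.cons_induction with
  | singleton a =>
    refine ⟨a, Finset.mem_singleton_self a, fun e' he' => ?_⟩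
    rw [Finset.mem_singleton] at he'
    rw [he']
    exact Or.inr (dnz_self i a)
  | cons a S ha hS ih =>
    obtain ⟨e, he, hmin⟩ := ih
    rcases dnz_total (t := t) hs i e a with h | h
    · refine ⟨e, Finset.mem_cons_of_mem he, fun e' he' => ?_⟩
      rw [Finset.mem_cons] at he'
      rcases he' with rfl | he'
      · exact h
      · exact hmin e' he'
    · refine ⟨a, Finset.mem_cons_self a S, fun e' he' => ?_⟩
      rw [Finset.mem_cons] at he'
      rcases he' with rfl | he'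
      · exact Or.inr (dnz_self i _)
      · exact dnz_trans h (hmin e' he')

private theorem dnz_eq {i : ℕ} [hn : (t.N i).Normal] {a b : H}
    (h : (a : H ⧸ t.N i) = (b : H ⧸ t.N i)) : b * a⁻¹ ∈ t.N i := by
  have h1 : a⁻¹ * b ∈ t.N i := QuotientGroup.eq.1 h
  have h2 := hn.conj_mem _ h1 a
  have h3 : a * (a⁻¹ * b) * a⁻¹ = b * a⁻¹ := by group
  rwa [h3] at h2

private theorem dnz_eq' {i : ℕ} [hn : (t.N i).Normal] {a b : H} (h : b * a⁻¹ ∈ t.N i) :
    (a : H ⧸ t.N i) = (b : H ⧸ t.N i) := by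
  rw [QuotientGroup.eq]
  have h2 := hn.conj_mem _ h a⁻¹
  have h3 : a⁻¹ * (b * a⁻¹) * a⁻¹⁻¹ = a⁻¹ * b := by group
  rwa [h3] at h2

theorem q_min {i : ℕ} [(t.N i).Normal] {q : MonoidAlgebra ℚ (H ⧸ t.N i)} (hq : q ≠ 0)
    (hZ : IsZ (t.BB i) q) (s : ℤˣ) :
    ∃ e ∈ t.E (i - 1), q.coeff (e : H ⧸ t.N i) ≠ 0 ∧ ∀ e' ∈ t.E (i - 1),
      q.coeff (e' : H ⧸ t.N i) ≠ 0 → t.lt s i e e' ∨ e' * e⁻¹ ∈ t.N i := by
  classical
  have hs : ((s : ℤˣ) : ℤ) ≠ 0 := Units.ne_zero s
  have h1 : ∀ g : H ⧸ t.N i, ∃ a : H, q.coeff g ≠ 0 → a ∈ t.E (i - 1) ∧ (a : H ⧸ t.N i) = g := by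
    intro g
    by_cases hg : q.coeff g ≠ 0
    · obtain ⟨a, ha, hag⟩ := hZ.1 g hg
      exact ⟨a, fun _ => ⟨ha, hag⟩⟩
    · exact ⟨1, fun h => absurd h hg⟩
  choose ρ hρ using h1
  have hne : q.coeff.support.Nonempty := by
    rw [Finsupp.support_nonempty_iff]
    intro h
    exact hq (MonoidAlgebra.coeff_eq_zero.1 h)
  obtain ⟨e, he, hmin⟩ := dnz_min (t := t) hs i (q.coeff.support.image ρ) (hne.image ρ)
  rw [Finset.mem_image] at he
  obtain ⟨g, hg, hge⟩ := he
  rw [Finsupp.mem_support_iff] at hg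
  obtain ⟨h2, h3⟩ := hρ g hg
  rw [hge] at h2 h3
  refine ⟨e, h2, ?_, ?_⟩
  · rw [h3]
    exact hg
  · intro e' he' hqe'
    obtain ⟨h4, h5⟩ := hρ (e' : H ⧸ t.N i) hqe'
    have h6 : ρ (e' : H ⧸ t.N i) ∈ q.coeff.support.image ρ := by
      rw [Finset.mem_image]
      exact ⟨_, Finsupp.mem_support_iff.2 hqe', rfl⟩
    exact dnz_trans (hmin _ h6) (Or.inr (dnz_eq h5))

open scoped Classical in
private theorem dnz_bar {i : ℕ} {X : Mx H} {s : ℤˣ} {u : H} {g : H ⧸ t.N i}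
    (h : bar t i X s u g ≠ 0) : ∃ w : H, ((u⁻¹ * w : H) : H ⧸ t.N i) = g ∧ X s u w ≠ 0 := by
  by_contra hcon
  push Not at hcon
  apply h
  unfold bar
  refine finsum_eq_zero_of_forall_eq_zero fun w => ?_
  rw [finsum_eq_if]
  split_ifs with hw
  · exact hcon w hw
  · rfl

private theorem dnz_bar_single {i : ℕ} {X : Mx H} {s : ℤˣ} {u w0 : H} {g : H ⧸ t.N i}
    (hg : ((u⁻¹ * w0 : H) : H ⧸ t.N i) = g)
    (h : ∀ w : H, ((u⁻¹ * w : H) : H ⧸ t.N i) = g → w ≠ w0 → X s u w = 0) :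
    bar t i X s u g = X s u w0 := by
  classical
  unfold bar
  rw [finsum_eq_single _ w0, finsum_eq_if, if_pos hg]
  intro w hw
  rw [finsum_eq_if]
  split_ifs with hw'
  · exact h w hw' hw
  · rfl

private theorem dnz_arg {i : ℕ} [(t.N i).Normal] (u w a : H) :
    (((u⁻¹ * a * u : H) : H ⧸ t.N i))⁻¹ * ((u⁻¹ * w : H) : H ⧸ t.N i) =
      ((u⁻¹ * (a⁻¹ * w) : H) : H ⧸ t.N i) := by
  rw [← QuotientGroup.mk_inv, ← QuotientGroup.mk_mul]
  congr 1
  group

/-- the general position of the elements of the row -/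
private theorem dnz_le {i : ℕ} [(t.N i).Normal] {r : ℕ} {X : Mx H} (hr : r + 1 ≤ i) {s : ℤˣ}
    {e a u w0 w' : H} (he : e ∈ t.E (i - 1)) (hea : dnz_R t s i e a) (hL : Ld t r X s u w0)
    (hw' : X s u w' ≠ 0) : dnz_R t s i (e * w0) (a * w') ∧
      (w' ≠ w0 → t.lt s i (e * w0) (a * w')) := by
  have hR : dnz_R t s i (e * w') (a * w') := by
    rcases hea with h | h
    · exact Or.inl (lt_mul_right t h w')
    · right
      have h2 : a * w' * (e * w')⁻¹ = a * e⁻¹ := by group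
      rw [h2]
      exact h
  by_cases hww : w' = w0
  · rw [hww] at hR ⊢
    exact ⟨hR, fun h => absurd rfl h⟩
  · have h1 : t.lt s i w0 w' := lt_mono t (by omega) (hL.2 w' hw' hww)
    have h2 : t.lt s i (e * w0) (e * w') :=
      lt_mul_left t h1 fun k hk => t.E_le (show k ≤ i - 1 by omega) he
    have h3 : t.lt s i (e * w0) (a * w') := dnz_lt_R h2 hR
    exact ⟨Or.inl h3, fun _ => h3⟩

theorem lead_bar {i : ℕ} (hi : t.Good i) [(t.N i).Normal] {r : ℕ} {L C : ℤ} {X : Mx H}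
    (hX : Ty t r L C X) (hr : r + 1 ≤ i) {q p : MonoidAlgebra ℚ (H ⧸ t.N i)}
    (hZ : IsZ (t.BB i) q) (h : ∀ s u g, cvl q (bar t i X s u) g = p.coeff g) {s : ℤˣ} {e : H}
    (he : e ∈ t.E (i - 1)) (hqe : q.coeff (e : H ⧸ t.N i) ≠ 0)
    (hmin : ∀ e' ∈ t.E (i - 1), q.coeff (e' : H ⧸ t.N i) ≠ 0 →
      t.lt s i e e' ∨ e' * e⁻¹ ∈ t.N i) {u w0 : H} (hL : Ld t r X s u w0) :
    p.coeff ((u⁻¹ * (e * w0) : H) : H ⧸ t.N i) ≠ 0 ∧
      ∀ w : H, p.coeff ((u⁻¹ * w : H) : H ⧸ t.N i) ≠ 0 →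
        w * (e * w0)⁻¹ ∈ t.N i ∨ t.lt s i (e * w0) w := by
  classical
  -- representatives: every element of the support is `u⁻¹ a u` with `a ∈ E (i - 1)`
  have hrep : ∀ g : H ⧸ t.N i, q.coeff g ≠ 0 → ∃ a ∈ t.E (i - 1),
      q.coeff (a : H ⧸ t.N i) = q.coeff g ∧ ((u⁻¹ * a * u : H) : H ⧸ t.N i) = g := by
    intro g hg
    have h1 := hZ.2 (u : H ⧸ t.N i) g
    obtain ⟨a, ha, hag⟩ := hZ.1 ((u : H ⧸ t.N i) * g * (u : H ⧸ t.N i)⁻¹) (by rw [h1]; exact hg)
    have hag' : (a : H ⧸ t.N i) = (u : H ⧸ t.N i) * g * (u : H ⧸ t.N i)⁻¹ := hag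
    refine ⟨a, ha, by rw [hag', h1], ?_⟩
    rw [QuotientGroup.mk_mul, QuotientGroup.mk_mul, hag', QuotientGroup.mk_inv]
    group
  have hqconj : ∀ a : H, q.coeff ((u⁻¹ * a * u : H) : H ⧸ t.N i) = q.coeff (a : H ⧸ t.N i) := by
    intro a
    have h1 := hZ.2 ((u⁻¹ : H) : H ⧸ t.N i) (a : H ⧸ t.N i)
    rw [← h1]
    congr 1
    rw [QuotientGroup.mk_mul, QuotientGroup.mk_mul, QuotientGroup.mk_inv, inv_inv]
  constructor
  · rw [← h s u]
    unfold cvl Finsupp.sum
    have hbar : bar t i X s u ((u⁻¹ * w0 : H) : H ⧸ t.N i) = X s u w0 := by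
      refine dnz_bar_single rfl fun w hw hne => ?_
      by_contra hXw
      have h1 : t.lt s i w0 w := lt_mono t (by omega) (hL.2 w hXw hne)
      have h2 : w0 * w⁻¹ ∈ t.N i := by
        have h3 : (w : H ⧸ t.N i) = (w0 : H ⧸ t.N i) := by
          rw [QuotientGroup.mk_mul, QuotientGroup.mk_mul] at hw
          exact mul_left_cancel hw
        exact dnz_eq h3
      exact lt_irrefl' t (dnz_lt_R h1 (Or.inr h2))
    rw [Finset.sum_eq_single ((u⁻¹ * e * u : H) : H ⧸ t.N i)]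
    · beta_reduce
      rw [dnz_arg, hqconj]
      have h1 : e⁻¹ * (e * w0) = w0 := by group
      rw [h1, hbar]
      exact mul_ne_zero hqe hL.1
    · intro g hg hge
      rw [Finsupp.mem_support_iff] at hg
      obtain ⟨a, ha, hag, hau⟩ := hrep g hg
      have hbar0 : bar t i X s u (g⁻¹ * ((u⁻¹ * (e * w0) : H) : H ⧸ t.N i)) = 0 := by
        by_contra hb
        obtain ⟨w', hw', hX'⟩ := dnz_bar hb
        rw [← hau, dnz_arg, QuotientGroup.mk_mul, QuotientGroup.mk_mul] at hw'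
        have h1 : (w' : H ⧸ t.N i) = ((a⁻¹ * (e * w0) : H) : H ⧸ t.N i) := mul_left_cancel hw'
        have h2 : (((a * w' : H)) : H ⧸ t.N i) = ((e * w0 : H) : H ⧸ t.N i) := by
          rw [QuotientGroup.mk_mul, h1, ← QuotientGroup.mk_mul]
          congr 1
          group
        have h3 := dnz_eq h2
        have hea : dnz_R t s i e a := hmin a ha (by rw [hag]; exact hg)
        have h4 := dnz_le hr he hea hL hX'
        by_cases hww : w' = w0
        · rcases hea with h5 | h5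
          · have h6 : t.lt s i (e * w0) (a * w') := by
              rw [hww]
              exact lt_mul_right t h5 w0
            exact lt_irrefl' t (dnz_lt_R h6 (Or.inr h3))
          · apply hge
            rw [← hau]
            rw [QuotientGroup.mk_mul, QuotientGroup.mk_mul, QuotientGroup.mk_mul,
              QuotientGroup.mk_mul, dnz_eq' h5]
        · exact lt_irrefl' t (dnz_lt_R (h4.2 hww) (Or.inr h3))
      beta_reduce
      rw [hbar0, mul_zero]
    · intro hg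
      rw [Finsupp.notMem_support_iff, hqconj] at hg
      exact absurd hg hqe
  · intro w hw
    rw [← h s u] at hw
    unfold cvl Finsupp.sum at hw
    obtain ⟨g, hg, hgw⟩ := Finset.exists_ne_zero_of_sum_ne_zero hw
    rw [Finsupp.mem_support_iff] at hg
    have hb := right_ne_zero_of_mul hgw
    obtain ⟨a, ha, hag, hau⟩ := hrep g hg
    obtain ⟨w', hw', hX'⟩ := dnz_bar hb
    rw [← hau, dnz_arg, QuotientGroup.mk_mul, QuotientGroup.mk_mul] at hw'
    have h1 : (w' : H ⧸ t.N i) = ((a⁻¹ * w : H) : H ⧸ t.N i) := mul_left_cancel hw'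
    have h2 : (((a * w' : H)) : H ⧸ t.N i) = (w : H ⧸ t.N i) := by
      rw [QuotientGroup.mk_mul, h1, ← QuotientGroup.mk_mul]
      congr 1
      group
    have h3 := dnz_eq h2
    have hea : dnz_R t s i e a := hmin a ha (by rw [hag]; exact hg)
    have h4 := dnz_le hr he hea hL hX'
    rcases dnz_trans h4.1 (Or.inr h3) with h5 | h5
    · exact Or.inr h5
    · exact Or.inl h5

end Pool.Agent.RFR
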