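import Pool.Agent.RFR.DDefs

set_option autoImplicit false

/-! Project RFR (MP_8a0829_al): the potentials `F` of a tower: translations by `E k`, change of the weight,
Lipschitz bounds, the first level at which two elements differ. -/

namespace Pool.Agent.RFR

variable {H : Type} [Group H] (t : PT H)

theorem F_mul (L : ℤ) (k : ℕ) {e : H} (he : e ∈ t.E k) (u : H) :
    t.F L k (e * u) = t.F L k u + (t.F L k e - t.F L k 1) := by
  induction k with
  | zero =>
    have h1 := t.f_mul 0 e he u
    have h2 := t.f_mul 0 e he 1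
    rw [mul_one] at h2
    simp only [PT.F]
    omega
  | succ k ih =>
    have h1 := t.f_mul (k + 1) e he u
    have h2 := t.f_mul (k + 1) e he 1
    rw [mul_one] at h2
    have h3 := ih (t.anti k he)
    simp only [PT.F]
    rw [h3]
    linear_combination h1 - h2

theorem TT_mul (L : ℤ) (r : ℕ) {e : H} (he : e ∈ t.E r) (u : H) :
    t.TT L r (e * u) = t.TT L r u + (t.TT L r e - t.TT L r 1) := by
  have h : ∀ k ∈ Finset.range r,
      t.F L k (e * u) = t.F L k u + (t.F L k e - t.F L k 1) := fun k hk =>
    F_mul t L k (t.E_le (Finset.mem_range.mp hk).le he) u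
  unfold PT.TT
  rw [Finset.sum_congr rfl h, Finset.sum_add_distrib, Finset.sum_sub_distrib]

theorem F_change (L L' : ℤ) (k : ℕ) (u : H) :
    t.F L' k u = t.F L k u + (L' - L) * ∑ j ∈ Finset.range k, L' ^ (k - 1 - j) * t.F L j u := by
  induction k with
  | zero => simp [PT.F]
  | succ k ih =>
    have h : ∑ j ∈ Finset.range (k + 1), L' ^ (k + 1 - 1 - j) * t.F L j u =
        L' * (∑ j ∈ Finset.range k, L' ^ (k - 1 - j) * t.F L j u) + t.F L k u := by
      rw [Finset.sum_range_succ, Finset.mul_sum]
      congr 1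
      · refine Finset.sum_congr rfl fun j hj => ?_
        have hj' := Finset.mem_range.mp hj
        have e1 : k + 1 - 1 - j = (k - 1 - j) + 1 := by omega
        rw [e1, pow_succ]
        ring
      · have e2 : k + 1 - 1 - k = 0 := by omega
        rw [e2, pow_zero, one_mul]
    rw [h]
    simp only [PT.F]
    rw [ih]
    ring

theorem F_lip (L : ℤ) (k : ℕ) : ∃ A : ℕ, ∀ u g, |t.F L k (u * g) - t.F L k u| ≤ A * t.ell g := by
  induction k with
  | zero => exact t.lip 0
  | succ k ih =>
    obtain ⟨A, hA⟩ := ih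
    obtain ⟨B, hB⟩ := t.lip (k + 1)
    refine ⟨L.natAbs * A + B, fun u g => ?_⟩
    have h1 := hA u g
    have h2 := hB u g
    have e : t.F L (k + 1) (u * g) - t.F L (k + 1) u =
        L * (t.F L k (u * g) - t.F L k u) + (t.f (k + 1) (u * g) - t.f (k + 1) u) := by
      simp only [PT.F]
      ring
    rw [e]
    have h3 : |L * (t.F L k (u * g) - t.F L k u)| ≤ |L| * (A * t.ell g) := by
      rw [abs_mul]
      exact mul_le_mul_of_nonneg_left h1 (abs_nonneg L)
    have h4 := abs_add_le (L * (t.F L k (u * g) - t.F L k u)) (t.f (k + 1) (u * g) - t.f (k + 1) u)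
    have h5 : (((L.natAbs * A + B : ℕ)) : ℤ) * t.ell g = |L| * (A * t.ell g) + B * t.ell g := by
      push_cast
      ring
    rw [h5]
    linarith

theorem TT_lip (L : ℤ) (r : ℕ) : ∃ A : ℕ, ∀ u g, |t.TT L r (u * g) - t.TT L r u| ≤ A * t.ell g := by
  induction r with
  | zero => exact ⟨0, fun u g => by simp [PT.TT]⟩
  | succ r ih =>
    obtain ⟨A, hA⟩ := ih
    obtain ⟨B, hB⟩ := F_lip t L r
    refine ⟨A + B, fun u g => ?_⟩
    have h1 := hA u g
    have h2 := hB u g
    have e : t.TT L (r + 1) (u * g) - t.TT L (r + 1) u =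
        (t.TT L r (u * g) - t.TT L r u) + (t.F L r (u * g) - t.F L r u) := by
      simp only [PT.TT, Finset.sum_range_succ]
      ring
    rw [e]
    have h4 := abs_add_le (t.TT L r (u * g) - t.TT L r u) (t.F L r (u * g) - t.F L r u)
    push_cast
    linarith

theorem F_first (L : ℤ) {k : ℕ} {u w : H} (h : ∀ j < k, t.f j u = t.f j w) :
    (∀ j < k, t.F L j u = t.F L j w) ∧ t.F L k w - t.F L k u = t.f k w - t.f k u := by
  have h0 : ∀ j < k, t.F L j u = t.F L j w := by
    intro j
    induction j with
    | zero => intro hj; exact h 0 hj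
    | succ j ih =>
      intro hj
      simp only [PT.F]
      rw [ih (by omega), h (j + 1) hj]
  refine ⟨h0, ?_⟩
  cases k with
  | zero => rfl
  | succ k =>
    simp only [PT.F]
    rw [h0 k (Nat.lt_succ_self k)]
    ring

end Pool.Agent.RFR
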