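import Pool.Agent.RFR.DMul

set_option autoImplicit false

/-! RFR-DRng (2.2): ring axioms for tame matrices.

Associativity: all sums run over finite sets which do not depend on the order of summation (`fin_T`, `fin_mul`). -/

namespace Pool.Agent.RFR

variable {H : Type} [Group H] {t : PT H}

private lemma drng_three {X Y Z : Mx H} (hX : Tame t X) (hY : Tame t Y) (hZ : Tame t Z) :
    ∃ r L C, Ty t r L C X ∧ Ty t r L C Y ∧ Ty t r L C Z := by
  obtain ⟨r, hr⟩ := tame_all (n := 3) (X := ![X, Y, Z]) (fun i => by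
    fin_cases i
    · exact hX
    · exact hY
    · exact hZ)
  obtain ⟨L, hL⟩ := hr r le_rfl
  obtain ⟨C, hC⟩ := hL L le_rfl
  exact ⟨r, L, C, hC 0, hC 1, hC 2⟩

theorem mm_assoc {X Y Z : Mx H} (hX : Tame t X) (hY : Tame t Y) (hZ : Tame t Z) :
    mm (mm X Y) Z = mm X (mm Y Z) := by
  classical
  obtain ⟨r, L, C, h1, h2, h3⟩ := drng_three hX hY hZ
  funext s u w
  have hB : {v' | X s u v' ≠ 0 ∧ ∃ v, Y s v' v ≠ 0 ∧ Z s v w ≠ 0}.Finite := by
    refine (fin_T h1 s u ((s : ℤ) * (t.TT L r w - t.TT L r u) + 2 * (r * C))).subset ?_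
    rintro v' ⟨h4, v, h5, h6⟩
    refine ⟨h4, ?_⟩
    have h7 := ty_T h2 h5
    have h8 := ty_T h3 h6
    have h9 : (s : ℤ) * (t.TT L r v' - t.TT L r u) = (s : ℤ) * (t.TT L r w - t.TT L r u) -
        (s : ℤ) * (t.TT L r w - t.TT L r v) - (s : ℤ) * (t.TT L r v - t.TT L r v') := by ring
    rw [h9]
    linarith
  have hA : (⋃ v' ∈ {v' | X s u v' ≠ 0 ∧ ∃ v, Y s v' v ≠ 0 ∧ Z s v w ≠ 0},
      {v | Y s v' v ≠ 0 ∧ Z s v w ≠ 0}).Finite := hB.biUnion fun v' _ => fin_mul h2 h3 s v' w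
  have hA' : ∀ v v', X s u v' ≠ 0 → Y s v' v ≠ 0 → Z s v w ≠ 0 → v ∈ hA.toFinset := by
    intro v v' h4 h5 h6
    rw [Set.Finite.mem_toFinset, Set.mem_iUnion₂]
    exact ⟨v', ⟨h4, v, h5, h6⟩, h5, h6⟩
  have hB' : ∀ v v', X s u v' ≠ 0 → Y s v' v ≠ 0 → Z s v w ≠ 0 → v' ∈ hB.toFinset := by
    intro v v' h4 h5 h6
    rw [Set.Finite.mem_toFinset]
    exact ⟨h4, v, h5, h6⟩
  have hL : mm (mm X Y) Z s u w =
      ∑ v ∈ hA.toFinset, ∑ v' ∈ hB.toFinset, X s u v' * Y s v' v * Z s v w := by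
    have h4 : ∀ v, mm X Y s u v * Z s v w =
        ∑ v' ∈ hB.toFinset, X s u v' * Y s v' v * Z s v w := by
      intro v
      by_cases h5 : Z s v w = 0
      · rw [h5, mul_zero]
        exact (Finset.sum_eq_zero fun v' _ => mul_zero _).symm
      · rw [← Finset.sum_mul]
        congr 1
        refine finsum_eq_sum_of_support_subset _ fun v' h6 => ?_
        rw [Function.mem_support] at h6
        exact Finset.mem_coe.2 (hB' v v' (left_ne_zero_of_mul h6) (right_ne_zero_of_mul h6) h5)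
    change ∑ᶠ v, mm X Y s u v * Z s v w = _
    rw [finsum_congr h4]
    refine finsum_eq_sum_of_support_subset _ fun v h6 => ?_
    rw [Function.mem_support] at h6
    obtain ⟨v', -, h7⟩ := Finset.exists_ne_zero_of_sum_ne_zero h6
    exact Finset.mem_coe.2 (hA' v v' (left_ne_zero_of_mul (left_ne_zero_of_mul h7))
      (right_ne_zero_of_mul (left_ne_zero_of_mul h7)) (right_ne_zero_of_mul h7))
  have hR : mm X (mm Y Z) s u w =
      ∑ v' ∈ hB.toFinset, ∑ v ∈ hA.toFinset, X s u v' * Y s v' v * Z s v w := by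
    have h4 : ∀ v', X s u v' * mm Y Z s v' w =
        ∑ v ∈ hA.toFinset, X s u v' * Y s v' v * Z s v w := by
      intro v'
      by_cases h5 : X s u v' = 0
      · rw [h5, zero_mul]
        exact (Finset.sum_eq_zero fun v _ => by rw [zero_mul, zero_mul]).symm
      · simp only [mul_assoc]
        rw [← Finset.mul_sum]
        congr 1
        refine finsum_eq_sum_of_support_subset _ fun v h6 => ?_
        rw [Function.mem_support] at h6
        exact Finset.mem_coe.2 (hA' v v' h5 (left_ne_zero_of_mul h6) (right_ne_zero_of_mul h6))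
    change ∑ᶠ v', X s u v' * mm Y Z s v' w = _
    rw [finsum_congr h4]
    refine finsum_eq_sum_of_support_subset _ fun v' h6 => ?_
    rw [Function.mem_support] at h6
    obtain ⟨v, -, h7⟩ := Finset.exists_ne_zero_of_sum_ne_zero h6
    exact Finset.mem_coe.2 (hB' v v' (left_ne_zero_of_mul (left_ne_zero_of_mul h7))
      (right_ne_zero_of_mul (left_ne_zero_of_mul h7)) (right_ne_zero_of_mul h7))
  rw [hL, hR, Finset.sum_comm]

private lemma drng_supp {r : ℕ} {L C : ℤ} {X Y : Mx H} (hX : Ty t r L C X) (hY : Ty t r L C Y)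
    (s : ℤˣ) (u w : H) : (Function.support fun v => X s u v * Y s v w).Finite := by
  refine (fin_mul hX hY s u w).subset fun v hv => ?_
  rw [Function.mem_support] at hv
  exact ⟨left_ne_zero_of_mul hv, right_ne_zero_of_mul hv⟩

theorem mm_add {X Y Z : Mx H} (hX : Tame t X) (hY : Tame t Y) (hZ : Tame t Z) :
    mm X (Y + Z) = mm X Y + mm X Z := by
  obtain ⟨r, L, C, h1, h2, h3⟩ := drng_three hX hY hZ
  funext s u w
  change ∑ᶠ v, X s u v * (Y s v w + Z s v w) =
    (∑ᶠ v, X s u v * Y s v w) + ∑ᶠ v, X s u v * Z s v w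
  rw [← finsum_add_distrib (drng_supp h1 h2 s u w) (drng_supp h1 h3 s u w)]
  exact finsum_congr fun v => mul_add _ _ _

theorem add_mm {X Y Z : Mx H} (hX : Tame t X) (hY : Tame t Y) (hZ : Tame t Z) :
    mm (X + Y) Z = mm X Z + mm Y Z := by
  obtain ⟨r, L, C, h1, h2, h3⟩ := drng_three hX hY hZ
  funext s u w
  change ∑ᶠ v, (X s u v + Y s u v) * Z s v w =
    (∑ᶠ v, X s u v * Z s v w) + ∑ᶠ v, Y s u v * Z s v w
  rw [← finsum_add_distrib (drng_supp h1 h3 s u w) (drng_supp h2 h3 s u w)]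
  exact finsum_congr fun v => add_mul _ _ _

theorem one_mm (X : Mx H) : mm I1 X = X := by
  classical
  funext s u w
  change ∑ᶠ v, I1 s u v * X s v w = X s u w
  rw [finsum_eq_single _ u (fun v hv => by
    rw [I1, if_neg (Ne.symm hv), zero_mul])]
  rw [I1, if_pos rfl, one_mul]

theorem mm_one (X : Mx H) : mm X I1 = X := by
  classical
  funext s u w
  change ∑ᶠ v, X s u v * I1 s v w = X s u w
  rw [finsum_eq_single _ w (fun v hv => by
    rw [I1, if_neg hv, mul_zero])]
  rw [I1, if_pos rfl, mul_one]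

theorem zero_mm (X : Mx H) : mm 0 X = 0 := by
  funext s u w
  change ∑ᶠ v, (0 : ℚ) * X s v w = 0
  rw [finsum_congr fun v => zero_mul (X s v w)]
  exact finsum_zero

theorem mm_zero (X : Mx H) : mm X 0 = 0 := by
  funext s u w
  change ∑ᶠ v, X s u v * (0 : ℚ) = 0
  rw [finsum_congr fun v => mul_zero (X s u v)]
  exact finsum_zero

end Pool.Agent.RFR
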