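import Pool.Agent.RFR.FMain
import Pool.Agent.PDC.ThmBF

set_option autoImplicit false

/-! RFR-FFin: Theorem R for virtually RFRS subgroups. -/

namespace Pool.Agent.RFR

/-- virtually RFRS groups -/
def VRFRS (K : Type) [Group K] : Prop := ∃ K₀ : Subgroup K, K₀.FiniteIndex ∧ RFRS K₀

/-- the structure statement: a finite index subgroup with a homomorphism to `ℤ` whose kernel is
locally free -/
def LFbyZ (H : Type) [Group H] : Prop :=
  ∃ E : Subgroup H, E.FiniteIndex ∧ ∃ θ : E →* Multiplicative ℤ,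
    ∀ K : Subgroup E, K ≤ θ.ker → K.FG → IsFreeGroup K

private theorem FFin_up {H : Type} [Group H] (K0 : Subgroup H) (hK0 : K0.FiniteIndex) {P : Type}
    [Group P] (e : K0 ≃* P) (h : LFbyZ P) : LFbyZ H := by
  obtain ⟨E, hE, θ, hθ⟩ := h
  have hi : Function.Injective (K0.subtype.comp e.symm.toMonoidHom) :=
    K0.subtype_injective.comp e.symm.injective
  let e' := E.equivMapOfInjective (K0.subtype.comp e.symm.toMonoidHom) hi
  refine ⟨E.map (K0.subtype.comp e.symm.toMonoidHom), ?_, θ.comp e'.symm.toMonoidHom, ?_⟩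
  · refine ⟨?_⟩
    rw [← Subgroup.map_map, Subgroup.index_map_subtype]
    refine mul_ne_zero ?_ hK0.index_ne_zero
    have h1 : (E.map e.symm.toMonoidHom).index = E.index :=
      Subgroup.index_map_of_bijective e.symm.bijective E
    rw [h1]
    exact hE.index_ne_zero
  · intro K hK hKfg
    have h1 : K.map e'.symm.toMonoidHom ≤ θ.ker := by
      rintro _ ⟨g, hg, rfl⟩
      exact hK hg
    have hKF : Group.FG K := (Group.fg_iff_subgroup_fg K).2 hKfg
    let e2 := K.equivMapOfInjective e'.symm.toMonoidHom e'.symm.injective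
    have h2 : (K.map e'.symm.toMonoidHom).FG := (Group.fg_iff_subgroup_fg _).1
      (Group.fg_of_surjective (f := e2.toMonoidHom) e2.surjective)
    have h3 := hθ _ h1 h2
    exact IsFreeGroup.ofMulEquiv e2.symm

private theorem FFin_data {G : Type} [Group G] (H : Subgroup G) (hfg : H.FG) (K0 : Subgroup H)
    (hK0 : K0.FiniteIndex) (hR : RFRS K0) :
    (K0.map H.subtype).FG ∧ RFRS (K0.map H.subtype) := by
  have h1 : Group.FG H := (Group.fg_iff_subgroup_fg H).2 hfg
  have h2 : Group.FG K0 := Subgroup.fg_of_index_ne_zero _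
  let e := K0.equivMapOfInjective H.subtype H.subtype_injective
  exact ⟨(Group.fg_iff_subgroup_fg _).1
    (Group.fg_of_surjective (f := e.toMonoidHom) e.surjective), rfrs_equiv e hR⟩

theorem thmR_fp {G : Type} [Group G] (X : PDC.PD3 G) (H : Subgroup G) (hfg : H.FG)
    (hV : VRFRS H) : Group.IsFinitelyPresented H := by
  obtain ⟨K0, hK0, hR⟩ := hV
  obtain ⟨h1, h2⟩ := FFin_data H hfg K0 hK0 hR
  have h3 := rfrs_case X _ h1 h2
  have h4 : Group.IsFinitelyPresented K0 := Group.IsFinitelyPresented.equiv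
    (K0.equivMapOfInjective H.subtype H.subtype_injective).symm
  exact PDC.fp_of_finiteIndex K0

theorem thmR_struct {G : Type} [Group G] (X : PDC.PD3 G) (H : Subgroup G) (hfg : H.FG)
    (hind : H.index = 0) (hV : VRFRS H) : LFbyZ H := by
  obtain ⟨K0, hK0, hR⟩ := hV
  obtain ⟨h1, h2⟩ := FFin_data H hfg K0 hK0 hR
  have h3 : (K0.map H.subtype).index = 0 := by
    rw [Subgroup.index_map_subtype, hind, mul_zero]
  exact FFin_up K0 hK0 (K0.equivMapOfInjective H.subtype H.subtype_injective)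
    (main_struct X _ h1 h2 h3)

theorem vrfrs_sub {K : Type} [Group K] (h : VRFRS K) (A : Subgroup K) : VRFRS A := by
  obtain ⟨K₀, hK₀, hR⟩ := h
  refine ⟨K₀.subgroupOf A, inferInstance, ?_⟩
  have h1 : RFRS (A.subgroupOf K₀) := rfrs_sub hR _
  let e : A.subgroupOf K₀ ≃* K₀.subgroupOf A :=
    { toFun := fun g => ⟨⟨g.1.1, g.2⟩, g.1.2⟩
      invFun := fun g => ⟨⟨g.1.1, g.2⟩, g.1.2⟩
      left_inv := fun g => rfl
      right_inv := fun g => rfl
      map_mul' := fun a b => rfl }
  exact rfrs_equiv e h1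

theorem vrfrs_equiv {K K' : Type} [Group K] [Group K'] (e : K ≃* K') (h : VRFRS K) : VRFRS K' := by
  obtain ⟨K₀, hK₀, hR⟩ := h
  refine ⟨K₀.map e.toMonoidHom, ⟨?_⟩, rfrs_equiv (K₀.equivMapOfInjective e.toMonoidHom e.injective) hR⟩
  have h1 : (K₀.map e.toMonoidHom).index = K₀.index :=
    Subgroup.index_map_of_bijective e.bijective K₀
  rw [h1]
  exact hK₀.index_ne_zero

end Pool.Agent.RFR
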