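import Mathlib

set_option autoImplicit false

/-! Project RFR (MP_8a0829_al, Theorem R; paper proof /team-store/rfr_proof.md), part P (sections 4-7):
relation modules over `ℚ`, slabs: definitions. -/

namespace Pool.Agent.RFR

open MonoidAlgebra

/-- the boundary map `(ℚK)^ι → ℚK`, `y ↦ ∑ y_j (x_j - 1)`, of a tuple `x` -/
noncomputable def bq {K : Type} [Group K] {ι : Type} [Fintype ι] (x : ι → K) :
    (ι → MonoidAlgebra ℚ K) →ₗ[MonoidAlgebra ℚ K] MonoidAlgebra ℚ K :=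
  Fintype.linearCombination (MonoidAlgebra ℚ K) (fun j => of ℚ K (x j) - 1)

theorem bq_apply {K : Type} [Group K] {ι : Type} [Fintype ι] (x : ι → K)
    (y : ι → MonoidAlgebra ℚ K) : bq x y = ∑ j, y j * (of ℚ K (x j) - 1) := by
  simp [bq, Fintype.linearCombination_apply, smul_eq_mul]

/-- all relation modules of `K` over `ℚ` are finitely generated -/
def RelQ (K : Type) [Group K] : Prop :=
  ∀ (ι : Type) [Fintype ι] (x : ι → K), Subgroup.closure (Set.range x) = ⊤ →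
    (LinearMap.ker (bq x)).FG

/-- the support of `c` is contained in the slab `a ≤ T ≤ b` -/
def InSl {K : Type} (T : K → ℤ) (a b : ℤ) (c : MonoidAlgebra ℚ K) : Prop :=
  ∀ g, c.coeff g ≠ 0 → a ≤ T g ∧ T g ≤ b

/-- relations in a slab are combinations of the `ρ l` with coefficients in a slightly larger slab -/
def SlabR {K : Type} [Group K] (T : K → ℤ) {ι : Type} [Fintype ι] (x : ι → K) {m : ℕ}
    (ρ : Fin m → ι → MonoidAlgebra ℚ K) : Prop :=
  ∃ C : ℤ, 0 ≤ C ∧ ∀ (a b : ℤ) (y : ι → MonoidAlgebra ℚ K), bq x y = 0 →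
    (∀ j, InSl T a b (y j)) → ∃ c : Fin m → MonoidAlgebra ℚ K,
      y = ∑ l, c l • ρ l ∧ ∀ l, InSl T (a - C) (b + C) (c l)

/-- the slab property, for some finite generating system of the relations of `x` -/
def Slab {K : Type} [Group K] (T : K → ℤ) {ι : Type} [Fintype ι] (x : ι → K) : Prop :=
  ∃ (m : ℕ) (ρ : Fin m → ι → MonoidAlgebra ℚ K), (∀ l, bq x (ρ l) = 0) ∧ SlabR T x ρ

/-- right multiplication changes `T` by a bounded amount -/
def BdR {K : Type} [Group K] (T : K → ℤ) : Prop := ∀ v, ∃ B : ℤ, ∀ w, |T (w * v) - T w| ≤ B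

/-- residually finite rationally solvable groups -/
def RFRS (K : Type) [Group K] : Prop :=
  ∃ E : ℕ → Subgroup K, E 0 = ⊤ ∧ (∀ i, (E i).Normal) ∧ (∀ i, (E i).FiniteIndex) ∧
    (∀ i, E (i + 1) ≤ E i) ∧
    (∀ i, ∀ g ∈ E i, ∀ n : ℕ, 0 < n → g ^ n ∈ ⁅E i, E i⁆ → g ∈ E (i + 1)) ∧
    ∀ g, (∀ i, g ∈ E i) → g = 1

end Pool.Agent.RFR
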