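import Pool.Agent.RFR.SDefs
import Pool.Agent.RFR.PDefs
import Pool.Agent.RFR.DPot

set_option autoImplicit false

/-! RFR-FHas: transport of `HasAI`, the kernel of `TT` on `E r`. -/

namespace Pool.Agent.RFR

theorem hasAI_equiv {S S' : Type} [Group S] [Group S'] (e : S ≃* S') (h : HasAI S) : HasAI S' := by
  obtain ⟨A, h1, h2, h3⟩ := h
  refine ⟨e.symm ⁻¹' A, ?_, ?_, ?_⟩
  · have h4 : e.symm ⁻¹' A = e '' A := by
      ext x
      constructor
      · intro hx
        exact ⟨e.symm x, hx, e.apply_symm_apply x⟩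
      · rintro ⟨y, hy, rfl⟩
        change e.symm (e y) ∈ A
        rwa [e.symm_apply_apply]
    rw [h4]
    exact h1.image e.injective.injOn
  · have h4 : (e.symm ⁻¹' A)ᶜ = e '' Aᶜ := by
      ext x
      constructor
      · intro hx
        exact ⟨e.symm x, hx, e.apply_symm_apply x⟩
      · rintro ⟨y, hy, rfl⟩ hx
        apply hy
        have h5 : e.symm (e y) ∈ A := hx
        rwa [e.symm_apply_apply] at h5
    rw [h4]
    exact h2.image e.injective.injOn
  · intro x
    have h5 : {u : S' | ¬ (u ∈ e.symm ⁻¹' A ↔ u * x ∈ e.symm ⁻¹' A)} ⊆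
        e '' {u : S | ¬ (u ∈ A ↔ u * e.symm x ∈ A)} := by
      intro u hu
      refine ⟨e.symm u, ?_, e.apply_symm_apply u⟩
      change ¬ (e.symm u ∈ A ↔ e.symm u * e.symm x ∈ A)
      rw [← map_mul]
      exact hu
    exact ((h3 (e.symm x)).image e).subset h5

variable {H : Type} [Group H]

/-- the homomorphism `g ↦ TT g - TT 1` on `E r` -/
noncomputable def thE (t : PT H) (L : ℤ) (r : ℕ) : t.E r →* Multiplicative ℤ where
  toFun g := Multiplicative.ofAdd (t.TT L r g - t.TT L r 1)
  map_one' := by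
    change Multiplicative.ofAdd (t.TT L r ((1 : t.E r) : H) - t.TT L r 1) = 1
    rw [Subgroup.coe_one, sub_self, ofAdd_zero]
  map_mul' g h := by
    rw [← ofAdd_add]
    congr 1
    have h1 := TT_mul t L r g.2 (h : H)
    change t.TT L r ((g : H) * (h : H)) - _ = _
    rw [h1]
    ring

theorem mem_ker_thE (t : PT H) (L : ℤ) (r : ℕ) (g : t.E r) :
    g ∈ (thE t L r).ker ↔ t.TT L r g = t.TT L r 1 := by
  rw [MonoidHom.mem_ker]
  change Multiplicative.ofAdd (t.TT L r g - t.TT L r 1) = 1 ↔ _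
  rw [ofAdd_eq_one, sub_eq_zero]

end Pool.Agent.RFR
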