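import Pool.Agent.PDC.SH.ThmA

set_option autoImplicit false

/-! RFR-PDB (4): the relation module of a finitely generated subgroup of infinite index has a finite dual basis.

PLAN.  Repeat the proof of `Pool.Agent.PDC.SH.thmA` (file PDC/SH/ThmA.lean; it proves finite generation) and keep the functionals.  The element `q p : X.P2` attached to `p ∈ ker (bd x)` is characterised by `d2 (q p) = ∑ j, inc H (p j) • y j` and `ρ (q p) = 0`: if `d2 z = 0` then `z = d3 z'` (`X.ex2`), `ρ z = z'`, so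
`ρ z = 0` implies `z = 0`.  Hence `q` is additive and `q (a • p) = inc H a • q p`.  As in `fin_gen` (file PDC/FinG.lean): `p = ∑_{t ∈ Y, k} resH H (μ k (q p) * of t⁻¹) • g1 (d2 (of t • e k)) - ∑ j, p j • σ j`; the functionals are `p ↦ resH H (μ k (q p) * of ℤ G t⁻¹)`
(`resH_inc_mul`) and `p ↦ - p j`.  The case `H = ⊥`: `Fin 0`-like trivial case: `H` is trivial, `x j = 1` for all `j`, `ker (bd x)` is everything, dual basis = standard basis with the coordinate functionals. -/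

namespace Pool.Agent.RFR

open MonoidAlgebra Pool.Agent.PDC

private theorem pdb_fin {R M : Type} [Ring R] [AddCommGroup M] [Module R M] {ι : Type}
    [Fintype ι] (ρ : ι → M) (μ : ι → (M →ₗ[R] R)) (h : ∀ y, y = ∑ i, μ i y • ρ i) :
    ∃ (N : ℕ) (ρ : Fin N → M) (μ : Fin N → (M →ₗ[R] R)), ∀ y, y = ∑ l, μ l y • ρ l := by
  classical
  let e := (Fintype.equivFin ι).symm
  refine ⟨Fintype.card ι, fun l => ρ (e l), fun l => μ (e l), fun y => ?_⟩
  conv_lhs => rw [h y]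
  exact (e.sum_comp (fun i => μ i y • ρ i)).symm

private theorem pdb_bot {G : Type} [Group G] (H : Subgroup G) (hb : H = ⊥) {n : ℕ}
    (x : Fin n → H) :
    ∃ (N : ℕ) (ρ : Fin N → LinearMap.ker (bd x))
      (μ : Fin N → (LinearMap.ker (bd x) →ₗ[MonoidAlgebra ℤ H] MonoidAlgebra ℤ H)),
      ∀ y : LinearMap.ker (bd x), y = ∑ l, μ l y • ρ l := by
  classical
  have h1 : ∀ g : H, g = 1 := by
    intro g
    apply Subtype.ext
    have h2 : ∀ g : G, g ∈ H → g = 1 := by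
      intro g hg
      rw [hb] at hg
      exact Subgroup.mem_bot.1 hg
    exact h2 _ g.2
  have h0 : ∀ p, bd x p = 0 := by
    intro p
    rw [bd_apply]
    refine Finset.sum_eq_zero fun j _ => ?_
    rw [h1 (x j), map_one, sub_self, mul_zero]
  refine pdb_fin
    (fun j : Fin n => (⟨Pi.single j 1, LinearMap.mem_ker.2 (h0 _)⟩ : LinearMap.ker (bd x)))
    (fun j => (LinearMap.proj j).comp (Submodule.subtype _)) ?_
  intro y
  apply Subtype.ext
  rw [Submodule.coe_sum]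
  funext i
  simp [Pi.single_apply, Finset.sum_apply]

private theorem pdb_coe {D : Type} [DivisionRing D] {I : Type} (c : I →₀ D) (F : I → D) :
    c.sum (fun i d => d * F i) = ∑ a : {i // i ∈ c.support}, c a.1 * F a.1 := by
  rw [Finsupp.sum, ← Finset.sum_coe_sort]

theorem dual_rel {G : Type} [Group G] (X : PD3 G) {D : Type} [DivisionRing D] (H : Subgroup G)
    (hind : H.index = 0) (f : MonoidAlgebra ℤ H →+* D) (hf : Function.Injective f) {n : ℕ}
    (x : Fin n → H) (hx : Subgroup.closure (Set.range x) = ⊤) :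
    ∃ (N : ℕ) (ρ : Fin N → LinearMap.ker (bd x))
      (μ : Fin N → (LinearMap.ker (bd x) →ₗ[MonoidAlgebra ℤ H] MonoidAlgebra ℤ H)),
      ∀ y : LinearMap.ker (bd x), y = ∑ l, μ l y • ρ l := by
  classical
  by_cases hbot : H = ⊥
  · exact pdb_bot H hbot x
  obtain ⟨y, g1, σ, hg1, hg1', hσ, hcomp⟩ := comparison X H x hx
  obtain ⟨m, e, μ, hμ⟩ := dual_basis (MonoidAlgebra ℤ G) X.P2
  obtain ⟨ρ, hρ1, hρ2⟩ := rho_exists X H hind
  obtain ⟨w, hw, hwm, hwθ⟩ := sign_exists X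
  obtain ⟨l0, hl0⟩ := X.θsurj 1
  have hμ' : ∀ j, ∃ ν : X.P2 →ₗ[MonoidAlgebra ℤ G] MonoidAlgebra ℤ G,
      ν.comp X.d3 = rmul l0 (of ℤ G (x j : G)) - w (x j : G) • l0 := by
    intro j
    have h0 : X.θ (rmul l0 (of ℤ G (x j : G)) - w (x j : G) • l0) = 0 := by
      rw [map_sub, hwθ, map_zsmul, hl0]
      simp
    obtain ⟨ψ, hψ⟩ := (X.θker _).1 h0
    exact ⟨ψ, hψ.symm⟩
  choose μ' hμ' using hμ'
  have hq : ∀ p : {p : Fin n → MonoidAlgebra ℤ H // bd x p = 0}, ∃ q : X.P2,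
      X.d2 q = ∑ j, inc H (p.1 j) • y j ∧ ρ q = 0 := by
    rintro ⟨p, hp⟩
    obtain ⟨q0, hq0⟩ := (X.ex1 _).1 (hcomp p hp).1
    refine ⟨q0 - X.d3 (ρ q0), ?_, ?_⟩
    · have h0 : X.d2 (X.d3 (ρ q0)) = 0 := (X.ex2 _).2 ⟨_, rfl⟩
      rw [map_sub, hq0, h0, sub_zero]
    · rw [map_sub, hρ2, sub_self]
  choose q hq2 hqρ using hq
  let v : {p : Fin n → MonoidAlgebra ℤ H // bd x p = 0} →
      ((X.P2 →ₗ[MonoidAlgebra ℤ G] MonoidAlgebra ℤ G) × G) ⊕ Fin n → D :=
    fun p => Sum.elim (fun t => f (resH H (t.1 (q p) * of ℤ G t.2⁻¹)))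
      (fun j => f (p.1 j))
  let J0 : Finset (((X.P2 →ₗ[MonoidAlgebra ℤ G] MonoidAlgebra ℤ G) × G) ⊕ Fin n) :=
    (Finset.univ.image (fun j : Fin n => Sum.inl (μ' j, (1 : G)))) ∪
      (Finset.univ.image (fun j : Fin n => Sum.inr j))
  have hJl : ∀ j, Sum.inl (μ' j, (1 : G)) ∈ J0 := fun j =>
    Finset.mem_union_left _ (Finset.mem_image_of_mem _ (Finset.mem_univ j))
  have hJr : ∀ j : Fin n, Sum.inr j ∈ J0 := fun j =>
    Finset.mem_union_right _ (Finset.mem_image_of_mem _ (Finset.mem_univ j))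
  obtain ⟨I0, hI0⟩ := lin_alg J0 v (by
    intro c hc j
    rcases j with ⟨ν, g⟩ | j
    · rw [pdb_coe c (fun i => v i (Sum.inl (ν, g)))]
      refine SH.heart X H hind hbot f hf ρ hρ1 hρ2 (fun a : {i // i ∈ c.support} => c a.1)
        (fun a => q a.1) x hx y (fun a => a.1.1) w hw hwm hwθ l0 hl0 (fun a => hq2 a.1)
        (fun a => hqρ a.1) ?_ ?_ ν g
      · intro j
        have := hc _ (hJr j)
        rw [pdb_coe c (fun i => v i (Sum.inr j))] at this
        exact this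
      · intro j
        refine ⟨μ' j, hμ' j, ?_⟩
        have := hc _ (hJl j)
        rw [pdb_coe c (fun i => v i (Sum.inl (μ' j, 1)))] at this
        exact this
    · exact hc _ (hJr j))
  obtain ⟨Y, hY⟩ : ∃ Y : Finset G, Y = I0.biUnion (fun p0 => Finset.univ.biUnion
      (fun k => ((μ k (q p0)).coeff.support).image (tr H))) := ⟨_, rfl⟩
  have hYt : ∀ t ∈ Y, tr H t = t := by
    intro t ht
    rw [hY] at ht
    simp only [Finset.mem_biUnion, Finset.mem_image] at ht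
    obtain ⟨_, _, _, _, g, _, rfl⟩ := ht
    exact tr_tr H g
  have hsupp : ∀ p k g, (μ k (q p)).coeff g ≠ 0 → tr H g ∈ Y := by
    intro p k g hkg
    have h1 : v p (Sum.inl (μ k, g)) ≠ 0 := by
      intro h0
      have h2 : f (resH H (μ k (q p) * of ℤ G g⁻¹)) = 0 := h0
      have h4 : resH H (μ k (q p) * of ℤ G g⁻¹) = 0 :=
        hf (by rw [h2, map_zero])
      apply hkg
      have h5 : (resH H (μ k (q p) * of ℤ G g⁻¹)).coeff 1 = 0 := by
        rw [h4]; simp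
      rw [coeff_resH, of_apply, coeff_mul_single_apply] at h5
      simpa using h5
    obtain ⟨p0, hp0, h2⟩ := hI0 _ _ h1
    have h3 : resH H (μ k (q p0) * of ℤ G g⁻¹) ≠ 0 := by
      intro h0
      apply h2
      change f (resH H (μ k (q p0) * of ℤ G g⁻¹)) = 0
      rw [h0, map_zero]
    obtain ⟨h, hh⟩ : ∃ h : H, (resH H (μ k (q p0) * of ℤ G g⁻¹)).coeff h ≠ 0 := by
      by_contra hcon
      push Not at hcon
      apply h3
      ext h
      simpa using hcon h
    rw [coeff_resH, of_apply, coeff_mul_single_apply] at hh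
    simp only [inv_inv, mul_one] at hh
    rw [hY]
    simp only [Finset.mem_biUnion, Finset.mem_image, Finsupp.mem_support_iff]
    exact ⟨p0, hp0, k, Finset.mem_univ _, (h : G) * g, hh, tr_mul H h.2 g⟩
  -- uniqueness
  have huniq : ∀ z z' : X.P2, X.d2 z = X.d2 z' → ρ z = 0 → ρ z' = 0 → z = z' := by
    intro z z' h1 h2 h3
    have h4 : X.d2 (z - z') = 0 := by rw [map_sub, h1, sub_self]
    obtain ⟨u, hu⟩ := (X.ex2 _).1 h4
    have h5 : u = 0 := by
      rw [← hρ2 u, hu, map_sub, h2, h3, sub_self]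
    rw [h5, map_zero] at hu
    exact sub_eq_zero.1 hu.symm
  obtain ⟨Q, hQ⟩ : ∃ Q : LinearMap.ker (bd x) → X.P2,
      ∀ p, Q p = q ⟨p.1, LinearMap.mem_ker.1 p.2⟩ := ⟨_, fun _ => rfl⟩
  have hQ2 : ∀ p, X.d2 (Q p) = ∑ j, inc H (p.1 j) • y j := by
    intro p
    rw [hQ]
    exact hq2 _
  have hQρ : ∀ p, ρ (Q p) = 0 := by
    intro p
    rw [hQ]
    exact hqρ _
  have hQadd : ∀ p p', Q (p + p') = Q p + Q p' := by
    intro p p'
    refine huniq _ _ ?_ (hQρ _) (by rw [map_add, hQρ, hQρ, add_zero])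
    rw [map_add, hQ2, hQ2, hQ2, ← Finset.sum_add_distrib]
    refine Finset.sum_congr rfl fun j _ => ?_
    rw [← add_smul, ← map_add]
    rfl
  have hQsmul : ∀ (a : MonoidAlgebra ℤ H) p, Q (a • p) = inc H a • Q p := by
    intro a p
    refine huniq _ _ ?_ (hQρ _) (by rw [hρ1, hQρ, smul_zero])
    rw [map_smul, hQ2, hQ2, Finset.smul_sum]
    refine Finset.sum_congr rfl fun j _ => ?_
    rw [smul_smul, ← map_mul]
    rfl
  -- the functionals
  let ν : Y × Fin m → (LinearMap.ker (bd x) →ₗ[MonoidAlgebra ℤ H] MonoidAlgebra ℤ H) := fun z =>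
    { toFun := fun p => resH H (μ z.2 (Q p) * of ℤ G (z.1 : G)⁻¹)
      map_add' := fun p p' => by
        rw [hQadd, map_add, add_mul, map_add]
      map_smul' := fun a p => by
        rw [hQsmul, map_smul, smul_eq_mul, mul_assoc, resH_inc_mul]
        rfl }
  have hν : ∀ z p, ν z p = resH H (μ z.2 (Q p) * of ℤ G (z.1 : G)⁻¹) := fun _ _ => rfl
  let Λ : Fin m → (MonoidAlgebra ℤ G →+ (Fin n → MonoidAlgebra ℤ H)) := fun k =>
    AddMonoidHom.mk' (fun r => g1 (X.d2 (r • e k))) (fun a b => by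
      rw [add_smul, map_add, map_add])
  have hΛ : ∀ k r, Λ k r = g1 (X.d2 (r • e k)) := fun _ _ => rfl
  have hz : ∀ q : X.P2, bd x (g1 (X.d2 q)) = 0 := fun q =>
    hg1' _ (X.ex1.apply_apply_eq_zero q)
  refine pdb_fin (ι := (Y × Fin m) ⊕ Fin n)
    (Sum.elim (fun z => (⟨Λ z.2 (of ℤ G (z.1 : G)), LinearMap.mem_ker.2 (hz _)⟩ :
      LinearMap.ker (bd x))) (fun j => ⟨σ j, LinearMap.mem_ker.2 (hσ j)⟩))
    (Sum.elim ν (fun j => -((LinearMap.proj j).comp (Submodule.subtype _)))) ?_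
  intro p
  apply Subtype.ext
  rw [Submodule.coe_sum, Fintype.sum_sum_type]
  have h1 := (hcomp p.1 (LinearMap.mem_ker.1 p.2)).2
  rw [← hQ2 p] at h1
  have h2 : g1 (X.d2 (Q p)) = ∑ k, Λ k (μ k (Q p)) := by
    conv_lhs => rw [hμ (Q p)]
    rw [map_sum, map_sum]
    rfl
  have h3 : ∀ k, Λ k (μ k (Q p)) =
      ∑ t : Y, resH H (μ k (Q p) * of ℤ G (t : G)⁻¹) • Λ k (of ℤ G (t : G)) := by
    intro k
    rw [expand H (Λ k) (fun a r => by rw [hΛ, hΛ, mul_smul, map_smul, hg1]) (μ k (Q p)) Y hYt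
      (fun g hg => by rw [hQ] at hg; exact hsupp _ k g hg)]
    rw [← Finset.sum_coe_sort]
  have h4 : ∑ z : Y × Fin m, ((Sum.elim ν (fun j => -((LinearMap.proj j).comp
      (Submodule.subtype (LinearMap.ker (bd x))))) (Sum.inl z) p •
      Sum.elim (fun z => (⟨Λ z.2 (of ℤ G (z.1 : G)), LinearMap.mem_ker.2 (hz _)⟩ :
      LinearMap.ker (bd x))) (fun j => ⟨σ j, LinearMap.mem_ker.2 (hσ j)⟩) (Sum.inl z) :
      LinearMap.ker (bd x)) : Fin n → MonoidAlgebra ℤ H) = g1 (X.d2 (Q p)) := by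
    rw [h2, Fintype.sum_prod_type_right]
    refine Finset.sum_congr rfl fun k _ => ?_
    rw [h3 k]
    rfl
  rw [h4]
  conv_lhs => rw [h1]
  rw [sub_eq_add_neg, ← Finset.sum_neg_distrib]
  congr 1
  refine Finset.sum_congr rfl fun j _ => ?_
  show -(p.1 j • σ j) = (-(p.1 j)) • σ j
  rw [neg_smul]

end Pool.Agent.RFR
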