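import Pool.Agent.RFR.PDefs
import Pool.Agent.PDC.RelEq

set_option autoImplicit false

/-! RFR-PRel: from `ℤ` to `ℚ`.

PLAN.  `castQ : MonoidAlgebra ℤ K →+* MonoidAlgebra ℚ K` (`MonoidAlgebra.mapRangeRingHom` of `Int.castRingHom ℚ`).  For `y` over `ℚ` there is `n > 0` with `n * y` integral (finitely many coefficients).  `relQ_of_relFG`: re-index `ι ≃ Fin n`; generators over `ℤ` of `ker (bd x)` (file PDC/Defs) give generators over `ℚ`: for `bq x y = 0`, `n y = castQ y'`,
`bd x y' = 0` (injectivity of `castQ`).  `dualQ`: `μ_ℚ y = (1/n) castQ (μ y')`; independent of `n` and linear over `ℚK` (check additivity, and multiplication by `c ∈ ℚK` with `n' c` integral). -/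

namespace Pool.Agent.RFR

open MonoidAlgebra

/-- the inclusion of the integral group ring in the rational one -/
private noncomputable def PRel_c (K : Type) [Group K] : MonoidAlgebra ℤ K →+* MonoidAlgebra ℚ K :=
  MonoidAlgebra.mapRingHom K (Int.castRingHom ℚ)

private theorem PRel_coeff {K : Type} [Group K] (z : MonoidAlgebra ℤ K) (g : K) :
    (PRel_c K z).coeff g = ((z.coeff g : ℤ) : ℚ) := by
  unfold PRel_c
  rw [MonoidAlgebra.coeff_mapRingHom]
  rfl

private theorem PRel_inj {K : Type} [Group K] : Function.Injective (PRel_c K) := by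
  intro a b h
  apply MonoidAlgebra.ext
  ext g
  have h1 := PRel_coeff a g
  rw [h, PRel_coeff b g] at h1
  exact_mod_cast h1.symm

private theorem PRel_of {K : Type} [Group K] (g : K) : PRel_c K (of ℤ K g) = of ℚ K g := by
  unfold PRel_c
  rw [of_apply, of_apply, MonoidAlgebra.mapRingHom_single]
  simp

private theorem PRel_clear1 {K : Type} [Group K] (y : MonoidAlgebra ℚ K) :
    ∃ N : ℕ, 0 < N ∧ ∃ z : MonoidAlgebra ℤ K, PRel_c K z = N • y := by
  induction y using MonoidAlgebra.induction_linear with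
  | zero => exact ⟨1, one_pos, 0, by simp⟩
  | add a b ha hb =>
    obtain ⟨N, hN, z, hz⟩ := ha
    obtain ⟨M, hM, w, hw⟩ := hb
    refine ⟨N * M, Nat.mul_pos hN hM, M • z + N • w, ?_⟩
    rw [map_add, map_nsmul, map_nsmul, hz, hw, smul_add, ← mul_smul, ← mul_smul, mul_comm M N]
  | single g q =>
    refine ⟨q.den, q.den_pos, MonoidAlgebra.single g q.num, ?_⟩
    unfold PRel_c
    rw [MonoidAlgebra.mapRingHom_single]
    apply MonoidAlgebra.ext
    ext k
    have h1 : ((q.num : ℤ) : ℚ) = (q.den : ℚ) * q := by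
      have := Rat.num_div_den q
      have h2 : (q.den : ℚ) ≠ 0 := by exact_mod_cast q.den_ne_zero
      field_simp at this
      linarith
    have h3 : ((q.den • MonoidAlgebra.single g q : MonoidAlgebra ℚ K)).coeff k =
        q.den • (MonoidAlgebra.single g q : MonoidAlgebra ℚ K).coeff k := rfl
    rw [h3, MonoidAlgebra.coeff_single, MonoidAlgebra.coeff_single]
    by_cases hk : g = k
    · subst hk
      rw [Finsupp.single_eq_same, Finsupp.single_eq_same, nsmul_eq_mul]
      exact h1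
    · rw [Finsupp.single_eq_of_ne (Ne.symm hk), Finsupp.single_eq_of_ne (Ne.symm hk), smul_zero]

private theorem PRel_clear {K : Type} [Group K] {n : ℕ} (y : Fin n → MonoidAlgebra ℚ K) :
    ∃ N : ℕ, 0 < N ∧ ∃ z : Fin n → MonoidAlgebra ℤ K, ∀ i, PRel_c K (z i) = N • y i := by
  choose N hN z hz using fun i => PRel_clear1 (y i)
  refine ⟨∏ i, N i, Finset.prod_pos fun i _ => hN i,
    fun i => (∏ j ∈ Finset.univ.erase i, N j) • z i, fun i => ?_⟩
  rw [map_nsmul, hz, ← mul_smul, Finset.prod_erase_mul _ _ (Finset.mem_univ i)]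

private theorem PRel_bq {K : Type} [Group K] {n : ℕ} (x : Fin n → K)
    (z : Fin n → MonoidAlgebra ℤ K) :
    bq x (fun i => PRel_c K (z i)) = PRel_c K (PDC.bd x z) := by
  rw [bq_apply, PDC.bd_apply, map_sum]
  refine Finset.sum_congr rfl fun j _ => ?_
  rw [map_mul, map_sub, map_one, PRel_of]

private theorem PRel_ker {K : Type} [Group K] {n : ℕ} (x : Fin n → K)
    (y : Fin n → MonoidAlgebra ℚ K) (hy : bq x y = 0) :
    ∃ N : ℕ, 0 < N ∧ ∃ z : LinearMap.ker (PDC.bd x), ∀ i, PRel_c K ((z : Fin n → MonoidAlgebra ℤ K) i) = N • y i := by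
  obtain ⟨N, hN, z, hz⟩ := PRel_clear y
  refine ⟨N, hN, ⟨z, ?_⟩, hz⟩
  rw [LinearMap.mem_ker]
  apply PRel_inj
  rw [map_zero, ← PRel_bq]
  have h1 : (fun i => PRel_c K (z i)) = N • y := by
    funext i
    exact hz i
  rw [h1, map_nsmul, hy, smul_zero]

/-- the image of an integral relation -/
private noncomputable def PRel_im {K : Type} [Group K] {n : ℕ} (x : Fin n → K)
    (z : LinearMap.ker (PDC.bd x)) : LinearMap.ker (bq x) :=
  ⟨fun i => PRel_c K ((z : Fin n → MonoidAlgebra ℤ K) i), by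
    rw [LinearMap.mem_ker, PRel_bq, LinearMap.mem_ker.1 z.2, map_zero]⟩

private theorem PRel_fgA {K : Type} [Group K] {n : ℕ} (x : Fin n → K)
    (h : (LinearMap.ker (PDC.bd x)).FG) : (LinearMap.ker (bq x)).FG := by
  classical
  obtain ⟨S, hS⟩ := h
  refine ⟨S.image (fun (a : Fin n → MonoidAlgebra ℤ K) i => PRel_c K (a i)), ?_⟩
  apply le_antisymm
  · rw [Submodule.span_le]
    intro b hb
    rw [Finset.coe_image] at hb
    obtain ⟨a, ha, rfl⟩ := hb
    have ha' : a ∈ LinearMap.ker (PDC.bd x) := by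
      rw [← hS]
      exact Submodule.subset_span ha
    exact (PRel_im x ⟨a, ha'⟩).2
  · intro p hp
    obtain ⟨N, hN, z, hz⟩ := PRel_ker x p (LinearMap.mem_ker.1 hp)
    have hz' : (z : Fin n → MonoidAlgebra ℤ K) ∈ Submodule.span (MonoidAlgebra ℤ K)
        (S : Set (Fin n → MonoidAlgebra ℤ K)) := by
      rw [hS]
      exact z.2
    have key : ∀ q : Fin n → MonoidAlgebra ℤ K, q ∈ Submodule.span (MonoidAlgebra ℤ K)
        (S : Set (Fin n → MonoidAlgebra ℤ K)) →
        (fun i => PRel_c K (q i)) ∈ Submodule.span (MonoidAlgebra ℚ K)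
          ((S.image (fun (a : Fin n → MonoidAlgebra ℤ K) i => PRel_c K (a i)) :
            Finset (Fin n → MonoidAlgebra ℚ K)) : Set (Fin n → MonoidAlgebra ℚ K)) := by
      intro q hq
      induction hq using Submodule.span_induction with
      | mem a ha =>
        apply Submodule.subset_span
        rw [Finset.coe_image]
        exact ⟨a, ha, rfl⟩
      | zero =>
        have : (fun i => PRel_c K ((0 : Fin n → MonoidAlgebra ℤ K) i)) = 0 := by
          funext i
          simp
        rw [this]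
        exact Submodule.zero_mem _
      | add a b _ _ ha hb =>
        have : (fun i => PRel_c K ((a + b) i)) =
            (fun i => PRel_c K (a i)) + (fun i => PRel_c K (b i)) := by
          funext i
          simp
        rw [this]
        exact Submodule.add_mem _ ha hb
      | smul c a _ ha =>
        have : (fun i => PRel_c K ((c • a) i)) = PRel_c K c • (fun i => PRel_c K (a i)) := by
          funext i
          simp
        rw [this]
        exact Submodule.smul_mem _ _ ha
    have h2 := key _ hz'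
    have h3 : p = ((N : ℚ)⁻¹) • (fun i => PRel_c K ((z : Fin n → MonoidAlgebra ℤ K) i)) := by
      funext i
      have hN0 : (N : ℚ) ≠ 0 := by exact_mod_cast hN.ne'
      rw [Pi.smul_apply, hz i, ← Nat.cast_smul_eq_nsmul ℚ, smul_smul, inv_mul_cancel₀ hN0,
        one_smul]
    rw [h3]
    exact Submodule.smul_of_tower_mem _ _ h2

theorem relQ_of_relFG {K : Type} [Group K] (h : PDC.RelFG K) : RelQ K := by
  intro ι _ x hx
  let e : ι ≃ Fin (Fintype.card ι) := Fintype.equivFin ι
  have hx' : Subgroup.closure (Set.range (x ∘ e.symm)) = ⊤ := by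
    rw [e.symm.surjective.range_comp]
    exact hx
  have h1 := PRel_fgA (x ∘ e.symm) (h _ _ hx')
  let f : (Fin (Fintype.card ι) → MonoidAlgebra ℚ K) →ₗ[MonoidAlgebra ℚ K]
      (ι → MonoidAlgebra ℚ K) := LinearMap.funLeft (MonoidAlgebra ℚ K) (MonoidAlgebra ℚ K) e
  have hf : ∀ y, bq x (f y) = bq (x ∘ e.symm) y := by
    intro y
    rw [bq_apply, bq_apply]
    refine Fintype.sum_equiv e _ _ fun i => ?_
    simp [f, LinearMap.funLeft_apply]
  have h2 := h1.map f
  have h3 : (LinearMap.ker (bq (x ∘ e.symm))).map f = LinearMap.ker (bq x) := by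
    ext y
    constructor
    · rintro ⟨w, hw, rfl⟩
      rw [LinearMap.mem_ker, hf]
      exact hw
    · intro hy
      have h4 : f (y ∘ e.symm) = y := by
        funext i
        simp [f, LinearMap.funLeft_apply]
      refine ⟨y ∘ e.symm, ?_, h4⟩
      show y ∘ e.symm ∈ LinearMap.ker (bq (x ∘ e.symm))
      rw [LinearMap.mem_ker, ← hf, h4]
      exact hy
  rw [h3] at h2
  exact h2

private theorem PRel_smulc {K : Type} [Group K] (N : ℕ) (a b : MonoidAlgebra ℚ K) (hN : 0 < N)
    (h : N • a = N • b) : a = b := by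
  have hN0 : (N : ℚ) ≠ 0 := by exact_mod_cast hN.ne'
  rw [← Nat.cast_smul_eq_nsmul ℚ, ← Nat.cast_smul_eq_nsmul ℚ] at h
  exact smul_right_injective _ hN0 h

/-- the value of the extended functional -/
private theorem PRel_val {K : Type} [Group K] {n : ℕ} (x : Fin n → K)
    (μ : LinearMap.ker (PDC.bd x) →ₗ[MonoidAlgebra ℤ K] MonoidAlgebra ℤ K)
    (y : LinearMap.ker (bq x)) : ∃ v : MonoidAlgebra ℚ K, ∀ (N : ℕ) (z : LinearMap.ker (PDC.bd x)),
      0 < N → (∀ i, PRel_c K ((z : Fin n → MonoidAlgebra ℤ K) i) = N • (y : Fin n → MonoidAlgebra ℚ K) i) → N • v = PRel_c K (μ z) := by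
  obtain ⟨N, hN, z, hz⟩ := PRel_ker x y (LinearMap.mem_ker.1 y.2)
  have hN0 : (N : ℚ) ≠ 0 := by exact_mod_cast hN.ne'
  refine ⟨(N : ℚ)⁻¹ • PRel_c K (μ z), fun M w hM hw => ?_⟩
  have h1 : M • z = N • w := by
    apply Subtype.ext
    funext i
    apply PRel_inj
    show PRel_c K (M • (z : Fin n → MonoidAlgebra ℤ K) i) =
      PRel_c K (N • (w : Fin n → MonoidAlgebra ℤ K) i)
    rw [map_nsmul, map_nsmul, hz, hw, ← mul_smul, ← mul_smul, mul_comm]
  have h2 : M • PRel_c K (μ z) = N • PRel_c K (μ w) := by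
    rw [← map_nsmul, ← map_nsmul, ← map_nsmul, ← map_nsmul, h1]
  apply PRel_smulc N _ _ hN
  rw [← h2, ← Nat.cast_smul_eq_nsmul ℚ N, ← Nat.cast_smul_eq_nsmul ℚ M,
    ← Nat.cast_smul_eq_nsmul ℚ M, smul_smul, smul_smul, mul_comm (N : ℚ), mul_assoc,
    mul_inv_cancel₀ hN0, mul_one]

theorem dualQ {K : Type} [Group K] {n : ℕ} (x : Fin n → K) {N : ℕ}
    (ρ : Fin N → LinearMap.ker (PDC.bd x))
    (μ : Fin N → (LinearMap.ker (PDC.bd x) →ₗ[MonoidAlgebra ℤ K] MonoidAlgebra ℤ K))
    (h : ∀ y : LinearMap.ker (PDC.bd x), y = ∑ l, μ l y • ρ l) :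
    ∃ (ρ' : Fin N → LinearMap.ker (bq x))
      (μ' : Fin N → (LinearMap.ker (bq x) →ₗ[MonoidAlgebra ℚ K] MonoidAlgebra ℚ K)),
      ∀ y : LinearMap.ker (bq x), y = ∑ l, μ' l y • ρ' l := by
  classical
  choose v hv using fun (l : Fin N) (y : LinearMap.ker (bq x)) => PRel_val x (μ l) y
  have hrep : ∀ y : LinearMap.ker (bq x), ∃ N : ℕ, 0 < N ∧ ∃ z : LinearMap.ker (PDC.bd x),
      ∀ i, PRel_c K ((z : Fin n → MonoidAlgebra ℤ K) i) = N • (y : Fin n → MonoidAlgebra ℚ K) i := fun y =>
    PRel_ker x y (LinearMap.mem_ker.1 y.2)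
  refine ⟨fun l => PRel_im x (ρ l), fun l =>
    { toFun := v l
      map_add' := ?_
      map_smul' := ?_ }, ?_⟩
  · intro y w
    obtain ⟨A, hA, a, ha⟩ := hrep y
    obtain ⟨B, hB, b, hb⟩ := hrep w
    have h1 := hv l y A a hA ha
    have h2 := hv l w B b hB hb
    have h3 := hv l (y + w) (A * B) (B • a + A • b) (Nat.mul_pos hA hB) (by
      intro i
      show PRel_c K (B • (a : Fin n → MonoidAlgebra ℤ K) i +
        A • (b : Fin n → MonoidAlgebra ℤ K) i) = (A * B) • ((y : Fin n → MonoidAlgebra ℚ K) i +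
        (w : Fin n → MonoidAlgebra ℚ K) i)
      rw [map_add, map_nsmul, map_nsmul, ha, hb, smul_add, ← mul_smul, ← mul_smul, mul_comm B A])
    apply PRel_smulc (A * B) _ _ (Nat.mul_pos hA hB)
    rw [h3, map_add, map_nsmul, map_nsmul, map_add, map_nsmul, map_nsmul, ← h1, ← h2, smul_add,
      ← mul_smul, ← mul_smul, mul_comm B A]
  · intro c y
    obtain ⟨A, hA, a, ha⟩ := hrep y
    obtain ⟨C, hC, d, hd⟩ := PRel_clear1 c
    have h1 := hv l y A a hA ha
    have h3 := hv l (c • y) (C * A) (d • a) (Nat.mul_pos hC hA) (by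
      intro i
      show PRel_c K (d * (a : Fin n → MonoidAlgebra ℤ K) i) =
        (C * A) • (c * (y : Fin n → MonoidAlgebra ℚ K) i)
      rw [map_mul, ha, hd, smul_mul_smul_comm])
    apply PRel_smulc (C * A) _ _ (Nat.mul_pos hC hA)
    rw [h3, map_smul, smul_eq_mul, map_mul, ← h1, hd, RingHom.id_apply, smul_eq_mul,
      smul_mul_smul_comm]
  · intro y
    obtain ⟨A, hA, a, ha⟩ := hrep y
    apply Subtype.ext
    funext i
    apply PRel_smulc A _ _ hA
    have h1 := congrArg (fun z : LinearMap.ker (PDC.bd x) =>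
      PRel_c K ((z : Fin n → MonoidAlgebra ℤ K) i)) (h a)
    rw [← ha i, h1]
    have h2 : ((∑ l, μ l a • ρ l : LinearMap.ker (PDC.bd x)) : Fin n → MonoidAlgebra ℤ K) i =
        ∑ l, μ l a * (ρ l : Fin n → MonoidAlgebra ℤ K) i := by
      rw [Submodule.coe_sum, Finset.sum_apply]
      rfl
    rw [h2, map_sum]
    have h3 : ((∑ l, (v l y) • PRel_im x (ρ l) : LinearMap.ker (bq x)) :
        Fin n → MonoidAlgebra ℚ K) i =
        ∑ l, v l y * PRel_c K ((ρ l : Fin n → MonoidAlgebra ℤ K) i) := by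
      rw [Submodule.coe_sum, Finset.sum_apply]
      rfl
    show _ = A • ((∑ l, (v l y) • PRel_im x (ρ l) : LinearMap.ker (bq x)) :
        Fin n → MonoidAlgebra ℚ K) i
    rw [h3, Finset.smul_sum]
    refine Finset.sum_congr rfl fun l _ => ?_
    rw [map_mul, ← hv l y A a hA ha, smul_mul_assoc]

end Pool.Agent.RFR
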