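import Pool.Agent.RFR.PIdl

set_option autoImplicit false

/-! RFR-PCmp (5.1): the slab property for one generating tuple implies it for every other one, with every finite generating system of the relation module.

PLAN.  `f : (ℚK)^ι → (ℚK)^κ` linear with `f e_i` a Fox vector of `x i` for the tuple `x'` (`fox_exists`), `g` in the other direction; `bq x' (f y) = bq x y`, `bq x (g y') = bq x' y'`.  For `y` with `bq x y = 0` in a slab: `f y` is in a slab
(right multiplication by the finitely many elements in the supports of the `f e_i`, `BdR`), `f y = ∑ c'_l ρ'_l`, `y = ∑ c'_l g(ρ'_l) + ∑ y_i (e_i - g (f e_i))`, and the relations `g (ρ'_l)`, `e_i - g (f e_i)` are combinations of the `ρ l` with fixed coefficients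
(`hρ`); multiply (`BdR` again). -/

namespace Pool.Agent.RFR

open MonoidAlgebra

section aux

variable {K : Type} [Group K] {T : K → ℤ}

omit [Group K] in
private theorem pcmp_mono {a b a' b' : ℤ} {c : MonoidAlgebra ℚ K} (h : InSl T a b c)
    (h1 : a' ≤ a) (h2 : b ≤ b') : InSl T a' b' c :=
  fun g hg => ⟨h1.trans (h g hg).1, (h g hg).2.trans h2⟩

private theorem pcmp_add {a b : ℤ} {c d : MonoidAlgebra ℚ K} (h1 : InSl T a b c)
    (h2 : InSl T a b d) : InSl T a b (c + d) := by
  intro g hg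
  rw [coeff_add, Finsupp.add_apply] at hg
  by_cases h : c.coeff g = 0
  · rw [h, zero_add] at hg
    exact h2 g hg
  · exact h1 g h

omit [Group K] in
private theorem pcmp_sum {a b : ℤ} {J : Type} (s : Finset J) (c : J → MonoidAlgebra ℚ K)
    (h : ∀ j, InSl T a b (c j)) : InSl T a b (∑ j ∈ s, c j) := by
  intro g hg
  rw [coeff_sum, Finsupp.finsetSum_apply] at hg
  obtain ⟨j, _, h2⟩ := Finset.exists_ne_zero_of_sum_ne_zero hg
  exact h j g h2

private theorem pcmp_one (hB : BdR T) (d : MonoidAlgebra ℚ K) :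
    ∃ C : ℤ, 0 ≤ C ∧ ∀ (a b : ℤ) (c : MonoidAlgebra ℚ K), InSl T a b c →
      InSl T (a - C) (b + C) (c * d) := by
  choose B hB using hB
  refine ⟨∑ v ∈ d.coeff.support, |B v|, Finset.sum_nonneg (fun _ _ => abs_nonneg _), ?_⟩
  intro a b c hc g hg
  rw [coeff_mul_apply_right, Finsupp.sum] at hg
  obtain ⟨v, hv, h2⟩ := Finset.exists_ne_zero_of_sum_ne_zero hg
  have h4 := hc _ (left_ne_zero_of_mul h2)
  have h5 := hB v (g * v⁻¹)
  rw [inv_mul_cancel_right, abs_le] at h5
  have h6 : |B v| ≤ ∑ v ∈ d.coeff.support, |B v| :=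
    Finset.single_le_sum (f := fun v => |B v|) (fun _ _ => abs_nonneg _) hv
  have h7 := le_abs_self (B v)
  constructor
  · linarith [h5.1, h4.1]
  · linarith [h5.2, h4.2]

private theorem pcmp_fam (hB : BdR T) {J : Type} [Fintype J] (d : J → MonoidAlgebra ℚ K) :
    ∃ C : ℤ, 0 ≤ C ∧ ∀ (a b : ℤ) (c : MonoidAlgebra ℚ K), InSl T a b c → ∀ j,
      InSl T (a - C) (b + C) (c * d j) := by
  choose B hB0 hB using fun j => pcmp_one hB (d j)
  refine ⟨∑ j, B j, Finset.sum_nonneg (fun j _ => hB0 j), ?_⟩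
  intro a b c hc j
  have h6 : B j ≤ ∑ j, B j :=
    Finset.single_le_sum (f := fun j => B j) (fun j _ => hB0 j) (Finset.mem_univ j)
  exact pcmp_mono (hB j a b c hc) (by linarith) (by linarith)

end aux

theorem slab_cmp {K : Type} [Group K] {T : K → ℤ} (hB : BdR T) {κ : Type} [Fintype κ] (x' : κ → K)
    (hx' : Subgroup.closure (Set.range x') = ⊤) (hs : Slab T x') {ι : Type} [Fintype ι] (x : ι → K)
    (hx : Subgroup.closure (Set.range x) = ⊤) {m : ℕ} (ρ : Fin m → ι → MonoidAlgebra ℚ K)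
    (hρ : Submodule.span (MonoidAlgebra ℚ K) (Set.range ρ) = LinearMap.ker (bq x)) :
    SlabR T x ρ := by
  classical
  have hmx : ∀ i, x i ∈ Subgroup.closure (Set.range x') := fun i => by
    rw [hx']
    exact Subgroup.mem_top _
  have hmx' : ∀ j, x' j ∈ Subgroup.closure (Set.range x) := fun j => by
    rw [hx]
    exact Subgroup.mem_top _
  choose φ hφ _ using fun i => fox_exists x' (hmx i)
  choose ψ hψ _ using fun j => fox_exists x (hmx' j)
  obtain ⟨m', ρ', hρ', C', hC', hsl⟩ := hs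
  have hg : ∀ y' : κ → MonoidAlgebra ℚ K, bq x (∑ j, y' j • ψ j) = bq x' y' := by
    intro y'
    rw [map_sum, bq_apply]
    refine Finset.sum_congr rfl fun j _ => ?_
    rw [map_smul, hψ, smul_eq_mul]
  have h1 : ∀ l, ∃ d : Fin m → MonoidAlgebra ℚ K, ∑ k, d k • ρ k = ∑ j, ρ' l j • ψ j := by
    intro l
    rw [← Submodule.mem_span_range_iff_exists_fun, hρ, LinearMap.mem_ker, hg]
    exact hρ' l
  have h2 : ∀ i, ∃ d : Fin m → MonoidAlgebra ℚ K,
      ∑ k, d k • ρ k = (Pi.single i 1 : ι → MonoidAlgebra ℚ K) - ∑ j, φ i j • ψ j := by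
    intro i
    rw [← Submodule.mem_span_range_iff_exists_fun, hρ, LinearMap.mem_ker, map_sub, hg, hφ,
      bq_apply, Finset.sum_eq_single i]
    · rw [Pi.single_eq_same, one_mul, sub_self]
    · intro j _ hj
      rw [Pi.single_eq_of_ne hj, zero_mul]
    · intro h
      exact absurd (Finset.mem_univ i) h
  choose d hd using h1
  choose e he using h2
  obtain ⟨C1, hC1, k1⟩ := pcmp_fam hB (fun p : ι × κ => φ p.1 p.2)
  obtain ⟨C2, hC2, k2⟩ := pcmp_fam hB (fun p : Fin m' × Fin m => d p.1 p.2)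
  obtain ⟨C3, hC3, k3⟩ := pcmp_fam hB (fun p : ι × Fin m => e p.1 p.2)
  refine ⟨C1 + C' + C2 + C3, by linarith, ?_⟩
  intro a b y hy0 hy
  have hf : bq x' (∑ i, y i • φ i) = 0 := by
    rw [map_sum, ← hy0, bq_apply x y]
    refine Finset.sum_congr rfl fun i _ => ?_
    rw [map_smul, hφ, smul_eq_mul]
  have hfj : ∀ j, (∑ i, y i • φ i) j = ∑ i, y i * φ i j := by
    intro j
    rw [Finset.sum_apply]
    rfl
  obtain ⟨c, hc, hcs⟩ := hsl (a - C1) (b + C1) _ hf (fun j => by
    rw [hfj]
    exact pcmp_sum _ _ fun i => k1 a b (y i) (hy i) (i, j))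
  refine ⟨fun k => ∑ l, c l * d l k + ∑ i, y i * e i k, ?_, fun k => ?_⟩
  · have e1 : ∑ k, (∑ l, c l * d l k + ∑ i, y i * e i k) • ρ k =
        ∑ l, c l • ∑ k, d l k • ρ k + ∑ i, y i • ∑ k, e i k • ρ k := by
      simp only [add_smul, Finset.sum_add_distrib, Finset.sum_smul, Finset.smul_sum, mul_smul]
      rw [Finset.sum_comm, Finset.sum_comm (s := (Finset.univ : Finset (Fin m)))
        (t := (Finset.univ : Finset ι))]
    have e2 : ∑ l, c l • ∑ k, d l k • ρ k = ∑ j, (∑ i, y i • φ i) j • ψ j := by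
      rw [hc]
      simp only [hd, Finset.smul_sum, Finset.sum_apply, Finset.sum_smul, Pi.smul_apply,
        smul_eq_mul, mul_smul]
      rw [Finset.sum_comm]
    have e3 : ∑ i, y i • ∑ k, e i k • ρ k = y - ∑ j, (∑ i, y i • φ i) j • ψ j := by
      simp only [he, smul_sub, Finset.sum_sub_distrib]
      congr 1
      · funext j
        rw [Finset.sum_apply, Finset.sum_eq_single j]
        · rw [Pi.smul_apply, Pi.single_eq_same, smul_eq_mul, mul_one]
        · intro i _ hi
          rw [Pi.smul_apply, Pi.single_eq_of_ne (Ne.symm hi), smul_zero]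
        · intro h
          exact absurd (Finset.mem_univ j) h
      · simp only [hfj, Finset.smul_sum, Finset.sum_smul, mul_smul]
        rw [Finset.sum_comm]
    rw [e1, e2, e3, add_sub_cancel]
  · have hA : a - (C1 + C' + C2 + C3) ≤ a - C1 - C' - C2 := by linarith
    have hA' : b + C1 + C' + C2 ≤ b + (C1 + C' + C2 + C3) := by linarith
    have hD : a - (C1 + C' + C2 + C3) ≤ a - C3 := by linarith
    have hD' : b + C3 ≤ b + (C1 + C' + C2 + C3) := by linarith
    exact pcmp_add
      (pcmp_mono (pcmp_sum _ _ fun l => k2 _ _ (c l) (hcs l) (l, k)) hA hA')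
      (pcmp_mono (pcmp_sum _ _ fun i => k3 a b (y i) (hy i) (i, k)) hD hD')

end Pool.Agent.RFR
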