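import Pool.Agent.RFR.PIdl

set_option autoImplicit false

/-! RFR-PUp (5.2): from a subgroup `E` of finite index to `H`.

PLAN.  `κ` = the set of right cosets `E h` (`Quotient (QuotientGroup.rightRel E)`, finite), `u i` representatives; `x' = Sum.elim (fun i => (z i : H)) u`.  It generates `H`.  For a letter `g : ι ⊕ κ` and `i : κ` let `j` be the coset of
`u i * x' g` and `w = u i * x' g * (u j)⁻¹ ∈ E`, `β w : ι → ℚE` a Fox vector (`fox_exists` in `E`); relators `kap (g, i) = e_(inr i) + (u i) e_g - w e_(inr j) - β w` and, for the coset `i0` of `1`, `kap0 = e_(inr i0) - β (u i0)`,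
all with boundary zero, together with the images of the `ρ l` of `z`.  A relation `y` of `x'` in a slab: `y g = ∑_i y_(g,i) * (u i)` with `y_(g,i)` supported in `E`, in a slab (`T (e * u i) = T (u i) + T e - T 1`, finitely many `u i`).  `y' = y - ∑ y_(g,i) kap (g,i)` has
all its coefficients supported in `E`; in `bq x' y' = 0` the coset `E (u i)`, `i ≠ i0`, shows `y' (inr i) = 0`; `y'' = y' - y' (inr i0) kap0` is a relation of `z`: apply `Slab` for `z`. -/

namespace Pool.Agent.RFR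

open MonoidAlgebra

/-- the inclusion of group rings -/
private noncomputable def PUp_E {K : Type} [Group K] (B : Subgroup K) :
    MonoidAlgebra ℚ B →+* MonoidAlgebra ℚ K := MonoidAlgebra.mapDomainRingHom ℚ B.subtype

private lemma PUp_E_single {K : Type} [Group K] (B : Subgroup K) (b : B) (r : ℚ) :
    PUp_E B (single b r) = single (b : K) r := MonoidAlgebra.mapDomain_single

private lemma PUp_E_coeff {K : Type} [Group K] (B : Subgroup K) (d : MonoidAlgebra ℚ B) (b : B) :
    (PUp_E B d).coeff (b : K) = d.coeff b :=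
  Finsupp.mapDomain_apply B.subtype_injective d.coeff b

private lemma PUp_E_zero {K : Type} [Group K] (B : Subgroup K) (d : MonoidAlgebra ℚ B) {k : K}
    (hk : k ∉ B) : (PUp_E B d).coeff k = 0 := by
  refine Finsupp.mapDomain_of_notMem_range d.coeff k ?_
  rintro ⟨b, hb⟩
  exact hk (hb ▸ b.2)

private lemma PUp_E_inj {K : Type} [Group K] (B : Subgroup K) :
    Function.Injective (PUp_E B) := by
  intro d d' h
  refine MonoidAlgebra.ext (Finsupp.ext fun b => ?_)
  rw [← PUp_E_coeff, ← PUp_E_coeff, h]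

private lemma PUp_E_ne {K : Type} [Group K] (B : Subgroup K) (d : MonoidAlgebra ℚ B) {k : K}
    (h : (PUp_E B d).coeff k ≠ 0) : ∃ b : B, (b : K) = k ∧ d.coeff b ≠ 0 := by
  by_cases hk : k ∈ B
  · refine ⟨⟨k, hk⟩, rfl, ?_⟩
    rwa [← PUp_E_coeff B d ⟨k, hk⟩]
  · exact absurd (PUp_E_zero B d hk) h

/-- the part of `c` on the coset `B v` -/
private noncomputable def PUp_P {K : Type} [Group K] (B : Subgroup K) (v : K) :
    MonoidAlgebra ℚ K →+ MonoidAlgebra ℚ B :=
  MonoidAlgebra.comapDomainAddMonoidHom (fun b : B => (b : K) * v)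
    (fun _ _ h => Subtype.ext (mul_right_cancel h))

private lemma PUp_P_coeff {K : Type} [Group K] (B : Subgroup K) (v : K) (c : MonoidAlgebra ℚ K)
    (b : B) : (PUp_P B v c).coeff b = c.coeff ((b : K) * v) := rfl

private lemma PUp_ms {G : Type} [Group G] (c : MonoidAlgebra ℚ G) (b x : G) (r : ℚ) :
    (c * single b r).coeff x = c.coeff (x * b⁻¹) * r :=
  MonoidAlgebra.coeff_mul_single_eq_coeff_mul _ fun _ _ => eq_mul_inv_iff_mul_eq.symm

private lemma PUp_sm {G : Type} [Group G] (c : MonoidAlgebra ℚ G) (b x : G) (r : ℚ) :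
    (single b r * c).coeff x = r * c.coeff (b⁻¹ * x) :=
  MonoidAlgebra.coeff_single_mul_eq_mul_coeff _ fun _ _ => eq_inv_mul_iff_mul_eq.symm

private lemma PUp_P_mul {K : Type} [Group K] (B : Subgroup K) (v : K) (c : MonoidAlgebra ℚ K)
    (d : MonoidAlgebra ℚ B) : PUp_P B v (PUp_E B d * c) = d * PUp_P B v c := by
  induction d using MonoidAlgebra.induction_linear with
  | zero => rw [map_zero, zero_mul, zero_mul, map_zero]
  | add d d' h h' => rw [map_add, add_mul, map_add, h, h', add_mul]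
  | single b r =>
    rw [PUp_E_single]
    refine MonoidAlgebra.ext (Finsupp.ext fun x => ?_)
    rw [PUp_P_coeff, PUp_sm, PUp_sm, PUp_P_coeff, ← mul_assoc]
    rfl

private lemma PUp_P_of {K : Type} [Group K] (B : Subgroup K) (v g : K) (h : g * v⁻¹ ∉ B) :
    PUp_P B v (of ℚ K g) = 0 := by
  classical
  refine MonoidAlgebra.ext (Finsupp.ext fun x => ?_)
  rw [PUp_P_coeff, of_apply, coeff_single, Finsupp.single_apply, if_neg]
  · rfl
  · intro h1
    apply h
    rw [h1, mul_inv_cancel_right]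
    exact x.2

private lemma PUp_P_of_self {K : Type} [Group K] (B : Subgroup K) (v : K) :
    PUp_P B v (of ℚ K v) = 1 := by
  classical
  refine MonoidAlgebra.ext (Finsupp.ext fun x => ?_)
  rw [PUp_P_coeff, of_apply, coeff_single, one_def, coeff_single, Finsupp.single_apply,
    Finsupp.single_apply]
  by_cases h : 1 = x
  · rw [if_pos h, if_pos]
    rw [← h, OneMemClass.coe_one, one_mul]
  · rw [if_neg h, if_neg]
    intro h1
    apply h
    apply Subtype.ext
    exact mul_right_cancel (b := v) (by rw [OneMemClass.coe_one, one_mul]; exact h1)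

/-- transversals -/
private lemma PUp_trans {H : Type} [Group H] (E : Subgroup H) [E.FiniteIndex] :
    ∃ (κ : Type) (_ : Fintype κ) (u : κ → H) (q : H → κ), (∀ h, h * (u (q h))⁻¹ ∈ E) ∧
      (∀ e ∈ E, ∀ h, q (e * h) = q h) ∧ (∀ i, q (u i) = i) ∧ u (q 1) = 1 := by
  classical
  have hfin : Finite (H ⧸ E) := Subgroup.finite_quotient_of_finiteIndex
  let q : H → H ⧸ E := fun h => QuotientGroup.mk h⁻¹
  let u : H ⧸ E → H := fun i => if i = q 1 then 1 else (Quotient.out i)⁻¹
  have hqu : ∀ i, q (u i) = i := by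
    intro i
    by_cases hi : i = q 1
    · simp only [u, if_pos hi]
      exact hi.symm
    · simp only [u, if_neg hi, q, inv_inv]
      exact QuotientGroup.out_eq' i
  refine ⟨H ⧸ E, Fintype.ofFinite _, u, q, ?_, ?_, hqu, ?_⟩
  · intro h
    have h1 : (QuotientGroup.mk (u (q h))⁻¹ : H ⧸ E) = QuotientGroup.mk h⁻¹ := hqu (q h)
    have h2 := QuotientGroup.eq.1 h1
    rw [inv_inv] at h2
    have h3 := E.inv_mem h2
    rwa [mul_inv_rev, inv_inv] at h3
  · intro e he h
    simp only [q, mul_inv_rev]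
    exact QuotientGroup.eq.2 (by simpa using he)
  · simp only [u, if_true]

private lemma PUp_dec {H κ : Type} [Group H] [Fintype κ] (E : Subgroup H) (u : κ → H) (q : H → κ)
    (h1 : ∀ h, h * (u (q h))⁻¹ ∈ E) (h2 : ∀ e ∈ E, ∀ h, q (e * h) = q h) (h3 : ∀ i, q (u i) = i)
    (c : MonoidAlgebra ℚ H) : c = ∑ i, PUp_E E (PUp_P E (u i) c) * of ℚ H (u i) := by
  classical
  refine MonoidAlgebra.ext (Finsupp.ext fun k => ?_)
  rw [MonoidAlgebra.coeff_sum, Finsupp.finsetSum_apply, Finset.sum_eq_single (q k)]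
  · rw [of_apply, PUp_ms, mul_one]
    have h4 := PUp_E_coeff E (PUp_P E (u (q k)) c) ⟨_, h1 k⟩
    rw [PUp_P_coeff] at h4
    rw [h4]
    congr 1
    exact (inv_mul_cancel_right k _).symm
  · intro i _ hi
    rw [of_apply, PUp_ms, mul_one]
    apply PUp_E_zero
    intro h4
    apply hi
    have h5 := h2 _ h4 (u i)
    rw [inv_mul_cancel_right, h3] at h5
    exact h5.symm
  · intro h
    exact absurd (Finset.mem_univ _) h

private lemma PUp_slab {H ι Λ : Type} [Group H] [Fintype ι] [Fintype Λ] (T : H → ℤ) (x : ι → H)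
    (ρ : Λ → ι → MonoidAlgebra ℚ H) (h0 : ∀ l, bq x (ρ l) = 0)
    (h : ∃ C : ℤ, 0 ≤ C ∧ ∀ (a b : ℤ) (y : ι → MonoidAlgebra ℚ H), bq x y = 0 →
    (∀ j, InSl T a b (y j)) → ∃ c : Λ → MonoidAlgebra ℚ H,
      y = ∑ l, c l • ρ l ∧ ∀ l, InSl T (a - C) (b + C) (c l)) : Slab T x := by
  classical
  obtain ⟨C, hC, h⟩ := h
  let e := Fintype.equivFin Λ
  refine ⟨Fintype.card Λ, fun l => ρ (e.symm l), fun l => h0 _, C, hC, fun a b y hy hs => ?_⟩
  obtain ⟨c, hc, hc2⟩ := h a b y hy hs
  refine ⟨fun l => c (e.symm l), ?_, fun l => hc2 _⟩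
  rw [hc]
  exact (Equiv.sum_comp e.symm (fun l => c l • ρ l)).symm

private lemma PUp_mul_ne {G : Type} [Group G] (a b : MonoidAlgebra ℚ G) {g : G}
    (h : (a * b).coeff g ≠ 0) : ∃ g1 g2, a.coeff g1 ≠ 0 ∧ b.coeff g2 ≠ 0 ∧ g1 * g2 = g := by
  classical
  have h1 : a * b = ∑ g1 ∈ a.coeff.support, single g1 (a.coeff g1) * b := by
    rw [← Finset.sum_mul]
    congr 1
    exact (sum_coeff_single a).symm
  rw [h1, coeff_sum, Finsupp.finsetSum_apply] at h
  obtain ⟨g1, hg1, h2⟩ := Finset.exists_ne_zero_of_sum_ne_zero h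
  rw [PUp_sm] at h2
  exact ⟨g1, g1⁻¹ * g, Finsupp.mem_support_iff.1 hg1, right_ne_zero_of_mul h2,
    mul_inv_cancel_left _ _⟩

private lemma PUp_bq_E {H ι κ : Type} [Group H] [Fintype ι] [Fintype κ] (E : Subgroup H)
    (z : ι → E) (u : κ → H) (v : ι ⊕ κ → MonoidAlgebra ℚ E) :
    bq (Sum.elim (fun i => (z i : H)) u) (fun s => PUp_E E (v s)) =
      PUp_E E (bq z (fun i => v (Sum.inl i))) +
        ∑ i, PUp_E E (v (Sum.inr i)) * (of ℚ H (u i) - 1) := by
  rw [bq_apply, Fintype.sum_sum_type, bq_apply, map_sum]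
  congr 1
  refine Finset.sum_congr rfl fun i _ => ?_
  rw [map_mul, map_sub, map_one]
  congr 2
  exact (PUp_E_single E (z i) 1).symm

theorem slab_up {H : Type} [Group H] (E : Subgroup H) [E.FiniteIndex] (T : H → ℤ)
    (hT : ∀ g ∈ E, ∀ w, T (g * w) = T w + (T g - T 1)) {ι : Type} [Fintype ι] (z : ι → E)
    (hz : Subgroup.closure (Set.range z) = ⊤) (hs : Slab (fun e : E => T e) z) :
    ∃ (κ : Type) (_ : Fintype κ) (x : κ → H), Subgroup.closure (Set.range x) = ⊤ ∧ Slab T x := by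
  classical
  obtain ⟨κ, _, u, q, hq1, hq2, hq3, hq4⟩ := PUp_trans E
  obtain ⟨m, ρ, hρ, C, hC, hsl⟩ := hs
  obtain ⟨x, hx⟩ : ∃ x : ι ⊕ κ → H, x = Sum.elim (fun i => (z i : H)) u := ⟨_, rfl⟩
  refine ⟨ι ⊕ κ, inferInstance, x, ?_, ?_⟩
  · rw [eq_top_iff]
    intro h _
    have h1 : E ≤ Subgroup.closure (Set.range x) := by
      have h2 : (Subgroup.closure (Set.range z)).map E.subtype ≤ Subgroup.closure (Set.range x) := by
        rw [MonoidHom.map_closure, ← Set.range_comp]
        apply Subgroup.closure_mono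
        rintro _ ⟨i, rfl⟩
        exact ⟨Sum.inl i, by rw [hx]; rfl⟩
      rwa [hz, ← MonoidHom.range_eq_map, Subgroup.range_subtype] at h2
    have h2 : u (q h) ∈ Subgroup.closure (Set.range x) :=
      Subgroup.subset_closure ⟨Sum.inr (q h), by rw [hx]; rfl⟩
    have h3 := mul_mem (h1 (hq1 h)) h2
    rwa [inv_mul_cancel_right] at h3
  -- relators
  obtain ⟨j, hj⟩ : ∃ j : ι ⊕ κ → κ → κ, j = fun g i => q (u i * x g) := ⟨_, rfl⟩
  have hw0 : ∀ g i, ∃ w : E, (w : H) * u (j g i) = u i * x g := by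
    intro g i
    refine ⟨⟨_, hq1 (u i * x g)⟩, ?_⟩
    rw [hj]
    exact inv_mul_cancel_right _ _
  choose w hw using hw0
  have hβ0 : ∀ g i, ∃ β : ι → MonoidAlgebra ℚ E, bq z β = of ℚ E (w g i) - 1 := by
    intro g i
    obtain ⟨β, hβ, -⟩ := fox_exists z (g := w g i) (by rw [hz]; exact Subgroup.mem_top _)
    exact ⟨β, hβ⟩
  choose β hβ using hβ0
  obtain ⟨K, hK⟩ : ∃ K : ι ⊕ κ → κ → ι ⊕ κ → MonoidAlgebra ℚ E, K = fun g i =>
    Sum.elim (β g i) (fun k => (if k = j g i then of ℚ E (w g i) else 0) - (if k = i then 1 else 0)) :=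
    ⟨_, rfl⟩
  have hKb : ∀ g i, bq x (fun s => PUp_E E (K g i s)) = of ℚ H (u i * x g) - of ℚ H (u i) := by
    intro g i
    rw [hx, PUp_bq_E, ← hx, hK]
    simp only [Sum.elim_inl, Sum.elim_inr]
    rw [hβ]
    simp only [map_sub, sub_mul, Finset.sum_sub_distrib]
    rw [Finset.sum_eq_single (j g i), Finset.sum_eq_single i]
    · rw [if_pos rfl, if_pos rfl, map_one, one_mul, ← hw]
      have h1 : PUp_E E (of ℚ E (w g i)) = of ℚ H (w g i : H) := PUp_E_single E _ 1
      rw [h1, mul_sub, mul_one, map_mul]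
      abel
    · intro k _ hk
      rw [if_neg hk, map_zero, zero_mul]
    · intro h
      exact absurd (Finset.mem_univ _) h
    · intro k _ hk
      rw [if_neg hk, map_zero, zero_mul]
    · intro h
      exact absurd (Finset.mem_univ _) h
  have hsing : ∀ (g : ι ⊕ κ) (c : MonoidAlgebra ℚ H), bq x (Pi.single g c) = c * (of ℚ H (x g) - 1) := by
    intro g c
    rw [bq_apply, Finset.sum_eq_single g]
    · rw [Pi.single_eq_same]
    · intro k _ hk
      rw [Pi.single_eq_of_ne hk, zero_mul]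
    · intro h
      exact absurd (Finset.mem_univ _) h
  -- the family of relations
  obtain ⟨R1, hR1⟩ : ∃ R1 : Fin m → ι ⊕ κ → MonoidAlgebra ℚ H,
    R1 = fun l => Sum.elim (fun i => PUp_E E (ρ l i)) (fun _ => 0) := ⟨_, rfl⟩
  obtain ⟨R2, hR2⟩ : ∃ R2 : (ι ⊕ κ) × κ → ι ⊕ κ → MonoidAlgebra ℚ H,
    R2 = fun p => Pi.single p.1 (of ℚ H (u p.2)) - fun s => PUp_E E (K p.1 p.2 s) := ⟨_, rfl⟩
  obtain ⟨R3, hR3⟩ : ∃ R3 : ι ⊕ κ → MonoidAlgebra ℚ H,
    R3 = Pi.single (Sum.inr (q 1)) 1 := ⟨_, rfl⟩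
  have hE0 : ∀ v : ι → MonoidAlgebra ℚ E,
      bq x (Sum.elim (fun i => PUp_E E (v i)) (fun _ => 0)) = PUp_E E (bq z v) := by
    intro v
    have h1 := PUp_bq_E E z u (Sum.elim v (fun _ => 0))
    have h2 : (fun s => PUp_E E ((Sum.elim v (fun _ => 0) : ι ⊕ κ → MonoidAlgebra ℚ E) s)) =
        Sum.elim (fun i => PUp_E E (v i)) (fun _ => 0) := by
      funext s
      cases s with
      | inl i => rfl
      | inr i => exact map_zero _
    rw [h2, ← hx] at h1
    rw [h1]
    simp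
  have hb1 : ∀ l, bq x (R1 l) = 0 := by
    intro l
    rw [hR1, hE0, hρ, map_zero]
  have hb2 : ∀ p, bq x (R2 p) = 0 := by
    intro p
    rw [hR2]
    simp only
    rw [map_sub, hsing, hKb, map_mul, mul_sub, mul_one, sub_self]
  have hb3 : bq x R3 = 0 := by
    rw [hR3, hsing, hx, Sum.elim_inr, hq4, map_one, sub_self, mul_zero]
  apply PUp_slab T x (Sum.elim (Sum.elim R1 R2) (fun _ : Unit => R3))
  · rintro ((l | p) | _)
    · exact hb1 l
    · exact hb2 p
    · exact hb3
  -- bounds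
  obtain ⟨D1, hD1⟩ : ∃ D : ℤ, ∀ i, |T (u i) - T 1| ≤ D := Finite.exists_le _
  obtain ⟨D2, hD2⟩ : ∃ D : ℤ, ∀ g i s e, (K g i s).coeff e ≠ 0 → |T (e : H) - T 1| ≤ D := by
    obtain ⟨D, hD⟩ : ∃ D : ℤ, ∀ p : (ι ⊕ κ) × κ × (ι ⊕ κ),
      (∑ e ∈ (K p.1 p.2.1 p.2.2).coeff.support, |T (e : H) - T 1|) ≤ D := Finite.exists_le _
    refine ⟨D, fun g i s e he => le_trans ?_ (hD (g, i, s))⟩
    exact Finset.single_le_sum (f := fun e : E => |T (e : H) - T 1|) (fun _ _ => abs_nonneg _)
      (Finsupp.mem_support_iff.2 he)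
  have hD1' : 0 ≤ D1 := le_trans (abs_nonneg _) (hD1 (q 1))
  refine ⟨D1 + |D2| + C, by positivity, fun a b y hy hsy => ?_⟩
  let y0 : ι ⊕ κ → MonoidAlgebra ℚ E := fun s => ∑ g, ∑ i, PUp_P E (u i) (y g) * K g i s
  have hydec : y = (∑ p : (ι ⊕ κ) × κ, PUp_E E (PUp_P E (u p.2) (y p.1)) • R2 p) +
      fun s => PUp_E E (y0 s) := by
    rw [hR2]
    funext s
    rw [Pi.add_apply, Finset.sum_apply, Fintype.sum_prod_type]
    simp only [Pi.smul_apply, Pi.sub_apply, smul_eq_mul, mul_sub, Finset.sum_sub_distrib, y0,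
      map_sum, map_mul]
    rw [sub_add_cancel, Finset.sum_eq_single s]
    · simp only [Pi.single_eq_same]
      exact PUp_dec E u q hq1 hq2 hq3 (y s)
    · intro g _ hg
      apply Finset.sum_eq_zero
      intro i _
      rw [Pi.single_eq_of_ne hg.symm, mul_zero]
    · intro h
      exact absurd (Finset.mem_univ _) h
  have hy0 : bq x (fun s => PUp_E E (y0 s)) = 0 := by
    have h1 := hy
    rw [hydec, map_add, map_sum] at h1
    rw [Finset.sum_eq_zero, zero_add] at h1
    · exact h1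
    · intro p _
      rw [map_smul, hb2, smul_zero]
  rw [hx, PUp_bq_E] at hy0
  have hinr : ∀ k, k ≠ q 1 → y0 (Sum.inr k) = 0 := by
    intro k hk
    have h1 := congrArg (PUp_P E (u k)) hy0
    rw [map_add, map_zero, map_sum, Finset.sum_eq_single k] at h1
    · have h2 : PUp_P E (u k) (1 : MonoidAlgebra ℚ H) = 0 := by
        have h3 := PUp_P_of E (u k) 1 (by
          intro h4
          apply hk
          have h5 := hq2 _ h4 (u k)
          rw [inv_mul_cancel_right, hq3] at h5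
          exact h5.symm)
        rwa [map_one] at h3
      rw [PUp_P_mul, map_sub, PUp_P_of_self, h2, sub_zero, mul_one] at h1
      have h3 := PUp_P_mul E (u k) 1 (bq z (fun i => y0 (Sum.inl i)))
      rw [mul_one, h2, mul_zero] at h3
      rwa [h3, zero_add] at h1
    · intro i _ hi
      have h2 : PUp_P E (u k) (1 : MonoidAlgebra ℚ H) = 0 := by
        have h3 := PUp_P_of E (u k) 1 (by
          intro h4
          apply hk
          have h5 := hq2 _ h4 (u k)
          rw [inv_mul_cancel_right, hq3] at h5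
          exact h5.symm)
        rwa [map_one] at h3
      rw [PUp_P_mul, map_sub, h2, sub_zero, PUp_P_of, mul_zero]
      intro h4
      apply hi
      have h5 := hq2 _ h4 (u k)
      rw [inv_mul_cancel_right, hq3, hq3] at h5
      exact h5
    · intro h
      exact absurd (Finset.mem_univ _) h
  have hinl : bq z (fun i => y0 (Sum.inl i)) = 0 := by
    apply PUp_E_inj E
    rw [map_zero, ← hy0, Finset.sum_eq_zero, add_zero]
    intro i _
    by_cases hi : i = q 1
    · rw [hi, hq4, map_one, sub_self, mul_zero]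
    · rw [hinr i hi, map_zero, zero_mul]
  -- slabs
  have hP : ∀ g i e, (PUp_P E (u i) (y g)).coeff e ≠ 0 →
      a - D1 ≤ T (e : H) ∧ T (e : H) ≤ b + D1 := by
    intro g i e he
    rw [PUp_P_coeff] at he
    have h1 := hsy g _ he
    rw [hT _ e.2] at h1
    have h2 := abs_le.1 (hD1 i)
    constructor <;> linarith [h1.1, h1.2, h2.1, h2.2]
  have hy0s : ∀ s e, (y0 s).coeff e ≠ 0 →
      a - (D1 + |D2|) ≤ T (e : H) ∧ T (e : H) ≤ b + (D1 + |D2|) := by
    intro s e he
    simp only [y0] at he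
    rw [coeff_sum, Finsupp.finsetSum_apply] at he
    obtain ⟨g, -, he⟩ := Finset.exists_ne_zero_of_sum_ne_zero he
    rw [coeff_sum, Finsupp.finsetSum_apply] at he
    obtain ⟨i, -, he⟩ := Finset.exists_ne_zero_of_sum_ne_zero he
    obtain ⟨e1, e2, he1, he2, rfl⟩ := PUp_mul_ne _ _ he
    have h1 := hP g i e1 he1
    have h2 := abs_le.1 (le_trans (hD2 g i s e2 he2) (le_abs_self D2))
    rw [Subgroup.coe_mul, hT _ e1.2]
    constructor <;> linarith [h1.1, h1.2, h2.1, h2.2]
  obtain ⟨c, hc, hcs⟩ := hsl (a - (D1 + |D2|)) (b + (D1 + |D2|)) (fun i => y0 (Sum.inl i)) hinl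
    (fun i e he => hy0s (Sum.inl i) e he)
  refine ⟨Sum.elim (Sum.elim (fun l => PUp_E E (c l)) (fun p => PUp_E E (PUp_P E (u p.2) (y p.1))))
    (fun _ => PUp_E E (y0 (Sum.inr (q 1)))), ?_, ?_⟩
  · rw [Fintype.sum_sum_type, Fintype.sum_sum_type]
    simp only [Sum.elim_inl, Sum.elim_inr, Finset.univ_unique, Finset.sum_singleton]
    have h1 : (fun s => PUp_E E (y0 s)) =
        (∑ l, PUp_E E (c l) • R1 l) + PUp_E E (y0 (Sum.inr (q 1))) • R3 := by
      rw [hR1, hR3]
      funext s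
      rw [Pi.add_apply, Finset.sum_apply]
      cases s with
      | inl i =>
        have h2 : y0 (Sum.inl i) = _ := congrFun hc i
        rw [h2, Finset.sum_apply, map_sum]
        simp only [Pi.smul_apply, Sum.elim_inl, smul_eq_mul, map_mul]
        rw [Pi.single_eq_of_ne (by simp), mul_zero, add_zero]
      | inr k =>
        simp only [Pi.smul_apply, Sum.elim_inr, smul_eq_mul, mul_zero, Finset.sum_const_zero,
          zero_add]
        by_cases hk : k = q 1
        · rw [hk, Pi.single_eq_same, mul_one]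
        · rw [hinr k hk, Pi.single_eq_of_ne (by simpa using hk), mul_zero, map_zero]
    rw [h1] at hydec
    refine hydec.trans ?_
    abel
  · have hD2' := abs_nonneg D2
    rintro ((l | ⟨g, i⟩) | _) h hh
    · obtain ⟨e, rfl, he⟩ := PUp_E_ne E _ hh
      have h1 := hcs l e he
      constructor <;> linarith [h1.1, h1.2]
    · obtain ⟨e, rfl, he⟩ := PUp_E_ne E _ hh
      have h1 := hP g i e he
      constructor <;> linarith [h1.1, h1.2]
    · obtain ⟨e, rfl, he⟩ := PUp_E_ne E _ hh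
      have h1 := hy0s _ e he
      constructor <;> linarith [h1.1, h1.2]

end Pool.Agent.RFR
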