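import Pool.Agent.RFR.PSc
import Pool.Agent.RFR.PUp
import Pool.Agent.RFR.PCmp

set_option autoImplicit false

/-! RFR-PSL: the slab lemma (SL). -/

namespace Pool.Agent.RFR

open MonoidAlgebra

theorem slab_lemma {H : Type} [Group H] (E : Subgroup H) [E.FiniteIndex] (hE : E.FG) (T : H → ℤ)
    (hT : ∀ g ∈ E, ∀ w, T (g * w) = T w + (T g - T 1)) (hB : BdR T)
    (hR : ∀ B : Subgroup E, B.FG → RelQ B) (hRE : RelQ E) {ι : Type} [Fintype ι] (x : ι → H)
    (hx : Subgroup.closure (Set.range x) = ⊤) {m : ℕ} (ρ : Fin m → ι → MonoidAlgebra ℚ H)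
    (hρ : Submodule.span (MonoidAlgebra ℚ H) (Set.range ρ) = LinearMap.ker (bq x)) :
    SlabR T x ρ := by
  have : Group.FG E := (Group.fg_iff_subgroup_fg E).2 hE
  obtain ⟨ι', _, z, hz, hs⟩ := slab_quasi (K := E) hRE (fun e : E => T e) (by
      intro g h
      have h1 := hT g g.2 h
      have h2 : ((g * h : E) : H) = (g : H) * (h : H) := rfl
      change T ((g * h : E) : H) = T g + T h - T ((1 : E) : H)
      rw [h2, h1, Subgroup.coe_one]
      ring) (fun B _ hfg => hR B hfg)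
  obtain ⟨κ, _, x', hx', hs'⟩ := slab_up E T hT z hz hs
  exact slab_cmp hB x' hx' hs' x hx ρ hρ

end Pool.Agent.RFR
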