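import Mathlib

set_option autoImplicit false

/-! Project RFR (MP_8a0829_al, Theorem R; paper proof /team-store/rfr_proof.md), part S (section 8):
cuts in Cayley graphs, definitions. -/

namespace Pool.Agent.RFR

open scoped Pointwise

section graph
variable {V Ed : Type}

/-- the edges of `U` with exactly one end in `A` (in the multigraph with vertices `V`, edges `Ed`,
end points `s e`, `t e`) -/
def dE (s t : Ed → V) (U : Set Ed) (A : Set V) : Set Ed := {e | e ∈ U ∧ ¬ (s e ∈ A ↔ t e ∈ A)}

/-- `A` is connected by the edges of `U` with both ends in `A` -/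
def Con (s t : Ed → V) (U : Set Ed) (A : Set V) : Prop :=
  ∀ B : Set V, B ⊆ A → (∀ e ∈ U, s e ∈ A → t e ∈ A → (s e ∈ B ↔ t e ∈ B)) → B = ∅ ∨ B = A

end graph

section nest
variable {V : Type}

/-- nested sets: one of the four corners is empty -/
def Nst (A B : Set V) : Prop := A ∩ B = ∅ ∨ A ∩ Bᶜ = ∅ ∨ Aᶜ ∩ B = ∅ ∨ Aᶜ ∩ Bᶜ = ∅

/-- nested families closed under complements -/
structure NFam (EE : Set (Set V)) : Prop where
  compl : ∀ A ∈ EE, Aᶜ ∈ EE
  ne : ∀ A ∈ EE, A ≠ ∅
  nst : ∀ A ∈ EE, ∀ B ∈ EE, Nst A B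

/-- the members `D`, `F` of a nested family point to the same vertex -/
def Star (EE : Set (Set V)) (D F : Set V) : Prop :=
  D = F ∨ (Dᶜ ⊆ F ∧ Dᶜ ≠ F ∧ ∀ X ∈ EE, Dᶜ ⊆ X → X ⊆ F → X = Dᶜ ∨ X = F)

end nest

section group
variable {S : Type} [Group S]

/-- the edges `(g, x)`, `x ∈ X`, from `g` to `g * x`, with exactly one end in `A` -/
def dl (X : Finset S) (A : Set S) : Set (S × S) :=
  dE (fun e : S × S => e.1) (fun e => e.1 * e.2) {e | e.2 ∈ X} A

/-- connectedness in the Cayley graph -/
def Cn (X : Finset S) (A : Set S) : Prop :=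
  Con (fun e : S × S => e.1) (fun e => e.1 * e.2) {e | e.2 ∈ X} A

/-- cuts with `k` edges -/
def KCut (X : Finset S) (k : ℕ) (A : Set S) : Prop :=
  A.Infinite ∧ Aᶜ.Infinite ∧ (dl X A).Finite ∧ (dl X A).ncard = k

/-- `k` is the minimal number of edges of a cut -/
def IsMinK (X : Finset S) (k : ℕ) : Prop := ∀ (j : ℕ) (A : Set S), KCut X j A → k ≤ j

/-- `A` or its complement -/
def sgn (A : Set S) (b : Bool) : Set S := if b then A else Aᶜ

/-- the translates of `C` and of its complement -/
def Orb (C : Set S) : Set (Set S) := {A | ∃ (g : S) (b : Bool), A = g • sgn C b}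

/-- `S` has an almost invariant set which is infinite and has an infinite complement -/
def HasAI (S : Type) [Group S] : Prop :=
  ∃ A : Set S, A.Infinite ∧ Aᶜ.Infinite ∧ ∀ x : S, {u : S | ¬ (u ∈ A ↔ u * x ∈ A)}.Finite

/-- the family of the two subgroups `A`, `B` -/
def fam (A B : Subgroup S) (b : Bool) : Subgroup S := if b then A else B

/-- `S` is the internal free product of `A` and `B` -/
def FreeProd (A B : Subgroup S) : Prop :=
  Function.Bijective (Monoid.CoprodI.lift (fun b : Bool => (fam A B b).subtype))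

/-- the dimension of `Hom(S, ℚ)` -/
noncomputable def bOne (S : Type) [Group S] : ℕ := Module.finrank ℚ (Additive S →+ ℚ)

end group

end Pool.Agent.RFR
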