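import Pool.Agent.RFR.PIdl
import Pool.Agent.RFR.SDefs

set_option autoImplicit false

/-! RFR-RAI (7.1): a retraction which is linear over `S` gives an almost invariant set of `S`.

PLAN.  See (7.1).  `β s` with `bq x (β s) = s - 1` (`fox_exists`), `c s = β s - R (β s)`; `β (s s') - β s - s β s'` is a relation, so `c (s s') = c s + s • c s'`, `bq x (c s) = s - 1`.  As functions `c s : ι × H → ℚ`.  Choose representatives `v` of the right cosets `S \ H`, `h = σ(h) * v(h)`,
`f (j, h) = - c (σ h) (j, h)`; then `f (j, s⁻¹ h) - f (j, h) = c s (j, h)` for all `s ∈ S`.  `S` is generated by a finite set `Y`; only finitely many pairs `(j, v)` have `c s (j, S v) ≠ 0` for some `s ∈ Y`, for the others `f (j, ·)` is constant on `S v`.  Suppose `f (j, ·)` is almost constant (constant outside a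
finite set) on `S v` for all `(j, v)`: then `y0 = f - const` has finite support and `c s = (s - 1) • y0` [sign: `(s • y0) h = y0 (s⁻¹ h)`], so `(s - 1) * (bq x y0 - 1) = 0` for all `s ∈ S`; `S` is infinite, so `bq x y0 = 1` (the support of `bq x y0 - 1` is finite and
invariant under `S`), but the augmentation of `bq x y0` is `0`.  So there are `j, v` with `F u = f (j, u v)`, `F : S → ℚ` not almost constant and `F (s⁻¹ u) = F u` for almost all `u`, for every `s ∈ S`.  There is a set `V` of values with `F ⁻¹' V` infinite and coinfinite (`almost_const`).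
`A = {u | u⁻¹ ∈ F ⁻¹' V}` is the required set (`u * s ∈ A` iff `s⁻¹ * u⁻¹ ∈ F ⁻¹' V`). -/

namespace Pool.Agent.RFR

open MonoidAlgebra

/-- a function on an infinite set all whose preimages are finite or cofinite is almost constant -/
theorem almost_const {S : Type} [Infinite S] (F : S → ℚ)
    (h : ∀ V : Set ℚ, (F ⁻¹' V).Finite ∨ (F ⁻¹' V)ᶜ.Finite) : ∃ q, {u | F u ≠ q}.Finite := by
  by_cases hf : (Set.range F).Finite
  · obtain ⟨q, hq⟩ : ∃ q, (F ⁻¹' {q}).Infinite := by
      by_contra hcon
      have h1 : (F ⁻¹' (Set.range F)).Finite :=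
        Set.Finite.preimage' hf fun b _ => Set.not_infinite.1 fun h2 => hcon ⟨b, h2⟩
      have h2 : F ⁻¹' (Set.range F) = Set.univ :=
        Set.eq_univ_of_forall fun u => ⟨u, rfl⟩
      rw [h2] at h1
      exact Set.infinite_univ h1
    rcases h {q} with h1 | h1
    · exact absurd h1 hq
    · exact ⟨q, h1⟩
  · exfalso
    have g : ℕ ↪ Set.range F := Set.Infinite.natEmbedding _ hf
    have hu : ∀ n : ℕ, ∃ u : S, F u = ((g n : Set.range F) : ℚ) := fun n => (g n).2
    choose u hu using hu
    have hinj : ∀ m n : ℕ, F (u m) = F (u n) → m = n := fun m n h1 =>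
      g.injective (Subtype.ext ((hu m).symm.trans (h1.trans (hu n))))
    have huinj : ∀ m n : ℕ, u m = u n → m = n := fun m n h1 => hinj m n (congrArg F h1)
    have hodd : Function.Injective (fun n : ℕ => u (2 * n + 1)) := fun m n h1 => by
      have := huinj _ _ h1
      omega
    have heven : Function.Injective (fun n : ℕ => u (2 * n)) := fun m n h1 => by
      have := huinj _ _ h1
      omega
    rcases h (Set.range fun n : ℕ => F (u (2 * n))) with h1 | h1
    · exact Set.infinite_range_of_injective heven (h1.subset (by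
        rintro _ ⟨n, rfl⟩
        exact ⟨n, rfl⟩))
    · exact Set.infinite_range_of_injective hodd (h1.subset (by
        rintro _ ⟨n, rfl⟩ ⟨m, hm⟩
        have := hinj _ _ hm
        omega))

private theorem rai_coeff {H : Type} [Group H] (s h : H) (y : MonoidAlgebra ℚ H) :
    (of ℚ H s * y).coeff h = y.coeff (s⁻¹ * h) := by
  rw [of_apply, coeff_single_mul_apply, one_mul]

private theorem rai_eps (H : Type) [Group H] :
    ∃ ε : MonoidAlgebra ℚ H →+* ℚ, ∀ g, ε (of ℚ H g) = 1 :=
  ⟨(MonoidAlgebra.lift ℚ ℚ H (1 : H →* ℚ)).toRingHom, fun g => by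
    change (MonoidAlgebra.lift ℚ ℚ H (1 : H →* ℚ)) (of ℚ H g) = 1
    rw [MonoidAlgebra.lift_of, MonoidHom.one_apply]⟩

private theorem rai_aug {H : Type} [Group H] {ι : Type} [Fintype ι] (x : ι → H)
    (y : ι → MonoidAlgebra ℚ H) : bq x y ≠ 1 := by
  intro h
  obtain ⟨ε, hε⟩ := rai_eps H
  have h1 := congrArg ε h
  rw [bq_apply, map_sum, map_one ε] at h1
  have h2 : ∀ j, ε (y j * (of ℚ H (x j) - 1)) = 0 := by
    intro j
    rw [map_mul, map_sub, map_one ε, hε, sub_self, mul_zero]
  rw [Finset.sum_eq_zero fun j _ => h2 j] at h1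
  exact zero_ne_one h1

theorem hasAI_of_retraction {H : Type} [Group H] {ι : Type} [Fintype ι] (x : ι → H)
    (hx : Subgroup.closure (Set.range x) = ⊤)
    (R : (ι → MonoidAlgebra ℚ H) →+ (ι → MonoidAlgebra ℚ H)) (h1 : ∀ y, bq x (R y) = 0)
    (h2 : ∀ y, bq x y = 0 → R y = y) (S : Subgroup H) (hS : S.FG) (hinf : Infinite S)
    (h3 : ∀ g ∈ S, ∀ y, R (of ℚ H g • y) = of ℚ H g • R y) : HasAI S := by
  classical
  by_contra hno
  -- Fox vectors
  have hβ : ∀ s : H, ∃ β : ι → MonoidAlgebra ℚ H, bq x β = of ℚ H s - 1 := fun s => by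
    obtain ⟨β, hβ, -⟩ := fox_exists x (g := s) (by rw [hx]; trivial)
    exact ⟨β, hβ⟩
  choose β hβ using hβ
  set c : H → ι → MonoidAlgebra ℚ H := fun s => β s - R (β s) with hc
  have hbc : ∀ s, bq x (c s) = of ℚ H s - 1 := fun s => by
    rw [hc, map_sub, hβ, h1, sub_zero]
  have hcc : ∀ s ∈ S, ∀ s', c (s * s') = c s + of ℚ H s • c s' := by
    intro s hs s'
    have h4 : bq x (β (s * s') - β s - of ℚ H s • β s') = 0 := by
      rw [map_sub, map_sub, map_smul, hβ, hβ, hβ, map_mul, smul_eq_mul]
      noncomm_ring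
    have h5 := h2 _ h4
    rw [map_sub, map_sub, h3 s hs] at h5
    simp only [hc, smul_sub]
    have h6 : R (β (s * s')) = β (s * s') - β s - of ℚ H s • β s' + R (β s) +
        of ℚ H s • R (β s') := by
      rw [← h5]; abel
    rw [h6]; abel
  have hcf : ∀ s ∈ S, ∀ s' j h, (c (s * s') j).coeff h =
      (c s j).coeff h + (c s' j).coeff (s⁻¹ * h) := by
    intro s hs s' j h
    rw [hcc s hs s', Pi.add_apply, coeff_add, Finsupp.add_apply, Pi.smul_apply, smul_eq_mul,
      rai_coeff]
  -- the functions F
  set F : ι → H → S → ℚ := fun j v u => -(c (u : H) j).coeff ((u : H) * v) with hF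
  have hFs : ∀ j v (s u : S), F j v (s⁻¹ * u) - F j v u = (c (s : H) j).coeff ((u : H) * v) := by
    intro j v s u
    have h4 := hcf (s : H) s.2 ((s : H)⁻¹ * u) j ((u : H) * v)
    rw [mul_inv_cancel_left] at h4
    simp only [hF, Subgroup.coe_mul, Subgroup.coe_inv]
    rw [h4, mul_assoc]
    ring
  have hq : ∀ j v, ∃ q : ℚ, {u : S | F j v u ≠ q}.Finite := by
    intro j v
    refine almost_const _ fun V => ?_
    by_contra hV
    rw [not_or] at hV
    refine hno ⟨{u | F j v u⁻¹ ∈ V}, ?_, ?_, ?_⟩
    · intro h4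
      refine hV.1 ((h4.image fun u : S => u⁻¹).subset ?_)
      intro u hu
      exact ⟨u⁻¹, by simpa using hu, inv_inv u⟩
    · intro h4
      refine hV.2 ((h4.image fun u : S => u⁻¹).subset ?_)
      intro u hu
      exact ⟨u⁻¹, by simpa using hu, inv_inv u⟩
    · intro s
      have h4 : {u : S | (c (s : H) j).coeff (((u⁻¹ : S) : H) * v) ≠ 0}.Finite := by
        have h5 : ((c (s : H) j).coeff.support : Set H).Finite := Finset.finite_toSet _
        refine (h5.preimage (f := fun u : S => ((u⁻¹ : S) : H) * v) ?_).subset ?_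
        · intro a _ b _ hab
          have : ((a⁻¹ : S) : H) = ((b⁻¹ : S) : H) := mul_right_cancel hab
          exact inv_injective (Subtype.ext this)
        · intro u hu
          exact Finset.mem_coe.2 (Finsupp.mem_support_iff.2 hu)
      refine h4.subset ?_
      intro u hu h5
      apply hu
      have h6 := hFs j v s u⁻¹
      rw [h5, sub_eq_zero, ← mul_inv_rev] at h6
      change F j v u⁻¹ ∈ V ↔ F j v (u * s)⁻¹ ∈ V
      rw [h6]
  choose q hq using hq
  -- coset representatives
  set v : H → H := fun h => (Quotient.mk (QuotientGroup.rightRel S) h).out with hv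
  have hvS : ∀ h, h * (v h)⁻¹ ∈ S := by
    intro h
    have h4 : (Quotient.mk (QuotientGroup.rightRel S) (v h)) =
      Quotient.mk (QuotientGroup.rightRel S) h := Quotient.out_eq _
    exact QuotientGroup.rightRel_apply.1 (Quotient.exact h4)
  have hvs : ∀ s ∈ S, ∀ h, v (s * h) = v h := by
    intro s hs h
    have h4 : (Quotient.mk (QuotientGroup.rightRel S) (s * h)) =
      Quotient.mk (QuotientGroup.rightRel S) h := by
      apply Quotient.sound
      apply QuotientGroup.rightRel_apply.2
      rw [mul_inv_rev, mul_inv_cancel_left]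
      exact inv_mem hs
    simp only [hv, h4]
  set σ : H → S := fun h => ⟨h * (v h)⁻¹, hvS h⟩ with hσ
  have hσv : ∀ h, (σ h : H) * v h = h := fun h => by simp only [hσ, inv_mul_cancel_right]
  have hσs : ∀ (s : S) h, σ ((s : H) * h) = s * σ h := by
    intro s h
    apply Subtype.ext
    simp only [hσ, Subgroup.coe_mul]
    rw [hvs _ s.2, mul_assoc]
  set y0 : ι → H → ℚ := fun j h => F j (v h) (σ h) - q j (v h) with hy0
  have hy0s : ∀ j (s : S) h, y0 j ((s : H)⁻¹ * h) - y0 j h = (c (s : H) j).coeff h := by
    intro j s h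
    have h4 := hFs j (v h) s (σ h)
    rw [hσv] at h4
    have h5 : σ ((s : H)⁻¹ * h) = s⁻¹ * σ h := by
      rw [← hσs, Subgroup.coe_inv]
    have h6 : v ((s : H)⁻¹ * h) = v h := hvs _ (inv_mem s.2) h
    simp only [hy0]
    rw [h5, h6, ← h4]
    ring
  -- finite support
  obtain ⟨Y, hY⟩ := hS
  have hYS : ∀ s ∈ Y, s ∈ S := fun s hs => hY ▸ Subgroup.subset_closure (Finset.mem_coe.2 hs)
  have hfin : ∀ j, {h | y0 j h ≠ 0}.Finite := by
    intro j
    set T : Finset H := Y.biUnion fun s => (c s j).coeff.support.image v with hT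
    have h4 : (⋃ t ∈ T, (fun u : S => (u : H) * t) '' {u : S | F j t u ≠ q j t}).Finite :=
      Set.Finite.biUnion (Finset.finite_toSet T) fun t _ => (hq j t).image _
    refine h4.subset ?_
    intro h hh
    by_cases ht : v h ∈ T
    · rw [Set.mem_iUnion₂]
      exact ⟨v h, ht, σ h, fun h5 => hh (sub_eq_zero.2 h5), hσv h⟩
    · exfalso
      -- F is constant
      have h5 : ∀ s ∈ Y, ∀ u : S, (c s j).coeff ((u : H) * v h) = 0 := by
        intro s hs u
        by_contra h6
        apply ht
        rw [hT, Finset.mem_biUnion]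
        refine ⟨s, hs, Finset.mem_image.2 ⟨(u : H) * v h, Finsupp.mem_support_iff.2 h6, ?_⟩⟩
        rw [hvs _ u.2]
        simp only [hv, Quotient.out_eq]
      have h6 : ∀ s ∈ S, ∀ u : S, (c s j).coeff ((u : H) * v h) = 0 := by
        intro s hs
        rw [← hY] at hs
        have hcl : ∀ g ∈ Subgroup.closure (Y : Set H), g ∈ S := fun g hg => hY ▸ hg
        induction hs using Subgroup.closure_induction with
        | mem a ha => exact h5 a (Finset.mem_coe.1 ha)
        | one =>
          intro u
          have h7 := hcf 1 (one_mem S) 1 j ((u : H) * v h)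
          rw [one_mul, inv_one, one_mul] at h7
          linarith
        | mul a b ha hb iha ihb =>
          intro u
          rw [hcf a (hcl a ha) b, iha, zero_add]
          have h7 := ihb (⟨a, hcl a ha⟩⁻¹ * u)
          rwa [Subgroup.coe_mul, Subgroup.coe_inv, mul_assoc] at h7
        | inv a ha iha =>
          intro u
          have h7 := hcf a (hcl a ha) a⁻¹ j (a * ((u : H) * v h))
          rw [inv_mul_cancel_left, mul_inv_cancel] at h7
          have h8 := iha (⟨a, hcl a ha⟩ * u)
          rw [Subgroup.coe_mul, mul_assoc] at h8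
          have h9 := hcf 1 (one_mem S) 1 j (a * ((u : H) * v h))
          rw [one_mul, inv_one, one_mul] at h9
          have h10 : (c a j).coeff (a * ((u : H) * v h)) = 0 := h8
          linarith
      have h7 : ∀ u : S, F j (v h) u = F j (v h) 1 := by
        intro u
        have h8 := hFs j (v h) u u
        rw [inv_mul_cancel, h6 u u.2] at h8
        linarith
      have h8 : F j (v h) 1 = q j (v h) := by
        by_contra h9
        have h10 : {u : S | F j (v h) u ≠ q j (v h)} = Set.univ :=
          Set.eq_univ_of_forall fun u => by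
            change F j (v h) u ≠ q j (v h)
            rw [h7 u]
            exact h9
        have h11 := hq j (v h)
        rw [h10] at h11
        exact Set.infinite_univ h11
      exact hh (sub_eq_zero.2 ((h7 _).trans h8))
  set z : ι → MonoidAlgebra ℚ H := fun j => .ofCoeff (Finsupp.ofSupportFinite (y0 j) (hfin j))
    with hz
  have hzc : ∀ j h, (z j).coeff h = y0 j h := fun j h => rfl
  have hcz : ∀ s : S, c (s : H) = of ℚ H (s : H) • z - z := by
    intro s
    funext j
    refine MonoidAlgebra.coeff_injective (Finsupp.ext fun h => ?_)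
    rw [← hy0s j s h, Pi.sub_apply, Pi.smul_apply, smul_eq_mul, coeff_sub, Finsupp.sub_apply,
      rai_coeff, hzc, hzc]
  set w : MonoidAlgebra ℚ H := bq x z - 1 with hw
  have hsw : ∀ s : S, of ℚ H (s : H) * w = w := by
    intro s
    have h4 := hbc (s : H)
    rw [hcz, map_sub, map_smul, smul_eq_mul] at h4
    rw [hw, mul_sub, mul_one]
    have h5 : of ℚ H (s : H) * bq x z = of ℚ H (s : H) - 1 + bq x z := by
      rw [← h4]; abel
    rw [h5]; abel
  have hw0 : w = 0 := by
    by_contra h4
    have h5 : ∃ h, w.coeff h ≠ 0 := by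
      by_contra h6
      apply h4
      refine MonoidAlgebra.coeff_injective (Finsupp.ext fun h => ?_)
      by_contra h7
      exact h6 ⟨h, h7⟩
    obtain ⟨h, hh⟩ := h5
    have h6 : Set.range (fun s : S => ((s : H)⁻¹ * h)) ⊆ (w.coeff.support : Set H) := by
      rintro _ ⟨s, rfl⟩
      refine Finset.mem_coe.2 (Finsupp.mem_support_iff.2 ?_)
      rw [← rai_coeff, hsw]
      exact hh
    have h7 : Function.Injective (fun s : S => ((s : H)⁻¹ * h)) := by
      intro a b hab
      exact Subtype.ext (inv_injective (mul_right_cancel hab))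
    exact Set.infinite_range_of_injective h7 ((Finset.finite_toSet _).subset h6)
  exact rai_aug x z (sub_eq_zero.1 hw0)

end Pool.Agent.RFR
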