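import Mathlib

set_option autoImplicit false

/-! RFR-RExt (6.2): extension of functionals over a division ring (pure Mathlib).

PLAN.  `V = ι → D` as a left `D`-module.  Let `e : (Fin m → D) →ₗ[D] V`, `δ ↦ ∑ k, δ k • (fun i => j (ρ k i))`, and `g : (Fin m → D) →ₗ[D] D`, `δ ↦ ∑ k, δ k * j (μ (ρ k))`.  `ker e ≤ ker g` by `h`, so `g` factors through the range of `e` and extends to `F : V →ₗ[D] D`
(`LinearMap.exists_extend`, `Submodule.liftQ`/`LinearMap.quotKerEquivRange`; or `LinearMap.exists_leftInverse...`), `F v = ∑ i, v i * F (e_i)`.  `d i = F (e_i)`.  So `∑ i, j (ρ k i) * d i = j (μ (ρ k))`; every `y` in `P` is `∑ c_k • ρ k` (`hρ`), use linearity. -/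

namespace Pool.Agent.RFR

theorem exists_functional {A D : Type} [Ring A] [DivisionRing D] (j : A →+* D) {ι : Type}
    [Fintype ι] (P : Submodule A (ι → A)) {m : ℕ} (ρ : Fin m → P)
    (hρ : Submodule.span A (Set.range ρ) = ⊤) (μ : P →ₗ[A] A)
    (h : ∀ δ : Fin m → D, (∀ i, ∑ k, δ k * j ((ρ k : ι → A) i) = 0) →
      ∑ k, δ k * j (μ (ρ k)) = 0) :
    ∃ d : ι → D, ∀ y : P, ∑ i, j ((y : ι → A) i) * d i = j (μ y) := by
  classical
  let e : (Fin m → D) →ₗ[D] (ι → D) :=
    Fintype.linearCombination D (fun k => fun i => j ((ρ k : ι → A) i))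
  let g : (Fin m → D) →ₗ[D] D := Fintype.linearCombination D (fun k => j (μ (ρ k)))
  have he : ∀ δ i, e δ i = ∑ k, δ k * j ((ρ k : ι → A) i) := by
    intro δ i
    simp [e, Fintype.linearCombination_apply, Finset.sum_apply]
  have hg : ∀ δ, g δ = ∑ k, δ k * j (μ (ρ k)) := by
    intro δ
    simp [g, Fintype.linearCombination_apply]
  have hker : ∀ δ, e δ = 0 → g δ = 0 := by
    intro δ hδ
    rw [hg]
    apply h
    intro i
    rw [← he, hδ]
    rfl
  obtain ⟨σ, hσ⟩ := LinearMap.exists_rightInverse_of_surjective e.rangeRestrict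
    (LinearMap.range_eq_top.mpr e.surjective_rangeRestrict)
  obtain ⟨F, hF⟩ := LinearMap.exists_extend (g.comp σ)
  have hFe : ∀ δ, F (e δ) = g δ := by
    intro δ
    have h1 : F (e δ) = (g.comp σ) (e.rangeRestrict δ) := by
      rw [← hF]; rfl
    rw [h1]
    have h2 : e (σ (e.rangeRestrict δ) - δ) = 0 := by
      rw [map_sub]
      have h3 : e.rangeRestrict (σ (e.rangeRestrict δ)) = e.rangeRestrict δ := by
        exact congrArg (fun f => f (e.rangeRestrict δ)) hσ
      have h4 := congrArg Subtype.val h3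
      have h5 : e (σ (e.rangeRestrict δ)) = e δ := h4
      rw [h5, sub_self]
    have h6 := hker _ h2
    rw [map_sub, sub_eq_zero] at h6
    exact h6
  refine ⟨fun i => F (Pi.single i 1), ?_⟩
  have hFv : ∀ v : ι → D, F v = ∑ i, v i * F (Pi.single i 1) := by
    intro v
    conv_lhs => rw [← Finset.univ_sum_single v]
    rw [map_sum]
    apply Finset.sum_congr rfl
    intro i _
    have : (Pi.single i (v i) : ι → D) = v i • Pi.single i 1 := by
      rw [← Pi.single_smul]; simp
    rw [this, map_smul, smul_eq_mul]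
  have hρk : ∀ k, ∑ i, j ((ρ k : ι → A) i) * F (Pi.single i 1) = j (μ (ρ k)) := by
    intro k
    have h1 := hFe (Pi.single k 1)
    rw [hFv, hg] at h1
    have h2 : ∀ i, e (Pi.single k 1) i = j ((ρ k : ι → A) i) := by
      intro i
      rw [he]
      rw [Finset.sum_eq_single k]
      · simp
      · intro b _ hb
        simp [Pi.single_eq_of_ne hb]
      · simp
    simp only [h2] at h1
    rw [h1, Finset.sum_eq_single k]
    · simp
    · intro b _ hb
      simp [Pi.single_eq_of_ne hb]
    · simp
  intro y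
  have hy : y ∈ Submodule.span A (Set.range ρ) := by rw [hρ]; trivial
  induction hy using Submodule.span_induction with
  | mem x hx =>
    obtain ⟨k, rfl⟩ := hx
    exact hρk k
  | zero => simp
  | add a b _ _ ha hb =>
    simp only [Submodule.coe_add, Pi.add_apply, map_add, add_mul, Finset.sum_add_distrib, ha, hb]
  | smul c a _ ha =>
    simp only [Submodule.coe_smul, Pi.smul_apply, smul_eq_mul, map_mul, mul_assoc, map_smul,
      ← Finset.mul_sum, ha]

end Pool.Agent.RFR
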