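import Pool.Agent.RFR.DGm
import Pool.Agent.RFR.PDefs

set_option autoImplicit false

/-! RFR-RInj (6.1): injectivity over the tame matrices (truncation argument).

PLAN.  Common type `(r, L, C)` of the `X k` (`tame_all`).  Fix `s, u` and `w`; show that the entry `(s, u, w)` of `∑ k, mm (X k) (gm (μ (ρ k)))` is `0`.  `T w = s * TT L r w`.  For `m : ℤ` let `δ k : MonoidAlgebra ℚ H` be the part of the row `X k s u` on `{T ≤ m}` (finite by
`fin_T`).  `Y = ∑ k, δ k • ρ k` (coefficients: `(δ k * ρ k j) w = ∑_g δ k (w g⁻¹) * ρ k j g`, compare `mm_gm`).  If `T w ≤ m - c` then `Y j w = (∑ k, mm (X k) (gm (ρ k j))) s u w = 0`; if `T w > m + c` then `Y j w = 0`, where `c` bounds `|T (w g⁻¹) - T w|` for the finitely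
many `g` in the supports of the `ρ k j` (`TT_lip`).  So `Y` is in the slab `m - c ≤ T ≤ m + c`; `SlabR`: `Y = ∑ ε l • ρ l`, `ε l` in a slab `m - c' ≤ T ≤ m + c'`.  Apply `μ` to this equation in `ker (bq x)`: `∑ k, δ k * μ (ρ k) = ∑ l, ε l * μ (ρ l)` is supported in
`T ≥ m - c''`, `c''` independent of `m`.  For `m` large (`T w < m - c''`, `T w ≤ m - c`) the entry of `∑ k, mm (X k) (gm (μ (ρ k)))` at `(s, u, w)` is the coefficient of `∑ k, δ k * μ (ρ k)` at `w`, so `0`. -/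

namespace Pool.Agent.RFR

open MonoidAlgebra

variable {H : Type} [Group H] {t : PT H}

/-- right convolution of a row with an element of the group ring -/
private noncomputable def rinj_cv (y : H → ℚ) (a : MonoidAlgebra ℚ H) (w : H) : ℚ :=
  a.coeff.sum fun g c => y (w * g⁻¹) * c

private theorem rinj_mul (d a : MonoidAlgebra ℚ H) (w : H) :
    (d * a).coeff w = rinj_cv d.coeff a w := by
  unfold rinj_cv
  rw [MonoidAlgebra.coeff_mul_apply_right]

private theorem rinj_cv_congr {y y' : H → ℚ} {a : MonoidAlgebra ℚ H} {w : H}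
    (h : ∀ g, a.coeff g ≠ 0 → y (w * g⁻¹) = y' (w * g⁻¹)) : rinj_cv y a w = rinj_cv y' a w := by
  unfold rinj_cv
  refine Finsupp.sum_congr fun g hg => ?_
  rw [h g (Finsupp.mem_support_iff.1 hg)]

private theorem rinj_cv_zero {y : H → ℚ} {a : MonoidAlgebra ℚ H} {w : H}
    (h : ∀ g, a.coeff g ≠ 0 → y (w * g⁻¹) = 0) : rinj_cv y a w = 0 := by
  unfold rinj_cv
  refine Finset.sum_eq_zero fun g hg => ?_
  show y (w * g⁻¹) * a.coeff g = 0
  rw [h g (Finsupp.mem_support_iff.1 hg), zero_mul]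

private theorem rinj_main {ι : Type} [Fintype ι] (x : ι → H) {m : ℕ}
    (ρ : Fin m → LinearMap.ker (bq x)) (T : H → ℤ) (hT : BdR T)
    (hSL : SlabR T x (fun l => (ρ l : ι → MonoidAlgebra ℚ H)))
    (μ : LinearMap.ker (bq x) →ₗ[MonoidAlgebra ℚ H] MonoidAlgebra ℚ H) (y : Fin m → H → ℚ)
    (hy : ∀ k n, {w | y k w ≠ 0 ∧ T w ≤ n}.Finite)
    (h : ∀ j w, ∑ k, rinj_cv (y k) ((ρ k : ι → MonoidAlgebra ℚ H) j) w = 0) (w : H) :
    ∑ k, rinj_cv (y k) (μ (ρ k)) w = 0 := by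
  classical
  choose B hB using hT
  obtain ⟨S, hS⟩ : ∃ S : Finset H, (∀ k j g, ((ρ k : ι → MonoidAlgebra ℚ H) j).coeff g ≠ 0 → g ∈ S) ∧
      ∀ k g, (μ (ρ k)).coeff g ≠ 0 → g ∈ S := by
    refine ⟨(Finset.univ.biUnion fun k : Fin m => Finset.univ.biUnion fun j : ι =>
      ((ρ k : ι → MonoidAlgebra ℚ H) j).coeff.support) ∪
      (Finset.univ.biUnion fun k : Fin m => (μ (ρ k)).coeff.support), ?_, ?_⟩
    · intro k j g hg
      refine Finset.mem_union_left _ ?_
      simp only [Finset.mem_biUnion, Finset.mem_univ, true_and, Finsupp.mem_support_iff]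
      exact ⟨k, j, hg⟩
    · intro k g hg
      refine Finset.mem_union_right _ ?_
      simp only [Finset.mem_biUnion, Finset.mem_univ, true_and, Finsupp.mem_support_iff]
      exact ⟨k, hg⟩
  obtain ⟨c, hc⟩ : ∃ c : ℤ, ∀ g ∈ S, ∀ v, |T (v * g⁻¹) - T v| ≤ c := by
    obtain ⟨c, hc⟩ := (S.image fun g => B g⁻¹).bddAbove
    refine ⟨c, fun g hg v => (hB g⁻¹ v).trans (hc ?_)⟩
    exact Finset.mem_coe.2 (Finset.mem_image_of_mem (fun g => B g⁻¹) hg)
  obtain ⟨C, hC0, hC⟩ := hSL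
  obtain ⟨n, hn⟩ : ∃ n : ℤ, n = T w + 2 * |c| + C + 1 := ⟨_, rfl⟩
  have hcc : c ≤ |c| := le_abs_self c
  have hca : 0 ≤ |c| := abs_nonneg c
  -- the truncated rows
  obtain ⟨d, hd⟩ : ∃ d : Fin m → MonoidAlgebra ℚ H, ∀ k v,
      (d k).coeff v = if T v ≤ n then y k v else 0 := by
    have hfin : ∀ k, (Function.support fun v => if T v ≤ n then y k v else 0).Finite := by
      intro k
      refine (hy k n).subset ?_
      intro v hv
      rw [Function.mem_support] at hv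
      by_cases h1 : T v ≤ n
      · rw [if_pos h1] at hv
        exact ⟨hv, h1⟩
      · rw [if_neg h1] at hv
        exact absurd rfl hv
    refine ⟨fun k => MonoidAlgebra.ofCoeff (Finsupp.ofSupportFinite _ (hfin k)), fun k v => ?_⟩
    rfl
  have hlow : ∀ k (a : MonoidAlgebra ℚ H) v, (∀ g, a.coeff g ≠ 0 → g ∈ S) → T v ≤ n - c →
      (d k * a).coeff v = rinj_cv (y k) a v := by
    intro k a v ha hv
    rw [rinj_mul]
    refine rinj_cv_congr fun g hg => ?_
    rw [hd, if_pos]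
    have := abs_le.1 (hc g (ha g hg) v)
    linarith [this.2]
  have hhigh : ∀ k (a : MonoidAlgebra ℚ H) v, (∀ g, a.coeff g ≠ 0 → g ∈ S) → n + c < T v →
      (d k * a).coeff v = 0 := by
    intro k a v ha hv
    rw [rinj_mul]
    refine rinj_cv_zero fun g hg => ?_
    rw [hd, if_neg]
    have := abs_le.1 (hc g (ha g hg) v)
    intro h1
    linarith [this.1]
  obtain ⟨Y, hY⟩ : ∃ Y : LinearMap.ker (bq x), Y = ∑ k, d k • ρ k := ⟨_, rfl⟩
  have hYj : ∀ j v, ((Y : ι → MonoidAlgebra ℚ H) j).coeff v =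
      ∑ k, (d k * (ρ k : ι → MonoidAlgebra ℚ H) j).coeff v := by
    intro j v
    rw [hY]
    simp [Finset.sum_apply, MonoidAlgebra.coeff_sum]
  have hYsl : ∀ j, InSl T (n - c) (n + c) ((Y : ι → MonoidAlgebra ℚ H) j) := by
    intro j v hv
    constructor
    · by_contra h1
      apply hv
      rw [hYj, ← h j v]
      refine Finset.sum_congr rfl fun k _ => ?_
      exact hlow k _ v (hS.1 k j) (by linarith [not_le.1 h1])
    · by_contra h1
      apply hv
      rw [hYj]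
      exact Finset.sum_eq_zero fun k _ => hhigh k _ v (hS.1 k j) (not_le.1 h1)
  obtain ⟨e, he1, he2⟩ := hC (n - c) (n + c) (Y : ι → MonoidAlgebra ℚ H) (LinearMap.mem_ker.1 Y.2) hYsl
  have he3 : Y = ∑ l, e l • ρ l := by
    apply Subtype.ext
    rw [he1]
    simp
  have hmu : ∑ k, d k * μ (ρ k) = ∑ l, e l * μ (ρ l) := by
    have h1 : μ Y = ∑ k, d k * μ (ρ k) := by
      rw [hY, map_sum]
      simp [smul_eq_mul]
    have h2 : μ Y = ∑ l, e l * μ (ρ l) := by
      rw [he3, map_sum]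
      simp [smul_eq_mul]
    rw [← h1, h2]
  have h3 : ∀ k, (d k * μ (ρ k)).coeff w = rinj_cv (y k) (μ (ρ k)) w := fun k =>
    hlow k _ w (hS.2 k) (by rw [hn]; linarith)
  have h4 : ∀ l, (e l * μ (ρ l)).coeff w = 0 := by
    intro l
    rw [rinj_mul]
    refine rinj_cv_zero fun g hg => ?_
    by_contra h5
    have h6 := (he2 l _ h5).1
    have h7 := (abs_le.1 (hc g (hS.2 l g hg) w)).2
    rw [hn] at h6
    linarith
  calc ∑ k, rinj_cv (y k) (μ (ρ k)) w = ∑ k, (d k * μ (ρ k)).coeff w :=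
        Finset.sum_congr rfl fun k _ => (h3 k).symm
    _ = (∑ k, d k * μ (ρ k)).coeff w := by simp [MonoidAlgebra.coeff_sum]
    _ = (∑ l, e l * μ (ρ l)).coeff w := by rw [hmu]
    _ = ∑ l, (e l * μ (ρ l)).coeff w := by simp [MonoidAlgebra.coeff_sum]
    _ = 0 := Finset.sum_eq_zero fun l _ => h4 l

theorem inj_tame {ι : Type} [Fintype ι] (x : ι → H) {m : ℕ} (ρ : Fin m → LinearMap.ker (bq x))
    (hSL : ∀ (r : ℕ) (L : ℤ) (s : ℤˣ), SlabR (fun w => (s : ℤ) * t.TT L r w) x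
      (fun l => (ρ l : ι → MonoidAlgebra ℚ H)))
    (μ : LinearMap.ker (bq x) →ₗ[MonoidAlgebra ℚ H] MonoidAlgebra ℚ H) (X : Fin m → Mx H)
    (hX : ∀ k, Tame t (X k))
    (h : ∀ j, ∑ k, mm (X k) (gm ((ρ k : ι → MonoidAlgebra ℚ H) j)) = 0) :
    ∑ k, mm (X k) (gm (μ (ρ k))) = 0 := by
  obtain ⟨r, hr⟩ := tame_all hX
  obtain ⟨L, hL⟩ := hr r le_rfl
  obtain ⟨C, hC⟩ := hL L le_rfl
  obtain ⟨A, hA⟩ := TT_lip t L r
  funext s u w
  have hsum : ∀ (f : Fin m → Mx H), (∑ k, f k) s u w = ∑ k, f k s u w := by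
    intro f
    rw [Finset.sum_apply, Finset.sum_apply, Finset.sum_apply]
  have hB : BdR (fun w => (s : ℤ) * t.TT L r w) := by
    intro v
    refine ⟨A * t.ell v, fun w => ?_⟩
    rw [← mul_sub, abs_mul]
    have h1 : |(s : ℤ)| = 1 := by
      rcases Int.units_eq_one_or s with h | h <;> rw [h] <;> rfl
    rw [h1, one_mul]
    exact hA w v
  have hy : ∀ (k : Fin m) (n : ℤ), {w | X k s u w ≠ 0 ∧ (s : ℤ) * t.TT L r w ≤ n}.Finite := by
    intro k n
    refine (fin_T (hC k) s u (n - (s : ℤ) * t.TT L r u)).subset ?_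
    rintro w ⟨h1, h2⟩
    refine ⟨h1, ?_⟩
    rw [mul_sub]
    linarith
  have hz : ∀ j w, ∑ k, rinj_cv (X k s u) ((ρ k : ι → MonoidAlgebra ℚ H) j) w = 0 := by
    intro j w
    have h1 := congrFun (congrFun (congrFun (h j) s) u) w
    rw [Finset.sum_apply, Finset.sum_apply, Finset.sum_apply] at h1
    refine Eq.trans (Finset.sum_congr rfl fun k _ => ?_) h1
    exact (mm_gm (X k) _ s u w).symm
  have key := rinj_main x ρ (fun w => (s : ℤ) * t.TT L r w) hB (hSL r L s) μ (fun k => X k s u) hy hz w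
  rw [hsum]
  refine Eq.trans (Finset.sum_congr rfl fun k _ => ?_) key
  exact mm_gm (X k) _ s u w

end Pool.Agent.RFR
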