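import Pool.Agent.RFR.DGm
import Pool.Agent.RFR.PDefs

set_option autoImplicit false

/-! RFR-RRet (7): the retraction onto the relation module.

PLAN.  Common type `(r, L, C)` of the `X i l` (`tame_all`, re-index `ι × Fin N` by `Fin`).  For `y` let `Λ l y = ∑ i, mm (gm (y i)) (X i l)`, a tame matrix of type `(r, L, C')` for the same `r, L` (`gm (y i)` is of type `(r, L, C'')`: `ell` is bounded on the support and `F_lip`).  `R y = ∑ l, P l y • ρ l` where
`P l y : MonoidAlgebra ℚ H` has the coefficient `Λ l y 1 1 w` at `w` if `TT L r w < 0`, and `Λ l y (-1) 1 w` if `TT L r w ≥ 0`; finite support by `fin_T` for `s = 1` (`TT w ≤ 0`) and `s = -1` (`- TT w ≤ 0`).  Additive in `y` (`gm_add`, `add_mm` or `gm_mm`).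
`R y ∈ ker`.  For `y ∈ ker (bq x)`: `Λ l y = gm (μ l y)` (`hd`), `P l y = μ l y`, `R y = ∑ μ l y • ρ l = y`.  For `g ∈ E r`, `TT g = TT 1`: `TT (g w) = TT w` (`TT_mul`), `Λ l (g • y) s 1 w = Λ l y s 1 (g⁻¹ w)`
(`gm_mm`, `Ty.inv` for `g⁻¹`), so `P l (g • y) = g * P l y`. -/

namespace Pool.Agent.RFR

open MonoidAlgebra

variable {H : Type} [Group H] {t : PT H}

/-- the entry of the row `(s, 1)` of the matrix `∑ i, y i * X i` -/
private noncomputable def rret_lam {ι : Type} [Fintype ι] (X : ι → Mx H)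
    (y : ι → MonoidAlgebra ℚ H) (s : ℤˣ) (w : H) : ℚ :=
  ∑ i, (y i).coeff.sum fun g c => c * X i s g w

private theorem rret_lam_add {ι : Type} [Fintype ι] (X : ι → Mx H)
    (y y' : ι → MonoidAlgebra ℚ H) (s : ℤˣ) (w : H) :
    rret_lam X (y + y') s w = rret_lam X y s w + rret_lam X y' s w := by
  unfold rret_lam
  rw [← Finset.sum_add_distrib]
  refine Finset.sum_congr rfl fun i _ => ?_
  rw [Pi.add_apply, coeff_add]
  exact Finsupp.sum_add_index' (fun g => zero_mul _) (fun g a b => add_mul a b _)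

private theorem rret_lam_mm {ι : Type} [Fintype ι] (X : ι → Mx H)
    (y : ι → MonoidAlgebra ℚ H) (s : ℤˣ) (w : H) :
    (∑ i, mm (gm (y i)) (X i)) s 1 w = rret_lam X y s w := by
  unfold rret_lam
  simp only [Finset.sum_apply]
  refine Finset.sum_congr rfl fun i _ => ?_
  rw [gm_mm]
  simp only [one_mul]

private theorem rret_lam_smul {ι : Type} [Fintype ι] {r : ℕ} {L C : ℤ} (X : ι → Mx H)
    (hX : ∀ i, Ty t r L C (X i)) {g : H} (hg : g ∈ t.E r)
    (y : ι → MonoidAlgebra ℚ H) (s : ℤˣ) (w : H) :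
    rret_lam X (of ℚ H g • y) s w = rret_lam X y s (g⁻¹ * w) := by
  rw [← rret_lam_mm, ← rret_lam_mm]
  simp only [Finset.sum_apply]
  refine Finset.sum_congr rfl fun i _ => ?_
  show ∑ᶠ v : H, (of ℚ H g * y i).coeff (1⁻¹ * v) * X i s v w =
    ∑ᶠ v : H, (y i).coeff (1⁻¹ * v) * X i s v (g⁻¹ * w)
  rw [← finsum_comp_equiv (Equiv.mulLeft g)]
  refine finsum_congr fun v => ?_
  rw [Equiv.coe_mulLeft, of_apply, coeff_single_mul_apply]
  have h1 := (hX i).inv s g hg v (g⁻¹ * w)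
  rw [mul_inv_cancel_left] at h1
  rw [h1, one_mul]
  congr 2
  group

private theorem rret_fin {ι : Type} [Fintype ι] {r : ℕ} {L C : ℤ} (X : ι → Mx H)
    (hX : ∀ i, Ty t r L C (X i)) (y : ι → MonoidAlgebra ℚ H) :
    (Function.support fun w : H => if t.TT L r w < 0 then rret_lam X y 1 w
      else rret_lam X y (-1) w).Finite := by
  classical
  have h1 : (⋃ i : ι, ⋃ g ∈ (y i).coeff.support,
      ({w | X i 1 g w ≠ 0 ∧ ((1 : ℤˣ) : ℤ) * (t.TT L r w - t.TT L r g) ≤ - t.TT L r g} ∪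
       {w | X i (-1) g w ≠ 0 ∧ (((-1 : ℤˣ)) : ℤ) * (t.TT L r w - t.TT L r g) ≤
          t.TT L r g})).Finite := by
    refine Set.finite_iUnion fun i => ?_
    refine Set.Finite.biUnion (Finset.finite_toSet _) fun g _ => ?_
    exact (fin_T (hX i) 1 g _).union (fin_T (hX i) (-1) g _)
  refine h1.subset ?_
  intro w hw
  have hw' : (if t.TT L r w < 0 then rret_lam X y 1 w else rret_lam X y (-1) w) ≠ 0 := hw
  have key : ∀ s : ℤˣ, rret_lam X y s w ≠ 0 → ∃ i, ∃ g ∈ (y i).coeff.support, X i s g w ≠ 0 := by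
    intro s hs
    obtain ⟨i, -, hi⟩ := Finset.exists_ne_zero_of_sum_ne_zero hs
    obtain ⟨g, hg, hg2⟩ := Finset.exists_ne_zero_of_sum_ne_zero hi
    exact ⟨i, g, hg, right_ne_zero_of_mul hg2⟩
  by_cases h2 : t.TT L r w < 0
  · rw [if_pos h2] at hw'
    obtain ⟨i, g, hg, hx⟩ := key 1 hw'
    refine Set.mem_iUnion.2 ⟨i, Set.mem_biUnion hg (Or.inl ⟨hx, ?_⟩)⟩
    rw [Units.val_one, one_mul]
    linarith
  · rw [if_neg h2] at hw'
    obtain ⟨i, g, hg, hx⟩ := key (-1) hw'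
    refine Set.mem_iUnion.2 ⟨i, Set.mem_biUnion hg (Or.inr ⟨hx, ?_⟩)⟩
    rw [Units.val_neg, Units.val_one]
    linarith

/-- the part of the row `λ` used by the retraction -/
private noncomputable def rret_P {ι : Type} [Fintype ι] {r : ℕ} {L C : ℤ} (X : ι → Mx H)
    (hX : ∀ i, Ty t r L C (X i)) (y : ι → MonoidAlgebra ℚ H) : MonoidAlgebra ℚ H :=
  ofCoeff (Finsupp.ofSupportFinite _ (rret_fin X hX y))

private theorem rret_P_coeff {ι : Type} [Fintype ι] {r : ℕ} {L C : ℤ} (X : ι → Mx H)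
    (hX : ∀ i, Ty t r L C (X i)) (y : ι → MonoidAlgebra ℚ H) (w : H) :
    (rret_P X hX y).coeff w = if t.TT L r w < 0 then rret_lam X y 1 w
      else rret_lam X y (-1) w := rfl

private theorem rret_P_add {ι : Type} [Fintype ι] {r : ℕ} {L C : ℤ} (X : ι → Mx H)
    (hX : ∀ i, Ty t r L C (X i)) (y y' : ι → MonoidAlgebra ℚ H) :
    rret_P X hX (y + y') = rret_P X hX y + rret_P X hX y' := by
  refine coeff_injective (Finsupp.ext fun w => ?_)
  rw [coeff_add, Finsupp.add_apply, rret_P_coeff, rret_P_coeff, rret_P_coeff, rret_lam_add,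
    rret_lam_add]
  split_ifs <;> rfl

private theorem rret_P_smul {ι : Type} [Fintype ι] {r : ℕ} {L C : ℤ} (X : ι → Mx H)
    (hX : ∀ i, Ty t r L C (X i)) {g : H} (hg : g ∈ t.E r) (hT : t.TT L r g = t.TT L r 1)
    (y : ι → MonoidAlgebra ℚ H) :
    rret_P X hX (of ℚ H g • y) = of ℚ H g * rret_P X hX y := by
  refine coeff_injective (Finsupp.ext fun w => ?_)
  rw [of_apply, coeff_single_mul_apply, one_mul, rret_P_coeff, rret_P_coeff, ← of_apply,
    rret_lam_smul X hX hg, rret_lam_smul X hX hg]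
  have h1 := TT_mul t L r hg (g⁻¹ * w)
  rw [mul_inv_cancel_left, hT, sub_self, add_zero] at h1
  rw [h1]

theorem retraction {ι : Type} [Fintype ι] (x : ι → H) {N : ℕ} (ρ : Fin N → LinearMap.ker (bq x))
    (μ : Fin N → (LinearMap.ker (bq x) →ₗ[MonoidAlgebra ℚ H] MonoidAlgebra ℚ H))
    (hdb : ∀ y : LinearMap.ker (bq x), y = ∑ l, μ l y • ρ l) (X : ι → Fin N → Mx H)
    (hX : ∀ i l, Tame t (X i l))
    (hd : ∀ (y : LinearMap.ker (bq x)) (l : Fin N),
      ∑ i, mm (gm ((y : ι → MonoidAlgebra ℚ H) i)) (X i l) = gm (μ l y)) :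
    ∃ (r : ℕ) (L : ℤ) (R : (ι → MonoidAlgebra ℚ H) →+ (ι → MonoidAlgebra ℚ H)),
      (∀ y, bq x (R y) = 0) ∧ (∀ y, bq x y = 0 → R y = y) ∧
      ∀ g ∈ t.E r, t.TT L r g = t.TT L r 1 → ∀ y, R (of ℚ H g • y) = of ℚ H g • R y := by
  classical
  have htame : ∀ k, Tame t (X ((Fintype.equivFin (ι × Fin N)).symm k).1
      ((Fintype.equivFin (ι × Fin N)).symm k).2) := fun k => hX _ _
  obtain ⟨r, hr⟩ := tame_all htame
  obtain ⟨L, hL⟩ := hr r le_rfl
  obtain ⟨C, hC⟩ := hL L le_rfl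
  have hty : ∀ (l : Fin N) (i : ι), Ty t r L C (X i l) := by
    intro l i
    have h1 := hC (Fintype.equivFin (ι × Fin N) (i, l))
    rw [Equiv.symm_apply_apply] at h1
    exact h1
  refine ⟨r, L, AddMonoidHom.mk' (fun y => ∑ l, rret_P (fun i => X i l) (hty l) y •
    (ρ l : ι → MonoidAlgebra ℚ H)) ?_, ?_, ?_, ?_⟩
  · intro y y'
    rw [← Finset.sum_add_distrib]
    refine Finset.sum_congr rfl fun l _ => ?_
    rw [rret_P_add, add_smul]
  · intro y
    rw [AddMonoidHom.mk'_apply, map_sum]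
    refine Finset.sum_eq_zero fun l _ => ?_
    rw [map_smul, LinearMap.mem_ker.1 (ρ l).2, smul_zero]
  · intro y hy
    rw [AddMonoidHom.mk'_apply]
    have h1 := congrArg (fun z : LinearMap.ker (bq x) => (z : ι → MonoidAlgebra ℚ H))
      (hdb ⟨y, LinearMap.mem_ker.2 hy⟩)
    have h2 : y = ∑ l, (μ l ⟨y, LinearMap.mem_ker.2 hy⟩) • (ρ l : ι → MonoidAlgebra ℚ H) := by
      refine h1.trans ?_
      simp only [Submodule.coe_sum, Submodule.coe_smul]
    refine Eq.trans ?_ h2.symm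
    refine Finset.sum_congr rfl fun l _ => ?_
    congr 1
    refine coeff_injective (Finsupp.ext fun w => ?_)
    have h3 : ∀ s : ℤˣ, rret_lam (fun i => X i l) y s w =
        (μ l ⟨y, LinearMap.mem_ker.2 hy⟩).coeff w := by
      intro s
      rw [← rret_lam_mm]
      have h4 := congrFun (congrFun (congrFun (hd ⟨y, LinearMap.mem_ker.2 hy⟩ l) s) 1) w
      refine h4.trans ?_
      show (μ l ⟨y, LinearMap.mem_ker.2 hy⟩).coeff (1⁻¹ * w) = _
      rw [inv_one, one_mul]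
    rw [rret_P_coeff, h3, h3, ite_self]
  · intro g hg hT y
    rw [AddMonoidHom.mk'_apply, Finset.smul_sum]
    refine Finset.sum_congr rfl fun l _ => ?_
    rw [rret_P_smul _ _ hg hT, mul_smul]

end Pool.Agent.RFR
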