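import Pool.Agent.RFR.SDefs

set_option autoImplicit false

/-! RFR-SB1 (8.9): free factors are finitely generated and have smaller first Betti number.

PLAN.  `FreeProd A B` gives `e : CoprodI (fun b => fam A B b) ≃* S`.  Retraction `S → fam A B b`: `Monoid.CoprodI.lift` of the
identity on the factor `b` and the trivial map on the other one, composed with `e.symm`; it is onto, so the factor is f.g.
`Hom(S, ℚ) → Hom(A, ℚ) × Hom(B, ℚ)` (restriction) is a linear isomorphism (inverse: `CoprodI.lift`, use `Multiplicative ℚ`
or `AddMonoidHom.toMultiplicative`); `Module.finrank_prod`; `Hom` of a f.g. group is finite dimensional (evaluate at generators). -/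

namespace Pool.Agent.RFR

variable {S : Type} [Group S]

private theorem SB1_lift {A B : Subgroup S} (h : FreeProd A B) {N : Type} [Group N]
    (α : A →* N) (β : B →* N) :
    ∃ φ : S →* N, (∀ a : A, φ a = α a) ∧ ∀ b : B, φ b = β b := by
  let e : Monoid.CoprodI (fun b : Bool => fam A B b) ≃* S := MulEquiv.ofBijective _ h
  let f : ∀ b : Bool, fam A B b →* N := fun b => match b with
    | true => (α : fam A B true →* N)
    | false => (β : fam A B false →* N)
  refine ⟨(Monoid.CoprodI.lift f).comp e.symm.toMonoidHom, ?_, ?_⟩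
  · intro a
    have h1 : e (Monoid.CoprodI.of (i := true) (a : fam A B true)) = (a : S) :=
      Monoid.CoprodI.lift_of (fun b : Bool => (fam A B b).subtype) (i := true) a
    have h2 : e.symm (a : S) = Monoid.CoprodI.of (i := true) (a : fam A B true) := by
      rw [← h1, MulEquiv.symm_apply_apply]
    show Monoid.CoprodI.lift f (e.symm (a : S)) = α a
    rw [h2]
    exact Monoid.CoprodI.lift_of f (i := true) a
  · intro a
    have h1 : e (Monoid.CoprodI.of (i := false) (a : fam A B false)) = (a : S) :=
      Monoid.CoprodI.lift_of (fun b : Bool => (fam A B b).subtype) (i := false) a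
    have h2 : e.symm (a : S) = Monoid.CoprodI.of (i := false) (a : fam A B false) := by
      rw [← h1, MulEquiv.symm_apply_apply]
    show Monoid.CoprodI.lift f (e.symm (a : S)) = β a
    rw [h2]
    exact Monoid.CoprodI.lift_of f (i := false) a

private theorem SB1_uniq {A B : Subgroup S} (h : FreeProd A B) {N : Type} [Group N]
    (φ ψ : S →* N) (h1 : ∀ a : A, φ a = ψ a) (h2 : ∀ b : B, φ b = ψ b) : φ = ψ := by
  have h3 : φ.comp (Monoid.CoprodI.lift (fun b : Bool => (fam A B b).subtype)) =
      ψ.comp (Monoid.CoprodI.lift (fun b : Bool => (fam A B b).subtype)) := by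
    refine Monoid.CoprodI.ext_hom _ _ ?_
    intro b
    cases b
    · refine MonoidHom.ext fun x => ?_
      show φ (Monoid.CoprodI.lift (fun b : Bool => (fam A B b).subtype) (Monoid.CoprodI.of x)) =
        ψ (Monoid.CoprodI.lift (fun b : Bool => (fam A B b).subtype) (Monoid.CoprodI.of x))
      rw [Monoid.CoprodI.lift_of]
      exact h2 x
    · refine MonoidHom.ext fun x => ?_
      show φ (Monoid.CoprodI.lift (fun b : Bool => (fam A B b).subtype) (Monoid.CoprodI.of x)) =
        ψ (Monoid.CoprodI.lift (fun b : Bool => (fam A B b).subtype) (Monoid.CoprodI.of x))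
      rw [Monoid.CoprodI.lift_of]
      exact h1 x
  refine MonoidHom.ext fun s => ?_
  obtain ⟨x, rfl⟩ := h.2 s
  exact DFunLike.congr_fun h3 x

theorem freeProd_fg {A B : Subgroup S} (h : FreeProd A B) [Group.FG S] :
    Group.FG A ∧ Group.FG B := by
  constructor
  · obtain ⟨φ, h1, _⟩ := SB1_lift h (MonoidHom.id A) (1 : B →* A)
    exact Group.fg_of_surjective (f := φ) fun a => ⟨a, h1 a⟩
  · obtain ⟨φ, _, h2⟩ := SB1_lift h (1 : A →* B) (MonoidHom.id B)
    exact Group.fg_of_surjective (f := φ) fun a => ⟨a, h2 a⟩

private theorem SB1_fin (G : Type) [Group G] [hG : Group.FG G] :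
    Module.Finite ℚ (Additive G →+ ℚ) := by
  classical
  obtain ⟨s, hs⟩ := Group.fg_def.1 hG
  let ev : (Additive G →+ ℚ) →ₗ[ℚ] (s → ℚ) :=
    { toFun := fun f x => f (Additive.ofMul (x : G))
      map_add' := fun f g => rfl
      map_smul' := fun c f => rfl }
  refine Module.Finite.of_injective ev ?_
  intro f g hfg
  have h1 : AddMonoidHom.toMultiplicativeRight f = AddMonoidHom.toMultiplicativeRight g := by
    refine MonoidHom.eq_of_eqOn_dense hs ?_
    intro x hx
    have h2 := congrFun hfg ⟨x, hx⟩
    exact h2
  exact AddMonoidHom.toMultiplicativeRight.injective h1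

theorem bOne_add {A B : Subgroup S} (h : FreeProd A B) [Group.FG S] :
    bOne S = bOne A + bOne B := by
  obtain ⟨hA, hB⟩ := freeProd_fg h
  have hfA := @SB1_fin A _ hA
  have hfB := @SB1_fin B _ hB
  let r : (Additive S →+ ℚ) →ₗ[ℚ] (Additive A →+ ℚ) × (Additive B →+ ℚ) :=
    { toFun := fun f => (f.comp (MonoidHom.toAdditive A.subtype),
        f.comp (MonoidHom.toAdditive B.subtype))
      map_add' := fun f g => rfl
      map_smul' := fun c f => rfl }
  have hr : Function.Bijective r := by
    constructor
    · intro f g hfg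
      have h1 : AddMonoidHom.toMultiplicativeRight f = AddMonoidHom.toMultiplicativeRight g := by
        refine SB1_uniq h _ _ ?_ ?_
        · intro a
          exact DFunLike.congr_fun (congrArg Prod.fst hfg) (Additive.ofMul a)
        · intro a
          exact DFunLike.congr_fun (congrArg Prod.snd hfg) (Additive.ofMul a)
      exact AddMonoidHom.toMultiplicativeRight.injective h1
    · rintro ⟨α, β⟩
      obtain ⟨φ, h1, h2⟩ := SB1_lift h (AddMonoidHom.toMultiplicativeRight α)
        (AddMonoidHom.toMultiplicativeRight β)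
      refine ⟨AddMonoidHom.toMultiplicativeRight.symm φ, ?_⟩
      refine Prod.ext ?_ ?_
      · refine AddMonoidHom.ext fun a => ?_
        exact h1 (Additive.toMul a)
      · refine AddMonoidHom.ext fun a => ?_
        exact h2 (Additive.toMul a)
  unfold bOne
  rw [(LinearEquiv.ofBijective r hr).finrank_eq, Module.finrank_prod]

/-- a nonzero homomorphism gives a positive first Betti number -/
theorem bOne_pos [Group.FG S] (φ : S →* Multiplicative ℤ) (h : ∃ g, φ g ≠ 1) : 0 < bOne S := by
  have hfin := SB1_fin S
  obtain ⟨g, hg⟩ := h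
  let f : Additive S →+ ℚ := (Int.castAddHom ℚ).comp (MonoidHom.toAdditiveLeft φ)
  have hf : f (Additive.ofMul g) ≠ 0 := by
    show ((Multiplicative.toAdd (φ g) : ℤ) : ℚ) ≠ 0
    intro h1
    apply hg
    have h2 : Multiplicative.toAdd (φ g) = 0 := by exact_mod_cast h1
    exact h2
  have hnt : Nontrivial (Additive S →+ ℚ) := by
    refine ⟨⟨f, 0, ?_⟩⟩
    intro h1
    apply hf
    rw [h1]
    rfl
  exact Module.finrank_pos

end Pool.Agent.RFR
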