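import Pool.Agent.RFR.SDefs

set_option autoImplicit false

/-! RFR-SB2 (8.9): free groups.

PLAN.  `freeProd_free`: Mathlib has `IsFreeGroup (Monoid.CoprodI G)` if all `G i` are free (instance), transport along the
isomorphism (`IsFreeGroup.ofMulEquiv`), cases on the Boolean for the factors `fam A B b`.  `cyclic_free`: if `t = 1` then `S` is trivial (free group on `Empty`); otherwise
`t` has infinite order and `S ≃* Multiplicative ℤ ≃* FreeGroup Unit`.  `free_fp`: the basis is finite (only finitely many letters occur in the finitely many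
generators, the other letters can be mapped to `1`), `S ≃* FreeGroup (Fin n)`, presentation without relations. -/

namespace Pool.Agent.RFR

variable {S : Type} [Group S]

/-- a free product of free groups is free -/
theorem freeProd_free {A B : Subgroup S} (h : FreeProd A B) (hA : IsFreeGroup A)
    (hB : IsFreeGroup B) : IsFreeGroup S := by
  haveI : ∀ b, IsFreeGroup (fam A B b) := by
    intro b
    cases b
    · exact hB
    · exact hA
  exact IsFreeGroup.ofMulEquiv (MulEquiv.ofBijective _ h)

/-- a cyclic torsion free group is free -/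
theorem cyclic_free (htf : ∀ (g : S) (n : ℕ), 0 < n → g ^ n = 1 → g = 1) (t : S)
    (ht : ∀ g : S, g ∈ Subgroup.zpowers t) : IsFreeGroup S := by
  by_cases h1 : t = 1
  · letI : Unique S := ⟨⟨1⟩, fun g => by
      obtain ⟨n, hn⟩ := Subgroup.mem_zpowers_iff.1 (ht g)
      rw [← hn, h1, one_zpow]
      rfl⟩
    exact IsFreeGroup.ofMulEquiv (MulEquiv.ofUnique : FreeGroup Empty ≃* S)
  · have hf : Function.Bijective (zpowersHom S t) := by
      constructor
      · rw [injective_iff_map_eq_one]
        intro a ha
        rw [zpowersHom_apply] at ha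
        by_contra hne
        apply h1
        have h2 : a.toAdd ≠ 0 := fun h2 => hne (Multiplicative.toAdd.injective h2)
        exact htf t a.toAdd.natAbs (Int.natAbs_pos.2 h2) (pow_natAbs_eq_one.2 ha)
      · intro g
        obtain ⟨n, hn⟩ := Subgroup.mem_zpowers_iff.1 (ht g)
        refine ⟨Multiplicative.ofAdd n, ?_⟩
        rw [zpowersHom_apply]
        exact hn
    exact IsFreeGroup.ofMulEquiv ((FreeGroup.mulEquivIntOfUnique : FreeGroup Unit ≃* _).trans
      (MulEquiv.ofBijective _ hf))

open Classical in
private noncomputable def sb2_phi {X : Type} (x : X) : FreeGroup X →* Multiplicative ℤ :=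
  FreeGroup.lift fun y => if y = x then Multiplicative.ofAdd 1 else 1

private theorem sb2_fin {X : Type} (g : FreeGroup X) : {x : X | sb2_phi x g ≠ 1}.Finite := by
  induction g using FreeGroup.induction_on with
  | C1 =>
    refine Set.finite_empty.subset fun x hx => ?_
    exact hx (map_one _)
  | of y =>
    refine (Set.finite_singleton y).subset fun x hx => ?_
    by_contra hne
    apply hx
    unfold sb2_phi
    rw [FreeGroup.lift_apply_of, if_neg]
    intro h
    exact hne h.symm
  | inv_of y ih =>
    refine ih.subset fun x hx h => ?_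
    apply hx
    rw [map_inv, h, inv_one]
  | mul a b ha hb =>
    refine (ha.union hb).subset fun x hx => ?_
    by_contra hc
    rw [Set.mem_union, not_or] at hc
    apply hx
    have h1 : sb2_phi x a = 1 := not_not.1 hc.1
    have h2 : sb2_phi x b = 1 := not_not.1 hc.2
    rw [map_mul, h1, h2, one_mul]

private theorem sb2_finite {X : Type} (h : Group.FG (FreeGroup X)) : Finite X := by
  obtain ⟨T, hT, hf⟩ := Group.fg_iff.1 h
  have h1 : (⋃ g ∈ T, {x : X | sb2_phi x g ≠ 1}).Finite := hf.biUnion fun g _ => sb2_fin g
  refine Set.finite_univ_iff.1 (h1.subset fun x _ => ?_)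
  by_contra hc
  rw [Set.mem_iUnion₂] at hc
  push Not at hc
  have h2 : (⊤ : Subgroup (FreeGroup X)) ≤ (sb2_phi x).ker := by
    rw [← hT, Subgroup.closure_le]
    intro g hg
    have h3 := hc g hg
    exact not_not.1 h3
  have h3 : sb2_phi x (FreeGroup.of x) = 1 := h2 (Subgroup.mem_top _)
  unfold sb2_phi at h3
  rw [FreeGroup.lift_apply_of, if_pos rfl] at h3
  exact one_ne_zero (Multiplicative.ofAdd.injective h3)

/-- a finitely generated free group is finitely presented -/
theorem free_fp [Group.FG S] (h : IsFreeGroup S) : Group.IsFinitelyPresented S := by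
  obtain ⟨X, ⟨b⟩⟩ := h.nonempty_basis
  have h1 : Group.FG (FreeGroup X) := Group.fg_of_surjective (f := b.repr.toMonoidHom)
    b.repr.surjective
  haveI : Finite X := sb2_finite h1
  exact Group.IsFinitelyPresented.equiv b.repr.symm

end Pool.Agent.RFR
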