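import Pool.Agent.RFR.SSplit
import Pool.Agent.RFR.SB1
import Pool.Agent.RFR.SB2

set_option autoImplicit false

/-! RFR-SThm: Theorem S, by strong induction on `bOne S`. -/

namespace Pool.Agent.RFR

/-- the hypotheses of Theorem S -/
structure SHyp (S : Type) [Group S] : Prop where
  loc : ∀ B : Subgroup S, B.FG → B ≠ ⊥ → ∃ φ : B →* Multiplicative ℤ, ∃ g, φ g ≠ 1
  ends : ∀ B : Subgroup S, B.FG → B ≠ ⊥ → HasAI B

private theorem SThm_ai {G H : Type} [Group G] [Group H] (e : G ≃* H) (h : HasAI G) : HasAI H := by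
  obtain ⟨A, h1, h2, h3⟩ := h
  refine ⟨e '' A, h1.image e.injective.injOn, ?_, fun x => ?_⟩
  · rw [← Set.image_compl_eq e.bijective]
    exact h2.image e.injective.injOn
  · refine ((h3 (e.symm x)).image e).subset ?_
    intro u hu
    refine ⟨e.symm u, ?_, e.apply_symm_apply u⟩
    have k : ∀ w : H, w ∈ e '' A ↔ e.symm w ∈ A := by
      intro w
      constructor
      · rintro ⟨a, ha, rfl⟩
        rwa [e.symm_apply_apply]
      · intro hw
        exact ⟨e.symm w, hw, e.apply_symm_apply w⟩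
    have hu' : ¬ (u ∈ e '' A ↔ u * x ∈ e '' A) := hu
    rw [k, k, map_mul] at hu'
    exact hu'

theorem sHyp_tf {S : Type} [Group S] (h : SHyp S) (g : S) (n : ℕ) (hn : 0 < n) (hg : g ^ n = 1) :
    g = 1 := by
  by_contra hne
  obtain ⟨φ, x, hx⟩ := h.loc (Subgroup.zpowers g)
    ⟨{g}, by rw [Finset.coe_singleton, Subgroup.zpowers_eq_closure]⟩
    (fun hb => hne (Subgroup.zpowers_eq_bot.1 hb))
  apply hx
  have hxn : x ^ n = 1 := by
    obtain ⟨k, hk⟩ := Subgroup.mem_zpowers_iff.1 x.2
    apply Subtype.ext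
    show (x : S) ^ n = 1
    rw [← hk, ← zpow_natCast, ← zpow_mul, mul_comm, zpow_mul, zpow_natCast, hg, one_zpow]
  have h1 : (φ x) ^ n = 1 := by rw [← map_pow, hxn, map_one]
  have h2 : (n : ℤ) * Multiplicative.toAdd (φ x) = 0 := by
    have h3 := congrArg Multiplicative.toAdd h1
    rw [toAdd_pow, toAdd_one, nsmul_eq_mul] at h3
    exact h3
  rcases mul_eq_zero.1 h2 with h3 | h3
  · have : n = 0 := by exact_mod_cast h3
    omega
  · exact Multiplicative.toAdd.injective (by rw [h3, toAdd_one])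

theorem sHyp_sub {S : Type} [Group S] (h : SHyp S) (A : Subgroup S) : SHyp A := by
  have key : ∀ B : Subgroup A, B.FG → B ≠ ⊥ → (B.map A.subtype).FG ∧ B.map A.subtype ≠ ⊥ := by
    intro B h1 h2
    have : Group.FG B := (Group.fg_iff_subgroup_fg B).2 h1
    refine ⟨(Group.fg_iff_subgroup_fg _).1 (Group.fg_of_surjective
      (f := (B.equivMapOfInjective A.subtype A.subtype_injective).toMonoidHom)
      (B.equivMapOfInjective A.subtype A.subtype_injective).surjective), fun hb => h2 ?_⟩
    exact (Subgroup.map_eq_bot_iff_of_injective B A.subtype_injective).1 hb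
  constructor
  · intro B h1 h2
    obtain ⟨k1, k2⟩ := key B h1 h2
    obtain ⟨φ, g, hg⟩ := h.loc _ k1 k2
    let e := B.equivMapOfInjective A.subtype A.subtype_injective
    refine ⟨φ.comp e.toMonoidHom, e.symm g, ?_⟩
    show φ (e (e.symm g)) ≠ 1
    rw [e.apply_symm_apply]
    exact hg
  · intro B h1 h2
    obtain ⟨k1, k2⟩ := key B h1 h2
    exact SThm_ai (B.equivMapOfInjective A.subtype A.subtype_injective).symm (h.ends _ k1 k2)

private theorem SThm_ind (m : ℕ) : ∀ (S : Type) [Group S] [Group.FG S], bOne S = m → SHyp S →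
    IsFreeGroup S := by
  induction m using Nat.strong_induction_on with
  | _ m ih =>
  intro S _ _ hm h
  have htf : ∀ (g : S) (n : ℕ), 0 < n → g ^ n = 1 → g = 1 := fun g n => sHyp_tf h g n
  rcases subsingleton_or_nontrivial S with hs | hs
  · exact cyclic_free htf 1 fun g => by
      rw [Subsingleton.elim g 1]
      exact one_mem _
  have hai : HasAI S := SThm_ai Subgroup.topEquiv
    (h.ends ⊤ (Group.fg_def.1 inferInstance) (by
      intro hb
      obtain ⟨g, hg⟩ := exists_ne (1 : S)
      apply hg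
      rw [← Subgroup.mem_bot, ← hb]
      exact Subgroup.mem_top g))
  rcases stallings S htf hai with ⟨t, ht⟩ | ⟨A, B, hA, hB, hf⟩
  · exact cyclic_free htf t ht
  · obtain ⟨fA, fB⟩ := freeProd_fg hf
    have hadd := bOne_add hf
    have pA : 0 < bOne A := by
      obtain ⟨φ, hφ⟩ := h.loc A ((Group.fg_iff_subgroup_fg A).1 fA) hA
      exact bOne_pos φ hφ
    have pB : 0 < bOne B := by
      obtain ⟨φ, hφ⟩ := h.loc B ((Group.fg_iff_subgroup_fg B).1 fB) hB
      exact bOne_pos φ hφ
    exact freeProd_free hf (ih (bOne A) (by omega) A rfl (sHyp_sub h A))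
      (ih (bOne B) (by omega) B rfl (sHyp_sub h B))

theorem thmS (S : Type) [Group S] [Group.FG S] (h : SHyp S) : IsFreeGroup S := by
  exact SThm_ind (bOne S) S rfl h

end Pool.Agent.RFR
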