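import Pool.Agent.RFR.PDefs

set_option autoImplicit false

/-! RFR-TSub (0.2): subgroups of RFRS groups, homomorphisms to `ℤ`, invariance under isomorphism.

PLAN.  `rfrs_sub`: the chain `(E i).subgroupOf A` (normal, finite index; `g ^ n` in the commutator subgroup of `(E i).subgroupOf A` maps into `⁅E i, E i⁆`: `Subgroup.map_commutator`, `Subgroup.commutator_mono`).  `rfrs_equiv`: comap along the isomorphism.  `rfrs_hom`: by (0.2): if there is no nonzero
homomorphism `K → ℤ`, the abelianization of the f.g. group `K` has no nonzero homomorphism to `ℤ`, so it is a torsion (finite) group (structure theorem, or `Module.Free`ness of the f.g. torsion-free quotient by the torsion submodule: `Module.free_of_finite_type_torsion_free'` and a basis), so every `g` has `g ^ n ∈ ⁅K, K⁆`;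
induction: `E i = ⊤` for all `i`, so `K` is trivial.  `rfrs_tf`: torsion: `g ^ n = 1`, induction `g ∈ E i`. -/

namespace Pool.Agent.RFR

/-- pulling back along an injective homomorphism -/
private theorem tsub_comap {K K' : Type} [Group K] [Group K'] (f : K' →* K)
    (hf : Function.Injective f) (h : RFRS K) : RFRS K' := by
  obtain ⟨E, h0, h1, h2, h3, h4, h5⟩ := h
  refine ⟨fun i => (E i).comap f, ?_, fun i => ?_, fun i => ?_, fun i => ?_, fun i => ?_, ?_⟩
  · show (E 0).comap f = ⊤
    rw [h0, Subgroup.comap_top]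
  · exact Subgroup.Normal.comap (h1 i) f
  · have h8 := h2 i
    have h9 := h1 i
    refine ⟨?_⟩
    rw [Subgroup.index_comap]
    exact fun h10 => h8.index_ne_zero
      (Nat.eq_zero_of_zero_dvd (h10 ▸ Subgroup.relIndex_dvd_index_of_normal (E i) f.range))
  · exact Subgroup.comap_mono (h3 i)
  · intro g hg n hn hgn
    have h6 : (f g) ^ n ∈ ⁅E i, E i⁆ := by
      rw [← map_pow]
      have h7 : f (g ^ n) ∈ Subgroup.map f ⁅(E i).comap f, (E i).comap f⁆ :=
        Subgroup.mem_map_of_mem f hgn
      rw [Subgroup.map_commutator] at h7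
      exact Subgroup.commutator_mono (Subgroup.map_comap_le _ _) (Subgroup.map_comap_le _ _) h7
    exact h4 i (f g) hg n hn h6
  · intro g hg
    exact hf ((h5 (f g) hg).trans (map_one f).symm)

theorem rfrs_sub {K : Type} [Group K] (h : RFRS K) (A : Subgroup K) : RFRS A :=
  tsub_comap A.subtype A.subtype_injective h

theorem rfrs_equiv {K K' : Type} [Group K] [Group K'] (e : K ≃* K') (h : RFRS K) : RFRS K' :=
  tsub_comap e.symm.toMonoidHom e.symm.injective h

theorem rfrs_tf {K : Type} [Group K] (h : RFRS K) {g : K} {n : ℕ} (hn : 0 < n) (hg : g ^ n = 1) :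
    g = 1 := by
  obtain ⟨E, h0, h1, h2, h3, h4, h5⟩ := h
  refine h5 g fun i => ?_
  induction i with
  | zero => rw [h0]; trivial
  | succ i ih => exact h4 i g ih n hn (hg ▸ one_mem _)

private theorem tsub_lin {A : Type} [AddCommGroup A] [Module.Finite ℤ A] (a : A)
    (ha : ∀ n : ℕ, 0 < n → n • a ≠ 0) : ∃ f : A →ₗ[ℤ] ℤ, f a ≠ 0 := by
  have h1 : (Submodule.Quotient.mk a : A ⧸ Submodule.torsion ℤ A) ≠ 0 := by
    intro h
    rw [Submodule.Quotient.mk_eq_zero] at h
    obtain ⟨⟨c, hc⟩, h2⟩ := h
    have h3 : c • a = 0 := h2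
    have hc0 : c ≠ 0 := nonZeroDivisors.ne_zero hc
    refine ha c.natAbs (Int.natAbs_pos.2 hc0) ?_
    rcases Int.natAbs_eq c with h4 | h4
    · rw [h4, natCast_zsmul] at h3
      exact h3
    · rw [h4, neg_smul, neg_eq_zero, natCast_zsmul] at h3
      exact h3
  let b := Module.Free.chooseBasis ℤ (A ⧸ Submodule.torsion ℤ A)
  by_contra hcon
  push Not at hcon
  refine h1 (b.ext_elem fun i => ?_)
  have h5 := hcon ((b.coord i) ∘ₗ (Submodule.torsion ℤ A).mkQ)
  rw [map_zero, Finsupp.zero_apply]
  exact h5

private theorem tsub_pow {K : Type} [Group K] [Group.FG K]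
    (h : ∀ φ : K →* Multiplicative ℤ, ∀ g, φ g = 1) (g : K) :
    ∃ n : ℕ, 0 < n ∧ g ^ n ∈ ⁅(⊤ : Subgroup K), (⊤ : Subgroup K)⁆ := by
  by_contra hcon
  push Not at hcon
  have : Group.FG (Abelianization K) :=
    Group.fg_of_surjective (f := (Abelianization.of : K →* Abelianization K))
      (QuotientGroup.mk_surjective)
  have : AddGroup.FG (Additive (Abelianization K)) := inferInstance
  have : Module.Finite ℤ (Additive (Abelianization K)) :=
    Module.Finite.iff_addGroup_fg.2 inferInstance
  obtain ⟨f, hf⟩ := tsub_lin (Additive.ofMul (Abelianization.of g)) (by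
    intro n hn h1
    refine hcon n hn ?_
    have h2 : Abelianization.of (g ^ n) = 1 := by
      rw [map_pow]
      exact h1
    have h3 : g ^ n ∈ (Abelianization.of : K →* Abelianization K).ker := h2
    rw [Abelianization.ker_of] at h3
    exact h3)
  refine hf ?_
  have h4 := h ((AddMonoidHom.toMultiplicativeRight f.toAddMonoidHom).comp Abelianization.of) g
  exact h4

theorem rfrs_hom {K : Type} [Group K] [Group.FG K] (h : RFRS K) (hne : Nontrivial K) :
    ∃ φ : K →* Multiplicative ℤ, ∃ g, φ g ≠ 1 := by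
  by_contra hcon
  push Not at hcon
  obtain ⟨E, h0, h1, h2, h3, h4, h5⟩ := h
  have h6 : ∀ i, E i = ⊤ := by
    intro i
    induction i with
    | zero => exact h0
    | succ i ih =>
      rw [eq_top_iff]
      intro g _
      obtain ⟨n, hn, hg⟩ := tsub_pow hcon g
      refine h4 i g (by rw [ih]; trivial) n hn ?_
      rw [ih]
      exact hg
  obtain ⟨g, hg⟩ := exists_ne (1 : K)
  exact hg (h5 g fun i => by rw [h6 i]; trivial)

end Pool.Agent.RFR
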