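import Pool.Agent.RFR.THom
import Pool.Agent.RFR.DDefs

set_option autoImplicit false

/-! RFR-TTow (1.1): a finitely generated RFRS group has a tower.

PLAN.  `A i`, `i : ℕ`, the RFRS chain, all f.g. (finite index in a f.g. group).  `hom_family` for `A i`: a nonempty finite list of homomorphisms `ψ i c : A i → ℤ`, `c ≤ n i`, with common kernel `R i = {g ∈ A i | g ^ m ∈ ⁅A i, A i⁆}` (`commutator (A i)` maps onto `⁅A i, A i⁆`).  Concatenate: with `p i = ∑_{j<i} (n j + 1)` (strictly increasing, `p 0 = 0`)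
every `k` is uniquely `p i + c`, `c ≤ n i` (`Nat.find`, or define the pair recursively: `(0,0)`, `(i,c) ↦ (i,c+1)` if `c < n i`, else `(i+1,0)`); `E k = A i`, `φ k g = ψ i c g` for `g ∈ A i` and `0` otherwise.  `R i ≤ A (i+1)`, `R (i+1) ≤ R i`, `R i` is normal in `K` (`A i` normal, conjugation preserves
`⁅A i, A i⁆`).  `N (p (i+1)) = R i` (as sets: for `g ∈ N (p (i+1))` all `ψ j c g = 0`, `j ≤ i`; conversely `R i ≤ R j`).  So `ne` holds, `sep` holds (`R i ≤ A (i+1)`), and `p (i+1)` is `Good` (`E (p (i+1) - 1) = A i`, commutators are in `⁅A i, A i⁆ ≤ R i`).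
`f`: `pot_exists`; `ell`, `lip`: `length_exists`. -/

namespace Pool.Agent.RFR

private def ttow_idx (n : ℕ → ℕ) : ℕ → ℕ × ℕ
  | 0 => (0, 0)
  | k + 1 => if (ttow_idx n k).2 < n (ttow_idx n k).1 then
      ((ttow_idx n k).1, (ttow_idx n k).2 + 1) else ((ttow_idx n k).1 + 1, 0)

private theorem ttow_succ_lt {n : ℕ → ℕ} {k : ℕ} (h : (ttow_idx n k).2 < n (ttow_idx n k).1) :
    ttow_idx n (k + 1) = ((ttow_idx n k).1, (ttow_idx n k).2 + 1) := by
  rw [ttow_idx, if_pos h]

private theorem ttow_succ_ge {n : ℕ → ℕ} {k : ℕ} (h : ¬ (ttow_idx n k).2 < n (ttow_idx n k).1) :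
    ttow_idx n (k + 1) = ((ttow_idx n k).1 + 1, 0) := by
  rw [ttow_idx, if_neg h]

private theorem ttow_le (n : ℕ → ℕ) (k : ℕ) : (ttow_idx n k).2 ≤ n (ttow_idx n k).1 := by
  induction k with
  | zero => exact Nat.zero_le _
  | succ k ih =>
    by_cases h : (ttow_idx n k).2 < n (ttow_idx n k).1
    · rw [ttow_succ_lt h]
      exact h
    · rw [ttow_succ_ge h]
      exact Nat.zero_le _

private theorem ttow_fst (n : ℕ → ℕ) (k : ℕ) : (ttow_idx n k).1 ≤ k := by
  induction k with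
  | zero => exact le_rfl
  | succ k ih =>
    by_cases h : (ttow_idx n k).2 < n (ttow_idx n k).1
    · rw [ttow_succ_lt h]
      exact ih.trans (Nat.le_succ k)
    · rw [ttow_succ_ge h]
      exact Nat.succ_le_succ ih

private theorem ttow_lt (n : ℕ → ℕ) (k : ℕ) : ∀ j < k, (ttow_idx n j).1 < (ttow_idx n k).1 ∨
    ((ttow_idx n j).1 = (ttow_idx n k).1 ∧ (ttow_idx n j).2 < (ttow_idx n k).2) := by
  induction k with
  | zero =>
    intro j hj
    exact absurd hj (Nat.not_lt_zero j)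
  | succ k ih =>
    intro j hj
    have h1 : (ttow_idx n j).1 < (ttow_idx n k).1 ∨
        ((ttow_idx n j).1 = (ttow_idx n k).1 ∧ (ttow_idx n j).2 ≤ (ttow_idx n k).2) := by
      rcases Nat.lt_succ_iff_lt_or_eq.1 hj with h | h
      · rcases ih j h with h2 | ⟨h2, h3⟩
        · exact Or.inl h2
        · exact Or.inr ⟨h2, h3.le⟩
      · rw [h]
        exact Or.inr ⟨rfl, le_rfl⟩
    by_cases h : (ttow_idx n k).2 < n (ttow_idx n k).1
    · rw [ttow_succ_lt h]
      rcases h1 with h2 | ⟨h2, h3⟩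
      · exact Or.inl h2
      · exact Or.inr ⟨h2, Nat.lt_succ_of_le h3⟩
    · rw [ttow_succ_ge h]
      left
      rcases h1 with h2 | ⟨h2, h3⟩
      · exact Nat.lt_succ_of_lt h2
      · rw [h2]
        exact Nat.lt_succ_self _

private theorem ttow_all (n : ℕ → ℕ) (k : ℕ) : ∀ i c, c ≤ n i →
    (i < (ttow_idx n k).1 ∨ (i = (ttow_idx n k).1 ∧ c < (ttow_idx n k).2)) →
    ∃ j < k, ttow_idx n j = (i, c) := by
  induction k with
  | zero =>
    intro i c hc h
    rcases h with h | ⟨_, h⟩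
    · exact absurd h (Nat.not_lt_zero i)
    · exact absurd h (Nat.not_lt_zero c)
  | succ k ih =>
    intro i c hc h
    have key : (i < (ttow_idx n k).1 ∨ (i = (ttow_idx n k).1 ∧ c < (ttow_idx n k).2)) ∨
        (i = (ttow_idx n k).1 ∧ c = (ttow_idx n k).2) := by
      by_cases h' : (ttow_idx n k).2 < n (ttow_idx n k).1
      · rw [ttow_succ_lt h'] at h
        rcases h with h | ⟨h, h2⟩
        · exact Or.inl (Or.inl h)
        · rcases Nat.lt_succ_iff_lt_or_eq.1 h2 with h3 | h3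
          · exact Or.inl (Or.inr ⟨h, h3⟩)
          · exact Or.inr ⟨h, h3⟩
      · rw [ttow_succ_ge h'] at h
        rcases h with h | ⟨_, h2⟩
        · rcases Nat.lt_succ_iff_lt_or_eq.1 h with h3 | h3
          · exact Or.inl (Or.inl h3)
          · have h4 : (ttow_idx n k).2 = n (ttow_idx n k).1 :=
              le_antisymm (ttow_le n k) (not_lt.1 h')
            rw [h3] at hc
            rcases lt_or_eq_of_le hc with h5 | h5
            · exact Or.inl (Or.inr ⟨h3, by rw [h4]; exact h5⟩)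
            · exact Or.inr ⟨h3, by rw [h4]; exact h5⟩
        · exact absurd h2 (Nat.not_lt_zero c)
    rcases key with h1 | ⟨h1, h2⟩
    · obtain ⟨j, hj, hj'⟩ := ih i c hc h1
      exact ⟨j, hj.trans (Nat.lt_succ_self k), hj'⟩
    · refine ⟨k, Nat.lt_succ_self k, ?_⟩
      rw [h1, h2]

private theorem ttow_surj (n : ℕ → ℕ) (i : ℕ) : ∀ c, c ≤ n i → ∃ k, ttow_idx n k = (i, c) := by
  have step : ∀ i, (∃ k, ttow_idx n k = (i, 0)) → ∀ c, c ≤ n i → ∃ k, ttow_idx n k = (i, c) := by
    intro i h0 c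
    induction c with
    | zero => exact fun _ => h0
    | succ c ih =>
      intro hc
      obtain ⟨k, hk⟩ := ih (by omega)
      refine ⟨k + 1, ?_⟩
      rw [ttow_succ_lt (by rw [hk]; exact hc), hk]
  induction i with
  | zero => exact step 0 ⟨0, rfl⟩
  | succ i ih =>
    apply step
    obtain ⟨k, hk⟩ := ih (n i) le_rfl
    refine ⟨k + 1, ?_⟩
    rw [ttow_succ_ge (by rw [hk]; exact lt_irrefl _), hk]

theorem tower_exists (K : Type) [Group K] [Group.FG K] (h : RFRS K) : ∃ t : PT K, t.IsT := by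
  classical
  obtain ⟨A, h0, hnrm, hfin, hanti, hroot, hsep⟩ := h
  have hle : ∀ {i j : ℕ}, i ≤ j → A j ≤ A i := fun {i j} hij => antitone_nat_of_succ_le hanti hij
  have hfam : ∀ i, ∃ (n : ℕ) (ψ : Fin (n + 1) → A i →* Multiplicative ℤ), ∀ g : A i,
      (∀ c, ψ c g = 1) ↔ ∃ m : ℕ, 0 < m ∧ g ^ m ∈ commutator (A i) := by
    intro i
    have := hfin i
    exact hom_family (A i)
  choose n ψ hψ using hfam
  -- the homomorphisms
  have hΨ : ∃ Ψ : ℕ → ℕ → K → ℤ, (∀ i c, ∀ g ∈ A i, ∀ g' ∈ A i,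
      Ψ i c (g * g') = Ψ i c g + Ψ i c g') ∧
      ∀ i, ∀ g ∈ A i, (∀ c, c ≤ n i → Ψ i c g = 0) ↔ ∃ m : ℕ, 0 < m ∧ g ^ m ∈ ⁅A i, A i⁆ := by
    refine ⟨fun i c g => if h : c < n i + 1 ∧ g ∈ A i then
      Multiplicative.toAdd (ψ i ⟨c, h.1⟩ ⟨g, h.2⟩) else 0, ?_, ?_⟩
    · intro i c g hg g' hg'
      by_cases hc : c < n i + 1
      · simp only [dif_pos (show c < n i + 1 ∧ g ∈ A i from ⟨hc, hg⟩),
          dif_pos (show c < n i + 1 ∧ g' ∈ A i from ⟨hc, hg'⟩),
          dif_pos (show c < n i + 1 ∧ g * g' ∈ A i from ⟨hc, mul_mem hg hg'⟩)]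
        have e : (⟨g * g', mul_mem hg hg'⟩ : A i) = ⟨g, hg⟩ * ⟨g', hg'⟩ := rfl
        rw [e, map_mul, toAdd_mul]
      · simp only [dif_neg (show ¬ (c < n i + 1 ∧ g ∈ A i) from fun h => hc h.1),
          dif_neg (show ¬ (c < n i + 1 ∧ g' ∈ A i) from fun h => hc h.1),
          dif_neg (show ¬ (c < n i + 1 ∧ g * g' ∈ A i) from fun h => hc h.1), add_zero]
    · intro i g hg
      have h1 := hψ i ⟨g, hg⟩
      have h2 : ∀ m : ℕ, ((⟨g, hg⟩ : A i) ^ m ∈ commutator (A i)) ↔ g ^ m ∈ ⁅A i, A i⁆ := by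
        intro m
        rw [← Subgroup.map_subtype_commutator]
        constructor
        · intro h
          exact ⟨_, h, rfl⟩
        · rintro ⟨x, hx, hx'⟩
          have e : x = (⟨g, hg⟩ : A i) ^ m := by
            apply Subtype.ext
            rw [SubmonoidClass.coe_pow]
            exact hx'
          rw [← e]
          exact hx
      simp only [h2] at h1
      rw [← h1]
      constructor
      · intro h c
        have h3 := h c (Nat.lt_succ_iff.1 c.2)
        beta_reduce at h3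
        rw [dif_pos (show (c : ℕ) < n i + 1 ∧ g ∈ A i from ⟨c.2, hg⟩)] at h3
        exact toAdd_eq_zero.1 h3
      · intro h c hc
        beta_reduce
        rw [dif_pos (show c < n i + 1 ∧ g ∈ A i from ⟨Nat.lt_succ_of_le hc, hg⟩)]
        exact toAdd_eq_zero.2 (h _)
  obtain ⟨Ψ, hΨhom, hΨker⟩ := hΨ
  obtain ⟨ell, hell1, hellmul, hellfin, helllip⟩ := length_exists K
  have hpot : ∀ k : ℕ, ∃ f : K → ℤ, ∀ e ∈ A (ttow_idx n k).1, ∀ u,
      f (e * u) = Ψ (ttow_idx n k).1 (ttow_idx n k).2 e + f u := fun k =>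
    pot_exists (A (ttow_idx n k).1) (Ψ (ttow_idx n k).1 (ttow_idx n k).2) (hΨhom _ _)
  choose f hf using hpot
  have hR : ∀ i g, g ∈ A i → (∀ c, c ≤ n i → Ψ i c g = 0) → g ∈ A (i + 1) := by
    intro i g hg h
    obtain ⟨m, hm, hm'⟩ := (hΨker i g hg).1 h
    exact hroot i g hg m hm hm'
  let t : PT K :=
    { E := fun k => A (ttow_idx n k).1
      nrm := fun k => hnrm _
      fin := fun k => hfin _
      zero := h0
      anti := by
        intro k
        by_cases h : (ttow_idx n k).2 < n (ttow_idx n k).1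
        · rw [ttow_succ_lt h]
        · rw [ttow_succ_ge h]
          exact hanti _
      φ := fun k => Ψ (ttow_idx n k).1 (ttow_idx n k).2
      hom := fun k => hΨhom _ _
      f := f
      f_mul := hf
      ell := ell
      ell_one := hell1
      ell_mul := hellmul
      ell_fin := hellfin
      lip := fun k => helllip (A (ttow_idx n k).1) (hfin _) _ (f k) (hf k)
      ne := by
        intro k g hg
        show g ∈ A (ttow_idx n k).1
        rcases Nat.eq_zero_or_pos (ttow_idx n k).1 with h | h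
        · rw [h, h0]
          exact Subgroup.mem_top g
        · obtain ⟨i, hi⟩ : ∃ i, (ttow_idx n k).1 = i + 1 := ⟨(ttow_idx n k).1 - 1, by omega⟩
          have h1 : ∀ c, c ≤ n i → g ∈ A i ∧ Ψ i c g = 0 := by
            intro c hc
            obtain ⟨j, hj, hj'⟩ := ttow_all n k i c hc (Or.inl (by omega))
            have h2 := hg j hj
            rw [hj'] at h2
            exact h2
          rw [hi]
          exact hR i g (h1 0 (Nat.zero_le _)).1 fun c hc => (h1 c hc).2
      sep := by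
        intro g hg
        apply hsep g
        intro i
        obtain ⟨k, hk⟩ := ttow_surj n i 0 (Nat.zero_le _)
        have h1 := (hg k).1
        rw [hk] at h1
        exact h1 }
  refine ⟨t, ?_⟩
  intro k
  obtain ⟨K0, hK0⟩ := ttow_surj n (k + 1) 0 (Nat.zero_le _)
  have hkK : k + 1 ≤ K0 := by
    have h1 := ttow_fst n K0
    rw [hK0] at h1
    exact h1
  have hN : ∀ g, g ∈ t.N K0 ↔ g ∈ A k ∧ ∃ m : ℕ, 0 < m ∧ g ^ m ∈ ⁅A k, A k⁆ := by
    intro g
    rw [PT.mem_N]
    constructor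
    · intro h
      have h1 : ∀ c, c ≤ n k → g ∈ A k ∧ Ψ k c g = 0 := by
        intro c hc
        obtain ⟨j, hj, hj'⟩ := ttow_all n K0 k c hc (Or.inl (by rw [hK0]; exact Nat.lt_succ_self k))
        have h2 : g ∈ A (ttow_idx n j).1 ∧ Ψ (ttow_idx n j).1 (ttow_idx n j).2 g = 0 := h j hj
        rw [hj'] at h2
        exact h2
      have h3 := (h1 0 (Nat.zero_le _)).1
      exact ⟨h3, (hΨker k g h3).1 fun c hc => (h1 c hc).2⟩
    · rintro ⟨hg, m, hm, hm'⟩ j hj
      show g ∈ A (ttow_idx n j).1 ∧ Ψ (ttow_idx n j).1 (ttow_idx n j).2 g = 0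
      have h1 : (ttow_idx n j).1 ≤ k := by
        rcases ttow_lt n K0 j hj with h2 | ⟨_, h2⟩
        · rw [hK0] at h2
          exact Nat.lt_succ_iff.1 h2
        · rw [hK0] at h2
          exact absurd h2 (Nat.not_lt_zero _)
      have h2 : g ∈ A (ttow_idx n j).1 := hle h1 hg
      refine ⟨h2, (hΨker _ g h2).2 ⟨m, hm, ?_⟩ _ (ttow_le n j)⟩
      exact Subgroup.commutator_mono (hle h1) (hle h1) hm'
  refine ⟨K0, by omega, by omega, ?_, ?_⟩
  · refine ⟨fun g hg x => ?_⟩
    rw [hN] at hg ⊢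
    obtain ⟨hg, m, hm, hm'⟩ := hg
    refine ⟨(hnrm k).conj_mem g hg x, m, hm, ?_⟩
    have := hnrm k
    rw [conj_pow]
    exact (Subgroup.commutator_normal (A k) (A k)).conj_mem _ hm' x
  · intro a ha b hb
    have h1 : (ttow_idx n (K0 - 1)).1 = k := by
      have h2 : K0 = (K0 - 1) + 1 := by omega
      by_cases h3 : (ttow_idx n (K0 - 1)).2 < n (ttow_idx n (K0 - 1)).1
      · have h4 := ttow_succ_lt h3
        rw [← h2, hK0] at h4
        have h5 := congrArg Prod.snd h4
        simp only at h5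
        omega
      · have h4 := ttow_succ_ge h3
        rw [← h2, hK0] at h4
        have h5 := congrArg Prod.fst h4
        simp only at h5
        omega
    have ha' : a ∈ A k := by
      have : a ∈ A (ttow_idx n (K0 - 1)).1 := ha
      rwa [h1] at this
    have hb' : b ∈ A k := by
      have : b ∈ A (ttow_idx n (K0 - 1)).1 := hb
      rwa [h1] at this
    rw [hN]
    refine ⟨mul_mem (mul_mem (mul_mem ha' hb') (inv_mem ha')) (inv_mem hb'), 1, one_pos, ?_⟩
    rw [pow_one]
    exact Subgroup.commutator_mem_commutator ha' hb'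

end Pool.Agent.RFR
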