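import Pool.Agent.RFR.FHas
import Pool.Agent.RFR.SThm
import Pool.Agent.RFR.DDiv
import Pool.Agent.RFR.PSL
import Pool.Agent.RFR.RInj
import Pool.Agent.RFR.RExt
import Pool.Agent.RFR.RRet
import Pool.Agent.RFR.RAI
import Pool.Agent.RFR.TSub
import Pool.Agent.RFR.TTow
import Pool.Agent.RFR.PRel
import Pool.Agent.RFR.PDB
import Pool.Agent.PDC.SH.Virt
import Pool.Agent.PDC.CayT
import Pool.Agent.PDC.HierFP
import Pool.Agent.PDC.FPUp

set_option autoImplicit false

/-! RFR-FMain: the main case and the finite index case of Theorem R. -/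

namespace Pool.Agent.RFR

open MonoidAlgebra

/-- the group ring over `ℤ` embeds in the group ring over `ℚ` -/
private theorem FMain_cast {K : Type} [Group K] :
    Function.Injective (MonoidAlgebra.mapRingHom K (Int.castRingHom ℚ)) := by
  intro a b h
  ext g
  have h1 := congrArg (fun c : MonoidAlgebra ℚ K => c.coeff g) h
  simp only [MonoidAlgebra.coeff_mapRingHom] at h1
  exact Int.cast_injective h1

/-- `ℤ[H]` embeds in a division ring -/
private theorem FMain_emb {H : Type} [Group H] [Group.FG H] (hR : RFRS H) :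
    ∃ (D : Type) (_ : DivisionRing D) (f : MonoidAlgebra ℤ H →+* D), Function.Injective f := by
  obtain ⟨t, ht⟩ := tower_exists H hR
  obtain ⟨D, hD, ev, j, -, hj, -⟩ := exists_D t ht
  exact ⟨D, hD, j.comp (MonoidAlgebra.mapRingHom H (Int.castRingHom ℚ)), hj.comp FMain_cast⟩

/-- relation modules of subgroups -/
private theorem FMain_rel {G : Type} [Group G] (X : PDC.PD3 G) (H : Subgroup G) (hfg : H.FG)
    (hR : RFRS H) (K : Subgroup H) : PDC.RelFG K := by
  have : Group.FG H := (Group.fg_iff_subgroup_fg H).2 hfg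
  obtain ⟨D, hD, f, hf⟩ := FMain_emb hR
  have h1 : PDC.RelFG (K.map H.subtype) :=
    PDC.SH.thmA_le X H f hf _ (Subgroup.map_subtype_le K)
  exact PDC.relFG_of_equiv (K.equivMapOfInjective H.subtype H.subtype_injective).symm h1

/-- the final step: a homomorphism to `ℤ` with a good kernel -/
private theorem FMain_ker {Γ : Type} [Group Γ] (hrel : ∀ K : Subgroup Γ, PDC.RelFG K)
    (E : Subgroup Γ) (hE : E.FG) (θ : E →* Multiplicative ℤ)
    (h : ∀ K : Subgroup Γ, K ≤ θ.ker.map E.subtype → K.FG → Group.IsFinitelyPresented K) :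
    Group.IsFinitelyPresented E := by
  let e : Multiplicative ℤ ≃* FreeGroup Unit :=
    { toFun := fun n => FreeGroup.of () ^ (Multiplicative.toAdd n)
      invFun := fun w => Multiplicative.ofAdd (FreeGroup.freeGroupUnitEquivInt w)
      left_inv := by
        intro n
        change Multiplicative.ofAdd (FreeGroup.freeGroupUnitEquivInt.symm.symm
          (FreeGroup.freeGroupUnitEquivInt.symm (Multiplicative.toAdd n))) = n
        rw [Equiv.symm_symm, Equiv.apply_symm_apply]
        rfl
      right_inv := by
        intro w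
        exact FreeGroup.freeGroupUnitEquivInt.symm_apply_apply w
      map_mul' := by
        intro a b
        change FreeGroup.of () ^ (Multiplicative.toAdd a + Multiplicative.toAdd b) = _
        rw [zpow_add] }
  have hk : (e.toMonoidHom.comp θ).ker = θ.ker := by
    ext g
    rw [MonoidHom.mem_ker, MonoidHom.mem_ker]
    change e (θ g) = 1 ↔ θ g = 1
    rw [EmbeddingLike.map_eq_one_iff]
  have h1 : PDC.Hier E := by
    refine PDC.hier_of_hom_free E Unit (e.toMonoidHom.comp θ) ?_
    rw [hk]
    exact PDC.Hier.base _ h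
  exact PDC.hier_fp hrel E h1 E le_rfl hE

/-- the main case: infinite index, structure -/
theorem main_struct {G : Type} [Group G] (X : PDC.PD3 G) (H : Subgroup G) (hfg : H.FG)
    (hR : RFRS H) (hind : H.index = 0) :
    ∃ E : Subgroup H, E.FiniteIndex ∧ ∃ θ : E →* Multiplicative ℤ,
      ∀ K : Subgroup E, K ≤ θ.ker → K.FG → IsFreeGroup K := by
  classical
  have hFG : Group.FG H := (Group.fg_iff_subgroup_fg H).2 hfg
  have hrel := FMain_rel X H hfg hR
  obtain ⟨t, ht⟩ := tower_exists H hR
  obtain ⟨D, hD, ev, j, hev, hj, hadd, hmul, hgm, htame⟩ := exists_D t ht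
  obtain ⟨Xs, hXs⟩ := hFG.out
  obtain ⟨n, x, hx⟩ : ∃ (n : ℕ) (x : Fin n → H), Subgroup.closure (Set.range x) = ⊤ := by
    refine ⟨Xs.card, fun i => (Xs.equivFin.symm i : H), ?_⟩
    rw [← hXs]
    congr 1
    ext g
    constructor
    · rintro ⟨i, rfl⟩
      exact (Xs.equivFin.symm i).2
    · intro hg
      exact ⟨Xs.equivFin ⟨g, hg⟩, by simp⟩
  obtain ⟨N, ρ0, μ0, h0⟩ := dual_rel X H hind
    (j.comp (MonoidAlgebra.mapRingHom H (Int.castRingHom ℚ))) (hj.comp FMain_cast) x hx
  obtain ⟨ρ, μ, hdb⟩ := dualQ x ρ0 μ0 h0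
  have hspan : Submodule.span (MonoidAlgebra ℚ H)
      (Set.range (fun l => (ρ l : Fin n → MonoidAlgebra ℚ H))) = LinearMap.ker (bq x) := by
    apply le_antisymm
    · rw [Submodule.span_le]
      rintro _ ⟨l, rfl⟩
      exact (ρ l).2
    · intro y hy
      have h1 := congrArg Subtype.val (hdb ⟨y, hy⟩)
      rw [Submodule.coe_sum] at h1
      change y = _ at h1
      rw [h1]
      refine Submodule.sum_mem _ fun l _ => ?_
      exact Submodule.smul_mem _ _ (Submodule.subset_span ⟨l, rfl⟩)
  have hspan' : Submodule.span (MonoidAlgebra ℚ H) (Set.range ρ) = ⊤ := by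
    rw [eq_top_iff]
    intro y _
    rw [hdb y]
    refine Submodule.sum_mem _ fun l _ => ?_
    exact Submodule.smul_mem _ _ (Submodule.subset_span ⟨l, rfl⟩)
  have hRQ : ∀ K : Subgroup H, RelQ K := fun K => relQ_of_relFG (hrel K)
  have hSL : ∀ (r : ℕ) (L : ℤ) (s : ℤˣ), SlabR (fun w => (s : ℤ) * t.TT L r w) x
      (fun l => (ρ l : Fin n → MonoidAlgebra ℚ H)) := by
    intro r L s
    have : (t.E r).FiniteIndex := t.fin r
    have hEfg : Group.FG (t.E r) := Subgroup.fg_of_index_ne_zero _
    refine slab_lemma (t.E r) ((Group.fg_iff_subgroup_fg _).1 hEfg) _ ?_ ?_ ?_ (hRQ _) x hx _ hspan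
    · intro g hg w
      rw [TT_mul t L r hg w]
      ring
    · intro v
      obtain ⟨A, hA⟩ := TT_lip t L r
      refine ⟨A * t.ell v, fun w => ?_⟩
      have h1 := hA w v
      have h2 : (s : ℤ) * t.TT L r (w * v) - (s : ℤ) * t.TT L r w =
          (s : ℤ) * (t.TT L r (w * v) - t.TT L r w) := by ring
      rw [h2, abs_mul]
      rcases Int.units_eq_one_or s with hs | hs
      · rw [hs]
        simpa using h1
      · rw [hs]
        simpa using h1
    · intro B _
      have h1 : PDC.RelFG (B.map (t.E r).subtype) := hrel _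
      exact relQ_of_relFG (PDC.relFG_of_equiv
        (B.equivMapOfInjective (t.E r).subtype (t.E r).subtype_injective).symm h1)
  have hev0 : ev 0 = 0 := by
    have h1 := hadd 0 0
    rw [add_zero] at h1
    exact left_eq_add.1 h1
  have hevs : ∀ (κ : Type) (S : Finset κ) (F : κ → D), ev (∑ i ∈ S, F i) = ∑ i ∈ S, ev (F i) := by
    intro κ S F
    induction S using Finset.induction_on with
    | empty => rw [Finset.sum_empty, Finset.sum_empty, hev0]
    | insert a S ha ih => rw [Finset.sum_insert ha, Finset.sum_insert ha, hadd, ih]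
  have hd : ∀ l, ∃ d : Fin n → D, ∀ y : LinearMap.ker (bq x),
      ∑ i, j ((y : Fin n → MonoidAlgebra ℚ H) i) * d i = j (μ l y) := by
    intro l
    refine exists_functional j (LinearMap.ker (bq x)) ρ hspan' (μ l) ?_
    intro δ hδ
    apply hev
    rw [hev0, hevs]
    have h1 : ∀ i, ∑ k, mm (ev (δ k)) (gm ((ρ k : Fin n → MonoidAlgebra ℚ H) i)) = 0 := by
      intro i
      have h2 := congrArg ev (hδ i)
      rw [hev0, hevs] at h2
      rw [← h2]
      refine Finset.sum_congr rfl fun k _ => ?_
      rw [hmul, hgm]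
    have h3 := inj_tame x ρ hSL (μ l) (fun k => ev (δ k)) (fun k => htame _) h1
    rw [← h3]
    refine Finset.sum_congr rfl fun k _ => ?_
    rw [hmul, hgm]
  choose d hd using hd
  obtain ⟨r, L, R, hR1, hR2, hR3⟩ := retraction (t := t) x ρ μ hdb (fun i l => ev (d l i))
    (fun i l => htame _) (by
      intro y l
      have h1 := congrArg ev (hd l y)
      rw [hevs, hgm] at h1
      rw [← h1]
      refine Finset.sum_congr rfl fun i _ => ?_
      rw [hmul, hgm])
  refine ⟨t.E r, t.fin r, thE t L r, ?_⟩
  intro K hK hKfg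
  have hKE : ∀ g ∈ K, t.TT L r ((g : t.E r) : H) = t.TT L r 1 := by
    intro g hg
    exact (mem_ker_thE t L r g).1 (hK hg)
  have hKR : RFRS K := rfrs_sub (rfrs_sub hR (t.E r)) K
  have hKF : Group.FG K := (Group.fg_iff_subgroup_fg K).2 hKfg
  have hS : SHyp K := by
    refine ⟨?_, ?_⟩
    · intro B hB hne
      have h1 : Group.FG B := (Group.fg_iff_subgroup_fg B).2 hB
      exact rfrs_hom (rfrs_sub hKR B) ((Subgroup.nontrivial_iff_ne_bot B).2 hne)
    · intro B hB hne
      have h1 : Group.FG B := (Group.fg_iff_subgroup_fg B).2 hB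
      have hBinf : Infinite B := by
        obtain ⟨b, hb⟩ := (Subgroup.nontrivial_iff_exists_ne_one B).1
          ((Subgroup.nontrivial_iff_ne_bot B).2 hne)
        have h2 : Function.Injective (fun k : ℕ => (⟨b, hb.1⟩ : B) ^ k) := by
          rw [injective_pow_iff_not_isOfFinOrder, isOfFinOrder_iff_pow_eq_one]
          rintro ⟨k, hk, hk1⟩
          exact hb.2 (congrArg Subtype.val (rfrs_tf (rfrs_sub hKR B) hk hk1))
        exact Infinite.of_injective _ h2
      have hinj : Function.Injective ((t.E r).subtype.comp K.subtype) :=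
        (t.E r).subtype_injective.comp K.subtype_injective
      have e := B.equivMapOfInjective ((t.E r).subtype.comp K.subtype) hinj
      have h3 : (B.map ((t.E r).subtype.comp K.subtype)).FG := (Group.fg_iff_subgroup_fg _).1
        (Group.fg_of_surjective (f := e.toMonoidHom) e.surjective)
      have h4 : Infinite (B.map ((t.E r).subtype.comp K.subtype)) :=
        Infinite.of_injective _ e.injective
      have h5 : HasAI (B.map ((t.E r).subtype.comp K.subtype)) := by
        refine hasAI_of_retraction x hx R hR1 hR2 _ h3 h4 ?_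
        intro g hg y
        obtain ⟨g', -, rfl⟩ := hg
        exact hR3 _ g'.1.2 (hKE _ g'.2) y
      exact hasAI_equiv e.symm h5
  exact thmS K hS

/-- the main case: infinite index -/
theorem main_case {G : Type} [Group G] (X : PDC.PD3 G) (H : Subgroup G) (hfg : H.FG)
    (hR : RFRS H) (hind : H.index = 0) : Group.IsFinitelyPresented H := by
  classical
  have hFG : Group.FG H := (Group.fg_iff_subgroup_fg H).2 hfg
  have hrel := FMain_rel X H hfg hR
  obtain ⟨E, hE, θ, hθ⟩ := main_struct X H hfg hR hind
  have hEfg : E.FG := (Group.fg_iff_subgroup_fg _).1 (Subgroup.fg_of_index_ne_zero _)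
  have hEfp : Group.IsFinitelyPresented E := by
    refine FMain_ker hrel E hEfg θ ?_
    intro K hK hKfg
    have hle : K ≤ E := by
      intro g hg
      obtain ⟨g', -, rfl⟩ := hK hg
      exact g'.2
    have hKF : Group.FG K := (Group.fg_iff_subgroup_fg K).2 hKfg
    have e := Subgroup.subgroupOfEquivOfLe hle
    have h1 : (K.subgroupOf E).FG := (Group.fg_iff_subgroup_fg _).1
      (Group.fg_of_surjective (f := e.symm.toMonoidHom) e.symm.surjective)
    have h2 : K.subgroupOf E ≤ θ.ker := by
      intro g hg
      obtain ⟨g', hg', hgg⟩ := hK hg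
      have h3 : g' = g := Subtype.ext hgg
      rw [← h3]
      exact hg'
    have h4 : IsFreeGroup (K.subgroupOf E) := hθ _ h2 h1
    have h5 : Group.FG (K.subgroupOf E) := (Group.fg_iff_subgroup_fg _).2 h1
    have h6 : Group.IsFinitelyPresented (K.subgroupOf E) := free_fp h4
    exact Group.IsFinitelyPresented.equiv e
  exact PDC.fp_of_finiteIndex E

/-- RFRS subgroups, any index -/
theorem rfrs_case {G : Type} [Group G] (X : PDC.PD3 G) (H : Subgroup G) (hfg : H.FG)
    (hR : RFRS H) : Group.IsFinitelyPresented H := by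
  classical
  by_cases hind : H.index = 0
  · exact main_case X H hfg hR hind
  have hFG : Group.FG H := (Group.fg_iff_subgroup_fg H).2 hfg
  have hrel := FMain_rel X H hfg hR
  rcases subsingleton_or_nontrivial H with hs | hn
  · have h1 : IsFreeGroup H := (FreeGroupBasis.ofUniqueLift (X := Empty) (G := H) (fun e => e.elim)
      (fun f => ⟨1, fun e => e.elim, fun g _ => by
        ext a
        rw [Subsingleton.elim a 1, map_one, map_one]⟩)).isFreeGroup
    exact free_fp h1
  obtain ⟨φ, g0, hg0⟩ := rfrs_hom hR hn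
  let θ : (⊤ : Subgroup H) →* Multiplicative ℤ := φ.comp (⊤ : Subgroup H).subtype
  have h1 : Group.IsFinitelyPresented (⊤ : Subgroup H) := by
    refine FMain_ker hrel ⊤ ((Group.fg_iff_subgroup_fg _).1 inferInstance) θ ?_
    intro K hK hKfg
    have hφ : ∀ g ∈ K, φ g = 1 := by
      intro g hg
      obtain ⟨g', hg', rfl⟩ := hK hg
      exact hg'
    have hKi : K.index = 0 := by
      by_contra hne
      have h3 : K.normalCore.index ≠ 0 := by
        have : K.FiniteIndex := ⟨hne⟩
        exact Subgroup.FiniteIndex.index_ne_zero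
      have h4 : g0 ^ K.normalCore.index ∈ K.normalCore := Subgroup.pow_index_mem _ _
      have h5 := hφ _ (K.normalCore_le h4)
      rw [map_pow] at h5
      apply hg0
      have h6 : (K.normalCore.index : ℤ) * Multiplicative.toAdd (φ g0) = 0 := by
        have h7 := congrArg Multiplicative.toAdd h5
        rw [toAdd_pow, toAdd_one, nsmul_eq_mul] at h7
        exact h7
      rcases mul_eq_zero.1 h6 with h7 | h7
      · exact absurd (by exact_mod_cast h7) h3
      · exact h7
    have h2 : (K.map H.subtype).FG := (Group.fg_iff_subgroup_fg _).1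
      (haveI := (Group.fg_iff_subgroup_fg K).2 hKfg
      Group.fg_of_surjective
        (f := (K.equivMapOfInjective H.subtype H.subtype_injective).toMonoidHom)
        (K.equivMapOfInjective H.subtype H.subtype_injective).surjective)
    have h3 : (K.map H.subtype).index = 0 := by
      rw [Subgroup.index_map_subtype, hKi, zero_mul]
    have h4 := main_case X (K.map H.subtype) h2
      (rfrs_equiv (K.equivMapOfInjective H.subtype H.subtype_injective) (rfrs_sub hR K)) h3
    exact Group.IsFinitelyPresented.equiv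
      (K.equivMapOfInjective H.subtype H.subtype_injective).symm
  exact Group.IsFinitelyPresented.equiv Subgroup.topEquiv

end Pool.Agent.RFR
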