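import Pool.Agent.RFR.PDefs

set_option autoImplicit false

/-! RFR-PAsc (5.3): the `t`-component of a relation vanishes in `ℚ[K/C'_m]` for large `m`.

`al t a i = t ^ i * a * t⁻ⁱ`, `CC t a m` is generated by the `al t a i x`, `1 ≤ i ≤ m`.

PLAN.  Let `C∞ = ⋃ CC m`, `B∞` = the subgroup generated by all `al i x`, `i ≥ 0`; `C∞ = t B∞ t⁻¹ ≤ B∞`, both in the kernel of `θ`.  Step 1: for one relation `y`: the image `z` of `y none` in `ℚ[K/C∞]` is zero.  The map
`∂ : ℚ[K/C∞] → ℚ[K/B∞]`, `g C∞ ↦ g t B∞ - g B∞` is well defined and `∂ z` = image of `y none * (t - 1)` = image of `- ∑ y (some x) * (a x - 1)` = `0` (`a x ∈ B∞`).  If `z ≠ 0` take `g C∞` in the support of `z` with `θ g` maximal: the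
coefficient of `∂ z` at `g t B∞` is `z (g C∞) ≠ 0`: another `g' C∞` with `g' t B∞ = g t B∞` is equal (`g⁻¹ g' ∈ t B∞ t⁻¹ = C∞`), and `g' B∞ = g t B∞` would have `θ g' = θ g + 1`.  Step 2: the support of `y none` is finite, the `CC m` are
increasing with union `C∞`, so `mapDomain` to `K ⧸ CC m` is zero for all large `m` (two elements of the support in the same coset of `C∞` are in the same coset of `CC m`).  Step 3: finitely many generators of the relation module (`RelQ`); the condition
is `ℚK`-linear in `y`. -/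

namespace Pool.Agent.RFR

open MonoidAlgebra

/-- the conjugates `t ^ i * a x * t⁻ⁱ` -/
def al {K : Type} [Group K] {α : Type} (t : K) (a : α → K) (i : ℕ) (x : α) : K :=
  t ^ i * a x * (t ^ i)⁻¹

/-- the subgroup generated by the `t ^ i * a x * t⁻ⁱ`, `1 ≤ i ≤ m` -/
def CC {K : Type} [Group K] {α : Type} (t : K) (a : α → K) (m : ℕ) : Subgroup K :=
  Subgroup.closure {g | ∃ i x, 1 ≤ i ∧ i ≤ m ∧ g = al t a i x}

private noncomputable def pasc_md {K X : Type} (r : K → X) : MonoidAlgebra ℚ K →+ (X →₀ ℚ) where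
  toFun c := Finsupp.mapDomain r c.coeff
  map_zero' := Finsupp.mapDomain_zero
  map_add' a b := by rw [coeff_add, Finsupp.mapDomain_add]

private theorem pasc_md_apply {K X : Type} (r : K → X) (c : MonoidAlgebra ℚ K) :
    pasc_md r c = Finsupp.mapDomain r c.coeff := rfl

private theorem pasc_md_single {K X : Type} (r : K → X) (g : K) (q : ℚ) :
    pasc_md r (single g q) = Finsupp.single (r g) q := by
  rw [pasc_md_apply, coeff_single, Finsupp.mapDomain_single]

private theorem pasc_right {K X : Type} [Group K] (r : K → X) (a : K) (c : MonoidAlgebra ℚ K) :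
    pasc_md r (c * of ℚ K a) = pasc_md (fun g => r (g * a)) c := by
  induction c using MonoidAlgebra.induction_linear with
  | zero => rw [zero_mul, map_zero, map_zero]
  | add x y hx hy => rw [add_mul, map_add, map_add, hx, hy]
  | single g q =>
    have e : of ℚ K a = single a 1 := rfl
    rw [e, single_mul_single, mul_one, pasc_md_single, pasc_md_single]

private theorem pasc_left_single {K : Type} [Group K] (S : Subgroup K) (g : K) (q : ℚ)
    (c : MonoidAlgebra ℚ K) : pasc_md (fun k : K => (k : K ⧸ S)) (single g q * c) =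
      q • Finsupp.mapDomain (fun v : K ⧸ S => g • v) (pasc_md (fun k : K => (k : K ⧸ S)) c) := by
  induction c using MonoidAlgebra.induction_linear with
  | zero => rw [mul_zero, map_zero, Finsupp.mapDomain_zero, smul_zero]
  | add x y hx hy =>
    rw [mul_add, map_add, map_add, hx, hy, Finsupp.mapDomain_add, smul_add]
  | single k p =>
    rw [single_mul_single, pasc_md_single, pasc_md_single, Finsupp.mapDomain_single,
      Finsupp.smul_single, smul_eq_mul]
    rfl

private theorem pasc_left {K : Type} [Group K] (S : Subgroup K) (d c : MonoidAlgebra ℚ K)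
    (hc : pasc_md (fun k : K => (k : K ⧸ S)) c = 0) :
    pasc_md (fun k : K => (k : K ⧸ S)) (d * c) = 0 := by
  induction d using MonoidAlgebra.induction_linear with
  | zero => rw [zero_mul, map_zero]
  | add x y hx hy => rw [add_mul, map_add, hx, hy, add_zero]
  | single g q => rw [pasc_left_single, hc, Finsupp.mapDomain_zero, smul_zero]

private def pasc_B {K : Type} [Group K] {α : Type} (t : K) (a : α → K) : Subgroup K :=
  Subgroup.closure {g | ∃ i x, g = al t a i x}

private def pasc_C {K : Type} [Group K] {α : Type} (t : K) (a : α → K) : Subgroup K :=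
  Subgroup.closure {g | ∃ i x, 1 ≤ i ∧ g = al t a i x}

private theorem pasc_al_succ {K : Type} [Group K] {α : Type} (t : K) (a : α → K) (i : ℕ) (x : α) :
    al t a (i + 1) x = t * al t a i x * t⁻¹ := by
  simp only [al, pow_succ', mul_inv_rev, mul_assoc]

private theorem pasc_conj1 {K : Type} [Group K] {α : Type} {t : K} {a : α → K} {b : K}
    (hb : b ∈ pasc_B t a) : t * b * t⁻¹ ∈ pasc_C t a := by
  have h : pasc_B t a ≤ (pasc_C t a).comap (MulAut.conj t).toMonoidHom := by
    unfold pasc_B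
    rw [Subgroup.closure_le]
    rintro g ⟨i, x, rfl⟩
    show MulAut.conj t (al t a i x) ∈ pasc_C t a
    rw [MulAut.conj_apply, ← pasc_al_succ]
    exact Subgroup.subset_closure ⟨i + 1, x, by omega, rfl⟩
  have h2 : MulAut.conj t b ∈ pasc_C t a := h hb
  rwa [MulAut.conj_apply] at h2

private theorem pasc_conj2 {K : Type} [Group K] {α : Type} {t : K} {a : α → K} {c : K}
    (hc : c ∈ pasc_C t a) : t⁻¹ * c * t ∈ pasc_B t a := by
  have h : pasc_C t a ≤ (pasc_B t a).comap (MulAut.conj t⁻¹).toMonoidHom := by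
    unfold pasc_C
    rw [Subgroup.closure_le]
    rintro g ⟨i, x, hi, rfl⟩
    obtain ⟨j, rfl⟩ : ∃ j, i = j + 1 := ⟨i - 1, by omega⟩
    show MulAut.conj t⁻¹ (al t a (j + 1) x) ∈ pasc_B t a
    rw [MulAut.conj_apply, pasc_al_succ]
    have e : t⁻¹ * (t * al t a j x * t⁻¹) * t⁻¹⁻¹ = al t a j x := by group
    rw [e]
    exact Subgroup.subset_closure ⟨j, x, rfl⟩
  have h2 : MulAut.conj t⁻¹ c ∈ pasc_B t a := h hc
  rw [MulAut.conj_apply, inv_inv] at h2
  exact h2

private theorem pasc_CB {K : Type} [Group K] {α : Type} (t : K) (a : α → K) :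
    pasc_C t a ≤ pasc_B t a :=
  Subgroup.closure_mono fun _ ⟨i, x, _, h⟩ => ⟨i, x, h⟩

private theorem pasc_ker {K : Type} [Group K] (θ : K →* Multiplicative ℤ) {α : Type}
    {t : K} {a : α → K} (ha : ∀ x, θ (a x) = 1) {b : K} (hb : b ∈ pasc_B t a) : θ b = 1 := by
  have h : pasc_B t a ≤ θ.ker := by
    unfold pasc_B
    rw [Subgroup.closure_le]
    rintro g ⟨i, x, rfl⟩
    show θ (t ^ i * a x * (t ^ i)⁻¹) = 1
    rw [map_mul, map_mul, ha, mul_one, map_inv, mul_inv_cancel]
  exact h hb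

private theorem pasc_CC_mono {K : Type} [Group K] {α : Type} (t : K) (a : α → K) {m m' : ℕ}
    (h : m ≤ m') : CC t a m ≤ CC t a m' :=
  Subgroup.closure_mono fun _ ⟨i, x, h1, h2, h3⟩ => ⟨i, x, h1, h2.trans h, h3⟩

private theorem pasc_CC_C {K : Type} [Group K] {α : Type} (t : K) (a : α → K) (m : ℕ) :
    CC t a m ≤ pasc_C t a :=
  Subgroup.closure_mono fun _ ⟨i, x, h1, _, h3⟩ => ⟨i, x, h1, h3⟩

private theorem pasc_union {K : Type} [Group K] {α : Type} {t : K} {a : α → K} {g : K}
    (hg : g ∈ pasc_C t a) : ∃ m, g ∈ CC t a m := by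
  unfold pasc_C at hg
  induction hg using Subgroup.closure_induction with
  | mem g h =>
    obtain ⟨i, x, h1, h2⟩ := h
    exact ⟨i, Subgroup.subset_closure ⟨i, x, h1, le_rfl, h2⟩⟩
  | one => exact ⟨0, one_mem _⟩
  | mul g h _ _ h1 h2 =>
    obtain ⟨m, h3⟩ := h1
    obtain ⟨m', h4⟩ := h2
    exact ⟨max m m', mul_mem (pasc_CC_mono t a (le_max_left _ _) h3)
      (pasc_CC_mono t a (le_max_right _ _) h4)⟩
  | inv g _ h1 =>
    obtain ⟨m, h3⟩ := h1
    exact ⟨m, inv_mem h3⟩

private theorem pasc_step1 {K : Type} [Group K] (θ : K →* Multiplicative ℤ) {α : Type} [Fintype α]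
    (t : K) (a : α → K) (ht : θ t = Multiplicative.ofAdd 1) (ha : ∀ x, θ (a x) = 1)
    {y : Option α → MonoidAlgebra ℚ K} (hy : bq (fun o : Option α => o.elim t a) y = 0) :
    pasc_md (fun g : K => (g : K ⧸ pasc_C t a)) (y none) = 0 := by
  classical
  have h0 : pasc_md (fun g : K => (g : K ⧸ pasc_B t a))
      (∑ o : Option α, y o * (of ℚ K (o.elim t a) - 1)) = 0 := by
    rw [← bq_apply (fun o : Option α => o.elim t a) y, hy, map_zero]
  rw [Fintype.sum_option, map_add, map_sum] at h0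
  have h1 : ∀ x : α, pasc_md (fun g : K => (g : K ⧸ pasc_B t a))
      (y (some x) * (of ℚ K ((some x).elim t a) - 1)) = 0 := by
    intro x
    show pasc_md (fun g : K => (g : K ⧸ pasc_B t a)) (y (some x) * (of ℚ K (a x) - 1)) = 0
    rw [mul_sub, mul_one, map_sub, pasc_right, sub_eq_zero]
    have e : (fun g : K => ((g * a x : K) : K ⧸ pasc_B t a)) =
        fun g : K => (g : K ⧸ pasc_B t a) := by
      funext g
      refine QuotientGroup.mk_mul_of_mem g ?_
      refine Subgroup.subset_closure ⟨0, x, ?_⟩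
      simp [al]
    rw [e]
  rw [Finset.sum_congr rfl fun x _ => h1 x, Finset.sum_const_zero, add_zero] at h0
  have h2 : pasc_md (fun g : K => ((g * t : K) : K ⧸ pasc_B t a)) (y none) =
      pasc_md (fun g : K => (g : K ⧸ pasc_B t a)) (y none) := by
    have h3 : pasc_md (fun g : K => (g : K ⧸ pasc_B t a)) (y none * (of ℚ K t - 1)) = 0 := h0
    rw [mul_sub, mul_one, map_sub, pasc_right, sub_eq_zero] at h3
    exact h3
  generalize y none = c at h2 ⊢
  obtain ⟨q, hq⟩ : ∃ q : K ⧸ pasc_C t a → K ⧸ pasc_B t a,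
      ∀ g : K, q (g : K ⧸ pasc_C t a) = ((g * t : K) : K ⧸ pasc_B t a) := by
    refine ⟨Quotient.map' (fun g => g * t) ?_, fun g => rfl⟩
    intro g g' hgg
    rw [QuotientGroup.leftRel_apply] at hgg ⊢
    have e : (g * t)⁻¹ * (g' * t) = t⁻¹ * (g⁻¹ * g') * t := by group
    rw [e]
    exact pasc_conj2 hgg
  obtain ⟨p, hp⟩ : ∃ p : K ⧸ pasc_C t a → K ⧸ pasc_B t a,
      ∀ g : K, p (g : K ⧸ pasc_C t a) = (g : K ⧸ pasc_B t a) :=
    ⟨Subgroup.quotientMapOfLE (pasc_CB t a), fun g => rfl⟩
  obtain ⟨hB, hhB⟩ : ∃ hB : K ⧸ pasc_B t a → ℤ,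
      ∀ g : K, hB (g : K ⧸ pasc_B t a) = Multiplicative.toAdd (θ g) := by
    refine ⟨fun w => Quotient.liftOn' w (fun g => Multiplicative.toAdd (θ g)) ?_, fun g => rfl⟩
    intro g g' hgg
    rw [QuotientGroup.leftRel_apply] at hgg
    have h3 := pasc_ker θ ha hgg
    rw [map_mul, map_inv, inv_mul_eq_one] at h3
    show Multiplicative.toAdd (θ g) = Multiplicative.toAdd (θ g')
    rw [h3]
  have hqi : Function.Injective q := by
    intro v v' hvv
    induction v using QuotientGroup.induction_on with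
    | H g =>
      induction v' using QuotientGroup.induction_on with
      | H g' =>
        rw [hq, hq, QuotientGroup.eq] at hvv
        rw [QuotientGroup.eq]
        have h3 := pasc_conj1 hvv
        have e : t * ((g * t)⁻¹ * (g' * t)) * t⁻¹ = g⁻¹ * g' := by group
        rw [e] at h3
        exact h3
  have hqh : ∀ v, hB (q v) = hB (p v) + 1 := by
    intro v
    induction v using QuotientGroup.induction_on with
    | H g =>
      rw [hq, hp, hhB, hhB, map_mul, ht, toAdd_mul, toAdd_ofAdd]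
  obtain ⟨z, hz⟩ : ∃ z, z = pasc_md (fun g : K => (g : K ⧸ pasc_C t a)) c := ⟨_, rfl⟩
  have e1 : Finsupp.mapDomain q z = pasc_md (fun g : K => ((g * t : K) : K ⧸ pasc_B t a)) c := by
    rw [hz, pasc_md_apply, pasc_md_apply, ← Finsupp.mapDomain_comp]
    congr 1
    funext g
    exact hq g
  have e2 : Finsupp.mapDomain p z = pasc_md (fun g : K => (g : K ⧸ pasc_B t a)) c := by
    rw [hz, pasc_md_apply, pasc_md_apply, ← Finsupp.mapDomain_comp]
    congr 1
    funext g
    exact hp g
  have e3 : Finsupp.mapDomain q z = Finsupp.mapDomain p z := by rw [e1, e2, h2]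
  rw [← hz]
  by_contra hne
  obtain ⟨v, hv, hmax⟩ := Finset.exists_max_image z.support (fun v => hB (p v))
    (Finsupp.support_nonempty_iff.2 hne)
  have h4 : (Finsupp.mapDomain p z) (q v) ≠ 0 := by
    rw [← e3, Finsupp.mapDomain_apply hqi]
    exact Finsupp.mem_support_iff.1 hv
  have h5 : q v ∈ (Finsupp.mapDomain p z).support := Finsupp.mem_support_iff.2 h4
  obtain ⟨v', hv', h6⟩ := Finset.mem_image.1 (Finsupp.mapDomain_support h5)
  have h7 := hmax v' hv'
  have h8 := hqh v
  have h9 : hB (p v') ≤ hB (p v) := h7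
  rw [h6, h8] at h9
  omega

private theorem pasc_step2 {K : Type} [Group K] {α : Type} (t : K) (a : α → K)
    {c : MonoidAlgebra ℚ K} (hc : pasc_md (fun g : K => (g : K ⧸ pasc_C t a)) c = 0) :
    ∃ m, ∀ m', m ≤ m' → pasc_md (fun g : K => (g : K ⧸ CC t a m')) c = 0 := by
  classical
  have h1 : ∀ g g' : K, ∃ m, g⁻¹ * g' ∈ pasc_C t a → g⁻¹ * g' ∈ CC t a m := by
    intro g g'
    by_cases h : g⁻¹ * g' ∈ pasc_C t a
    · obtain ⟨m, hm⟩ := pasc_union h
      exact ⟨m, fun _ => hm⟩
    · exact ⟨0, fun h' => absurd h' h⟩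
  choose f hf using h1
  refine ⟨c.coeff.support.sup fun g => c.coeff.support.sup fun g' => f g g', fun m' hm' => ?_⟩
  have h2 : ∀ g ∈ c.coeff.support, ∀ g' ∈ c.coeff.support,
      ((g : K ⧸ pasc_C t a) = (g' : K ⧸ pasc_C t a)) →
        ((g : K ⧸ CC t a m') = (g' : K ⧸ CC t a m')) := by
    intro g hg g' hg' h3
    rw [QuotientGroup.eq] at h3 ⊢
    refine pasc_CC_mono t a ?_ (hf g g' h3)
    refine le_trans ?_ hm'
    exact (Finset.le_sup (f := fun g' => f g g') hg').trans
      (Finset.le_sup (f := fun g => c.coeff.support.sup fun g' => f g g') hg)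
  obtain ⟨s, hs⟩ : ∃ s : K ⧸ pasc_C t a → K ⧸ CC t a m', ∀ g ∈ c.coeff.support,
      (g : K ⧸ CC t a m') = s (g : K ⧸ pasc_C t a) := by
    refine ⟨fun w => if h : ∃ g ∈ c.coeff.support, (g : K ⧸ pasc_C t a) = w then
      ((h.choose : K) : K ⧸ CC t a m') else ((1 : K) : K ⧸ CC t a m'), fun g hg => ?_⟩
    have h3 : ∃ g' ∈ c.coeff.support, (g' : K ⧸ pasc_C t a) = (g : K ⧸ pasc_C t a) :=
      ⟨g, hg, rfl⟩
    simp only
    rw [dif_pos h3]
    exact h2 g hg _ h3.choose_spec.1 h3.choose_spec.2.symm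
  rw [pasc_md_apply, Finsupp.mapDomain_congr (g := s ∘ fun g : K => (g : K ⧸ pasc_C t a))
    fun g hg => hs g hg, Finsupp.mapDomain_comp]
  rw [pasc_md_apply] at hc
  rw [hc, Finsupp.mapDomain_zero]

theorem asc {K : Type} [Group K] (hR : RelQ K) (θ : K →* Multiplicative ℤ) {α : Type} [Fintype α]
    (t : K) (a : α → K) (ht : θ t = Multiplicative.ofAdd 1) (ha : ∀ x, θ (a x) = 1)
    (hgen : Subgroup.closure (Set.range (fun o : Option α => o.elim t a)) = ⊤) :
    ∃ m, ∀ y : Option α → MonoidAlgebra ℚ K, bq (fun o : Option α => o.elim t a) y = 0 →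
      Finsupp.mapDomain (fun g : K => (g : K ⧸ CC t a m)) (y none).coeff = 0 := by
  classical
  obtain ⟨S, hS⟩ := hR (Option α) (fun o : Option α => o.elim t a) hgen
  have h1 : ∀ s : Option α → MonoidAlgebra ℚ K, ∃ m, s ∈ S → ∀ m', m ≤ m' →
      pasc_md (fun g : K => (g : K ⧸ CC t a m')) (s none) = 0 := by
    intro s
    by_cases h : s ∈ S
    · have h2 : s ∈ LinearMap.ker (bq (fun o : Option α => o.elim t a)) := by
        rw [← hS]
        exact Submodule.subset_span h
      obtain ⟨m, hm⟩ := pasc_step2 t a (pasc_step1 θ t a ht ha (LinearMap.mem_ker.1 h2))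
      exact ⟨m, fun _ => hm⟩
    · exact ⟨0, fun h' => absurd h' h⟩
  choose f hf using h1
  refine ⟨S.sup f, fun y hy => ?_⟩
  have key : ∀ y ∈ Submodule.span (MonoidAlgebra ℚ K) (S : Set (Option α → MonoidAlgebra ℚ K)),
      pasc_md (fun g : K => (g : K ⧸ CC t a (S.sup f))) (y none) = 0 := by
    intro y hy
    induction hy using Submodule.span_induction with
    | mem s hs => exact hf s hs _ (Finset.le_sup hs)
    | zero => exact map_zero _
    | add x y _ _ hx hy =>
      show pasc_md _ (x none + y none) = 0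
      rw [map_add, hx, hy, add_zero]
    | smul c x _ hx =>
      show pasc_md _ (c * x none) = 0
      exact pasc_left _ _ _ hx
  refine key y ?_
  rw [hS]
  exact LinearMap.mem_ker.2 hy

end Pool.Agent.RFR
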