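import Pool.Agent.RFR.PDefs

set_option autoImplicit false

/-! RFR-PCos (5.4): relations between elements of a subgroup `B`, coset by coset.

The relations of the tuple over `ℚB` generate the relations over `ℚK`: decompose along the left cosets of `B`. -/

namespace Pool.Agent.RFR

open MonoidAlgebra

/-- the inclusion of group rings -/
private noncomputable def pcos_E {K : Type} [Group K] (B : Subgroup K) :
    MonoidAlgebra ℚ B →+* MonoidAlgebra ℚ K := MonoidAlgebra.mapDomainRingHom ℚ B.subtype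

private lemma pcos_E_single {K : Type} [Group K] (B : Subgroup K) (b : B) (r : ℚ) :
    pcos_E B (single b r) = single (b : K) r := MonoidAlgebra.mapDomain_single

private lemma pcos_E_coeff {K : Type} [Group K] (B : Subgroup K) (d : MonoidAlgebra ℚ B) (b : B) :
    (pcos_E B d).coeff (b : K) = d.coeff b :=
  Finsupp.mapDomain_apply B.subtype_injective d.coeff b

private lemma pcos_E_zero {K : Type} [Group K] (B : Subgroup K) (d : MonoidAlgebra ℚ B) {k : K}
    (hk : k ∉ B) : (pcos_E B d).coeff k = 0 := by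
  refine Finsupp.mapDomain_of_notMem_range d.coeff k ?_
  rintro ⟨b, hb⟩
  exact hk (hb ▸ b.2)

/-- the part of `c` on the coset `g B` -/
private noncomputable def pcos_P {K : Type} [Group K] (B : Subgroup K) (g : K) :
    MonoidAlgebra ℚ K →+ MonoidAlgebra ℚ B :=
  MonoidAlgebra.comapDomainAddMonoidHom (fun b : B => g * b)
    (fun _ _ h => Subtype.ext (mul_left_cancel h))

private lemma pcos_P_coeff {K : Type} [Group K] (B : Subgroup K) (g : K) (c : MonoidAlgebra ℚ K)
    (b : B) : (pcos_P B g c).coeff b = c.coeff (g * b) := rfl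

private lemma pcos_ms {G : Type} [Group G] (c : MonoidAlgebra ℚ G) (b x : G) (r : ℚ) :
    (c * single b r).coeff x = c.coeff (x * b⁻¹) * r :=
  MonoidAlgebra.coeff_mul_single_eq_coeff_mul _ fun _ _ => eq_mul_inv_iff_mul_eq.symm

private lemma pcos_sm {G : Type} [Group G] (c : MonoidAlgebra ℚ G) (b x : G) (r : ℚ) :
    (single b r * c).coeff x = r * c.coeff (b⁻¹ * x) :=
  MonoidAlgebra.coeff_single_mul_eq_mul_coeff _ fun _ _ => eq_inv_mul_iff_mul_eq.symm

private lemma pcos_P_mul {K : Type} [Group K] (B : Subgroup K) (g : K) (c : MonoidAlgebra ℚ K)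
    (d : MonoidAlgebra ℚ B) : pcos_P B g (c * pcos_E B d) = pcos_P B g c * d := by
  induction d using MonoidAlgebra.induction_linear with
  | zero => rw [map_zero, mul_zero, mul_zero, map_zero]
  | add d d' h h' => rw [map_add, mul_add, map_add, h, h', mul_add]
  | single b r =>
    rw [pcos_E_single]
    refine MonoidAlgebra.ext (Finsupp.ext fun x => ?_)
    rw [pcos_P_coeff, pcos_ms, pcos_ms, pcos_P_coeff, mul_assoc]
    rfl

open Classical in
private lemma pcos_dec {K : Type} [Group K] (B : Subgroup K) (c : MonoidAlgebra ℚ K)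
    (Q : Finset (K ⧸ B)) (hQ : ∀ k, c.coeff k ≠ 0 → (k : K ⧸ B) ∈ Q) :
    c = ∑ q ∈ Q, single q.out 1 * pcos_E B (pcos_P B q.out c) := by
  refine MonoidAlgebra.ext (Finsupp.ext fun k => ?_)
  rw [MonoidAlgebra.coeff_sum, Finsupp.finsetSum_apply]
  have h1 : ∀ q ∈ Q, q ≠ (k : K ⧸ B) →
      (single q.out (1 : ℚ) * pcos_E B (pcos_P B q.out c)).coeff k = 0 := by
    intro q _ hq
    rw [pcos_sm, pcos_E_zero, mul_zero]
    intro h2
    apply hq
    rw [← QuotientGroup.out_eq' q]
    exact QuotientGroup.eq.2 h2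
  have h2 : (single ((k : K ⧸ B)).out (1 : ℚ) * pcos_E B (pcos_P B ((k : K ⧸ B)).out c)).coeff k =
      c.coeff k := by
    have h3 : ((k : K ⧸ B)).out⁻¹ * k ∈ B := by
      rw [← QuotientGroup.eq]
      exact QuotientGroup.out_eq' _
    rw [pcos_sm, one_mul]
    have h4 := pcos_E_coeff B (pcos_P B ((k : K ⧸ B)).out c) ⟨_, h3⟩
    rw [pcos_P_coeff] at h4
    rw [h4]
    congr 1
    exact mul_inv_cancel_left _ _
  by_cases hk : (k : K ⧸ B) ∈ Q
  · rw [Finset.sum_eq_single_of_mem _ hk h1]
    exact h2.symm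
  · rw [Finset.sum_eq_zero fun q hq => h1 q hq fun h => hk (h ▸ hq)]
    by_contra h3
    exact hk (hQ k h3)

theorem cos_rel {K : Type} [Group K] {ι : Type} [Fintype ι] (b : ι → K)
    (hR : RelQ (Subgroup.closure (Set.range b))) :
    ∃ (m : ℕ) (ρ : Fin m → ι → MonoidAlgebra ℚ K), (∀ l, bq b (ρ l) = 0) ∧
      ∀ y : ι → MonoidAlgebra ℚ K, bq b y = 0 → ∃ w : Fin m → MonoidAlgebra ℚ K,
        y = ∑ l, w l • ρ l ∧ ∀ l g, (w l).coeff g ≠ 0 →
          ∃ j h, (y j).coeff h ≠ 0 ∧ h⁻¹ * g ∈ Subgroup.closure (Set.range b) := by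
  classical
  obtain ⟨B, hB⟩ : ∃ B, B = Subgroup.closure (Set.range b) := ⟨_, rfl⟩
  rw [← hB] at hR ⊢
  have hb : ∀ j, b j ∈ B := fun j => hB ▸ Subgroup.subset_closure (Set.mem_range_self j)
  let b' : ι → B := fun j => ⟨b j, hb j⟩
  have hb' : Subgroup.closure (Set.range b') = ⊤ := by
    have h1 : (Subgroup.closure (Set.range b')).map B.subtype = B := by
      rw [MonoidHom.map_closure, ← Set.range_comp]
      exact hB.symm
    refine Subgroup.map_injective B.subtype_injective ?_
    rw [h1, ← MonoidHom.range_eq_map, Subgroup.range_subtype]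
  obtain ⟨m, ρ', hρ'⟩ := Submodule.fg_iff_exists_fin_generating_family.1 (hR ι b' hb')
  have hE : ∀ j, of ℚ K (b j) - 1 = pcos_E B (of ℚ B (b' j) - 1) := by
    intro j
    rw [map_sub, map_one]
    congr 1
    exact (pcos_E_single B (b' j) 1).symm
  refine ⟨m, fun l j => pcos_E B (ρ' l j), fun l => ?_, fun y hy => ?_⟩
  · have h1 : ρ' l ∈ LinearMap.ker (bq b') := by
      rw [← hρ']
      exact Submodule.subset_span (Set.mem_range_self l)
    rw [LinearMap.mem_ker, bq_apply] at h1
    rw [bq_apply]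
    have h2 := congrArg (pcos_E B) h1
    rw [map_sum, map_zero] at h2
    rw [← h2]
    refine Finset.sum_congr rfl fun j _ => ?_
    rw [hE, map_mul]
  · have h1 : ∀ g : K, ∃ c : Fin m → MonoidAlgebra ℚ B,
        ∑ l, c l • ρ' l = fun j => pcos_P B g (y j) := by
      intro g
      rw [← Submodule.mem_span_range_iff_exists_fun, hρ', LinearMap.mem_ker, bq_apply]
      rw [bq_apply] at hy
      have h2 := congrArg (pcos_P B g) hy
      rw [map_sum, map_zero] at h2
      rw [← h2]
      refine Finset.sum_congr rfl fun j _ => ?_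
      rw [hE, pcos_P_mul]
    choose c hc using h1
    let Q : Finset (K ⧸ B) :=
      Finset.univ.biUnion fun j => (y j).coeff.support.image (fun k : K => (QuotientGroup.mk k : K ⧸ B))
    have hQ : ∀ j k, (y j).coeff k ≠ 0 → (k : K ⧸ B) ∈ Q := by
      intro j k hk
      rw [Finset.mem_biUnion]
      exact ⟨j, Finset.mem_univ _, Finset.mem_image_of_mem _ (Finsupp.mem_support_iff.2 hk)⟩
    refine ⟨fun l => ∑ q ∈ Q, single q.out 1 * pcos_E B (c q.out l), ?_, ?_⟩
    · funext j
      have h2 : y j = ∑ q ∈ Q, single q.out 1 * pcos_E B (pcos_P B q.out (y j)) :=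
        pcos_dec B (y j) Q (hQ j)
      rw [h2, Finset.sum_apply]
      have h3 : ∀ q ∈ Q, single q.out (1 : ℚ) * pcos_E B (pcos_P B q.out (y j)) =
          ∑ l, single q.out (1 : ℚ) * pcos_E B (c q.out l) * pcos_E B (ρ' l j) := by
        intro q _
        have h4 := congrFun (hc q.out) j
        rw [Finset.sum_apply] at h4
        rw [← h4, map_sum, Finset.mul_sum]
        refine Finset.sum_congr rfl fun l _ => ?_
        rw [Pi.smul_apply, smul_eq_mul, map_mul, mul_assoc]
      rw [Finset.sum_congr rfl h3, Finset.sum_comm]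
      refine Finset.sum_congr rfl fun l _ => ?_
      rw [Pi.smul_apply, smul_eq_mul, Finset.sum_mul]
    · intro l g hg
      rw [MonoidAlgebra.coeff_sum, Finsupp.finsetSum_apply] at hg
      obtain ⟨q, hq, hqg⟩ := Finset.exists_ne_zero_of_sum_ne_zero hg
      rw [pcos_sm, one_mul] at hqg
      have h2 : q.out⁻¹ * g ∈ B := by
        by_contra h3
        exact hqg (pcos_E_zero B _ h3)
      rw [Finset.mem_biUnion] at hq
      obtain ⟨j, -, hq⟩ := hq
      obtain ⟨h, hh, rfl⟩ := Finset.mem_image.1 hq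
      refine ⟨j, h, Finsupp.mem_support_iff.1 hh, ?_⟩
      have h3 : h⁻¹ * ((h : K ⧸ B)).out ∈ B := by
        rw [← QuotientGroup.eq]
        exact (QuotientGroup.out_eq' _).symm
      have h4 := B.mul_mem h3 h2
      rwa [mul_assoc, mul_inv_cancel_left] at h4

end Pool.Agent.RFR
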