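import Pool.Agent.RFR.PDefs

set_option autoImplicit false

/-! RFR-PIdl (5.4): elements of the group ring which vanish in `ℚ[K/C]`; Fox vectors.

PLAN.  `fox_exists`: `Subgroup.closure_induction` on `g` (`β(gh) = β g + g β h`, `β(g⁻¹) = - g⁻¹ β g`), supports stay in the closure.  `idl`: group the support of `c` by the cosets `g C`: on each coset (representative `g0`) the
coefficients have sum zero, so `c = ∑_cosets ∑_{h} c_h (h - g0)`, and `h - g0 = g0 (g0⁻¹ h - 1)` with `g0⁻¹ h ∈ C`, apply `fox_exists`: `g0⁻¹ h - 1 = ∑ β_j (b_j - 1)`, `β_j` supported in `C`.  (Choose `g0` in the support.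
Or induction on the size of the support of `c`.) -/

namespace Pool.Agent.RFR

open MonoidAlgebra

private theorem PIdl_of_mul_coeff {K : Type} [Group K] (g h : K) (y : MonoidAlgebra ℚ K) :
    (of ℚ K g * y).coeff h = y.coeff (g⁻¹ * h) := by
  rw [of_apply, coeff_single_mul_apply, one_mul]

theorem fox_exists {K : Type} [Group K] {ι : Type} [Fintype ι] (x : ι → K) {g : K}
    (hg : g ∈ Subgroup.closure (Set.range x)) :
    ∃ β : ι → MonoidAlgebra ℚ K, bq x β = of ℚ K g - 1 ∧
      ∀ j h, (β j).coeff h ≠ 0 → h ∈ Subgroup.closure (Set.range x) := by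
  classical
  induction hg using Subgroup.closure_induction with
  | mem g hg =>
    obtain ⟨i, rfl⟩ := hg
    refine ⟨Pi.single i 1, ?_, ?_⟩
    · rw [bq_apply, Finset.sum_eq_single i]
      · rw [Pi.single_eq_same, one_mul]
      · intro j _ hj
        rw [Pi.single_eq_of_ne hj, zero_mul]
      · intro h
        exact absurd (Finset.mem_univ i) h
    · intro j h hh
      by_cases hj : j = i
      · subst hj
        rw [Pi.single_eq_same] at hh
        have h1 : h = 1 := by
          by_contra hne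
          apply hh
          rw [one_def, coeff_single, Finsupp.single_eq_of_ne hne]
        rw [h1]
        exact one_mem _
      · rw [Pi.single_eq_of_ne hj] at hh
        exact absurd (by simp) hh
  | one => exact ⟨0, by rw [map_zero, map_one, sub_self], fun j h hh => absurd (by simp) hh⟩
  | mul g h hg hh ihg ihh =>
    obtain ⟨β, hβ, hsβ⟩ := ihg
    obtain ⟨γ, hγ, hsγ⟩ := ihh
    refine ⟨β + of ℚ K g • γ, ?_, ?_⟩
    · rw [map_add, map_smul, hβ, hγ, map_mul, smul_eq_mul, mul_sub, mul_one]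
      abel
    · intro j k hk
      rw [Pi.add_apply, Pi.smul_apply, smul_eq_mul, coeff_add, Finsupp.add_apply,
        PIdl_of_mul_coeff] at hk
      by_cases h1 : (β j).coeff k = 0
      · rw [h1, zero_add] at hk
        have h2 := hsγ j _ hk
        have h3 := mul_mem hg h2
        rwa [mul_inv_cancel_left] at h3
      · exact hsβ j k h1
  | inv g hg ihg =>
    obtain ⟨β, hβ, hsβ⟩ := ihg
    refine ⟨-(of ℚ K g⁻¹ • β), ?_, ?_⟩
    · rw [map_neg, map_smul, hβ, smul_eq_mul, mul_sub, mul_one, ← map_mul, inv_mul_cancel, map_one]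
      abel
    · intro j k hk
      rw [Pi.neg_apply, Pi.smul_apply, smul_eq_mul, coeff_neg, Finsupp.neg_apply,
        PIdl_of_mul_coeff, neg_ne_zero, inv_inv] at hk
      have h2 := hsβ j _ hk
      have h3 := mul_mem (inv_mem hg) h2
      rwa [inv_mul_cancel_left] at h3

theorem idl {K : Type} [Group K] {ι : Type} [Fintype ι] (b : ι → K) {c : MonoidAlgebra ℚ K}
    (hc : Finsupp.mapDomain (fun g : K => (g : K ⧸ Subgroup.closure (Set.range b))) c.coeff = 0) :
    ∃ z : ι → MonoidAlgebra ℚ K, bq b z = c ∧ ∀ j g, (z j).coeff g ≠ 0 →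
      ∃ h, c.coeff h ≠ 0 ∧ h⁻¹ * g ∈ Subgroup.closure (Set.range b) := by
  classical
  set C := Subgroup.closure (Set.range b) with hC
  -- representatives in the support
  have hrep : ∀ q : K ⧸ C, ∃ r : K, (∃ g, c.coeff g ≠ 0 ∧ (g : K ⧸ C) = q) →
      (c.coeff r ≠ 0 ∧ (r : K ⧸ C) = q) := by
    intro q
    by_cases h : ∃ g, c.coeff g ≠ 0 ∧ (g : K ⧸ C) = q
    · obtain ⟨g, hg⟩ := h
      exact ⟨g, fun _ => hg⟩
    · exact ⟨1, fun h' => absurd h' h⟩
  choose rep hrep using hrep
  have hr1 : ∀ g, c.coeff g ≠ 0 → c.coeff (rep (g : K ⧸ C)) ≠ 0 :=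
    fun g hg => (hrep _ ⟨g, hg, rfl⟩).1
  have hr2 : ∀ g, c.coeff g ≠ 0 → (rep (g : K ⧸ C))⁻¹ * g ∈ C := by
    intro g hg
    exact QuotientGroup.eq.1 (hrep _ ⟨g, hg, rfl⟩).2
  have hfox : ∀ g, ∃ β : ι → MonoidAlgebra ℚ K, c.coeff g ≠ 0 →
      (bq b β = of ℚ K ((rep (g : K ⧸ C))⁻¹ * g) - 1 ∧
      ∀ j h, (β j).coeff h ≠ 0 → h ∈ C) := by
    intro g
    by_cases hg : c.coeff g = 0
    · exact ⟨0, fun h => absurd hg h⟩
    · obtain ⟨β, hβ⟩ := fox_exists b (hr2 g hg)
      exact ⟨β, fun _ => hβ⟩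
  choose β hβ using hfox
  refine ⟨∑ g ∈ c.coeff.support, single (rep (g : K ⧸ C)) (c.coeff g) • β g, ?_, ?_⟩
  · rw [map_sum]
    have h1 : ∀ g ∈ c.coeff.support,
        bq b (single (rep (g : K ⧸ C)) (c.coeff g) • β g) =
          single g (c.coeff g) - single (rep (g : K ⧸ C)) (c.coeff g) := by
      intro g hg
      rw [Finsupp.mem_support_iff] at hg
      rw [map_smul, (hβ g hg).1, smul_eq_mul, mul_sub, mul_one, of_apply, single_mul_single,
        mul_one, mul_inv_cancel_left]
    rw [Finset.sum_congr rfl h1, Finset.sum_sub_distrib]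
    have h2 : ∑ g ∈ c.coeff.support, single g (c.coeff g) = c := sum_coeff_single c
    have h3 : ∑ g ∈ c.coeff.support, (single (rep (g : K ⧸ C)) (c.coeff g) :
        MonoidAlgebra ℚ K) = 0 := by
      have h4 : Finsupp.mapDomain rep
          (Finsupp.mapDomain (fun g : K => (g : K ⧸ C)) c.coeff) = 0 := by
        rw [hc, Finsupp.mapDomain_zero]
      rw [← Finsupp.mapDomain_comp] at h4
      apply coeff_injective
      rw [coeff_sum, coeff_zero, ← h4, Finsupp.mapDomain, Finsupp.sum]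
      rfl
    rw [h2, h3, sub_zero]
  · intro j g hg
    rw [Finset.sum_apply, coeff_sum, Finsupp.finset_sum_apply] at hg
    obtain ⟨k, hk, hk2⟩ := Finset.exists_ne_zero_of_sum_ne_zero hg
    rw [Finsupp.mem_support_iff] at hk
    rw [Pi.smul_apply, smul_eq_mul, coeff_single_mul_apply] at hk2
    have hk3 := right_ne_zero_of_mul hk2
    exact ⟨rep (k : K ⧸ C), hr1 k hk, (hβ k hk).2 j _ hk3⟩

end Pool.Agent.RFR
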