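import Pool.Agent.RFR.PAsc
import Pool.Agent.RFR.PIdl
import Pool.Agent.RFR.PCos

set_option autoImplicit false

/-! RFR-PHnn (5.4): the slab property for a surjective homomorphism `θ` whose kernel has finitely
generated relation modules of all its finitely generated subgroups. -/

namespace Pool.Agent.RFR

open MonoidAlgebra

/-- the projection `ℚ[K] → ℚ[K/C]` -/
private noncomputable def PHnn_pr {K : Type} [Group K] (C : Subgroup K) :
    MonoidAlgebra ℚ K →+ ((K ⧸ C) →₀ ℚ) :=
  (Finsupp.mapDomain.addMonoidHom (fun g : K => (g : K ⧸ C))).comp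
    (coeffAddEquiv (R := ℚ) (M := K)).toAddMonoidHom

private theorem PHnn_pr_apply {K : Type} [Group K] (C : Subgroup K) (c : MonoidAlgebra ℚ K) :
    PHnn_pr C c = Finsupp.mapDomain (fun g : K => (g : K ⧸ C)) c.coeff := rfl

private theorem PHnn_pr_mul {K : Type} [Group K] {C : Subgroup K} {h : K} (hh : h ∈ C)
    (c : MonoidAlgebra ℚ K) : PHnn_pr C (c * of ℚ K h) = PHnn_pr C c := by
  induction c using MonoidAlgebra.induction_linear with
  | zero => rw [zero_mul]
  | add x y hx hy => rw [add_mul, map_add, map_add, hx, hy]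
  | single g r =>
    rw [MonoidAlgebra.of_apply, MonoidAlgebra.single_mul_single, mul_one, PHnn_pr_apply,
      PHnn_pr_apply, coeff_single, coeff_single, Finsupp.mapDomain_single,
      Finsupp.mapDomain_single, QuotientGroup.mk_mul_of_mem g hh]

private theorem PHnn_al {K : Type} [Group K] {α : Type} (t : K) (a : α → K) {i j : ℕ} (h : j ≤ i)
    (x : α) : al t a i x * t ^ j = t ^ j * al t a (i - j) x := by
  obtain ⟨k, rfl⟩ := Nat.exists_eq_add_of_le h
  rw [Nat.add_sub_cancel_left]
  unfold al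
  rw [pow_add, mul_inv_rev]
  group

/-- the tuple `(t, al i x)`, `i ≤ m` -/
private def PHnn_z {K : Type} [Group K] {α : Type} (t : K) (a : α → K) (m : ℕ) :
    Option (Fin (m + 1) × α) → K :=
  fun o => o.elim t (fun p => al t a (p.1 : ℕ) p.2)

/-- the substitution -/
private noncomputable def PHnn_y {K : Type} [Group K] {α : Type} [Fintype α] (t : K) (a : α → K)
    (m : ℕ) (y : Option (Fin (m + 1) × α) → MonoidAlgebra ℚ K) :
    Option α → MonoidAlgebra ℚ K :=
  fun o => o.elim (y none + ∑ i : Fin (m + 1), ∑ x, y (some (i, x)) *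
    ((1 - of ℚ K (al t a i x)) * ∑ j ∈ Finset.range i, of ℚ K t ^ j))
    (fun x => ∑ i : Fin (m + 1), y (some (i, x)) * of ℚ K t ^ (i : ℕ))

private theorem PHnn_key {K : Type} [Group K] {α : Type} [Fintype α] (t : K) (a : α → K) (m : ℕ)
    (y : Option (Fin (m + 1) × α) → MonoidAlgebra ℚ K) :
    bq (fun o : Option α => o.elim t a) (PHnn_y t a m y) = bq (PHnn_z t a m) y := by
  rw [bq_apply, bq_apply, Fintype.sum_option, Fintype.sum_option, Fintype.sum_prod_type]
  simp only [PHnn_y, PHnn_z, Option.elim_none, Option.elim_some]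
  rw [add_mul, add_assoc]
  congr 1
  simp only [Finset.sum_mul]
  rw [Finset.sum_comm (s := (Finset.univ : Finset α)), ← Finset.sum_add_distrib]
  refine Finset.sum_congr rfl fun i _ => ?_
  rw [← Finset.sum_add_distrib]
  refine Finset.sum_congr rfl fun x _ => ?_
  rw [mul_assoc, mul_assoc, mul_assoc, ← mul_add]
  congr 1
  rw [geom_sum_mul]
  have h1 : of ℚ K (al t a i x) * of ℚ K t ^ (i : ℕ) = of ℚ K t ^ (i : ℕ) * of ℚ K (a x) := by
    rw [← map_pow, ← map_mul, ← map_mul, PHnn_al t a (le_refl (i : ℕ)) x, Nat.sub_self]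
    simp [al]
  rw [sub_mul, one_mul, mul_sub, mul_sub, h1]
  simp only [mul_one]
  abel

private theorem PHnn_van {K : Type} [Group K] {α : Type} [Fintype α] {t : K} {a : α → K} {m : ℕ}
    (y : Option (Fin (m + 1) × α) → MonoidAlgebra ℚ K)
    (h : PHnn_pr (CC t a m) (PHnn_y t a m y none) = 0) : PHnn_pr (CC t a m) (y none) = 0 := by
  have h1 : PHnn_pr (CC t a m) (∑ i : Fin (m + 1), ∑ x, y (some (i, x)) *
      ((1 - of ℚ K (al t a i x)) * ∑ j ∈ Finset.range i, of ℚ K t ^ j)) = 0 := by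
    rw [map_sum]
    refine Finset.sum_eq_zero fun i _ => ?_
    rw [map_sum]
    refine Finset.sum_eq_zero fun x _ => ?_
    rw [Finset.mul_sum, Finset.mul_sum, map_sum]
    refine Finset.sum_eq_zero fun j hj => ?_
    rw [Finset.mem_range] at hj
    have hi := i.2
    have h2 : of ℚ K (al t a i x) * of ℚ K t ^ j = of ℚ K t ^ j * of ℚ K (al t a (i - j) x) := by
      rw [← map_pow, ← map_mul, ← map_mul, PHnn_al t a hj.le x]
    rw [sub_mul, one_mul, h2, mul_sub, ← mul_assoc, map_sub, PHnn_pr_mul, sub_self]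
    exact Subgroup.subset_closure ⟨(i : ℕ) - j, x, by omega, by omega, rfl⟩
  have h2 : PHnn_y t a m y none = y none + ∑ i : Fin (m + 1), ∑ x, y (some (i, x)) *
      ((1 - of ℚ K (al t a i x)) * ∑ j ∈ Finset.range i, of ℚ K t ^ j) := rfl
  rw [h2, map_add, h1, add_zero] at h
  exact h

private theorem PHnn_cl {K : Type} [Group K] {α : Type} (t : K) (a : α → K) (m : ℕ) :
    CC t a m = Subgroup.closure (Set.range (fun p : Fin m × α => al t a (p.1 + 1) p.2)) := by
  unfold CC
  congr 1
  ext g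
  constructor
  · rintro ⟨i, x, h1, h2, rfl⟩
    refine ⟨(⟨i - 1, by omega⟩, x), ?_⟩
    show al t a (i - 1 + 1) x = _
    rw [Nat.sub_add_cancel h1]
  · rintro ⟨⟨i, x⟩, rfl⟩
    have := i.2
    exact ⟨i + 1, x, by omega, by omega, rfl⟩

private theorem PHnn_sub {K : Type} [Group K] {C C' : Subgroup K} (h : C = C')
    {c : MonoidAlgebra ℚ K} (hc : PHnn_pr C c = 0) : PHnn_pr C' c = 0 := by
  subst h
  exact hc

/-! supports -/

private theorem PHnn_mono {K : Type} {T : K → ℤ} {a b a' b' : ℤ} (ha : a' ≤ a) (hb : b ≤ b')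
    {c : MonoidAlgebra ℚ K} (h : InSl T a b c) : InSl T a' b' c :=
  fun g hg => ⟨ha.trans (h g hg).1, (h g hg).2.trans hb⟩

private theorem PHnn_zero {K : Type} {T : K → ℤ} {a b : ℤ} :
    InSl T a b (0 : MonoidAlgebra ℚ K) := by
  intro g hg
  exact absurd rfl hg

private theorem PHnn_add {K : Type} {T : K → ℤ} {a b : ℤ} {c d : MonoidAlgebra ℚ K}
    (hc : InSl T a b c) (hd : InSl T a b d) : InSl T a b (c + d) := by
  intro g hg
  by_cases h : c.coeff g = 0
  · apply hd g
    intro h'
    apply hg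
    rw [coeff_add, Finsupp.add_apply, h, h', add_zero]
  · exact hc g h

private theorem PHnn_neg {K : Type} {T : K → ℤ} {a b : ℤ} {c d : MonoidAlgebra ℚ K}
    (hc : InSl T a b c) (hd : InSl T a b d) : InSl T a b (c - d) := by
  intro g hg
  by_cases h : c.coeff g = 0
  · apply hd g
    intro h'
    apply hg
    rw [coeff_sub, Finsupp.sub_apply, h, h', sub_zero]
  · exact hc g h

private theorem PHnn_sum {K : Type} {T : K → ℤ} {a b : ℤ} {ι : Type} (s : Finset ι)
    (f : ι → MonoidAlgebra ℚ K) (h : ∀ i ∈ s, InSl T a b (f i)) : InSl T a b (∑ i ∈ s, f i) := by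
  classical
  induction s using Finset.induction_on with
  | empty => exact PHnn_zero
  | insert i s hi ih =>
    rw [Finset.sum_insert hi]
    exact PHnn_add (h i (Finset.mem_insert_self i s))
      (ih fun j hj => h j (Finset.mem_insert_of_mem hj))

private theorem PHnn_mul {K : Type} [Group K] {T : K → ℤ} {a b : ℤ} {c : MonoidAlgebra ℚ K}
    {t : K} (ht : ∀ g, T (g * t) = T g + 1) (hc : InSl T a b c) :
    InSl T a (b + 1) (c * of ℚ K t) := by
  intro g hg
  have h1 : (c * of ℚ K t).coeff g = c.coeff (g * t⁻¹) := by simp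
  rw [h1] at hg
  obtain ⟨h2, h3⟩ := hc _ hg
  have h4 := ht (g * t⁻¹)
  rw [inv_mul_cancel_right] at h4
  constructor <;> omega

private theorem PHnn_slab {K : Type} [Group K] {T : K → ℤ} {ι : Type} [Fintype ι] {x : ι → K}
    {l : Type} [Fintype l] (ρ : l → ι → MonoidAlgebra ℚ K) (h0 : ∀ i, bq x (ρ i) = 0) (C : ℤ)
    (hC : 0 ≤ C) (h : ∀ (a b : ℤ) (y : ι → MonoidAlgebra ℚ K), bq x y = 0 →
      (∀ j, InSl T a b (y j)) → ∃ c : l → MonoidAlgebra ℚ K,
        y = ∑ i, c i • ρ i ∧ ∀ i, InSl T (a - C) (b + C) (c i)) : Slab T x := by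
  have e := Fintype.equivFin l
  refine ⟨Fintype.card l, fun i => ρ (e.symm i), fun i => h0 _, C, hC, ?_⟩
  intro a b y hy hs
  obtain ⟨c, hc, hc'⟩ := h a b y hy hs
  refine ⟨fun i => c (e.symm i), ?_, fun i => hc' _⟩
  rw [hc]
  exact (e.symm.sum_comp (fun i => c i • ρ i)).symm

open scoped Classical in
/-- the relators of the conjugations -/
private noncomputable def PHnn_ka {K : Type} [Group K] {α : Type} (t : K) (a : α → K) (m : ℕ)
    (q : Fin m × α) : Option (Fin (m + 1) × α) → MonoidAlgebra ℚ K :=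
  fun o => o.elim (of ℚ K (al t a (q.1 + 1) q.2) - 1)
    (fun p => (if p = (q.1.succ, q.2) then 1 else 0) -
      (if p = (q.1.castSucc, q.2) then of ℚ K t else 0))

open scoped Classical in
private theorem PHnn_ka_some {K : Type} [Group K] {α : Type} (t : K) (a : α → K) (m : ℕ)
    (q : Fin m × α) (p : Fin (m + 1) × α) : PHnn_ka t a m q (some p) =
      (if p = (q.1.succ, q.2) then 1 else 0) -
        (if p = (q.1.castSucc, q.2) then of ℚ K t else 0) := rfl

private theorem PHnn_ka_rel {K : Type} [Group K] {α : Type} [Fintype α] (t : K) (a : α → K)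
    (m : ℕ) (q : Fin m × α) : bq (PHnn_z t a m) (PHnn_ka t a m q) = 0 := by
  classical
  have h1 : of ℚ K (al t a (q.1 + 1) q.2) * of ℚ K t = of ℚ K t * of ℚ K (al t a q.1 q.2) := by
    rw [← map_mul, ← map_mul]
    have := PHnn_al t a (Nat.le_add_left 1 q.1) q.2
    rw [pow_one, Nat.add_sub_cancel] at this
    rw [this]
  rw [bq_apply, Fintype.sum_option]
  simp only [PHnn_z, PHnn_ka, Option.elim_none, Option.elim_some, sub_mul, ite_mul, one_mul,
    zero_mul, Finset.sum_sub_distrib, Finset.sum_ite_eq', Finset.mem_univ, if_true,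
    Fin.val_succ, Fin.val_castSucc, mul_sub, mul_one]
  rw [h1]
  abel

theorem slab_hnn {K : Type} [Group K] [Group.FG K] (hR : RelQ K) (θ : K →* Multiplicative ℤ)
    (hθ : Function.Surjective θ) (hB : ∀ B : Subgroup K, B ≤ θ.ker → B.FG → RelQ B) :
    ∃ (ι : Type) (_ : Fintype ι) (z : ι → K), Subgroup.closure (Set.range z) = ⊤ ∧
      Slab (fun g => Multiplicative.toAdd (θ g)) z := by
  classical
  obtain ⟨S, hS⟩ := Group.FG.out (G := K)
  obtain ⟨t, ht⟩ := hθ (Multiplicative.ofAdd 1)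
  obtain ⟨a, ha'⟩ : ∃ a : S → K, ∀ x, a x = x * t ^ (- Multiplicative.toAdd (θ x)) :=
    ⟨fun x => x * t ^ (- Multiplicative.toAdd (θ x)), fun _ => rfl⟩
  have ha : ∀ x, θ (a x) = 1 := by
    intro x
    rw [ha', map_mul, map_zpow, ht]
    apply Multiplicative.toAdd.injective
    rw [toAdd_mul, toAdd_zpow, toAdd_ofAdd, toAdd_one]
    simp
  have hgen : Subgroup.closure (Set.range (fun o : Option S => o.elim t a)) = ⊤ := by
    rw [eq_top_iff, ← hS, Subgroup.closure_le]
    intro x hx
    have h1 : x = a ⟨x, hx⟩ * t ^ (Multiplicative.toAdd (θ x)) := by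
      rw [ha']
      group
    rw [h1]
    apply mul_mem
    · exact Subgroup.subset_closure ⟨some ⟨x, hx⟩, rfl⟩
    · have h2 : t ∈ Subgroup.closure (Set.range (fun o : Option S => o.elim t a)) :=
        Subgroup.subset_closure ⟨none, rfl⟩
      exact Subgroup.zpow_mem _ h2 _
  obtain ⟨m, hm⟩ := asc hR θ t a ht ha hgen
  have hal : ∀ i x, θ (al t a i x) = 1 := by
    intro i x
    unfold al
    rw [map_mul, map_mul, ha, map_inv, mul_one, mul_inv_cancel]
  have hTc : ∀ g h, h⁻¹ * g ∈ θ.ker → Multiplicative.toAdd (θ g) = Multiplicative.toAdd (θ h) := by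
    intro g h hgh
    rw [MonoidHom.mem_ker, map_mul, map_inv, inv_mul_eq_one] at hgh
    rw [hgh]
  have hTt : ∀ g, Multiplicative.toAdd (θ (g * t)) = Multiplicative.toAdd (θ g) + 1 := by
    intro g
    rw [map_mul, ht, toAdd_mul, toAdd_ofAdd]
  have hle : Subgroup.closure (Set.range (fun p : Fin (m + 1) × S => al t a (p.1 : ℕ) p.2))
      ≤ θ.ker := by
    rw [Subgroup.closure_le]
    rintro _ ⟨p, rfl⟩
    exact hal _ _
  have hle' : Subgroup.closure (Set.range (fun p : Fin m × S => al t a (p.1 + 1) p.2))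
      ≤ θ.ker := by
    rw [Subgroup.closure_le]
    rintro _ ⟨p, rfl⟩
    exact hal _ _
  obtain ⟨n, ρ, hρ, hρ'⟩ := cos_rel (fun p : Fin (m + 1) × S => al t a (p.1 : ℕ) p.2)
    (hB _ hle ((Subgroup.fg_iff _).2 ⟨_, rfl, Set.finite_range _⟩))
  refine ⟨Option (Fin (m + 1) × S), inferInstance, PHnn_z t a m, ?_, ?_⟩
  · rw [eq_top_iff, ← hgen, Subgroup.closure_le]
    rintro _ ⟨o, rfl⟩
    cases o with
    | none => exact Subgroup.subset_closure ⟨none, rfl⟩
    | some x =>
      refine Subgroup.subset_closure ⟨some (0, x), ?_⟩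
      show al t a ((0 : Fin (m + 1)) : ℕ) x = a x
      simp [al]
  refine PHnn_slab (l := (Fin m × S) ⊕ Fin n)
    (Sum.elim (PHnn_ka t a m) (fun l o => o.elim 0 (ρ l))) ?_ 1 zero_le_one ?_
  · rintro (q | l)
    · exact PHnn_ka_rel t a m q
    · show bq (PHnn_z t a m) (fun o => o.elim 0 (ρ l)) = 0
      have := hρ l
      rw [bq_apply] at this
      rw [bq_apply, Fintype.sum_option]
      simp only [Option.elim_none, Option.elim_some, zero_mul, zero_add]
      exact this
  intro lo hi y hy hs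
  have h1 : PHnn_pr (CC t a m) (y none) = 0 := by
    apply PHnn_van
    exact hm _ (by rw [PHnn_key, hy])
  obtain ⟨w, hw, hw'⟩ := idl (fun p : Fin m × S => al t a (p.1 + 1) p.2) (c := y none)
    (PHnn_sub (PHnn_cl t a m) h1)
  have hwS : ∀ q, InSl (fun g => Multiplicative.toAdd (θ g)) lo hi (w q) := by
    intro q g hg
    obtain ⟨h, hh, hh'⟩ := hw' q g hg
    have h2 := hTc g h (hle' hh')
    have h3 := hs none h hh
    simp only at h3 ⊢
    rw [h2]
    exact h3
  obtain ⟨y2, hy2⟩ : ∃ y2 : Option (Fin (m + 1) × S) → MonoidAlgebra ℚ K,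
    y2 = y - ∑ q, w q • PHnn_ka t a m q := ⟨_, rfl⟩
  have hy2r : bq (PHnn_z t a m) y2 = 0 := by
    rw [hy2, map_sub, hy, map_sum]
    simp only [map_smul, PHnn_ka_rel, smul_zero, Finset.sum_const_zero, sub_zero]
  have hy2n : y2 none = 0 := by
    rw [hy2, Pi.sub_apply, Finset.sum_apply, ← hw, bq_apply, sub_eq_zero]
    rfl
  have hy2B : bq (fun p : Fin (m + 1) × S => al t a (p.1 : ℕ) p.2) (fun p => y2 (some p)) = 0 := by
    rw [bq_apply, Fintype.sum_option, hy2n, zero_mul, zero_add] at hy2r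
    rw [bq_apply]
    exact hy2r
  have hy2S : ∀ p, InSl (fun g => Multiplicative.toAdd (θ g)) lo (hi + 1) (y2 (some p)) := by
    intro p
    rw [hy2, Pi.sub_apply, Finset.sum_apply]
    refine PHnn_neg (PHnn_mono le_rfl (by omega) (hs _)) (PHnn_sum _ _ fun q _ => ?_)
    rw [Pi.smul_apply, smul_eq_mul, PHnn_ka_some, mul_sub]
    apply PHnn_neg
    · split_ifs
      · rw [mul_one]
        exact PHnn_mono le_rfl (by omega) (hwS q)
      · rw [mul_zero]
        exact PHnn_zero
    · split_ifs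
      · exact PHnn_mul hTt (hwS q)
      · rw [mul_zero]
        exact PHnn_zero
  obtain ⟨v, hv, hv'⟩ := hρ' _ hy2B
  refine ⟨Sum.elim w v, ?_, ?_⟩
  · rw [Fintype.sum_sum_type]
    simp only [Sum.elim_inl, Sum.elim_inr]
    rw [← sub_eq_iff_eq_add', ← hy2]
    funext o
    cases o with
    | none =>
      rw [hy2n, Finset.sum_apply]
      simp
    | some p =>
      have := congrFun hv p
      simp only [Finset.sum_apply, Pi.smul_apply] at this
      rw [this, Finset.sum_apply]
      rfl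
  · rintro (q | l)
    · exact PHnn_mono (by omega) (by omega) (hwS q)
    · intro g hg
      obtain ⟨p, h, hh, hh'⟩ := hv' l g hg
      have h2 := hTc g h (hle hh')
      have h3 := hy2S p h hh
      simp only at h3 ⊢
      rw [h2]
      constructor <;> omega

end Pool.Agent.RFR
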