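import Pool.Agent.RFR.PHnn

set_option autoImplicit false

/-! RFR-PSc (5.3): the slab property for `T = const + homomorphism`.

PLAN.  `θ' g = T g - T 1` is a homomorphism to `ℤ`.  If it is zero: `T` is constant, take any finite generating tuple and generators of its relations (`RelQ`): for `y ≠ 0` in the slab `a ≤ T 1 ≤ b`, so all coefficients are in the slab; for `y = 0` take
the zero coefficients.  If it is nonzero its image is `d ℤ`, `d ≥ 1`, `θ' = d θ` with `θ` onto `ℤ`, `ker θ = {T g = T 1}`: `slab_hnn`; `a ≤ T 1 + d θ g ≤ b` means `⌈(a - T 1)/d⌉ ≤ θ g ≤ ⌊(b - T 1)/d⌋`, the constant for `T` is `d * C`. -/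

namespace Pool.Agent.RFR

open MonoidAlgebra

private theorem psc_const {K : Type} [Group K] [Group.FG K] (hR : RelQ K) (T : K → ℤ)
    (hc : ∀ g, T g = T 1) :
    ∃ (ι : Type) (_ : Fintype ι) (z : ι → K), Subgroup.closure (Set.range z) = ⊤ ∧ Slab T z := by
  obtain ⟨S, hS⟩ := Group.fg_def.1 (inferInstance : Group.FG K)
  have hz : Subgroup.closure (Set.range (Subtype.val : {x // x ∈ S} → K)) = ⊤ := by
    have e : Set.range (Subtype.val : {x // x ∈ S} → K) = (S : Set K) := by
      ext x
      simp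
    rw [e]
    exact hS
  refine ⟨{x // x ∈ S}, inferInstance, Subtype.val, hz, ?_⟩
  obtain ⟨m, ρ, hρ⟩ := Submodule.fg_iff_exists_fin_generating_family.1
    (hR {x // x ∈ S} Subtype.val hz)
  refine ⟨m, ρ, fun l => ?_, 0, le_rfl, fun a b y hy hys => ?_⟩
  · have h1 : ρ l ∈ Submodule.span (MonoidAlgebra ℚ K) (Set.range ρ) :=
      Submodule.subset_span ⟨l, rfl⟩
    rw [hρ] at h1
    exact h1
  · by_cases hy0 : y = 0
    · refine ⟨fun _ => 0, ?_, fun l g hg => ?_⟩
      · rw [hy0]
        simp
      · exact absurd rfl hg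
    · obtain ⟨j, hj⟩ := Function.ne_iff.1 hy0
      have hex : ∃ g, (y j).coeff g ≠ 0 := by
        by_contra hcon
        apply hj
        ext g
        by_contra hg
        exact hcon ⟨g, hg⟩
      obtain ⟨g, hg⟩ := hex
      have h1 := hys j g hg
      have h2 : y ∈ Submodule.span (MonoidAlgebra ℚ K) (Set.range ρ) := by
        rw [hρ]
        exact hy
      obtain ⟨c, hcy⟩ := (Submodule.mem_span_range_iff_exists_fun _).1 h2
      refine ⟨c, hcy.symm, fun l g' _ => ?_⟩
      rw [hc g] at h1
      rw [hc g']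
      omega

private theorem psc_dvd {K : Type} [Group K] (T : K → ℤ)
    (hT : ∀ g h, T (g * h) = T g + T h - T 1) (hn : ∃ g, T g ≠ T 1) :
    ∃ d : ℤ, 0 < d ∧ (∀ g, d ∣ T g - T 1) ∧ ∃ g, T g - T 1 = d := by
  have hinv : ∀ g, T g⁻¹ - T 1 = -(T g - T 1) := by
    intro g
    have h1 := hT g g⁻¹
    rw [mul_inv_cancel] at h1
    omega
  let A : AddSubgroup ℤ :=
    { carrier := {n | ∃ g, T g - T 1 = n}
      zero_mem' := ⟨1, sub_self _⟩
      add_mem' := by
        rintro x y ⟨g, hg⟩ ⟨h, hh⟩
        refine ⟨g * h, ?_⟩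
        have h1 := hT g h
        omega
      neg_mem' := by
        rintro x ⟨g, hg⟩
        refine ⟨g⁻¹, ?_⟩
        have h1 := hinv g
        omega }
  obtain ⟨a, ha⟩ := Int.subgroup_cyclic A
  have hmem : ∀ g, T g - T 1 ∈ A := fun g => ⟨g, rfl⟩
  have hdv : ∀ n ∈ A, a ∣ n := by
    intro n hn'
    rw [ha] at hn'
    exact AddSubgroup.mem_closure_singleton.1 hn' |>.elim fun k hk => ⟨k, by
      rw [← hk]
      simp [mul_comm]⟩
  have haA : a ∈ A := by
    rw [ha]
    exact AddSubgroup.subset_closure rfl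
  have ha0 : a ≠ 0 := by
    rintro rfl
    obtain ⟨g, hg⟩ := hn
    have h1 := hdv _ (hmem g)
    rw [zero_dvd_iff] at h1
    omega
  rcases lt_or_gt_of_ne ha0 with h | h
  · refine ⟨-a, by omega, fun g => (neg_dvd).2 (hdv _ (hmem g)), ?_⟩
    exact A.neg_mem haA
  · exact ⟨a, h, fun g => hdv _ (hmem g), haA⟩

theorem slab_quasi {K : Type} [Group K] [Group.FG K] (hR : RelQ K) (T : K → ℤ)
    (hT : ∀ g h, T (g * h) = T g + T h - T 1)
    (hB : ∀ B : Subgroup K, (∀ g ∈ B, T g = T 1) → B.FG → RelQ B) :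
    ∃ (ι : Type) (_ : Fintype ι) (z : ι → K), Subgroup.closure (Set.range z) = ⊤ ∧ Slab T z := by
  by_cases hc : ∀ g, T g = T 1
  · exact psc_const hR T hc
  · obtain ⟨d, hd, hdv, g0, hg0⟩ := psc_dvd T hT (by
      by_contra hcon
      exact hc fun g => by
        by_contra hg
        exact hcon ⟨g, hg⟩)
    have hq : ∀ g, T g = T 1 + d * ((T g - T 1) / d) := by
      intro g
      have h1 := Int.mul_ediv_cancel' (hdv g)
      omega
    let θ : K →* Multiplicative ℤ :=
      { toFun := fun g => Multiplicative.ofAdd ((T g - T 1) / d)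
        map_one' := by
          rw [sub_self, Int.zero_ediv]
          rfl
        map_mul' := by
          intro g h
          rw [← ofAdd_add]
          congr 1
          have e : T (g * h) - T 1 = (T g - T 1) + (T h - T 1) := by
            have h1 := hT g h
            omega
          rw [e, Int.add_ediv_of_dvd_left (hdv g)] }
    have hθ : ∀ g, Multiplicative.toAdd (θ g) = (T g - T 1) / d := fun g => rfl
    have hθ0 : θ g0 = Multiplicative.ofAdd 1 := by
      show Multiplicative.ofAdd ((T g0 - T 1) / d) = Multiplicative.ofAdd 1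
      rw [hg0, Int.ediv_self hd.ne']
    have hsur : Function.Surjective θ := by
      intro n
      refine ⟨g0 ^ (Multiplicative.toAdd n), ?_⟩
      rw [map_zpow, hθ0, ← ofAdd_zsmul]
      simp
    obtain ⟨ι, hι, z, hz, m, ρ, hρ, C, hC, hs⟩ := slab_hnn hR θ hsur (fun B hB' hBf =>
      hB B (fun g hg => by
        have h1 : θ g = 1 := hB' hg
        have h2 : (T g - T 1) / d = 0 := by
          rw [← hθ, h1]
          rfl
        have h3 := hq g
        rw [h2] at h3
        omega) hBf)
    refine ⟨ι, hι, z, hz, m, ρ, hρ, d * C, mul_nonneg hd.le hC, fun a b y hy hys => ?_⟩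
    obtain ⟨c, hcy, hcs⟩ := hs (-((T 1 - a) / d)) ((b - T 1) / d) y hy (fun j g hg => by
      have h1 := hys j g hg
      have h2 := hq g
      show -((T 1 - a) / d) ≤ (T g - T 1) / d ∧ (T g - T 1) / d ≤ (b - T 1) / d
      constructor
      · have h3 : -((T g - T 1) / d) ≤ (T 1 - a) / d := by
          rw [Int.le_ediv_iff_mul_le hd]
          nlinarith
        omega
      · rw [Int.le_ediv_iff_mul_le hd]
        nlinarith)
    refine ⟨c, hcy, fun l g hg => ?_⟩
    have h1 : -((T 1 - a) / d) - C ≤ (T g - T 1) / d ∧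
      (T g - T 1) / d ≤ (b - T 1) / d + C := hcs l g hg
    have h2 := hq g
    have h3 : d * ((T 1 - a) / d) ≤ T 1 - a := Int.mul_ediv_self_le hd.ne'
    have h4 : d * ((b - T 1) / d) ≤ b - T 1 := Int.mul_ediv_self_le hd.ne'
    have h5 := mul_le_mul_of_nonneg_left h1.1 hd.le
    have h6 := mul_le_mul_of_nonneg_left h1.2 hd.le
    constructor
    · nlinarith
    · nlinarith

end Pool.Agent.RFR
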