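import Pool.Agent.RFR.SDefs

set_option autoImplicit false

/-! RFR-SNst (8.4): nested sets, combinatorics.

PLAN.  Pure logic of sets.  `Nst` is symmetric and does not change if one of the sets is replaced by its complement.
`nst_two`: `E` nested with `A` and `B`, which are not nested with each other: `E` is nested with `A ∩ B` and `A ∪ B`
(cases, see (8.4) in the paper proof).  `nst_one`: if `E` is nested with `A` then it is nested with `A ∩ B` or with `A ∪ B`. -/

namespace Pool.Agent.RFR

variable {V : Type}

private theorem snst_all {A B : Set V} : Nst A B ↔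
    (∀ x, ¬ (x ∈ A ∧ x ∈ B)) ∨ (∀ x, ¬ (x ∈ A ∧ ¬ x ∈ B)) ∨ (∀ x, ¬ (¬ x ∈ A ∧ x ∈ B)) ∨
      (∀ x, ¬ (¬ x ∈ A ∧ ¬ x ∈ B)) := by
  unfold Nst
  simp only [Set.eq_empty_iff_forall_notMem, Set.mem_inter_iff, Set.mem_compl_iff]

theorem nst_symm {A B : Set V} (h : Nst A B) : Nst B A := by
  rw [snst_all] at h ⊢
  rcases h with h | h | h | h
  · exact Or.inl fun x => by have := h x; tauto
  · exact Or.inr (Or.inr (Or.inl fun x => by have := h x; tauto))
  · exact Or.inr (Or.inl fun x => by have := h x; tauto)
  · exact Or.inr (Or.inr (Or.inr fun x => by have := h x; tauto))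

theorem nst_compl_left {A B : Set V} : Nst Aᶜ B ↔ Nst A B := by
  unfold Nst
  rw [compl_compl]
  tauto

theorem nst_compl_right {A B : Set V} : Nst A Bᶜ ↔ Nst A B := by
  unfold Nst
  rw [compl_compl]
  tauto

/-- the nested cases as inclusions -/
theorem nst_iff {A B : Set V} : Nst A B ↔ A ⊆ Bᶜ ∨ A ⊆ B ∨ B ⊆ A ∨ Bᶜ ⊆ A := by
  rw [snst_all]
  simp only [Set.subset_def, Set.mem_compl_iff]
  constructor
  · rintro (h | h | h | h)
    · exact Or.inl fun x => by have := h x; tauto
    · exact Or.inr (Or.inl fun x => by have := h x; tauto)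
    · exact Or.inr (Or.inr (Or.inl fun x => by have := h x; tauto))
    · exact Or.inr (Or.inr (Or.inr fun x => by have := h x; tauto))
  · rintro (h | h | h | h)
    · exact Or.inl fun x => by have := h x; tauto
    · exact Or.inr (Or.inl fun x => by have := h x; tauto)
    · exact Or.inr (Or.inr (Or.inl fun x => by have := h x; tauto))
    · exact Or.inr (Or.inr (Or.inr fun x => by have := h x; tauto))

theorem nst_self (A : Set V) : Nst A A := by
  rw [snst_all]
  exact Or.inr (Or.inl fun x => by tauto)

theorem nst_inter_left (A B : Set V) : Nst A (A ∩ B) := by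
  rw [snst_all]
  exact Or.inr (Or.inr (Or.inl fun x => by rw [Set.mem_inter_iff]; tauto))

theorem nst_union_left (A B : Set V) : Nst A (A ∪ B) := by
  rw [snst_all]
  exact Or.inr (Or.inl fun x => by rw [Set.mem_union]; tauto)

private theorem snst_int {A B E : Set V} (h : ¬ Nst A B) (hA : Nst E A) (hB : Nst E B) :
    Nst E (A ∩ B) := by
  rw [snst_all] at h hA hB ⊢
  simp only [Set.mem_inter_iff]
  rcases hA with hA | hA | hA | hA
  · exact Or.inl fun x => by have := hA x; tauto
  · rcases hB with hB | hB | hB | hB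
    · exact Or.inl fun x => by have := hB x; tauto
    · exact Or.inr (Or.inl fun x => by have := hA x; have := hB x; tauto)
    · exact Or.inr (Or.inr (Or.inl fun x => by have := hB x; tauto))
    · exact absurd (Or.inr (Or.inr (Or.inr fun x => by have := hA x; have := hB x; tauto))) h
  · exact Or.inr (Or.inr (Or.inl fun x => by have := hA x; tauto))
  · rcases hB with hB | hB | hB | hB
    · exact Or.inl fun x => by have := hB x; tauto
    · exact absurd (Or.inr (Or.inr (Or.inr fun x => by have := hA x; have := hB x; tauto))) h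
    · exact Or.inr (Or.inr (Or.inl fun x => by have := hB x; tauto))
    · exact Or.inr (Or.inr (Or.inr fun x => by have := hA x; have := hB x; tauto))

theorem nst_two {A B E : Set V} (h : ¬ Nst A B) (hA : Nst E A) (hB : Nst E B) :
    Nst E (A ∩ B) ∧ Nst E (A ∪ B) := by
  refine ⟨snst_int h hA hB, ?_⟩
  have h1 : ¬ Nst Aᶜ Bᶜ := fun h2 => h (nst_compl_left.1 (nst_compl_right.1 h2))
  have h2 := snst_int h1 (nst_compl_right.2 hA) (nst_compl_right.2 hB)
  rw [← Set.compl_union] at h2
  exact nst_compl_right.1 h2

theorem nst_one {A E : Set V} (B : Set V) (hA : Nst E A) : Nst E (A ∩ B) ∨ Nst E (A ∪ B) := by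
  simp only [snst_all] at hA ⊢
  simp only [Set.mem_inter_iff, Set.mem_union]
  rcases hA with hA | hA | hA | hA
  · exact Or.inl (Or.inl fun x => by have := hA x; tauto)
  · exact Or.inr (Or.inr (Or.inl fun x => by have := hA x; tauto))
  · exact Or.inl (Or.inr (Or.inr (Or.inl fun x => by have := hA x; tauto)))
  · exact Or.inr (Or.inr (Or.inr (Or.inr fun x => by have := hA x; tauto)))

end Pool.Agent.RFR
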