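import Pool.Agent.RFR.SMin
import Pool.Agent.RFR.SNst

set_option autoImplicit false

/-! RFR-SCor (8.4): opposite corners of non-nested minimal cuts; a minimal cut crosses finitely many.

PLAN.  `corner`: `A, B` minimal, not nested.  If `A ∩ B` and `(A ∪ B)ᶜ` are infinite, both have at least `k` edges (finite boundaries by `dE_inter`,
`dE_union`; `IsMinK`), with `dE_submod` both have exactly `k`.  Otherwise say `A ∩ B` is finite: then `A ∩ Bᶜ` is infinite (`A` is) and `Aᶜ ∩ B` is infinite (`B` is);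
if `(A ∪ B)ᶜ` is finite: `Aᶜ ∩ B` and `A ∩ Bᶜ` are infinite too; apply the first case to `A`, `Bᶜ`.
`fin_cross`: `A` minimal; let `F ⊆ S` be the finite set of the end points of the edges in `dl X A` and `P` a finite set of edges such that
every set `B` which separates two points of `F` has an edge of `P` in its boundary (`exists_path`, finitely many pairs).  If `B` is minimal and
separates no two points of `F`, say `F ⊆ Bᶜ` (else replace `B` by `Bᶜ`), then `B ∩ A` has no boundary in `B` (an edge of `dl X A` has both ends in `Bᶜ`), so by `minK_cn`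
`B ∩ A = ∅` or `B ⊆ A`: nested.  So the `B` not nested with `A` have an edge of `P` in the boundary: `fin_edge`. -/

namespace Pool.Agent.RFR

variable {S : Type} [Group S]

private theorem scor_aux {X : Finset S} {k : ℕ} (hk : IsMinK X k) {A B : Set S} (hA : KCut X k A)
    (hB : KCut X k B) (h1 : (A ∩ B).Infinite) (h2 : (A ∪ B)ᶜ.Infinite) :
    KCut X k (A ∩ B) ∧ KCut X k (A ∪ B) := by
  obtain ⟨a1, a2, a3, a4⟩ := hA
  obtain ⟨b1, b2, b3, b4⟩ := hB
  have f1 : (dl X (A ∩ B)).Finite := (a3.union b3).subset (dE_inter _ _ _ A B)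
  have f2 : (dl X (A ∪ B)).Finite := (a3.union b3).subset (dE_union _ _ _ A B)
  have s : (dl X (A ∩ B)).ncard + (dl X (A ∪ B)).ncard ≤ (dl X A).ncard + (dl X B).ncard :=
    dE_submod _ _ _ A B a3 b3
  have c1 : (A ∩ B)ᶜ.Infinite := a2.mono (Set.compl_subset_compl.2 Set.inter_subset_left)
  have c2 : (A ∪ B).Infinite := a1.mono Set.subset_union_left
  have k1 := hk _ _ (⟨h1, c1, f1, rfl⟩ : KCut X (dl X (A ∩ B)).ncard (A ∩ B))
  have k2 := hk _ _ (⟨c2, h2, f2, rfl⟩ : KCut X (dl X (A ∪ B)).ncard (A ∪ B))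
  rw [a4, b4] at s
  exact ⟨⟨h1, c1, f1, by omega⟩, ⟨c2, h2, f2, by omega⟩⟩

private theorem scor_inf {A B : Set S} (hA : A.Infinite) (h : ¬ (A ∩ B).Infinite) :
    (A ∩ Bᶜ).Infinite := by
  intro h1
  rw [Set.not_infinite] at h
  apply hA
  have h2 := h.union h1
  rwa [← Set.inter_union_distrib_left, Set.union_compl_self, Set.inter_univ] at h2

theorem corner {X : Finset S} {k : ℕ} (hk : IsMinK X k) {A B : Set S} (hA : KCut X k A)
    (hB : KCut X k B) (h : ¬ Nst A B) :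
    (KCut X k (A ∩ B) ∧ KCut X k (A ∪ B)) ∨ (KCut X k (A ∩ Bᶜ) ∧ KCut X k (A ∪ Bᶜ)) := by
  by_cases h1 : (A ∩ B).Infinite
  · by_cases h2 : (A ∪ B)ᶜ.Infinite
    · exact Or.inl (scor_aux hk hA hB h1 h2)
    · right
      rw [Set.compl_union] at h2
      have h3 : (Aᶜ ∩ Bᶜᶜ).Infinite := scor_inf hA.2.1 h2
      have h4 : (Bᶜ ∩ Aᶜᶜ).Infinite := scor_inf hB.2.1 (by rwa [Set.inter_comm])
      refine scor_aux hk hA (kcut_compl hB) ?_ ?_
      · rwa [compl_compl, Set.inter_comm] at h4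
      · rwa [Set.compl_union]
  · right
    have h3 : (A ∩ Bᶜ).Infinite := scor_inf hA.1 h1
    have h4 : (B ∩ Aᶜ).Infinite := scor_inf hB.1 (by rwa [Set.inter_comm])
    refine scor_aux hk hA (kcut_compl hB) h3 ?_
    rwa [Set.compl_union, compl_compl, Set.inter_comm]

private theorem scor_nst {X : Finset S} (hX : Subgroup.closure (X : Set S) = ⊤) {k : ℕ}
    (hk : IsMinK X k) {A B : Set S} (hB : KCut X k B)
    (hF : ∀ e ∈ dl X A, ¬ (e.1 ∈ B ∧ e.1 * e.2 ∈ B)) : Nst A B := by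
  have h1 := minK_cn hX hk hB (B ∩ A) Set.inter_subset_left (by
    intro e he h1 h2
    have h3 : e.1 ∈ A ↔ e.1 * e.2 ∈ A := by
      by_contra h4
      exact hF e ⟨he, h4⟩ ⟨h1, h2⟩
    exact ⟨fun h4 => ⟨h2, h3.1 h4.2⟩, fun h4 => ⟨h1, h3.2 h4.2⟩⟩)
  rw [nst_iff]
  rcases h1 with h1 | h1
  · left
    intro x hx hxB
    have h2 : x ∈ B ∩ A := ⟨hxB, hx⟩
    rw [h1] at h2
    exact h2
  · right
    right
    left
    intro x hx
    rw [← h1] at hx
    exact hx.2

theorem fin_cross {X : Finset S} (hX : Subgroup.closure (X : Set S) = ⊤) {k : ℕ}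
    (hk : IsMinK X k) {A : Set S} (hA : KCut X k A) : {B | KCut X k B ∧ ¬ Nst A B}.Finite := by
  have hF : ((fun e : S × S => e.1) '' dl X A ∪ (fun e : S × S => e.1 * e.2) '' dl X A).Finite :=
    (hA.2.2.1.image _).union (hA.2.2.1.image _)
  refine (hF.biUnion fun p _ => hF.biUnion fun q _ => fin_sep hX hk p q).subset ?_
  rintro B ⟨hB, hn⟩
  have h1 : ∃ e ∈ dl X A, e.1 ∈ B ∧ e.1 * e.2 ∈ B := by
    by_contra h2
    push Not at h2
    exact hn (scor_nst hX hk hB fun e he h3 => h2 e he h3.1 h3.2)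
  have h2 : ∃ e ∈ dl X A, e.1 ∈ Bᶜ ∧ e.1 * e.2 ∈ Bᶜ := by
    by_contra h3
    push Not at h3
    exact hn (nst_compl_right.1 (scor_nst hX hk (kcut_compl hB) fun e he h4 =>
      h3 e he h4.1 h4.2))
  obtain ⟨e, he, he1, -⟩ := h1
  obtain ⟨f, hf, hf1, -⟩ := h2
  rw [Set.mem_iUnion₂]
  refine ⟨e.1, Or.inl ⟨e, he, rfl⟩, ?_⟩
  rw [Set.mem_iUnion₂]
  exact ⟨f.1, Or.inl ⟨f, hf, rfl⟩, hB, he1, hf1⟩

end Pool.Agent.RFR
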