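import Pool.Agent.RFR.SDefs

set_option autoImplicit false

/-! RFR-SFin (8.3): in a connected multigraph there are finitely many sets `A` with `A` and its complement
connected, with `k` boundary edges, one of which is a given edge `e`. Induction on `k`: remove the edge `e`. -/

namespace Pool.Agent.RFR

theorem exists_path {V Ed : Type} (s t : Ed → V) (U : Set Ed) (hU : Con s t U Set.univ) (p q : V) :
    ∃ P : Set Ed, P.Finite ∧ P ⊆ U ∧ ∀ A : Set V, ¬ (p ∈ A ↔ q ∈ A) → (dE s t P A).Nonempty := by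
  have h := hU {q | ∃ P : Set Ed, P.Finite ∧ P ⊆ U ∧
    ∀ A : Set V, ¬ (p ∈ A ↔ q ∈ A) → (dE s t P A).Nonempty} (Set.subset_univ _) ?_
  · rcases h with h | h
    · exfalso
      have h1 : p ∈ ({q | ∃ P : Set Ed, P.Finite ∧ P ⊆ U ∧
          ∀ A : Set V, ¬ (p ∈ A ↔ q ∈ A) → (dE s t P A).Nonempty} : Set V) :=
        ⟨∅, Set.finite_empty, Set.empty_subset _, fun A hA => absurd Iff.rfl hA⟩
      rw [h] at h1
      exact h1
    · have h1 : q ∈ (Set.univ : Set V) := Set.mem_univ q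
      rw [← h] at h1
      exact h1
  · intro e he _ _
    have key : ∀ x y : V, (∀ A : Set V, ¬ (x ∈ A ↔ y ∈ A) → ¬ (s e ∈ A ↔ t e ∈ A)) →
        (∃ P : Set Ed, P.Finite ∧ P ⊆ U ∧
          ∀ A : Set V, ¬ (p ∈ A ↔ x ∈ A) → (dE s t P A).Nonempty) →
        ∃ P : Set Ed, P.Finite ∧ P ⊆ U ∧
          ∀ A : Set V, ¬ (p ∈ A ↔ y ∈ A) → (dE s t P A).Nonempty := by
      rintro x y hxy ⟨P, h1, h2, h3⟩
      refine ⟨insert e P, h1.insert e, Set.insert_subset he h2, fun A hA => ?_⟩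
      by_cases h4 : p ∈ A ↔ x ∈ A
      · exact ⟨e, Set.mem_insert _ _, hxy A fun h5 => hA (h4.trans h5)⟩
      · obtain ⟨f, hf, hf'⟩ := h3 A h4
        exact ⟨f, Set.mem_insert_of_mem _ hf, hf'⟩
    constructor
    · exact key (s e) (t e) (fun A h => h)
    · exact key (t e) (s e) (fun A h h' => h h'.symm)

private lemma sfin_con {V Ed : Type} {s t : Ed → V} {U : Set Ed} {e : Ed} {A : Set V}
    (h : Con s t U A) (he : s e ∈ A → t e ∈ A → False) : Con s t (U \ {e}) A := by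
  intro B hB hc
  refine h B hB fun f hf h1 h2 => ?_
  by_cases hfe : f = e
  · subst hfe
    exact absurd h2 (he h1)
  · exact hc f ⟨hf, hfe⟩ h1 h2

private lemma sfin_cut {V Ed : Type} {s t : Ed → V} {U : Set Ed} {A B : Set V}
    (h : Con s t U A) (hB : ∀ f ∈ U, (s f ∈ B ↔ t f ∈ B)) : B ∩ A = ∅ ∨ B ∩ A = A := by
  refine h (B ∩ A) Set.inter_subset_right fun f hf h1 h2 => ?_
  rw [Set.mem_inter_iff, Set.mem_inter_iff, hB f hf]
  exact ⟨fun h3 => ⟨h3.1, h2⟩, fun h3 => ⟨h3.1, h1⟩⟩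

theorem fin_tight {V Ed : Type} (s t : Ed → V) (k : ℕ) (U : Set Ed) (hU : Con s t U Set.univ)
    (e : Ed) :
    {A : Set V | e ∈ dE s t U A ∧ (dE s t U A).Finite ∧ (dE s t U A).ncard = k ∧
      Con s t U A ∧ Con s t U Aᶜ}.Finite := by
  induction k generalizing U e with
  | zero =>
    refine Set.finite_empty.subset ?_
    rintro A ⟨h1, h2, h3, -⟩
    rw [(Set.ncard_eq_zero h2).1 h3] at h1
    exact h1
  | succ k ih =>
    have hA : ∀ A ∈ {A : Set V | e ∈ dE s t U A ∧ (dE s t U A).Finite ∧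
        (dE s t U A).ncard = k + 1 ∧ Con s t U A ∧ Con s t U Aᶜ},
        ¬ (s e ∈ A ↔ t e ∈ A) ∧ (dE s t (U \ {e}) A).Finite ∧
          (dE s t (U \ {e}) A).ncard = k ∧ Con s t (U \ {e}) A ∧ Con s t (U \ {e}) Aᶜ := by
      rintro A ⟨h1, h2, h3, h4, h5⟩
      have h6 : dE s t (U \ {e}) A = dE s t U A \ {e} := by
        ext f
        constructor
        · rintro ⟨⟨h7, h8⟩, h9⟩
          exact ⟨⟨h7, h9⟩, h8⟩
        · rintro ⟨⟨h7, h8⟩, h9⟩
          exact ⟨⟨h7, h9⟩, h8⟩
      refine ⟨h1.2, ?_, ?_, ?_, ?_⟩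
      · rw [h6]
        exact h2.subset Set.sdiff_subset
      · rw [h6, Set.ncard_sdiff_singleton_of_mem h1, h3]
        rfl
      · exact sfin_con h4 fun h7 h8 => h1.2 ⟨fun _ => h8, fun _ => h7⟩
      · exact sfin_con h5 fun h7 h8 => h1.2 ⟨fun h9 => absurd h9 h7, fun h9 => absurd h9 h8⟩
    by_cases hc : Con s t (U \ {e}) Set.univ
    · obtain ⟨P, hP, hPU, hPA⟩ := exists_path s t (U \ {e}) hc (s e) (t e)
      refine (hP.biUnion fun f _ => ih (U \ {e}) hc f).subset ?_
      intro A hAA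
      obtain ⟨h1, h2, h3, h4, h5⟩ := hA A hAA
      obtain ⟨f, hf, hf'⟩ := hPA A h1
      rw [Set.mem_iUnion₂]
      exact ⟨f, hf, ⟨hPU hf, hf'⟩, h2, h3, h4, h5⟩
    · unfold Con at hc
      push Not at hc
      obtain ⟨B, -, hB, hB1, hB2⟩ := hc
      have hB' : ∀ f ∈ U \ {e}, (s f ∈ B ↔ t f ∈ B) := fun f hf =>
        hB f hf (Set.mem_univ _) (Set.mem_univ _)
      refine (Set.toFinite {B, Bᶜ}).subset ?_
      intro A hAA
      obtain ⟨-, -, -, h4, h5⟩ := hA A hAA
      rcases sfin_cut h4 hB' with h6 | h6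
      · rcases sfin_cut h5 hB' with h7 | h7
        · exfalso
          apply hB1.ne_empty
          rw [← Set.inter_union_compl B A, h6, h7, Set.empty_union]
        · right
          have h8 : B = Aᶜ := by
            rw [← Set.inter_union_compl B A, h6, h7, Set.empty_union]
          change A = Bᶜ
          rw [h8, compl_compl]
      · rcases sfin_cut h5 hB' with h7 | h7
        · left
          rw [← Set.inter_union_compl B A, h6, h7, Set.union_empty]
        · exfalso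
          apply hB2
          rw [← Set.inter_union_compl B A, h6, h7, Set.union_compl_self]

end Pool.Agent.RFR
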