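import Pool.Agent.RFR.SInt

set_option autoImplicit false

/-! RFR-SGen (8.7): generation by the elements which move an edge to an adjacent edge. -/

namespace Pool.Agent.RFR

open scoped Pointwise

variable {S : Type} [Group S]

private theorem sgen_compl (C : Set S) (d : Bool) : (sgn C d)ᶜ = sgn C (!d) := by
  cases d
  · simp [sgn]
  · simp [sgn]

private theorem sgen_step {X : Finset S} (hX : Subgroup.closure (X : Set S) = ⊤) {k : ℕ}
    (hk : IsMinK X k) {C : Set S} (hC : KCut X k C)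
    (htf : ∀ (g : S) (n : ℕ), 0 < n → g ^ n = 1 → g = 1) (n : ℕ) :
    ∀ (g : S) (b c : Bool), g • sgn C b ⊆ sgn C c →
      {A | A ∈ Orb C ∧ g • sgn C b ⊆ A ∧ A ⊆ sgn C c}.ncard ≤ n →
      g ∈ Subgroup.closure {g : S | ∃ b c : Bool, Star (Orb C) (g • sgn C b) (sgn C c)} := by
  have hmem : ∀ (g : S) (b : Bool), g • sgn C b ∈ Orb C := fun g b => ⟨g, b, rfl⟩
  have hmem1 : ∀ b : Bool, sgn C b ∈ Orb C := fun b => ⟨1, b, (one_smul S _).symm⟩
  induction n with
  | zero =>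
    intro g b c hgc hn
    have hfin : {A | A ∈ Orb C ∧ g • sgn C b ⊆ A ∧ A ⊆ sgn C c}.Finite :=
      orb_fin hX hk hC (hmem g b) (hmem1 c)
    have h0 : {A | A ∈ Orb C ∧ g • sgn C b ⊆ A ∧ A ⊆ sgn C c} = ∅ := by
      rw [← Set.ncard_eq_zero hfin]
      omega
    have h1 : sgn C c ∈ {A | A ∈ Orb C ∧ g • sgn C b ⊆ A ∧ A ⊆ sgn C c} :=
      ⟨hmem1 c, hgc, Set.Subset.refl _⟩
    rw [h0] at h1
    exact h1.elim
  | succ n ih =>
    intro g b c hgc hn
    by_cases heq : g • sgn C b = sgn C c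
    · have h1 : g • sgn C b = (1 : S) • sgn C c := by rw [one_smul]; exact heq
      rw [(smul_sgn_inj hX hC htf h1).1]
      exact Subgroup.one_mem _
    have hfin : {A | A ∈ Orb C ∧ g • sgn C b ⊆ A ∧ A ⊆ sgn C c}.Finite :=
      orb_fin hX hk hC (hmem g b) (hmem1 c)
    have hfin' : {A | (A ∈ Orb C ∧ g • sgn C b ⊆ A ∧ A ⊆ sgn C c) ∧ A ≠ sgn C c}.Finite :=
      hfin.subset fun A hA => hA.1
    have hne : {A | (A ∈ Orb C ∧ g • sgn C b ⊆ A ∧ A ⊆ sgn C c) ∧ A ≠ sgn C c}.Nonempty :=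
      ⟨g • sgn C b, ⟨hmem g b, Set.Subset.refl _, hgc⟩, heq⟩
    obtain ⟨F, hF, hmax⟩ := hfin'.exists_maximal hne
    obtain ⟨⟨hFO, hgF, hFc⟩, hFne⟩ := hF
    obtain ⟨h, d, hFd⟩ := hFO
    have hh : h ∈ Subgroup.closure
        {g : S | ∃ b c : Bool, Star (Orb C) (g • sgn C b) (sgn C c)} := by
      apply Subgroup.subset_closure
      refine ⟨!d, c, Or.inr ?_⟩
      have hcF : (h • sgn C (!d))ᶜ = F := by
        rw [← sgen_compl C d, Set.smul_set_compl, compl_compl, hFd]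
      rw [hcF]
      refine ⟨hFc, hFne, fun Y hY hFY hYc => ?_⟩
      by_cases hYe : Y = sgn C c
      · exact Or.inr hYe
      · left
        have h1 : Y ≤ F := hmax ⟨⟨hY, hgF.trans hFY, hYc⟩, hYe⟩ hFY
        exact Set.Subset.antisymm h1 hFY
    have hsub : (h⁻¹ * g) • sgn C b ⊆ sgn C d := by
      rw [mul_smul, Set.smul_set_subset_iff_subset_inv_smul_set, inv_inv, ← hFd]
      exact hgF
    have hinj : Set.InjOn (fun A : Set S => h • A)
        {A | A ∈ Orb C ∧ (h⁻¹ * g) • sgn C b ⊆ A ∧ A ⊆ sgn C d} :=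
      fun A _ B _ hAB => smul_left_cancel h hAB
    have himg : (fun A : Set S => h • A) ''
        {A | A ∈ Orb C ∧ (h⁻¹ * g) • sgn C b ⊆ A ∧ A ⊆ sgn C d} ⊆
        {A | A ∈ Orb C ∧ g • sgn C b ⊆ A ∧ A ⊆ sgn C c} \ {sgn C c} := by
      rintro _ ⟨A, ⟨⟨g', b', hA'⟩, hgA, hAd⟩, rfl⟩
      have hAF : h • A ⊆ F := by
        rw [hFd]
        exact Set.smul_set_mono hAd
      refine ⟨⟨⟨h * g', b', ?_⟩, ?_, hAF.trans hFc⟩, ?_⟩
      · change h • A = (h * g') • sgn C b'
        rw [mul_smul, hA']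
      · have h1 : h • ((h⁻¹ * g) • sgn C b) ⊆ h • A := Set.smul_set_mono hgA
        rw [← mul_smul, mul_inv_cancel_left] at h1
        exact h1
      · intro he
        have he' : h • A = sgn C c := he
        apply hFne
        apply Set.Subset.antisymm hFc
        rw [← he']
        exact hAF
    have hcard : {A | A ∈ Orb C ∧ (h⁻¹ * g) • sgn C b ⊆ A ∧ A ⊆ sgn C d}.ncard ≤ n := by
      rw [← Set.ncard_image_of_injOn hinj]
      have h1 := Set.ncard_le_ncard himg (hfin.subset Set.diff_subset)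
      have h2 : ({A | A ∈ Orb C ∧ g • sgn C b ⊆ A ∧ A ⊆ sgn C c} \ {sgn C c}).ncard + 1 =
          {A | A ∈ Orb C ∧ g • sgn C b ⊆ A ∧ A ⊆ sgn C c}.ncard :=
        Set.ncard_diff_singleton_add_one ⟨hmem1 c, hgc, Set.Subset.refl _⟩ hfin
      omega
    have h3 := ih (h⁻¹ * g) b d hsub hcard
    have h4 := Subgroup.mul_mem _ hh h3
    rw [mul_inv_cancel_left] at h4
    exact h4

theorem star_gen {X : Finset S} (hX : Subgroup.closure (X : Set S) = ⊤) {k : ℕ}
    (hk : IsMinK X k) {C : Set S} (hC : KCut X k C)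
    (htf : ∀ (g : S) (n : ℕ), 0 < n → g ^ n = 1 → g = 1) (hn : ∀ g : S, Nst C (g • C)) :
    Subgroup.closure {g : S | ∃ b c : Bool, Star (Orb C) (g • sgn C b) (sgn C c)} = ⊤ := by
  rw [Subgroup.eq_top_iff']
  intro g
  have htrue : sgn C true = C := by simp [sgn]
  have hfalse : sgn C false = Cᶜ := by simp [sgn]
  have key : ∃ b c : Bool, g • sgn C b ⊆ sgn C c := by
    rcases nst_iff.1 (hn g) with h | h | h | h
    · refine ⟨true, false, ?_⟩
      rw [htrue, hfalse]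
      exact Set.subset_compl_comm.1 h
    · refine ⟨false, false, ?_⟩
      rw [hfalse, Set.smul_set_compl]
      exact Set.compl_subset_compl.2 h
    · refine ⟨true, true, ?_⟩
      rw [htrue]
      exact h
    · refine ⟨false, true, ?_⟩
      rw [hfalse, htrue, Set.smul_set_compl]
      exact h
  obtain ⟨b, c, h⟩ := key
  exact sgen_step hX hk hC htf _ g b c h le_rfl

end Pool.Agent.RFR
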