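import Pool.Agent.RFR.SNst

set_option autoImplicit false

/-! RFR-SStar (8.6): the relation `Star` of a nested family is an equivalence relation.

PLAN.  See (8.6) of the paper proof; pure logic of sets, with `nst_iff`.  `star_symm`: take complements.
`star_trans`: `D ~ F ~ G`, all different. -/

namespace Pool.Agent.RFR

variable {V : Type} {EE : Set (Set V)}

theorem star_symm (hE : NFam EE) {D F : Set V} (hD : D ∈ EE) (hF : F ∈ EE) (h : Star EE D F) :
    Star EE F D := by
  have _ := hD
  have _ := hF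
  rcases h with h | ⟨h1, h2, h3⟩
  · exact Or.inl h.symm
  · refine Or.inr ⟨Set.compl_subset_comm.1 h1, fun h => h2 ?_, fun X hX h4 h5 => ?_⟩
    · rw [← h, compl_compl]
    · rcases h3 Xᶜ (hE.compl X hX) (Set.compl_subset_compl.2 h5)
        (Set.compl_subset_comm.1 h4) with h6 | h6
      · exact Or.inr (compl_injective h6)
      · left
        rw [← h6, compl_compl]

private theorem sstar_false (hE : NFam EE) {A B : Set V} (hA : A ∈ EE) (h1 : A ⊆ B)
    (h2 : A ⊆ Bᶜ) : False := by
  apply hE.ne A hA
  rw [Set.eq_empty_iff_forall_notMem]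
  exact fun x hx => h2 hx (h1 hx)

theorem star_trans (hE : NFam EE) {D F G : Set V} (hD : D ∈ EE) (hF : F ∈ EE) (hG : G ∈ EE)
    (h1 : Star EE D F) (h2 : Star EE F G) : Star EE D G := by
  have h1' := star_symm hE hD hF h1
  have hDc := hE.compl D hD
  have hFc := hE.compl F hF
  have hGc := hE.compl G hG
  rcases h1 with h1 | ⟨a1, a2, a3⟩
  · rw [h1]; exact h2
  rcases h1' with h1' | ⟨b1, b2, b3⟩
  · rw [← h1']; exact h2
  rcases h2 with h2 | ⟨c1, c2, c3⟩
  · rw [← h2]; exact Or.inr ⟨a1, a2, a3⟩
  by_cases hDG : D = G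
  · exact Or.inl hDG
  right
  rcases nst_iff.1 (hE.nst D hD G hG) with h | h | h | h
  · exact (sstar_false hE hFc c1 (b1.trans h)).elim
  · rcases c3 D hD b1 h with h | h
    · exact absurd h.symm b2
    · exact absurd h hDG
  · rcases b3 G hG c1 h with h | h
    · exact absurd h.symm c2
    · exact absurd h.symm hDG
  · have hFG : ¬ F ⊆ G := fun h4 =>
      sstar_false hE hGc (Set.compl_subset_comm.1 c1) (Set.compl_subset_compl.2 h4)
    refine ⟨Set.compl_subset_comm.1 h, fun h3 => ?_, fun X hX h4 h5 => ?_⟩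
    · exact sstar_false hE hFc b1 (h3 ▸ c1)
    · rcases nst_iff.1 (hE.nst X hX F hF) with h6 | h6 | h6 | h6
      · exact (sstar_false hE hDc a1 (h4.trans h6)).elim
      · rcases a3 X hX h4 h6 with h7 | h7
        · exact Or.inl h7
        · exact absurd (h7 ▸ h5) hFG
      · exact absurd (h6.trans h5) hFG
      · rcases c3 X hX h6 h5 with h7 | h7
        · exact (sstar_false hE hDc a1 (h7 ▸ h4)).elim
        · exact Or.inr h7

/-- the complements of different members of a class are disjoint -/
theorem star_disj {D F : Set V} (h : Star EE D F) (hne : D ≠ F) : Dᶜ ∩ Fᶜ = ∅ := by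
  rcases h with h | ⟨h1, _, _⟩
  · exact absurd h hne
  · rw [Set.eq_empty_iff_forall_notMem]
    exact fun x hx => hx.2 (h1 hx.1)

end Pool.Agent.RFR
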