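import Pool.Agent.RFR.SOpt
import Pool.Agent.RFR.SStar

set_option autoImplicit false

/-! RFR-SInt (8.5): the family of the translates of an optimal cut of a torsion free group.

PLAN.  `stab_one`: `g • C = C` then `g` permutes the finite nonempty set `dl X C` (`dl_smul`, `dl X C` nonempty by `cn_univ`), so a power `g ^ n`, `n > 0`, fixes
an edge `(h, x)`: `g ^ n * h = h`.  `no_inv`: `g • C = Cᶜ` then `g ^ 2 • C = C`.  `orb_nfam`: `sgn`, `nst_compl_left`, `nst_compl_right`, `Nst` is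
invariant under `g •`.  `orb_fin`: choose `p ∈ D`, `q ∉ F` (`F` is the translate of a cut or of its complement, so `Fᶜ` is nonempty); all members of `Orb C` are minimal cuts: `fin_sep`.
`star_smul`: `Orb C` is invariant. -/

namespace Pool.Agent.RFR

open scoped Pointwise

variable {S : Type} [Group S]

private theorem SInt_dl_ne {X : Finset S} (hX : Subgroup.closure (X : Set S) = ⊤) {k : ℕ}
    {C : Set S} (hC : KCut X k C) : (dl X C).Nonempty := by
  by_contra h
  rw [Set.not_nonempty_iff_eq_empty] at h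
  have h1 := cn_univ hX C (Set.subset_univ _) (fun e he _ _ => by
    by_contra h2
    have h3 : e ∈ dl X C := ⟨he, h2⟩
    rw [h] at h3
    exact h3)
  rcases h1 with h1 | h1
  · exact hC.1.nonempty.ne_empty h1
  · apply hC.2.1.nonempty.ne_empty
    rw [h1, Set.compl_univ]

theorem stab_one {X : Finset S} (hX : Subgroup.closure (X : Set S) = ⊤) {k : ℕ} {C : Set S}
    (hC : KCut X k C) (htf : ∀ (g : S) (n : ℕ), 0 < n → g ^ n = 1 → g = 1) {g : S}
    (h : g • C = C) : g = 1 := by
  obtain ⟨e, he⟩ := SInt_dl_ne hX hC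
  have key : ∀ n : ℕ, ((g ^ n * e.1, e.2) : S × S) ∈ dl X C := by
    intro n
    induction n with
    | zero =>
      rw [pow_zero, one_mul]
      exact he
    | succ n ih =>
      have h1 : ((g * (g ^ n * e.1), e.2) : S × S) ∈ dl X (g • C) := by
        rw [dl_smul]
        exact ⟨_, ih, rfl⟩
      rw [h, ← mul_assoc, ← pow_succ'] at h1
      exact h1
  obtain ⟨m, n, hmn, heq⟩ := Set.Finite.exists_lt_map_eq_of_forall_mem key hC.2.2.1
  have h1 : g ^ m * e.1 = g ^ n * e.1 := congrArg Prod.fst heq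
  have h2 : g ^ m = g ^ n := mul_right_cancel h1
  refine htf g (n - m) (Nat.sub_pos_of_lt hmn) ?_
  have h3 : g ^ m * g ^ (n - m) = g ^ m * 1 := by
    rw [← pow_add, Nat.add_sub_cancel' hmn.le, mul_one, h2]
  exact mul_left_cancel h3

theorem no_inv {X : Finset S} (hX : Subgroup.closure (X : Set S) = ⊤) {k : ℕ} {C : Set S}
    (hC : KCut X k C) (htf : ∀ (g : S) (n : ℕ), 0 < n → g ^ n = 1 → g = 1) (g : S) :
    g • C ≠ Cᶜ := by
  intro h
  have h1 : (g ^ 2) • C = C := by
    rw [pow_two, mul_smul, h, Set.smul_set_compl, h, compl_compl]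
  have h2 : g ^ 2 = 1 := stab_one hX hC htf h1
  have h3 : g = 1 := htf g 2 (by norm_num) h2
  rw [h3, one_smul] at h
  obtain ⟨x, hx⟩ := hC.1.nonempty
  have h4 : x ∈ Cᶜ := by
    rw [← h]
    exact hx
  exact h4 hx

/-- a translate of `C` or `Cᶜ` determines the group element and the sign -/
theorem smul_sgn_inj {X : Finset S} (hX : Subgroup.closure (X : Set S) = ⊤) {k : ℕ} {C : Set S}
    (hC : KCut X k C) (htf : ∀ (g : S) (n : ℕ), 0 < n → g ^ n = 1 → g = 1) {g h : S} {b c : Bool}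
    (he : g • sgn C b = h • sgn C c) : g = h ∧ b = c := by
  have h1 : (h⁻¹ * g) • sgn C b = sgn C c := by
    rw [mul_smul, he, inv_smul_smul]
  have h2 : h⁻¹ * g = 1 → g = h := fun h3 => (inv_mul_eq_one.1 h3).symm
  cases b <;> cases c
  · have h3 : (h⁻¹ * g) • Cᶜ = Cᶜ := h1
    rw [Set.smul_set_compl, compl_inj_iff] at h3
    exact ⟨h2 (stab_one hX hC htf h3), rfl⟩
  · have h3 : (h⁻¹ * g) • Cᶜ = C := h1
    rw [Set.smul_set_compl] at h3
    exact absurd (compl_eq_comm.1 h3).symm (no_inv hX hC htf (h⁻¹ * g))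
  · have h3 : (h⁻¹ * g) • C = Cᶜ := h1
    exact absurd h3 (no_inv hX hC htf _)
  · have h3 : (h⁻¹ * g) • C = C := h1
    exact ⟨h2 (stab_one hX hC htf h3), rfl⟩

omit [Group S] in
private theorem SInt_sgn_compl (C : Set S) (b : Bool) : (sgn C b)ᶜ = sgn C (!b) := by
  cases b
  · exact compl_compl C
  · rfl

private theorem SInt_orb_smul {C A : Set S} (hA : A ∈ Orb C) (g : S) : g • A ∈ Orb C := by
  obtain ⟨h, b, rfl⟩ := hA
  exact ⟨g * h, b, (mul_smul _ _ _).symm⟩

private theorem SInt_orb_compl {C A : Set S} (hA : A ∈ Orb C) : Aᶜ ∈ Orb C := by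
  obtain ⟨h, b, rfl⟩ := hA
  exact ⟨h, !b, by rw [← SInt_sgn_compl, Set.smul_set_compl]⟩

private theorem SInt_kcut {X : Finset S} {k : ℕ} {C A : Set S} (hC : KCut X k C)
    (hA : A ∈ Orb C) : KCut X k A := by
  obtain ⟨h, b, rfl⟩ := hA
  apply kcut_smul
  cases b
  · exact kcut_compl hC
  · exact hC

private theorem SInt_nst_smul {A B : Set S} (h : Nst A B) (g : S) : Nst (g • A) (g • B) := by
  rw [nst_iff] at h ⊢
  rcases h with h | h | h | h
  · left
    rw [← Set.smul_set_compl]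
    exact Set.smul_set_mono h
  · right; left
    exact Set.smul_set_mono h
  · right; right; left
    exact Set.smul_set_mono h
  · right; right; right
    rw [← Set.smul_set_compl]
    exact Set.smul_set_mono h

theorem orb_nfam {X : Finset S} {k : ℕ} {C : Set S} (hC : KCut X k C)
    (hn : ∀ g : S, Nst C (g • C)) : NFam (Orb C) := by
  refine ⟨fun A hA => SInt_orb_compl hA, fun A hA => (SInt_kcut hC hA).1.nonempty.ne_empty, ?_⟩
  rintro A ⟨g, b, rfl⟩ B ⟨h, c, rfl⟩
  have h1 : Nst (sgn C b) ((g⁻¹ * h) • sgn C c) := by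
    have h2 := hn (g⁻¹ * h)
    have h3 : Nst (sgn C b) ((g⁻¹ * h) • C) := by
      cases b
      · exact nst_compl_left.2 h2
      · exact h2
    cases c
    · show Nst (sgn C b) ((g⁻¹ * h) • Cᶜ)
      rw [Set.smul_set_compl]
      exact nst_compl_right.2 h3
    · exact h3
  have h4 := SInt_nst_smul h1 g
  rwa [← mul_smul, mul_inv_cancel_left] at h4

theorem orb_fin {X : Finset S} (hX : Subgroup.closure (X : Set S) = ⊤) {k : ℕ} (hk : IsMinK X k)
    {C : Set S} (hC : KCut X k C) {D F : Set S} (hD : D ∈ Orb C) (hF : F ∈ Orb C) :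
    {A | A ∈ Orb C ∧ D ⊆ A ∧ A ⊆ F}.Finite := by
  obtain ⟨p, hp⟩ := (SInt_kcut hC hD).1.nonempty
  obtain ⟨q, hq⟩ := (SInt_kcut hC hF).2.1.nonempty
  refine (fin_sep hX hk p q).subset ?_
  rintro A ⟨h1, h2, h3⟩
  exact ⟨SInt_kcut hC h1, h2 hp, fun h4 => hq (h3 h4)⟩

theorem star_smul {C : Set S} {D F : Set S} (h : Star (Orb C) D F) (g : S) :
    Star (Orb C) (g • D) (g • F) := by
  rcases h with h | ⟨h1, h2, h3⟩
  · left
    rw [h]
  · right
    rw [← Set.smul_set_compl]
    refine ⟨Set.smul_set_mono h1, fun h4 => h2 (smul_left_cancel g h4), ?_⟩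
    intro X hX h4 h5
    have h6 := h3 (g⁻¹ • X) (SInt_orb_smul hX g⁻¹) ?_ ?_
    · rcases h6 with h6 | h6
      · left
        rw [← h6, smul_inv_smul]
      · right
        rw [← h6, smul_inv_smul]
    · have h7 := Set.smul_set_mono (a := g⁻¹) h4
      rwa [inv_smul_smul] at h7
    · have h7 := Set.smul_set_mono (a := g⁻¹) h5
      rwa [inv_smul_smul] at h7

end Pool.Agent.RFR
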