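import Pool.Agent.RFR.SGen

set_option autoImplicit false

/-! RFR-SLoop (8.8), case 2: `t • Cᶜ ~ C`: `S` is cyclic or a free product with an infinite cyclic factor.

PLAN.  `A = {g | g • C ~ C}`, `B = zpowers t`.  `t • Cᶜ ≠ C` (`no_inv`), so `t • C ⊂ C` (properly: `t • C ≠ C` by `stab_one`, `t ≠ 1`).  Generation: `g • Cᶜ ~ C` gives `g * t⁻¹ ∈ A`;
`g • C ~ Cᶜ`: `t * g ∈ A`; `g • Cᶜ ~ Cᶜ`: `t * g * t⁻¹ ∈ A`.  If `A = ⊥` then `S = zpowers t`.  Otherwise `Monoid.CoprodI.lift_injective_of_ping_pong`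
with `X true = C \ t • C` (for `A`), `X false = Cᶜ ∪ t • C` (for `zpowers t`): for `n ≠ 0` we have `t ^ n • (C \ t • C) ⊆ Cᶜ ∪ t • C` (`n ≥ 1`: `⊆ t • C`; `n ≤ -1`: disjoint from
`t ^ (n+1) • C ⊇ C`).  For `a ∈ A`, `a ≠ 1`: the sets `C, t • Cᶜ, a • C, a • t • Cᶜ` are in one class and different (`smul_sgn_inj`), so their complements `Cᶜ, t • C, a • Cᶜ, a • t • C` are
disjoint (`star_disj`): `a • (Cᶜ ∪ t • C) ⊆ C \ t • C`.  `X true` is nonempty because it contains `a • Cᶜ`.  `3 ≤ #(zpowers t)`: `t` has infinite order. -/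

namespace Pool.Agent.RFR

open scoped Pointwise

variable {S : Type} [Group S]

private theorem sloop_three {A : Subgroup S} (hA : A ≠ ⊥)
    (htf : ∀ (g : S) (n : ℕ), 0 < n → g ^ n = 1 → g = 1) : 3 ≤ Cardinal.mk A := by
  obtain ⟨a, ha, ha1⟩ : ∃ a ∈ A, a ≠ 1 := by
    by_contra h
    push Not at h
    exact hA ((Subgroup.eq_bot_iff_forall A).2 h)
  have hinj : Function.Injective (fun n : ℕ => (⟨a ^ n, A.pow_mem ha n⟩ : A)) := by
    have key : ∀ m n : ℕ, m < n → a ^ m ≠ a ^ n := by
      intro m n hmn h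
      obtain ⟨d, rfl⟩ := Nat.exists_eq_add_of_lt hmn
      have h1 : a ^ (d + 1) = 1 := by
        rw [add_assoc, pow_add] at h
        exact (mul_eq_left.1 h.symm)
      exact ha1 (htf a (d + 1) (Nat.succ_pos d) h1)
    intro m n h
    have h1 : a ^ m = a ^ n := congrArg Subtype.val h
    rcases lt_trichotomy m n with h2 | h2 | h2
    · exact absurd h1 (key m n h2)
    · exact h2
    · exact absurd h1.symm (key n m h2)
  have hinf : Infinite A := Infinite.of_injective _ hinj
  have h1 : Cardinal.aleph0 ≤ Cardinal.mk A := Cardinal.aleph0_le_mk A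
  have h2 : (3 : Cardinal) ≤ Cardinal.aleph0 := by
    have h3 := (Cardinal.natCast_lt_aleph0 (n := 3)).le
    exact_mod_cast h3
  exact h2.trans h1

private theorem sloop_sub {C D : Set S} (hE : NFam (Orb C)) (hD : ∀ g : S, g • D ∈ Orb C) :
    ∃ A : Subgroup S, ∀ g, g ∈ A ↔ Star (Orb C) (g • D) D := by
  have hD1 : D ∈ Orb C := by
    have h := hD 1
    rwa [one_smul] at h
  have hmul : ∀ g h : S, Star (Orb C) (g • D) D → Star (Orb C) (h • D) D →
      Star (Orb C) ((g * h) • D) D := by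
    intro g h hg hh
    have h1 := star_smul hh g
    rw [← mul_smul] at h1
    exact star_trans hE (hD _) (hD _) hD1 h1 hg
  have hone : Star (Orb C) ((1 : S) • D) D := Or.inl (one_smul S D)
  have hinv : ∀ g : S, Star (Orb C) (g • D) D → Star (Orb C) (g⁻¹ • D) D := by
    intro g hg
    have h1 := star_smul hg g⁻¹
    rw [inv_smul_smul] at h1
    exact star_symm hE hD1 (hD _) h1
  exact ⟨⟨⟨⟨{g | Star (Orb C) (g • D) D}, fun {g h} hg hh => hmul g h hg hh⟩, hone⟩,
    fun {g} hg => hinv g hg⟩, fun g => Iff.rfl⟩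

/-- positive powers of `t` map `C` into `t • C` -/
private theorem sloop_pow {C : Set S} {t : S} (h : t • C ⊆ C) (n : ℕ) :
    t ^ (n + 1) • C ⊆ t • C := by
  have key : ∀ n : ℕ, t ^ n • C ⊆ C := by
    intro n
    induction n with
    | zero => rw [pow_zero, one_smul]
    | succ n ih =>
      rw [pow_succ', mul_smul]
      exact (Set.smul_set_mono ih).trans h
  rw [pow_succ', mul_smul]
  exact Set.smul_set_mono (key n)

private theorem sloop_zpow {C : Set S} {t : S} (h : t • C ⊆ C) {g : S}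
    (hg : g ∈ Subgroup.zpowers t) (hg1 : g ≠ 1) :
    g • (C \ t • C) ⊆ Cᶜ ∪ t • C := by
  obtain ⟨n, rfl⟩ := Subgroup.mem_zpowers_iff.1 hg
  rcases lt_trichotomy n 0 with hn | hn | hn
  · obtain ⟨m, hm⟩ : ∃ m : ℕ, n = -((m + 1 : ℕ) : ℤ) := ⟨(-n - 1).toNat, by omega⟩
    rintro _ ⟨x, ⟨hx1, hx2⟩, rfl⟩
    left
    intro h1
    apply hx2
    apply sloop_pow h m
    refine ⟨t ^ n • x, h1, ?_⟩
    show t ^ (m + 1) • (t ^ n • x) = x
    rw [hm, zpow_neg, zpow_natCast, smul_inv_smul]
  · rw [hn, zpow_zero] at hg1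
    exact absurd rfl hg1
  · obtain ⟨m, hm⟩ : ∃ m : ℕ, n = ((m + 1 : ℕ) : ℤ) := ⟨(n - 1).toNat, by omega⟩
    rintro _ ⟨x, ⟨hx1, hx2⟩, rfl⟩
    right
    apply sloop_pow h m
    refine ⟨x, hx1, ?_⟩
    show t ^ (m + 1) • x = t ^ n • x
    rw [hm, zpow_natCast]

theorem split_two {X : Finset S} (hX : Subgroup.closure (X : Set S) = ⊤) {k : ℕ}
    (hk : IsMinK X k) {C : Set S} (hC : KCut X k C)
    (htf : ∀ (g : S) (n : ℕ), 0 < n → g ^ n = 1 → g = 1) (hn : ∀ g : S, Nst C (g • C))
    {t : S} (ht : Star (Orb C) (t • Cᶜ) C) :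
    (∀ g : S, g ∈ Subgroup.zpowers t) ∨
      ∃ A B : Subgroup S, A ≠ ⊥ ∧ B ≠ ⊥ ∧ FreeProd A B := by
  have htrue : sgn C true = C := by simp [sgn]
  have hfalse : sgn C false = Cᶜ := by simp [sgn]
  have hE := orb_nfam hC hn
  have hmC : ∀ g : S, g • C ∈ Orb C := fun g => ⟨g, true, by rw [htrue]⟩
  have hmC' : ∀ g : S, g • Cᶜ ∈ Orb C := fun g => ⟨g, false, by rw [hfalse]⟩
  have h1C : C ∈ Orb C := by
    have h := hmC 1
    rwa [one_smul] at h
  have h1C' : Cᶜ ∈ Orb C := by
    have h := hmC' 1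
    rwa [one_smul] at h
  have htne : t • Cᶜ ≠ C := by
    intro h
    apply no_inv hX hC htf t
    rw [Set.smul_set_compl] at h
    exact (compl_eq_comm.1 h).symm
  have htC : t • C ⊆ C ∧ t • C ≠ C := by
    rcases ht with h | h
    · exact absurd h htne
    · have h1 := h.1
      have h2 := h.2.1
      rw [Set.smul_set_compl, compl_compl] at h1 h2
      exact ⟨h1, h2⟩
  have ht1 : t ≠ 1 := by
    intro h
    apply htC.2
    rw [h, one_smul]
  obtain ⟨A, hA⟩ := sloop_sub hE hmC
  have hAB : A ⊔ Subgroup.zpowers t = ⊤ := by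
    rw [eq_top_iff, ← star_gen hX hk hC htf hn, Subgroup.closure_le]
    have htm : t ∈ A ⊔ Subgroup.zpowers t :=
      Subgroup.mem_sup_right (Subgroup.mem_zpowers t)
    rintro g ⟨b, c, h⟩
    show g ∈ A ⊔ Subgroup.zpowers t
    cases b <;> cases c
    · rw [hfalse] at h
      have h1 : Star (Orb C) (t • (g • Cᶜ)) C :=
        star_trans hE (by rw [← mul_smul]; exact hmC' _) (hmC' _) h1C (star_smul h t) ht
      have h2 := star_smul (star_symm hE (hmC' _) h1C ht) (t * g * t⁻¹)
      have h3 : (t * g * t⁻¹) • (t • Cᶜ) = t • (g • Cᶜ) := by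
        rw [← mul_smul, ← mul_smul, inv_mul_cancel_right]
      rw [h3] at h2
      have h4 : t * g * t⁻¹ ∈ A :=
        (hA _).2 (star_trans hE (hmC _) (by rw [← mul_smul]; exact hmC' _) h1C h2 h1)
      have h5 : g = t⁻¹ * (t * g * t⁻¹) * t := by group
      rw [h5]
      exact Subgroup.mul_mem _ (Subgroup.mul_mem _ (Subgroup.inv_mem _ htm)
        (Subgroup.mem_sup_left h4)) htm
    · rw [hfalse, htrue] at h
      have h2 := star_smul (star_symm hE (hmC' _) h1C ht) (g * t⁻¹)
      have h3 : (g * t⁻¹) • (t • Cᶜ) = g • Cᶜ := by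
        rw [← mul_smul, inv_mul_cancel_right]
      rw [h3] at h2
      have h4 : g * t⁻¹ ∈ A := (hA _).2 (star_trans hE (hmC _) (hmC' _) h1C h2 h)
      have h5 : g = (g * t⁻¹) * t := by group
      rw [h5]
      exact Subgroup.mul_mem _ (Subgroup.mem_sup_left h4) htm
    · rw [hfalse, htrue] at h
      have h1 : Star (Orb C) (t • (g • C)) C :=
        star_trans hE (by rw [← mul_smul]; exact hmC _) (hmC' _) h1C (star_smul h t) ht
      have h4 : t * g ∈ A := (hA _).2 (by rw [mul_smul]; exact h1)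
      have h5 : g = t⁻¹ * (t * g) := by group
      rw [h5]
      exact Subgroup.mul_mem _ (Subgroup.inv_mem _ htm) (Subgroup.mem_sup_left h4)
    · rw [htrue] at h
      exact Subgroup.mem_sup_left ((hA g).2 h)
  by_cases hA0 : A = ⊥
  · left
    rw [hA0, bot_sup_eq] at hAB
    intro g
    rw [hAB]
    exact Subgroup.mem_top g
  right
  refine ⟨A, Subgroup.zpowers t, hA0, ?_, ?_, ?_⟩
  · intro h
    exact ht1 (Subgroup.zpowers_eq_bot.1 h)
  · have hAX : ∀ a ∈ A, a ≠ 1 → a • (Cᶜ ∪ t • C) ⊆ C \ t • C := by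
      intro a ha ha1
      have s1 : Star (Orb C) (a • C) C := (hA a).1 ha
      have s2 : Star (Orb C) (a • (t • Cᶜ)) (a • C) := star_smul ht a
      have m1 : a • (t • Cᶜ) ∈ Orb C := by rw [← mul_smul]; exact hmC' _
      have s3 : Star (Orb C) (a • (t • Cᶜ)) C := star_trans hE m1 (hmC _) h1C s2 s1
      have s0 : Star (Orb C) C (t • Cᶜ) := star_symm hE (hmC' _) h1C ht
      have s4 : Star (Orb C) (a • C) (t • Cᶜ) := star_trans hE (hmC _) h1C (hmC' _) s1 s0
      have s5 : Star (Orb C) (a • (t • Cᶜ)) (t • Cᶜ) := star_trans hE m1 h1C (hmC' _) s3 s0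
      have n1 : a • C ≠ C := fun h => ha1 (stab_one hX hC htf h)
      have n3 : a • (t • Cᶜ) ≠ C := by
        intro h
        have h1 : (a * t) • sgn C false = (1 : S) • sgn C true := by
          rw [hfalse, htrue, mul_smul, one_smul]
          exact h
        exact absurd (smul_sgn_inj hX hC htf h1).2 (by decide)
      have n4 : a • C ≠ t • Cᶜ := by
        intro h
        have h1 : a • sgn C true = t • sgn C false := by
          rw [hfalse, htrue]
          exact h
        exact absurd (smul_sgn_inj hX hC htf h1).2 (by decide)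
      have n5 : a • (t • Cᶜ) ≠ t • Cᶜ := by
        intro h
        have h1 : (a * t) • sgn C false = t • sgn C false := by
          rw [hfalse, mul_smul]
          exact h
        apply ha1
        have h2 := (smul_sgn_inj hX hC htf h1).1
        exact mul_eq_right.1 h2
      have d1 := star_disj s1 n1
      have d3 := star_disj s3 n3
      have d4 := star_disj s4 n4
      have d5 := star_disj s5 n5
      have e1 : (t • Cᶜ)ᶜ = t • C := by rw [Set.smul_set_compl, compl_compl]
      have e2 : (a • (t • Cᶜ))ᶜ = a • (t • C) := by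
        rw [← Set.smul_set_compl, e1]
      rw [← Set.smul_set_compl] at d1 d4
      rw [e2] at d3 d5
      rw [e1] at d4 d5
      rw [Set.smul_set_union]
      rintro x (hx | hx)
      · refine ⟨?_, fun h => ?_⟩
        · by_contra h
          exact (Set.eq_empty_iff_forall_notMem.1 d1) x ⟨hx, h⟩
        · exact (Set.eq_empty_iff_forall_notMem.1 d4) x ⟨hx, h⟩
      · refine ⟨?_, fun h => ?_⟩
        · by_contra h
          exact (Set.eq_empty_iff_forall_notMem.1 d3) x ⟨hx, h⟩
        · exact (Set.eq_empty_iff_forall_notMem.1 d5) x ⟨hx, h⟩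
    have hdis : Disjoint (C \ t • C) (Cᶜ ∪ t • C) := by
      rw [Set.disjoint_left]
      rintro x ⟨h1, h2⟩ (h3 | h3)
      · exact h3 h1
      · exact h2 h3
    refine Monoid.CoprodI.lift_injective_of_ping_pong
      (fun b : Bool => (fam A (Subgroup.zpowers t) b).subtype) (Or.inr ⟨true, ?_⟩)
      (fun b : Bool => if b then C \ t • C else Cᶜ ∪ t • C) ?_ ?_ ?_
    · exact sloop_three hA0 htf
    · intro b
      cases b
      · exact (hC.2.1.nonempty).mono Set.subset_union_left
      · show (C \ t • C).Nonempty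
        rw [Set.nonempty_iff_ne_empty]
        intro h
        apply htC.2
        exact Set.Subset.antisymm htC.1 (Set.sdiff_eq_empty.1 h)
    · intro b c hbc
      cases b <;> cases c
      · exact absurd rfl hbc
      · exact hdis.symm
      · exact hdis
      · exact absurd rfl hbc
    · intro b c hbc
      cases b <;> cases c
      · exact absurd rfl hbc
      · show ∀ h : fam A (Subgroup.zpowers t) false, h ≠ 1 →
          (fam A (Subgroup.zpowers t) false).subtype h • (C \ t • C) ⊆ Cᶜ ∪ t • C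
        intro h hh
        exact sloop_zpow htC.1 h.2 fun h1 => hh (Subtype.ext h1)
      · show ∀ h : fam A (Subgroup.zpowers t) true, h ≠ 1 →
          (fam A (Subgroup.zpowers t) true).subtype h • (Cᶜ ∪ t • C) ⊆ C \ t • C
        intro h hh
        exact hAX h.1 h.2 fun h1 => hh (Subtype.ext h1)
      · exact absurd rfl hbc
  · rw [← MonoidHom.range_eq_top, eq_top_iff, ← hAB]
    apply sup_le
    · intro a ha
      refine ⟨Monoid.CoprodI.of (M := fun b : Bool => fam A (Subgroup.zpowers t) b)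
        (i := true) ⟨a, ha⟩, ?_⟩
      rw [Monoid.CoprodI.lift_of]
      rfl
    · intro a ha
      refine ⟨Monoid.CoprodI.of (M := fun b : Bool => fam A (Subgroup.zpowers t) b)
        (i := false) ⟨a, ha⟩, ?_⟩
      rw [Monoid.CoprodI.lift_of]
      rfl

end Pool.Agent.RFR
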