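import Pool.Agent.RFR.SSub
import Pool.Agent.RFR.SFin

set_option autoImplicit false

/-! RFR-SMin (8.1)-(8.3): minimal cuts are connected; finitely many of them separate two points.

PLAN.  `exists_minK`: the least `k` with a cut (`Nat.find`).  `minK_cn`: let `B ⊆ A` have no edges to `A \ B`; if `B`
and `A \ B` are nonempty then `dl X B` and `dl X (A \ B)` are nonempty (`cn_univ`), disjoint, with union
`dl X A` (an edge leaving `B` ends in `Aᶜ`), so both have fewer than `k` elements; one of `B`, `A \ B` is infinite, and it is a cut.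
`fin_sep`: `exists_path` from `p` to `q` gives a finite set `P` of edges, every such `A` has an edge of `P` in `dl X A`; `fin_tight` with
`minK_cn` for `A` and `Aᶜ`. -/

namespace Pool.Agent.RFR

variable {S : Type} [Group S]

private theorem smin_sub {X : Finset S} {A B : Set S}
    (h : ∀ e ∈ {e : S × S | e.2 ∈ X}, e.1 ∈ A → e.1 * e.2 ∈ A → (e.1 ∈ B ↔ e.1 * e.2 ∈ B))
    (hB : B ⊆ A) : dl X B ⊆ dl X A := by
  rintro e ⟨he, h1⟩
  refine ⟨he, fun h2 => h1 ?_⟩
  by_cases h3 : e.1 ∈ A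
  · exact h e he h3 (h2.1 h3)
  · have h4 : e.1 * e.2 ∉ A := fun h5 => h3 (h2.2 h5)
    exact ⟨fun h5 => absurd (hB h5) h3, fun h5 => absurd (hB h5) h4⟩

theorem exists_minK {X : Finset S} {j : ℕ} {A : Set S} (h : KCut X j A) :
    ∃ k, IsMinK X k ∧ ∃ C, KCut X k C := by
  classical
  have hex : ∃ k, ∃ C, KCut X k C := ⟨j, A, h⟩
  exact ⟨Nat.find hex, fun i B hB => Nat.find_min' hex ⟨B, hB⟩, Nat.find_spec hex⟩

theorem minK_cn {X : Finset S} (hX : Subgroup.closure (X : Set S) = ⊤) {k : ℕ} (hk : IsMinK X k)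
    {A : Set S} (hA : KCut X k A) : Cn X A := by
  intro B hBA hB
  obtain ⟨hA1, hA2, hA3, hA4⟩ := hA
  by_contra hcon
  have hne : B ≠ ∅ := fun h => hcon (Or.inl h)
  have hnA : B ≠ A := fun h => hcon (Or.inr h)
  have hD : ∀ e ∈ {e : S × S | e.2 ∈ X}, e.1 ∈ A → e.1 * e.2 ∈ A →
      (e.1 ∈ A \ B ↔ e.1 * e.2 ∈ A \ B) := by
    intro e he h1 h2
    have h3 := hB e he h1 h2
    constructor
    · rintro ⟨_, h5⟩
      exact ⟨h2, fun h6 => h5 (h3.2 h6)⟩
    · rintro ⟨_, h5⟩
      exact ⟨h1, fun h6 => h5 (h3.1 h6)⟩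
  have hDA : A \ B ⊆ A := fun x hx => hx.1
  have hs1 : dl X B ⊆ dl X A := smin_sub hB hBA
  have hs2 : dl X (A \ B) ⊆ dl X A := smin_sub hD hDA
  have hAu : A ≠ Set.univ := by
    rintro rfl
    rw [Set.compl_univ] at hA2
    exact Set.finite_empty.not_infinite hA2
  have hDne : A \ B ≠ ∅ := by
    intro h
    apply hnA
    refine Set.Subset.antisymm hBA fun x hx => ?_
    by_contra hxB
    have : x ∈ A \ B := ⟨hx, hxB⟩
    rw [h] at this
    exact this
  have hn : ∀ C : Set S, C ⊆ A → C ≠ ∅ → (dl X C).Nonempty := by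
    intro C hC hC0
    by_contra hcc
    rw [Set.not_nonempty_iff_eq_empty] at hcc
    rcases cn_univ hX C (Set.subset_univ C) (fun e he _ _ => by
      by_contra h1
      have : e ∈ dl X C := ⟨he, h1⟩
      rw [hcc] at this
      exact this) with h1 | h1
    · exact hC0 h1
    · apply hAu
      rw [h1] at hC
      exact Set.univ_subset_iff.1 hC
  have hdis : Disjoint (dl X B) (dl X (A \ B)) := by
    rw [Set.disjoint_left]
    rintro e ⟨he, h1⟩ ⟨_, h2⟩
    have h3 : e.1 ∈ A ∧ e.1 * e.2 ∈ A := by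
      by_cases h4 : e.1 ∈ B
      · refine ⟨hBA h4, ?_⟩
        by_contra h5
        apply h2
        exact ⟨fun h6 => absurd h4 h6.2, fun h6 => absurd h6.1 h5⟩
      · have h5 : e.1 * e.2 ∈ B := by
          by_contra h6
          exact h1 ⟨fun h7 => absurd h7 h4, fun h7 => absurd h7 h6⟩
        refine ⟨?_, hBA h5⟩
        by_contra h6
        apply h2
        exact ⟨fun h7 => absurd h7.1 h6, fun h7 => absurd h5 h7.2⟩
    exact h1 (hB e he h3.1 h3.2)
  have hf1 : (dl X B).Finite := hA3.subset hs1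
  have hf2 : (dl X (A \ B)).Finite := hA3.subset hs2
  have hsum : (dl X B).ncard + (dl X (A \ B)).ncard ≤ k := by
    rw [← Set.ncard_union_eq hdis hf1 hf2, ← hA4]
    exact Set.ncard_le_ncard (Set.union_subset hs1 hs2) hA3
  have hp1 : 0 < (dl X B).ncard := (Set.ncard_pos hf1).2 (hn B hBA hne)
  have hp2 : 0 < (dl X (A \ B)).ncard := (Set.ncard_pos hf2).2 (hn (A \ B) hDA hDne)
  have hcase : B.Infinite ∨ (A \ B).Infinite := by
    by_contra h1
    rw [not_or, Set.not_infinite, Set.not_infinite] at h1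
    apply hA1
    have h2 : A ⊆ B ∪ (A \ B) := fun x hx => by
      by_cases h3 : x ∈ B
      · exact Or.inl h3
      · exact Or.inr ⟨hx, h3⟩
    exact (h1.1.union h1.2).subset h2
  rcases hcase with h1 | h1
  · have h2 : KCut X (dl X B).ncard B :=
      ⟨h1, hA2.mono (Set.compl_subset_compl.2 hBA), hf1, rfl⟩
    have := hk _ _ h2
    omega
  · have h2 : KCut X (dl X (A \ B)).ncard (A \ B) :=
      ⟨h1, hA2.mono (Set.compl_subset_compl.2 hDA), hf2, rfl⟩
    have := hk _ _ h2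
    omega

theorem fin_edge {X : Finset S} (hX : Subgroup.closure (X : Set S) = ⊤) {k : ℕ} (hk : IsMinK X k)
    (e : S × S) : {A : Set S | KCut X k A ∧ e ∈ dl X A}.Finite := by
  refine (fin_tight (fun e : S × S => e.1) (fun e => e.1 * e.2) k {e | e.2 ∈ X}
    (cn_univ hX) e).subset ?_
  rintro A ⟨h1, h2⟩
  exact ⟨h2, h1.2.2.1, h1.2.2.2, minK_cn hX hk h1, minK_cn hX hk (kcut_compl h1)⟩

theorem fin_sep {X : Finset S} (hX : Subgroup.closure (X : Set S) = ⊤) {k : ℕ} (hk : IsMinK X k)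
    (p q : S) : {A : Set S | KCut X k A ∧ p ∈ A ∧ q ∉ A}.Finite := by
  obtain ⟨P, hP, hPU, h⟩ := exists_path (fun e : S × S => e.1) (fun e => e.1 * e.2)
    {e | e.2 ∈ X} (cn_univ hX) p q
  refine (hP.biUnion fun e _ => fin_edge hX hk e).subset ?_
  rintro A ⟨h1, h2, h3⟩
  obtain ⟨e, he⟩ := h A (fun h4 => h3 (h4.1 h2))
  exact Set.mem_biUnion he.1 ⟨h1, hPU he.1, he.2⟩

end Pool.Agent.RFR
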