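import Pool.Agent.RFR.SCor

set_option autoImplicit false

/-! RFR-SOpt (8.4): there is a minimal cut which is nested with all its translates.

`sopt_cr X k A` is the (finite) set of the minimal cuts not nested with `A`, `sopt_n` its number. If `A`, `B` are minimal and not
nested, and `A ∩ B`, `A ∪ B` are minimal, then `n (A ∩ B) + n (A ∪ B) < n A + n B` (`sopt_lt`). A cut `C` with `n C` minimal
is nested with its translates, because `n Aᶜ = n A`, `n (g • A) = n A`. -/

namespace Pool.Agent.RFR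

open scoped Pointwise

variable {S : Type} [Group S]

/-- the minimal cuts not nested with `A` -/
private def sopt_cr (X : Finset S) (k : ℕ) (A : Set S) : Set (Set S) := {E | KCut X k E ∧ ¬ Nst A E}

/-- the number of the minimal cuts not nested with `A` -/
private noncomputable def sopt_n (X : Finset S) (k : ℕ) (A : Set S) : ℕ := (sopt_cr X k A).ncard

private theorem sopt_lt {X : Finset S} (hX : Subgroup.closure (X : Set S) = ⊤) {k : ℕ}
    (hk : IsMinK X k) {A B : Set S} (hA : KCut X k A) (hB : KCut X k B) (h : ¬ Nst A B)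
    (h1 : KCut X k (A ∩ B)) (h2 : KCut X k (A ∪ B)) :
    sopt_n X k (A ∩ B) + sopt_n X k (A ∪ B) < sopt_n X k A + sopt_n X k B := by
  have fA : (sopt_cr X k A).Finite := fin_cross hX hk hA
  have fB : (sopt_cr X k B).Finite := fin_cross hX hk hB
  have f1 : (sopt_cr X k (A ∩ B)).Finite := fin_cross hX hk h1
  have f2 : (sopt_cr X k (A ∪ B)).Finite := fin_cross hX hk h2
  have hu : sopt_cr X k (A ∩ B) ∪ sopt_cr X k (A ∪ B) ⊆ sopt_cr X k A ∪ sopt_cr X k B := by
    intro E hE
    by_contra hc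
    have hE1 : KCut X k E := by
      rcases hE with hE | hE
      · exact hE.1
      · exact hE.1
    have nA : Nst E A := by
      by_contra h3
      exact hc (Or.inl ⟨hE1, fun h4 => h3 (nst_symm h4)⟩)
    have nB : Nst E B := by
      by_contra h3
      exact hc (Or.inr ⟨hE1, fun h4 => h3 (nst_symm h4)⟩)
    obtain ⟨h3, h4⟩ := nst_two h nA nB
    rcases hE with hE | hE
    · exact hE.2 (nst_symm h3)
    · exact hE.2 (nst_symm h4)
  have hi : sopt_cr X k (A ∩ B) ∩ sopt_cr X k (A ∪ B) ⊆ sopt_cr X k A ∩ sopt_cr X k B := by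
    rintro E ⟨hE1, hE2⟩
    refine ⟨⟨hE1.1, fun h3 => ?_⟩, ⟨hE1.1, fun h3 => ?_⟩⟩
    · rcases nst_one B (nst_symm h3) with h4 | h4
      · exact hE1.2 (nst_symm h4)
      · exact hE2.2 (nst_symm h4)
    · rcases nst_one A (nst_symm h3) with h4 | h4
      · rw [Set.inter_comm] at h4
        exact hE1.2 (nst_symm h4)
      · rw [Set.union_comm] at h4
        exact hE2.2 (nst_symm h4)
  have hs : sopt_cr X k (A ∩ B) ∪ sopt_cr X k (A ∪ B) ⊂ sopt_cr X k A ∪ sopt_cr X k B := by
    rw [Set.ssubset_iff_of_subset hu]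
    refine ⟨A, Or.inr ⟨hA, fun h3 => h (nst_symm h3)⟩, ?_⟩
    rintro (h3 | h3)
    · exact h3.2 (nst_symm (nst_inter_left A B))
    · exact h3.2 (nst_symm (nst_union_left A B))
  have c1 := Set.ncard_lt_ncard hs (fA.union fB)
  have c2 := Set.ncard_le_ncard hi (fA.subset Set.inter_subset_left)
  have c3 := Set.ncard_union_add_ncard_inter (sopt_cr X k (A ∩ B)) (sopt_cr X k (A ∪ B)) f1 f2
  have c4 := Set.ncard_union_add_ncard_inter (sopt_cr X k A) (sopt_cr X k B) fA fB
  unfold sopt_n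
  omega

private theorem sopt_compl (X : Finset S) (k : ℕ) (A : Set S) : sopt_n X k Aᶜ = sopt_n X k A := by
  have h : sopt_cr X k Aᶜ = sopt_cr X k A := by
    ext E
    show (KCut X k E ∧ ¬ Nst Aᶜ E) ↔ (KCut X k E ∧ ¬ Nst A E)
    rw [nst_compl_left]
  unfold sopt_n
  rw [h]

private theorem sopt_nst (g : S) (A B : Set S) : Nst (g • A) (g • B) ↔ Nst A B := by
  unfold Nst
  rw [← Set.smul_set_compl, ← Set.smul_set_compl, ← Set.smul_set_inter, ← Set.smul_set_inter,
    ← Set.smul_set_inter, ← Set.smul_set_inter, Set.smul_set_eq_empty, Set.smul_set_eq_empty,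
    Set.smul_set_eq_empty, Set.smul_set_eq_empty]

private theorem sopt_smul (X : Finset S) (k : ℕ) (g : S) (A : Set S) :
    sopt_n X k (g • A) = sopt_n X k A := by
  have h : sopt_cr X k (g • A) = (fun E : Set S => g • E) '' sopt_cr X k A := by
    ext E
    constructor
    · rintro ⟨h1, h2⟩
      refine ⟨g⁻¹ • E, ⟨kcut_smul h1 _, fun h3 => h2 ?_⟩, smul_inv_smul g E⟩
      have h4 := (sopt_nst g A (g⁻¹ • E)).2 h3
      rwa [smul_inv_smul] at h4
    · rintro ⟨F, ⟨h1, h2⟩, rfl⟩
      exact ⟨kcut_smul h1 g, fun h3 => h2 ((sopt_nst g A F).1 h3)⟩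
  unfold sopt_n
  rw [h, Set.ncard_image_of_injective _ (MulAction.injective g)]

theorem exists_opt {X : Finset S} (hX : Subgroup.closure (X : Set S) = ⊤) {k : ℕ}
    (hk : IsMinK X k) {A : Set S} (hA : KCut X k A) :
    ∃ C : Set S, KCut X k C ∧ ∀ g : S, Nst C (g • C) := by
  classical
  have hex : ∃ m, ∃ C : Set S, KCut X k C ∧ sopt_n X k C = m := ⟨_, A, hA, rfl⟩
  obtain ⟨C, hC, hCn⟩ := Nat.find_spec hex
  have hmin : ∀ D : Set S, KCut X k D → sopt_n X k C ≤ sopt_n X k D := fun D hD =>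
    hCn.trans_le (Nat.find_min' hex ⟨D, hD, rfl⟩)
  refine ⟨C, hC, fun g => ?_⟩
  by_contra h
  rcases corner hk hC (kcut_smul hC g) h with ⟨h1, h2⟩ | ⟨h1, h2⟩
  · have h3 := sopt_lt hX hk hC (kcut_smul hC g) h h1 h2
    rw [sopt_smul] at h3
    have h4 := hmin _ h1
    have h5 := hmin _ h2
    omega
  · have h3 := sopt_lt hX hk hC (kcut_compl (kcut_smul hC g)) (fun h6 => h (nst_compl_right.1 h6))
      h1 h2
    rw [sopt_compl, sopt_smul] at h3
    have h4 := hmin _ h1
    have h5 := hmin _ h2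
    omega

end Pool.Agent.RFR
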