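import Pool.Agent.RFR.SGen

set_option autoImplicit false

/-! RFR-SPing (8.8), case 1: no `t` with `t • Cᶜ ~ C`: `S` is a free product.

PLAN.  `A = {g | g • C ~ C}`, `B = {g | g • Cᶜ ~ Cᶜ}` are subgroups (`star_smul`, `star_trans`, `star_symm`).  The generators of
`star_gen` are in `A` or `B` (`g • Cᶜ ~ C` is excluded, `g • C ~ Cᶜ` gives `g⁻¹ • Cᶜ ~ C`).  So the lift is onto.  For `a ∈ A`, `a ≠ 1`: `a • C ≠ C` (`stab_one`), so
`(a • C)ᶜ ⊆ C`, `a • Cᶜ ⊆ C`; for `b ∈ B`, `b ≠ 1`: `b • C ⊆ Cᶜ`.  `Monoid.CoprodI.lift_injective_of_ping_pong` with the sets `X true = C`, `X false = Cᶜ`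
(nonempty, disjoint) and `3 ≤ #(fam A B b)` for some `b`: `A ≠ ⊥` (otherwise `B = ⊤`, `b • C ∩ C = ∅` for all `b ≠ 1`, but `C` has two different elements `c, c'`, `b = c' * c⁻¹`), the same for `B` with `Cᶜ`; a nontrivial torsion free group is infinite. -/

namespace Pool.Agent.RFR

open scoped Pointwise

variable {S : Type} [Group S]

private theorem sping_sub {C D : Set S} (hE : NFam (Orb C)) (hD : ∀ g : S, g • D ∈ Orb C) :
    ∃ A : Subgroup S, ∀ g, g ∈ A ↔ Star (Orb C) (g • D) D := by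
  have hD1 : D ∈ Orb C := by
    have h := hD 1
    rwa [one_smul] at h
  have hmul : ∀ g h : S, Star (Orb C) (g • D) D → Star (Orb C) (h • D) D →
      Star (Orb C) ((g * h) • D) D := by
    intro g h hg hh
    have h1 := star_smul hh g
    rw [← mul_smul] at h1
    exact star_trans hE (hD _) (hD _) hD1 h1 hg
  have hone : Star (Orb C) ((1 : S) • D) D := Or.inl (one_smul S D)
  have hinv : ∀ g : S, Star (Orb C) (g • D) D → Star (Orb C) (g⁻¹ • D) D := by
    intro g hg
    have h1 := star_smul hg g⁻¹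
    rw [inv_smul_smul] at h1
    exact star_symm hE hD1 (hD _) h1
  exact ⟨⟨⟨⟨{g | Star (Orb C) (g • D) D}, fun {g h} hg hh => hmul g h hg hh⟩, hone⟩,
    fun {g} hg => hinv g hg⟩, fun g => Iff.rfl⟩

private theorem sping_ne {A B : Subgroup S} {D : Set S} (hD : D.Infinite)
    (hAB : A ⊔ B = ⊤)
    (hB : ∀ g ∈ B, g ≠ 1 → g • D ⊆ Dᶜ) : A ≠ ⊥ := by
  intro h
  rw [h, bot_sup_eq] at hAB
  obtain ⟨c, hc, c', hc', hne⟩ := hD.nontrivial
  have h1 : c' * c⁻¹ ≠ 1 := fun h2 => hne (mul_inv_eq_one.1 h2).symm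
  have h2 : c' * c⁻¹ ∈ B := by
    rw [hAB]
    exact Subgroup.mem_top _
  have h3 : c' ∈ (c' * c⁻¹) • D := by
    refine ⟨c, hc, ?_⟩
    show c' * c⁻¹ * c = c'
    rw [inv_mul_cancel_right]
  exact hB _ h2 h1 h3 hc'

private theorem sping_three {A : Subgroup S} (hA : A ≠ ⊥)
    (htf : ∀ (g : S) (n : ℕ), 0 < n → g ^ n = 1 → g = 1) : 3 ≤ Cardinal.mk A := by
  obtain ⟨a, ha, ha1⟩ : ∃ a ∈ A, a ≠ 1 := by
    by_contra h
    push Not at h
    exact hA ((Subgroup.eq_bot_iff_forall A).2 h)
  have hinj : Function.Injective (fun n : ℕ => (⟨a ^ n, A.pow_mem ha n⟩ : A)) := by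
    have key : ∀ m n : ℕ, m < n → a ^ m ≠ a ^ n := by
      intro m n hmn h
      obtain ⟨d, rfl⟩ := Nat.exists_eq_add_of_lt hmn
      have h1 : a ^ (d + 1) = 1 := by
        rw [add_assoc, pow_add] at h
        exact (mul_eq_left.1 h.symm)
      exact ha1 (htf a (d + 1) (Nat.succ_pos d) h1)
    intro m n h
    have h1 : a ^ m = a ^ n := congrArg Subtype.val h
    rcases lt_trichotomy m n with h2 | h2 | h2
    · exact absurd h1 (key m n h2)
    · exact h2
    · exact absurd h1.symm (key n m h2)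
  have hinf : Infinite A := Infinite.of_injective _ hinj
  have h1 : Cardinal.aleph0 ≤ Cardinal.mk A := Cardinal.aleph0_le_mk A
  have h2 : (3 : Cardinal) ≤ Cardinal.aleph0 := by
    have h3 := (Cardinal.natCast_lt_aleph0 (n := 3)).le
    exact_mod_cast h3
  exact h2.trans h1

theorem split_one {X : Finset S} (hX : Subgroup.closure (X : Set S) = ⊤) {k : ℕ}
    (hk : IsMinK X k) {C : Set S} (hC : KCut X k C)
    (htf : ∀ (g : S) (n : ℕ), 0 < n → g ^ n = 1 → g = 1) (hn : ∀ g : S, Nst C (g • C))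
    (ht : ¬ ∃ t : S, Star (Orb C) (t • Cᶜ) C) :
    ∃ A B : Subgroup S, A ≠ ⊥ ∧ B ≠ ⊥ ∧ FreeProd A B := by
  have htrue : sgn C true = C := by simp [sgn]
  have hfalse : sgn C false = Cᶜ := by simp [sgn]
  have hE := orb_nfam hC hn
  have hmC : ∀ g : S, g • C ∈ Orb C := fun g => ⟨g, true, by rw [htrue]⟩
  have hmC' : ∀ g : S, g • Cᶜ ∈ Orb C := fun g => ⟨g, false, by rw [hfalse]⟩
  have h1C : C ∈ Orb C := by
    have h := hmC 1
    rwa [one_smul] at h
  have h1C' : Cᶜ ∈ Orb C := by
    have h := hmC' 1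
    rwa [one_smul] at h
  obtain ⟨A, hA⟩ := sping_sub hE hmC
  obtain ⟨B, hB⟩ := sping_sub hE hmC'
  have hAB : A ⊔ B = ⊤ := by
    rw [← star_gen hX hk hC htf hn]
    apply le_antisymm
    · rw [star_gen hX hk hC htf hn]
      exact le_top
    · rw [Subgroup.closure_le]
      rintro g ⟨b, c, h⟩
      cases b <;> cases c
      · rw [hfalse] at h
        exact Subgroup.mem_sup_right ((hB g).2 h)
      · rw [hfalse, htrue] at h
        exact absurd ⟨g, h⟩ ht
      · rw [hfalse, htrue] at h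
        exfalso
        apply ht
        refine ⟨g⁻¹, ?_⟩
        have h1 := star_smul h g⁻¹
        rw [inv_smul_smul] at h1
        exact star_symm hE h1C (hmC' _) h1
      · rw [htrue] at h
        exact Subgroup.mem_sup_left ((hA g).2 h)
  have hA1 : ∀ g ∈ A, g ≠ 1 → g • Cᶜ ⊆ C := by
    intro g hg hg1
    rcases (hA g).1 hg with h | h
    · exact absurd (stab_one hX hC htf h) hg1
    · rw [Set.smul_set_compl]
      exact h.1
  have hB1 : ∀ g ∈ B, g ≠ 1 → g • C ⊆ Cᶜ := by
    intro g hg hg1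
    rcases (hB g).1 hg with h | h
    · rw [Set.smul_set_compl, compl_inj_iff] at h
      exact absurd (stab_one hX hC htf h) hg1
    · have h1 := h.1
      rw [Set.smul_set_compl, compl_compl] at h1
      exact h1
  have hAne : A ≠ ⊥ := by
    exact sping_ne (B := B) hC.1 hAB hB1
  have hBne : B ≠ ⊥ := by
    refine sping_ne (B := A) hC.2.1 (by rw [sup_comm]; exact hAB) ?_
    intro g hg hg1
    rw [compl_compl]
    exact hA1 g hg hg1
  refine ⟨A, B, hAne, hBne, ?_, ?_⟩
  · refine Monoid.CoprodI.lift_injective_of_ping_pong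
      (fun b : Bool => (fam A B b).subtype) (Or.inr ⟨true, ?_⟩) (sgn C) ?_ ?_ ?_
    · exact sping_three hAne htf
    · intro b
      cases b
      · rw [hfalse]
        exact hC.2.1.nonempty
      · rw [htrue]
        exact hC.1.nonempty
    · intro b c hbc
      cases b <;> cases c
      · exact absurd rfl hbc
      · show Disjoint (sgn C false) (sgn C true)
        rw [hfalse, htrue]
        exact disjoint_compl_left
      · show Disjoint (sgn C true) (sgn C false)
        rw [hfalse, htrue]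
        exact disjoint_compl_right
      · exact absurd rfl hbc
    · intro b c hbc
      cases b <;> cases c
      · exact absurd rfl hbc
      · show ∀ h : fam A B false, h ≠ 1 →
          (fam A B false).subtype h • sgn C true ⊆ sgn C false
        intro h hh
        rw [hfalse, htrue]
        exact hB1 h.1 h.2 fun h1 => hh (Subtype.ext h1)
      · show ∀ h : fam A B true, h ≠ 1 →
          (fam A B true).subtype h • sgn C false ⊆ sgn C true
        intro h hh
        rw [hfalse, htrue]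
        exact hA1 h.1 h.2 fun h1 => hh (Subtype.ext h1)
      · exact absurd rfl hbc
  · rw [← MonoidHom.range_eq_top, eq_top_iff, ← hAB]
    apply sup_le
    · intro a ha
      refine ⟨Monoid.CoprodI.of (M := fun b : Bool => fam A B b) (i := true) ⟨a, ha⟩, ?_⟩
      rw [Monoid.CoprodI.lift_of]
      rfl
    · intro a ha
      refine ⟨Monoid.CoprodI.of (M := fun b : Bool => fam A B b) (i := false) ⟨a, ha⟩, ?_⟩
      rw [Monoid.CoprodI.lift_of]
      rfl

end Pool.Agent.RFR
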