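import Pool.Agent.RFR.SPing
import Pool.Agent.RFR.SLoop

set_option autoImplicit false

/-! RFR-SSplit: Stallings' theorem for torsion free groups. -/

namespace Pool.Agent.RFR

open scoped Pointwise

/-- Stallings: a finitely generated torsion free group with more than one end is cyclic or a
nontrivial free product -/
theorem stallings (S : Type) [Group S] [hfg : Group.FG S]
    (htf : ∀ (g : S) (n : ℕ), 0 < n → g ^ n = 1 → g = 1) (h : HasAI S) :
    (∃ t : S, ∀ g : S, g ∈ Subgroup.zpowers t) ∨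
      ∃ A B : Subgroup S, A ≠ ⊥ ∧ B ≠ ⊥ ∧ FreeProd A B := by
  obtain ⟨X, hX⟩ := hfg.out
  obtain ⟨A, h1, h2, h3⟩ := h
  obtain ⟨j, hj⟩ := kcut_of_ai X h1 h2 h3
  obtain ⟨k, hk, C0, hC0⟩ := exists_minK hj
  obtain ⟨C, hC, hn⟩ := exists_opt hX hk hC0
  by_cases ht : ∃ t : S, Star (Orb C) (t • Cᶜ) C
  · obtain ⟨t, ht⟩ := ht
    rcases split_two hX hk hC htf hn ht with h4 | h4
    · exact Or.inl ⟨t, h4⟩
    · exact Or.inr h4
  · exact Or.inr (split_one hX hk hC htf hn ht)

end Pool.Agent.RFR
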