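import Pool.Agent.RFR.SDefs

set_option autoImplicit false

/-! RFR-SSub (8.1): complements, submodularity, translates, connectedness of the Cayley graph.

PLAN.  `dE_compl`: ext, tauto.  `dE_inter`, `dE_union`: an edge with exactly one end in `A ∩ B` has exactly one end in
`A` or in `B`.  `dE_submod`: count edges: with finite sets use `Set.ncard_union_add_ncard_inter` or the pointwise
inequality of indicator functions: every edge in exactly `j` (0,1,2) of `dE (A ∩ B)`, `dE (A ∪ B)` is in at least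
`j` of `dE A`, `dE B`: `dE (A ∩ B) ∪ dE (A ∪ B) ⊆ dE A ∪ dE B` and
`dE (A ∩ B) ∩ dE (A ∪ B) ⊆ dE A ∩ dE B`.  `dl_smul`: the map `(h, x) ↦ (g * h, x)` is injective.
`cn_univ`: a set closed under the edges is closed under right multiplication by `X` and `X⁻¹`, hence by
`Subgroup.closure`. -/

namespace Pool.Agent.RFR

open scoped Pointwise

theorem dE_compl {V Ed : Type} (s t : Ed → V) (U : Set Ed) (A : Set V) :
    dE s t U Aᶜ = dE s t U A := by
  ext e
  have h : (s e ∈ Aᶜ ↔ t e ∈ Aᶜ) ↔ (s e ∈ A ↔ t e ∈ A) := not_iff_not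
  exact and_congr Iff.rfl (not_congr h)

theorem dE_inter {V Ed : Type} (s t : Ed → V) (U : Set Ed) (A B : Set V) :
    dE s t U (A ∩ B) ⊆ dE s t U A ∪ dE s t U B := by
  rintro e ⟨h1, h2⟩
  by_cases hA : (s e ∈ A ↔ t e ∈ A)
  · exact Or.inr ⟨h1, fun hB => h2 (and_congr hA hB)⟩
  · exact Or.inl ⟨h1, hA⟩

theorem dE_union {V Ed : Type} (s t : Ed → V) (U : Set Ed) (A B : Set V) :
    dE s t U (A ∪ B) ⊆ dE s t U A ∪ dE s t U B := by
  rintro e ⟨h1, h2⟩
  by_cases hA : (s e ∈ A ↔ t e ∈ A)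
  · exact Or.inr ⟨h1, fun hB => h2 (or_congr hA hB)⟩
  · exact Or.inl ⟨h1, hA⟩

theorem dE_submod {V Ed : Type} (s t : Ed → V) (U : Set Ed) (A B : Set V)
    (hA : (dE s t U A).Finite) (hB : (dE s t U B).Finite) :
    (dE s t U (A ∩ B)).ncard + (dE s t U (A ∪ B)).ncard ≤
      (dE s t U A).ncard + (dE s t U B).ncard := by
  have f1 := (hA.union hB).subset (dE_inter s t U A B)
  have f2 := (hA.union hB).subset (dE_union s t U A B)
  rw [← Set.ncard_union_add_ncard_inter _ _ f1 f2, ← Set.ncard_union_add_ncard_inter _ _ hA hB]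
  refine add_le_add ?_ ?_
  · exact Set.ncard_le_ncard (Set.union_subset (dE_inter s t U A B) (dE_union s t U A B))
      (hA.union hB)
  · refine Set.ncard_le_ncard ?_ (hA.subset Set.inter_subset_left)
    rintro e ⟨⟨h1, h2⟩, ⟨_, h3⟩⟩
    have h2' : ¬ ((s e ∈ A ∧ s e ∈ B) ↔ (t e ∈ A ∧ t e ∈ B)) := h2
    have h3' : ¬ ((s e ∈ A ∨ s e ∈ B) ↔ (t e ∈ A ∨ t e ∈ B)) := h3
    refine ⟨⟨h1, ?_⟩, ⟨h1, ?_⟩⟩
    · tauto
    · tauto

variable {S : Type} [Group S]

theorem dl_smul (X : Finset S) (g : S) (A : Set S) :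
    dl X (g • A) = (fun e : S × S => (g * e.1, e.2)) '' dl X A := by
  have key : ∀ u : S, g * u ∈ g • A ↔ u ∈ A := fun u =>
    Set.smul_mem_smul_set_iff (a := g) (s := A) (x := u)
  ext e
  constructor
  · rintro ⟨h1, h2⟩
    refine ⟨(g⁻¹ * e.1, e.2), ⟨h1, fun h => h2 ?_⟩, ?_⟩
    · have a1 := key (g⁻¹ * e.1)
      have a2 := key (g⁻¹ * e.1 * e.2)
      have e1 : g * (g⁻¹ * e.1) = e.1 := by group
      have e2 : g * (g⁻¹ * e.1 * e.2) = e.1 * e.2 := by group
      rw [e1] at a1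
      rw [e2] at a2
      exact a1.trans (Iff.trans h a2.symm)
    · exact Prod.ext (by show g * (g⁻¹ * e.1) = e.1; group) rfl
  · rintro ⟨f, ⟨h1, h2⟩, rfl⟩
    refine ⟨h1, fun h => h2 ?_⟩
    have h' : g * f.1 ∈ g • A ↔ g * f.1 * f.2 ∈ g • A := h
    rw [mul_assoc, key, key] at h'
    exact h'

private theorem SSub_inj (g : S) : Function.Injective (fun e : S × S => (g * e.1, e.2)) := by
  intro a b h
  have h' : ((g * a.1, a.2) : S × S) = (g * b.1, b.2) := h
  have h1 := congrArg Prod.fst h'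
  have h2 := congrArg Prod.snd h'
  exact Prod.ext (mul_left_cancel h1) h2

private theorem SSub_inf {A : Set S} (h : A.Infinite) (g : S) : (g • A).Infinite := by
  rw [← Set.image_smul]
  exact h.image (fun a _ b _ hab => mul_left_cancel hab)

theorem kcut_smul {X : Finset S} {k : ℕ} {A : Set S} (h : KCut X k A) (g : S) :
    KCut X k (g • A) := by
  obtain ⟨h1, h2, h3, h4⟩ := h
  refine ⟨SSub_inf h1 g, ?_, ?_, ?_⟩
  · rw [← Set.smul_set_compl]
    exact SSub_inf h2 g
  · rw [dl_smul]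
    exact h3.image _
  · rw [dl_smul, Set.ncard_image_of_injective _ (SSub_inj g), h4]

theorem kcut_compl {X : Finset S} {k : ℕ} {A : Set S} (h : KCut X k A) : KCut X k Aᶜ := by
  obtain ⟨h1, h2, h3, h4⟩ := h
  have e : dl X Aᶜ = dl X A := dE_compl _ _ _ A
  refine ⟨h2, ?_, ?_, ?_⟩
  · rwa [compl_compl]
  · rwa [e]
  · rwa [e]

theorem cn_univ {X : Finset S} (hX : Subgroup.closure (X : Set S) = ⊤) : Cn X Set.univ := by
  intro B _ h
  have key : ∀ y : S, ∀ g : S, g ∈ B ↔ g * y ∈ B := by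
    intro y
    have hy : y ∈ Subgroup.closure (X : Set S) := by
      rw [hX]
      exact Subgroup.mem_top y
    induction hy using Subgroup.closure_induction with
    | mem x hx => exact fun g => h (g, x) hx (Set.mem_univ _) (Set.mem_univ _)
    | one =>
      intro g
      rw [mul_one]
    | mul x y _ _ hx hy =>
      intro g
      rw [hx g, hy (g * x), mul_assoc]
    | inv x _ hx =>
      intro g
      have := hx (g * x⁻¹)
      rw [inv_mul_cancel_right] at this
      exact this.symm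
  rcases Set.eq_empty_or_nonempty B with h0 | ⟨b, hb⟩
  · exact Or.inl h0
  · right
    rw [Set.eq_univ_iff_forall]
    intro u
    have := (key (b⁻¹ * u) b).1 hb
    rwa [mul_inv_cancel_left] at this

/-- an almost invariant set is a cut -/
theorem kcut_of_ai (X : Finset S) {A : Set S} (h1 : A.Infinite) (h2 : Aᶜ.Infinite)
    (h3 : ∀ x : S, {u : S | ¬ (u ∈ A ↔ u * x ∈ A)}.Finite) : ∃ k, KCut X k A := by
  refine ⟨(dl X A).ncard, h1, h2, ?_, rfl⟩
  have hf : (⋃ x ∈ (X : Set S), (fun u : S => (u, x)) '' {u : S | ¬ (u ∈ A ↔ u * x ∈ A)}).Finite :=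
    X.finite_toSet.biUnion fun x _ => (h3 x).image _
  refine hf.subset ?_
  rintro e ⟨he1, he2⟩
  rw [Set.mem_iUnion₂]
  exact ⟨e.2, he1, e.1, he2, rfl⟩

end Pool.Agent.RFR
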