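import Pool.Agent.RFR.PDefs

set_option autoImplicit false

/-! RFR-THom (1.1): homomorphisms to `ℤ` of a finitely generated group, length functions.

PLAN.  `hom_family`: the abelianization `Additive (Abelianization K)` is a f.g. `ℤ`-module `M`; `M / torsion` is free of finite rank `n`, the coordinates give `n` homomorphisms whose common kernel is `{g | g ^ m ∈ commutator K, some m > 0}` (`Submodule.torsion`, `Module.Finite`, `Module.Free`; allow `n = 0` by adding the
zero homomorphism: the family is indexed by `Fin (n + 1)` so that it is nonempty).  `length_exists`: word length with respect to a finite symmetric generating set: `ell g` = least `n` such that `g` is a product of a list of length `n` with entries in `X ∪ X⁻¹`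
(`Subgroup.exists_list_of_mem_closure`).  `lip_of_cocycle`: if `f (g * u) = φ g + f u` for `g ∈ E`, `E` of finite index, then for a fixed `x` the difference `f (u * x) - f u` only depends on the coset `E u`, so it is bounded; take the maximum over `X ∪ X⁻¹`, induction on the length. -/

namespace Pool.Agent.RFR

theorem hom_family (K : Type) [Group K] [Group.FG K] :
    ∃ (n : ℕ) (ψ : Fin (n + 1) → K →* Multiplicative ℤ), ∀ g : K, (∀ i, ψ i g = 1) ↔
      ∃ m : ℕ, 0 < m ∧ g ^ m ∈ commutator K := by
  have hfg : Group.FG (Abelianization K) :=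
    Group.fg_of_surjective (f := Abelianization.of) QuotientGroup.mk_surjective
  have hfin : Module.Finite ℤ (Additive (Abelianization K)) := by
    rw [Module.Finite.iff_addGroup_fg]
    rw [Group.fg_iff_monoid_fg, Monoid.fg_iff_add_fg, ← AddGroup.fg_iff_addMonoid_fg] at hfg
    exact hfg
  let M := Additive (Abelianization K)
  let b := Module.finBasis ℤ (M ⧸ Submodule.torsion ℤ M)
  let q : K → M ⧸ Submodule.torsion ℤ M := fun g =>
    (Submodule.torsion ℤ M).mkQ (Additive.ofMul (Abelianization.of g))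
  have hq : ∀ g h : K, q (g * h) = q g + q h := by
    intro g h
    show (Submodule.torsion ℤ M).mkQ (Additive.ofMul (Abelianization.of (g * h))) = _
    rw [map_mul, ofMul_mul, map_add]
  let ψ₀ : Fin (Module.finrank ℤ (M ⧸ Submodule.torsion ℤ M)) → K →* Multiplicative ℤ :=
    fun i => MonoidHom.mk' (fun g => Multiplicative.ofAdd (b.coord i (q g))) (by
      intro g h
      rw [hq, map_add, ofAdd_add])
  refine ⟨Module.finrank ℤ (M ⧸ Submodule.torsion ℤ M), Fin.cases 1 ψ₀, fun g => ?_⟩
  have h1 : (∀ i, (Fin.cases 1 ψ₀ : Fin (Module.finrank ℤ (M ⧸ Submodule.torsion ℤ M) + 1) →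
      K →* Multiplicative ℤ) i g = 1) ↔ q g = 0 := by
    constructor
    · intro h
      apply b.ext_elem
      intro i
      have h2 : ψ₀ i g = 1 := h i.succ
      have h3 : b.coord i (q g) = 0 := h2
      rw [map_zero]
      exact h3
    · intro h i
      refine Fin.cases ?_ (fun i => ?_) i
      · rfl
      · show Multiplicative.ofAdd (b.coord i (q g)) = 1
        rw [h, map_zero, ofAdd_zero]
  rw [h1]
  have h4 : q g = 0 ↔ Additive.ofMul (Abelianization.of g) ∈ Submodule.torsion ℤ M := by
    show (Submodule.torsion ℤ M).mkQ _ = 0 ↔ _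
    rw [Submodule.mkQ_apply, Submodule.Quotient.mk_eq_zero]
  have h5 : ∀ m : ℕ, (m : ℤ) • (Additive.ofMul (Abelianization.of g) : M) = 0 ↔
      g ^ m ∈ commutator K := by
    intro m
    rw [← Abelianization.ker_of, MonoidHom.mem_ker, map_pow, natCast_zsmul, ← ofMul_pow,
      ofMul_eq_zero]
  rw [h4, Submodule.mem_torsion_iff]
  constructor
  · rintro ⟨⟨a, ha⟩, h⟩
    have ha0 : a ≠ 0 := nonZeroDivisors.ne_zero ha
    refine ⟨a.natAbs, Int.natAbs_pos.2 ha0, (h5 _).1 ?_⟩
    have h6 : a • (Additive.ofMul (Abelianization.of g) : M) = 0 := h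
    rcases Int.natAbs_eq a with h7 | h7
    · rw [← h7]
      exact h6
    · have h8 : ((a.natAbs : ℕ) : ℤ) = -a := by omega
      rw [h8, neg_smul, h6, neg_zero]
  · rintro ⟨m, hm, h⟩
    exact ⟨⟨(m : ℤ), mem_nonZeroDivisors_of_ne_zero (by exact_mod_cast hm.ne')⟩, (h5 m).2 h⟩

private theorem thom_bdd {K : Type} [Group K] (E : Subgroup K) (hE : E.FiniteIndex) (φ f : K → ℤ)
    (hf : ∀ e ∈ E, ∀ u, f (e * u) = φ e + f u) (x : K) :
    ∃ C : ℕ, ∀ u, |f (u * x) - f u| ≤ C := by
  have hfin : Finite (Quotient (QuotientGroup.rightRel E)) :=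
    Finite.of_equiv _ (QuotientGroup.quotientRightRelEquivQuotientLeftRel E).symm
  have hF : ∀ u v : K, (QuotientGroup.rightRel E) u v →
      (f (u * x) - f u).natAbs = (f (v * x) - f v).natAbs := by
    intro u v h
    rw [QuotientGroup.rightRel_apply] at h
    have h1 := hf _ h (u * x)
    have h2 := hf _ h u
    have h3 : v * u⁻¹ * (u * x) = v * x := by group
    have h4 : v * u⁻¹ * u = v := by group
    rw [h3] at h1
    rw [h4] at h2
    rw [h1, h2]
    congr 1
    ring
  let F : Quotient (QuotientGroup.rightRel E) → ℕ :=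
    Quotient.lift (fun u => (f (u * x) - f u).natAbs) hF
  obtain ⟨C, hC⟩ := (Set.finite_range F).bddAbove
  refine ⟨C, fun u => ?_⟩
  have h1 : F (Quotient.mk _ u) ≤ C := hC ⟨_, rfl⟩
  have h2 : (f (u * x) - f u).natAbs ≤ C := h1
  rw [Int.abs_eq_natAbs]
  exact_mod_cast h2

theorem length_exists (K : Type) [Group K] [Group.FG K] :
    ∃ ell : K → ℕ, ell 1 = 0 ∧ (∀ g h, ell (g * h) ≤ ell g + ell h) ∧
      (∀ n, {g | ell g ≤ n}.Finite) ∧
      ∀ (E : Subgroup K) (_ : E.FiniteIndex) (φ f : K → ℤ),
        (∀ e ∈ E, ∀ u, f (e * u) = φ e + f u) → ∃ A : ℕ, ∀ u g, |f (u * g) - f u| ≤ A * ell g := by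
  classical
  obtain ⟨S, hS, hSf⟩ := Group.fg_iff.1 (inferInstance : Group.FG K)
  let T : Set K := S ∪ S⁻¹
  have hT : T.Finite := hSf.union (hSf.inv)
  have hex : ∀ g : K, ∃ n : ℕ, ∃ l : List K, (∀ y ∈ l, y ∈ T) ∧ l.prod = g ∧ l.length = n := by
    intro g
    have h1 : g ∈ Submonoid.closure T := by
      have h2 : g ∈ (Subgroup.closure S).toSubmonoid := by
        rw [hS]
        trivial
      rw [Subgroup.closure_toSubmonoid] at h2
      exact h2
    obtain ⟨l, h3, h4⟩ := Submonoid.exists_list_of_mem_closure h1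
    exact ⟨l.length, l, h3, h4, rfl⟩
  let ell : K → ℕ := fun g => Nat.find (hex g)
  have hell : ∀ g, ∃ l : List K, (∀ y ∈ l, y ∈ T) ∧ l.prod = g ∧ l.length = ell g :=
    fun g => Nat.find_spec (hex g)
  have hmin : ∀ l : List K, (∀ y ∈ l, y ∈ T) → ell l.prod ≤ l.length := fun l hl =>
    Nat.find_min' (hex l.prod) ⟨l, hl, rfl, rfl⟩
  refine ⟨ell, ?_, ?_, ?_, ?_⟩
  · have h1 := hmin [] (by simp)
    simpa using h1
  · intro g h
    obtain ⟨l, h1, h2, h3⟩ := hell g
    obtain ⟨l', h1', h2', h3'⟩ := hell h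
    have h4 := hmin (l ++ l') (by
      intro y hy
      rcases List.mem_append.1 hy with h5 | h5
      · exact h1 y h5
      · exact h1' y h5)
    rw [List.prod_append, h2, h2', List.length_append, h3, h3'] at h4
    exact h4
  · intro n
    have h1 : ∀ n : ℕ, {g : K | ∃ l : List K, (∀ y ∈ l, y ∈ T) ∧ l.prod = g ∧
        l.length = n}.Finite := by
      intro n
      induction n with
      | zero =>
        refine (Set.finite_singleton (1 : K)).subset ?_
        rintro g ⟨l, -, h2, h3⟩
        rw [List.length_eq_zero_iff] at h3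
        rw [h3] at h2
        exact h2.symm
      | succ n ih =>
        refine (Set.Finite.image2 (fun a b => a * b) hT ih).subset ?_
        rintro g ⟨l, h1, h2, h3⟩
        cases l with
        | nil => simp at h3
        | cons a l =>
          refine ⟨a, h1 a (by simp), l.prod, ⟨l, fun y hy => h1 y (by simp [hy]), rfl, ?_⟩, ?_⟩
          · simpa using h3
          · rw [List.prod_cons] at h2
            exact h2
    refine ((Set.finite_Iic n).biUnion fun m _ => h1 m).subset ?_
    intro g hg
    obtain ⟨l, h2, h3, h4⟩ := hell g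
    exact Set.mem_biUnion (show ell g ∈ Set.Iic n from hg) ⟨l, h2, h3, h4⟩
  · intro E hE φ f hf
    choose C hC using thom_bdd E hE φ f hf
    refine ⟨∑ x ∈ hT.toFinset, C x, ?_⟩
    have h1 : ∀ x ∈ T, C x ≤ ∑ x ∈ hT.toFinset, C x := fun x hx =>
      Finset.single_le_sum (f := C) (fun _ _ => Nat.zero_le _) (hT.mem_toFinset.2 hx)
    have h2 : ∀ l : List K, (∀ y ∈ l, y ∈ T) → ∀ u, |f (u * l.prod) - f u| ≤
        ((∑ x ∈ hT.toFinset, C x : ℕ) : ℤ) * l.length := by
      intro l
      induction l with
      | nil =>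
        intro _ u
        simp
      | cons a l ih =>
        intro hl u
        have h3 := ih (fun y hy => hl y (by simp [hy])) (u * a)
        have h4 := hC a u
        have h5 : ((C a : ℕ) : ℤ) ≤ ((∑ x ∈ hT.toFinset, C x : ℕ) : ℤ) := by
          exact_mod_cast h1 a (hl a (by simp))
        have h6 : u * (a :: l).prod = u * a * l.prod := by
          rw [List.prod_cons, mul_assoc]
        have h7 : (((a :: l).length : ℕ) : ℤ) = (l.length : ℤ) + 1 := by
          simp
        rw [h6, h7, mul_add, mul_one]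
        have h8 : f (u * a * l.prod) - f u =
            (f (u * a * l.prod) - f (u * a)) + (f (u * a) - f u) := by ring
        rw [h8]
        exact (abs_add_le _ _).trans (add_le_add h3 (h4.trans h5))
    intro u g
    obtain ⟨l, h3, h4, h5⟩ := hell g
    have h6 := h2 l h3 u
    rw [h4, h5] at h6
    exact h6

/-- potentials -/
theorem pot_exists {K : Type} [Group K] (E : Subgroup K) (φ : K → ℤ)
    (hφ : ∀ g ∈ E, ∀ h ∈ E, φ (g * h) = φ g + φ h) :
    ∃ f : K → ℤ, ∀ e ∈ E, ∀ u, f (e * u) = φ e + f u := by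
  let r : K → K := fun u => Quotient.out (Quotient.mk (QuotientGroup.rightRel E) u)
  have hr : ∀ u, u * (r u)⁻¹ ∈ E := fun u => by
    have h1 : (QuotientGroup.rightRel E) (r u) u := Quotient.mk_out (s := QuotientGroup.rightRel E) u
    rwa [QuotientGroup.rightRel_apply] at h1
  have hr' : ∀ e ∈ E, ∀ u, r (e * u) = r u := fun e he u => by
    have h1 : Quotient.mk (QuotientGroup.rightRel E) (e * u) =
        Quotient.mk (QuotientGroup.rightRel E) u := by
      apply Quotient.sound
      show (QuotientGroup.rightRel E) (e * u) u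
      rw [QuotientGroup.rightRel_apply]
      have h2 : u * (e * u)⁻¹ = e⁻¹ := by group
      rw [h2]
      exact E.inv_mem he
    show Quotient.out _ = Quotient.out _
    rw [h1]
  refine ⟨fun u => φ (u * (r u)⁻¹), fun e he u => ?_⟩
  show φ (e * u * (r (e * u))⁻¹) = φ e + φ (u * (r u)⁻¹)
  rw [hr' e he u, mul_assoc]
  exact hφ e he _ (hr u)

end Pool.Agent.RFR
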