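import Pool.Agent.RFR.VDefs
import Pool.Agent.PDC.AugI
import Pool.Agent.PDC.DualB

set_option autoImplicit false

/-! RFR-VA (V1): comparison of the resolution with the beginning of the resolution given by the tuple `x`.

The linear map `β` is a lift of a linear map `τ` on `P0` which lifts the augmentation; `σ j` measures the failure of `β`
to be inverse to the map given by the elements `p j` with `d1 (p j) = (x j - 1) p0`. -/

namespace Pool.Agent.RFR

open MonoidAlgebra PDC

private theorem VA_single {K : Type} [Group K] {n : ℕ} (x : Fin n → K) (j : Fin n) :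
    bd x (Pi.single j 1) = of ℤ K (x j) - 1 := by
  rw [bd_apply, Finset.sum_eq_single j]
  · rw [Pi.single_eq_same, one_mul]
  · intro k _ hk
    rw [Pi.single_eq_of_ne hk, zero_mul]
  · intro h
    exact absurd (Finset.mem_univ j) h

private theorem VA_sum {R : Type} [Ring R] {n : ℕ} (y : Fin n → R) :
    ∑ j, y j • (Pi.single j (1 : R) : Fin n → R) = y := by
  funext k
  rw [Finset.sum_apply, Finset.sum_eq_single k]
  · rw [Pi.smul_apply, Pi.single_eq_same, smul_eq_mul, mul_one]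
  · intro j _ hj
    rw [Pi.smul_apply, Pi.single_eq_of_ne hj.symm, smul_zero]
  · intro h
    exact absurd (Finset.mem_univ k) h

theorem comp_G {G : Type} [Group G] (X : PD3 G) {n : ℕ} (x : Fin n → G)
    (hx : Subgroup.closure (Set.range x) = ⊤) :
    ∃ (p : Fin n → X.P1) (β : X.P1 →ₗ[MonoidAlgebra ℤ G] (Fin n → MonoidAlgebra ℤ G))
      (σ : Fin n → Fin n → MonoidAlgebra ℤ G),
      (∀ z : X.P1, X.d1 z = 0 → bd x (β z) = 0) ∧ (∀ j, bd x (σ j) = 0) ∧
      ∀ y : Fin n → MonoidAlgebra ℤ G, bd x y = 0 →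
        X.d1 (∑ j, y j • p j) = 0 ∧ y = β (∑ j, y j • p j) - ∑ j, y j • σ j := by
  classical
  obtain ⟨p0, hp0⟩ := X.surj 1
  obtain ⟨τ, hτ⟩ := tau_exists X
  obtain ⟨m, b, ν, hb⟩ := dual_basis (MonoidAlgebra ℤ G) X.P1
  have hd1 : ∀ q, X.ε (X.d1 q) = 0 := fun q => (X.ex0 (X.d1 q)).2 ⟨q, rfl⟩
  have hy0 : ∀ j : Fin n, ∃ y : X.P1, X.d1 y = (of ℤ G (x j) - 1) • p0 := by
    intro j
    refine (X.ex0 _).1 ?_
    rw [eps_smul, map_sub, aug_of, map_one, sub_self, zero_mul]
  choose p hp using hy0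
  have hc0 : ∀ i : Fin m, ∃ c : Fin n → MonoidAlgebra ℤ G, bd x c = τ (X.d1 (b i)) := by
    intro i
    refine aug_exact x hx _ ?_
    rw [hτ, hd1]
  choose c hc using hc0
  obtain ⟨β, hβ⟩ : ∃ β : X.P1 →ₗ[MonoidAlgebra ℤ G] (Fin n → MonoidAlgebra ℤ G),
      ∀ q, β q = ∑ i, ν i q • c i := by
    refine ⟨∑ i, (LinearMap.toSpanSingleton (MonoidAlgebra ℤ G) (Fin n → MonoidAlgebra ℤ G) (c i)).comp (ν i),
      fun q => ?_⟩
    rw [LinearMap.sum_apply]
    rfl
  have βbd : ∀ q, bd x (β q) = τ (X.d1 q) := by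
    intro q
    rw [hβ, map_sum]
    conv_rhs => rw [hb q]
    rw [map_sum, map_sum]
    refine Finset.sum_congr rfl fun i _ => ?_
    rw [map_smul, map_smul, map_smul, hc]
  obtain ⟨s, hs⟩ := aug_exact x hx (τ p0 - 1) (by
    rw [map_sub, hτ, hp0, map_one, sub_self])
  refine ⟨p, β, fun j => β (p j) - Pi.single j 1 - (of ℤ G (x j) - 1) • s, ?_, ?_, ?_⟩
  · intro z hz
    rw [βbd, hz, map_zero]
  · intro j
    rw [map_sub, map_sub, map_smul, βbd, hp, hs, VA_single, map_smul, smul_eq_mul, smul_eq_mul, mul_sub, mul_one]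
    abel
  · intro y hy
    have hsum : ∑ j, y j * (of ℤ G (x j) - 1) = 0 := by
      rw [← bd_apply, hy]
    refine ⟨?_, ?_⟩
    · rw [map_sum]
      have h2 : ∀ j ∈ Finset.univ, X.d1 (y j • p j) = (y j * (of ℤ G (x j) - 1)) • p0 := by
        intro j _
        rw [map_smul, hp, smul_smul]
      rw [Finset.sum_congr rfl h2, ← Finset.sum_smul, hsum, zero_smul]
    · have h3 : β (∑ j, y j • p j) = ∑ j, y j • β (p j) := by
        rw [map_sum]
        exact Finset.sum_congr rfl fun j _ => map_smul _ _ _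
      have h4 := VA_sum y
      have h5 : ∑ j, y j • ((of ℤ G (x j) - 1) • s) = 0 := by
        have h6 : ∀ j ∈ Finset.univ, y j • ((of ℤ G (x j) - 1) • s) = (y j * (of ℤ G (x j) - 1)) • s := by
          intro j _
          rw [smul_smul]
        rw [Finset.sum_congr rfl h6, ← Finset.sum_smul, hsum, zero_smul]
      have h7 : ∑ j, y j • (β (p j) - Pi.single j 1 - (of ℤ G (x j) - 1) • s) =
          ∑ j, y j • β (p j) - ∑ j, y j • (Pi.single j (1 : MonoidAlgebra ℤ G) : Fin n → MonoidAlgebra ℤ G) -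
            ∑ j, y j • ((of ℤ G (x j) - 1) • s) := by
        rw [← Finset.sum_sub_distrib, ← Finset.sum_sub_distrib]
        exact Finset.sum_congr rfl fun j _ => by rw [smul_sub, smul_sub]
      rw [h3, h7, h4, h5]
      abel

end Pool.Agent.RFR
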