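import Pool.Agent.RFR.VT
import Pool.Agent.PDC.AugI
import Pool.Agent.PDC.DualB

set_option autoImplicit false

/-! RFR-VB (V2): the dual comparison.  The resolution dual to the resolution `X` is compared with
the partial resolution of the generators `x` and the relations `ρ`; the duals are left modules by
means of the twisted anti-automorphism `tw w`. -/

namespace Pool.Agent.RFR

open MonoidAlgebra PDC

section aux

variable {G : Type} [Group G] {M : Type} [AddCommGroup M] [Module (MonoidAlgebra ℤ G) M]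

private theorem vb_rmul_rmul (φ : M →ₗ[MonoidAlgebra ℤ G] MonoidAlgebra ℤ G)
    (r s : MonoidAlgebra ℤ G) : rmul (rmul φ r) s = rmul φ (r * s) :=
  LinearMap.ext fun q => by rw [rmul_apply, rmul_apply, rmul_apply, mul_assoc]

private theorem vb_comp {M' : Type} [AddCommGroup M'] [Module (MonoidAlgebra ℤ G) M']
    (d : M' →ₗ[MonoidAlgebra ℤ G] M) (φ : M →ₗ[MonoidAlgebra ℤ G] MonoidAlgebra ℤ G)
    (r : MonoidAlgebra ℤ G) : (rmul φ r).comp d = rmul (φ.comp d) r :=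
  LinearMap.ext fun q => by
    rw [LinearMap.comp_apply, rmul_apply, rmul_apply, LinearMap.comp_apply]

private theorem vb_sub_left (φ ψ : M →ₗ[MonoidAlgebra ℤ G] MonoidAlgebra ℤ G)
    (r : MonoidAlgebra ℤ G) : rmul (φ - ψ) r = rmul φ r - rmul ψ r :=
  LinearMap.ext fun q => by
    rw [rmul_apply, LinearMap.sub_apply, LinearMap.sub_apply, rmul_apply, rmul_apply, sub_mul]

private theorem vb_sum_left {κ : Type} (s : Finset κ)
    (φ : κ → (M →ₗ[MonoidAlgebra ℤ G] MonoidAlgebra ℤ G)) (r : MonoidAlgebra ℤ G) :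
    rmul (∑ i ∈ s, φ i) r = ∑ i ∈ s, rmul (φ i) r :=
  LinearMap.ext fun q => by
    rw [rmul_apply, LinearMap.sum_apply, LinearMap.sum_apply, Finset.sum_mul]
    exact Finset.sum_congr rfl fun i _ => (rmul_apply _ _ _).symm

private theorem vb_sum_right {κ : Type} (s : Finset κ)
    (φ : M →ₗ[MonoidAlgebra ℤ G] MonoidAlgebra ℤ G) (r : κ → MonoidAlgebra ℤ G) :
    rmul φ (∑ i ∈ s, r i) = ∑ i ∈ s, rmul φ (r i) :=
  LinearMap.ext fun q => by
    rw [rmul_apply, LinearMap.sum_apply, Finset.mul_sum]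
    exact Finset.sum_congr rfl fun i _ => (rmul_apply _ _ _).symm

private theorem vb_zero_right (φ : M →ₗ[MonoidAlgebra ℤ G] MonoidAlgebra ℤ G) :
    rmul φ 0 = 0 :=
  LinearMap.ext fun q => by rw [rmul_apply, mul_zero, LinearMap.zero_apply]

private theorem vb_expand {m : ℕ} (e : Fin m → M)
    (μ : Fin m → (M →ₗ[MonoidAlgebra ℤ G] MonoidAlgebra ℤ G))
    (h : ∀ q : M, q = ∑ k, μ k q • e k) (Λ : M →ₗ[MonoidAlgebra ℤ G] MonoidAlgebra ℤ G) :
    Λ = ∑ k, rmul (μ k) (Λ (e k)) :=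
  LinearMap.ext fun q => by
    rw [LinearMap.sum_apply]
    conv_lhs => rw [h q]
    rw [map_sum]
    refine Finset.sum_congr rfl fun k _ => ?_
    rw [map_smul, smul_eq_mul, rmul_apply]

/-- the semilinear map on the dual with the values `Y` on the dual basis -/
private noncomputable def vbF (w : G → ℤ) {N : Type} [AddCommGroup N]
    [Module (MonoidAlgebra ℤ G) N] {m : ℕ} (e : Fin m → M) (Y : Fin m → N)
    (Λ : M →ₗ[MonoidAlgebra ℤ G] MonoidAlgebra ℤ G) : N :=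
  ∑ k, tw w (Λ (e k)) • Y k

private theorem vbF_rmul {w : G → ℤ} (hm : ∀ g g', w (g * g') = w g * w g') {N : Type}
    [AddCommGroup N] [Module (MonoidAlgebra ℤ G) N] {m : ℕ} (e : Fin m → M) (Y : Fin m → N)
    (φ : M →ₗ[MonoidAlgebra ℤ G] MonoidAlgebra ℤ G) (b : MonoidAlgebra ℤ G) :
    vbF w e Y (rmul φ b) = tw w b • vbF w e Y φ := by
  unfold vbF
  rw [Finset.smul_sum]
  refine Finset.sum_congr rfl fun k _ => ?_
  rw [rmul_apply, tw_mul hm, mul_smul]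

private theorem vbF_sum (w : G → ℤ) {N : Type}
    [AddCommGroup N] [Module (MonoidAlgebra ℤ G) N] {m : ℕ} (e : Fin m → M) (Y : Fin m → N)
    {κ : Type} (s : Finset κ) (φ : κ → (M →ₗ[MonoidAlgebra ℤ G] MonoidAlgebra ℤ G)) :
    vbF w e Y (∑ i ∈ s, φ i) = ∑ i ∈ s, vbF w e Y (φ i) := by
  unfold vbF
  rw [Finset.sum_comm]
  refine Finset.sum_congr rfl fun k _ => ?_
  rw [LinearMap.sum_apply, map_sum, Finset.sum_smul]

/-- the semilinear map from tuples to a dual with the values `γ` -/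
private noncomputable def vbC (w : G → ℤ) {m : ℕ}
    (γ : Fin m → (M →ₗ[MonoidAlgebra ℤ G] MonoidAlgebra ℤ G)) (y : Fin m → MonoidAlgebra ℤ G) :
    M →ₗ[MonoidAlgebra ℤ G] MonoidAlgebra ℤ G :=
  ∑ j, rmul (γ j) (tw w (y j))

private theorem vbC_smul {w : G → ℤ} (hm : ∀ g g', w (g * g') = w g * w g') {m : ℕ}
    (γ : Fin m → (M →ₗ[MonoidAlgebra ℤ G] MonoidAlgebra ℤ G)) (y : Fin m → MonoidAlgebra ℤ G)
    (c : MonoidAlgebra ℤ G) : vbC w γ (c • y) = rmul (vbC w γ y) (tw w c) := by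
  unfold vbC
  rw [vb_sum_left]
  refine Finset.sum_congr rfl fun j _ => ?_
  rw [Pi.smul_apply, smul_eq_mul, tw_mul hm, vb_rmul_rmul]

private theorem vbC_sum (w : G → ℤ) {m : ℕ}
    (γ : Fin m → (M →ₗ[MonoidAlgebra ℤ G] MonoidAlgebra ℤ G)) {κ : Type} (s : Finset κ)
    (y : κ → Fin m → MonoidAlgebra ℤ G) :
    vbC w γ (∑ i ∈ s, y i) = ∑ i ∈ s, vbC w γ (y i) := by
  unfold vbC
  rw [Finset.sum_comm]
  refine Finset.sum_congr rfl fun j _ => ?_
  rw [Finset.sum_apply, map_sum, vb_sum_right]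

private theorem vbC_comp (w : G → ℤ) {M' : Type} [AddCommGroup M']
    [Module (MonoidAlgebra ℤ G) M'] (d : M' →ₗ[MonoidAlgebra ℤ G] M) {m : ℕ}
    (γ : Fin m → (M →ₗ[MonoidAlgebra ℤ G] MonoidAlgebra ℤ G)) (y : Fin m → MonoidAlgebra ℤ G) :
    (vbC w γ y).comp d = ∑ j, rmul ((γ j).comp d) (tw w (y j)) := by
  unfold vbC
  refine LinearMap.ext fun q => ?_
  rw [LinearMap.comp_apply, LinearMap.sum_apply, LinearMap.sum_apply]
  refine Finset.sum_congr rfl fun j _ => ?_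
  rw [rmul_apply, rmul_apply, LinearMap.comp_apply]

private theorem vb_sum_comp {M' : Type} [AddCommGroup M']
    [Module (MonoidAlgebra ℤ G) M'] (d : M' →ₗ[MonoidAlgebra ℤ G] M) {κ : Type} (s : Finset κ)
    (φ : κ → (M →ₗ[MonoidAlgebra ℤ G] MonoidAlgebra ℤ G)) :
    (∑ i ∈ s, φ i).comp d = ∑ i ∈ s, (φ i).comp d := by
  refine LinearMap.ext fun q => ?_
  rw [LinearMap.comp_apply, LinearMap.sum_apply, LinearMap.sum_apply]
  rfl

end aux

theorem dual_comp {G : Type} [Group G] (X : PD3 G) {w : G → ℤ} (hw : ∀ g, w g = 1 ∨ w g = -1)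
    (hm : ∀ g g', w (g * g') = w g * w g')
    (hθ : ∀ (g : G) (φ : X.P3 →ₗ[MonoidAlgebra ℤ G] MonoidAlgebra ℤ G),
      X.θ (rmul φ (of ℤ G g)) = w g * X.θ φ) {n N m : ℕ} (x : Fin n → G)
    (hx : Subgroup.closure (Set.range x) = ⊤) (ρ : Fin N → Fin n → MonoidAlgebra ℤ G)
    (hρ : ∀ l, bd x (ρ l) = 0) (e : Fin m → X.P2)
    (μ : Fin m → (X.P2 →ₗ[MonoidAlgebra ℤ G] MonoidAlgebra ℤ G))
    (hμ : ∀ q : X.P2, q = ∑ k, μ k q • e k) :
    ∃ (Y : Fin m → Fin n → MonoidAlgebra ℤ G)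
      (ω : Fin N → (X.P1 →ₗ[MonoidAlgebra ℤ G] MonoidAlgebra ℤ G))
      (π : Fin m → (X.P1 →ₗ[MonoidAlgebra ℤ G] MonoidAlgebra ℤ G)),
      ∀ Λ : X.P2 →ₗ[MonoidAlgebra ℤ G] MonoidAlgebra ℤ G, Λ.comp X.d3 = 0 →
        bd x (∑ k, tw w (Λ (e k)) • Y k) = 0 ∧
        ∀ c : Fin N → MonoidAlgebra ℤ G, ∑ k, tw w (Λ (e k)) • Y k = ∑ l, c l • ρ l →
          Λ = (∑ l, rmul (ω l) (tw w (c l)) - ∑ k, rmul (π k) (Λ (e k))).comp X.d2 := by
  obtain ⟨p, e', lam', h3⟩ := dual_basis (MonoidAlgebra ℤ G) X.P3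
  obtain ⟨f0, hf0⟩ : ∃ f0 : (X.P3 →ₗ[MonoidAlgebra ℤ G] MonoidAlgebra ℤ G) → MonoidAlgebra ℤ G,
      f0 = vbF w e' (fun l => (X.θ (lam' l)) • (1 : MonoidAlgebra ℤ G)) := ⟨_, rfl⟩
  have hf0r : ∀ (φ : X.P3 →ₗ[MonoidAlgebra ℤ G] MonoidAlgebra ℤ G) (b : MonoidAlgebra ℤ G),
      f0 (rmul φ b) = tw w b * f0 φ := by
    intro φ b
    rw [hf0, vbF_rmul hm, smul_eq_mul]
  have hf0s : ∀ (q : ℕ) (φ : Fin q → (X.P3 →ₗ[MonoidAlgebra ℤ G] MonoidAlgebra ℤ G)),
      f0 (∑ i, φ i) = ∑ i, f0 (φ i) := by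
    intro q φ
    rw [hf0, vbF_sum]
  have hf0a : ∀ lam, aug (f0 lam) = X.θ lam := by
    intro lam
    conv_rhs => rw [vb_expand e' lam' h3 lam]
    rw [map_sum, hf0]
    unfold vbF
    rw [map_sum]
    refine Finset.sum_congr rfl fun l _ => ?_
    rw [tw_theta X hθ, smul_eq_mul, map_mul, map_zsmul, map_one, smul_eq_mul, mul_one]
  have hY : ∀ k, ∃ y, bd x y = f0 ((μ k).comp X.d3) := fun k =>
    aug_exact x hx _ (by rw [hf0a]; exact (X.θker _).2 ⟨μ k, rfl⟩)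
  choose Y hY using hY
  -- the comparison map in degree one
  have hF : ∀ Λ : X.P2 →ₗ[MonoidAlgebra ℤ G] MonoidAlgebra ℤ G,
      bd x (vbF w e Y Λ) = f0 (Λ.comp X.d3) := by
    intro Λ
    have h1 : Λ.comp X.d3 = ∑ k, rmul ((μ k).comp X.d3) (Λ (e k)) := by
      conv_lhs => rw [vb_expand e μ hμ Λ]
      rw [vb_sum_comp]
      exact Finset.sum_congr rfl fun k _ => vb_comp _ _ _
    rw [h1, hf0s]
    unfold vbF
    rw [map_sum]
    refine Finset.sum_congr rfl fun k _ => ?_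
    rw [map_smul, hY, hf0r, smul_eq_mul]
  -- the maps in the other direction
  obtain ⟨lam0, hlam0⟩ := X.θsurj 1
  have hg0 : ∀ r : MonoidAlgebra ℤ G, X.θ (rmul lam0 (tw w r)) = aug r := by
    intro r
    rw [tw_theta X hθ, tw_tw hw hm, hlam0, mul_one]
  have hγ : ∀ j, ∃ γ : X.P2 →ₗ[MonoidAlgebra ℤ G] MonoidAlgebra ℤ G,
      rmul lam0 (tw w (of ℤ G (x j) - 1)) = γ.comp X.d3 := by
    intro j
    refine (X.θker _).1 ?_
    rw [hg0, map_sub, aug_of, map_one, sub_self]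
  choose γ hγ using hγ
  have hg1 : ∀ y : Fin n → MonoidAlgebra ℤ G,
      (vbC w γ y).comp X.d3 = rmul lam0 (tw w (bd x y)) := by
    intro y
    rw [vbC_comp, bd_apply, map_sum, vb_sum_right]
    refine Finset.sum_congr rfl fun j _ => ?_
    rw [← hγ, vb_rmul_rmul, tw_mul hm]
  have hω : ∀ l, ∃ ω : X.P1 →ₗ[MonoidAlgebra ℤ G] MonoidAlgebra ℤ G,
      vbC w γ (ρ l) = ω.comp X.d2 := by
    intro l
    refine X.h2 _ ?_
    rw [hg1, hρ, map_zero, vb_zero_right]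
  choose ω hω using hω
  -- the homotopy
  have hs : ∀ l, ∃ s : X.P2 →ₗ[MonoidAlgebra ℤ G] MonoidAlgebra ℤ G,
      rmul lam0 (tw w (f0 (lam' l))) - lam' l = s.comp X.d3 := by
    intro l
    refine (X.θker _).1 ?_
    rw [map_sub, hg0, hf0a, sub_self]
  choose s hs using hs
  have hs0 : ∀ lam : X.P3 →ₗ[MonoidAlgebra ℤ G] MonoidAlgebra ℤ G,
      (∑ l, rmul (s l) (lam (e' l))).comp X.d3 = rmul lam0 (tw w (f0 lam)) - lam := by
    intro lam
    have h1 : ∀ l, (rmul (s l) (lam (e' l))).comp X.d3 =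
        rmul lam0 (tw w (f0 (rmul (lam' l) (lam (e' l))))) - rmul (lam' l) (lam (e' l)) := by
      intro l
      rw [vb_comp, ← hs, vb_sub_left, vb_rmul_rmul, hf0r, tw_mul hm, tw_tw hw hm]
    rw [vb_sum_comp, Finset.sum_congr rfl fun l _ => h1 l, Finset.sum_sub_distrib,
      ← vb_sum_right, ← map_sum, ← hf0s, ← vb_expand e' lam' h3 lam]
  have hπ : ∀ k, ∃ π : X.P1 →ₗ[MonoidAlgebra ℤ G] MonoidAlgebra ℤ G,
      vbC w γ (vbF w e Y (μ k)) - μ k - ∑ l, rmul (s l) (((μ k).comp X.d3) (e' l)) =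
        π.comp X.d2 := by
    intro k
    refine X.h2 _ ?_
    rw [LinearMap.sub_comp, LinearMap.sub_comp, hg1, hF, hs0]
    abel
  choose π hπ using hπ
  refine ⟨Y, ω, π, fun Λ hΛ => ?_⟩
  have hFΛ : (∑ k, tw w (Λ (e k)) • Y k) = vbF w e Y Λ := rfl
  rw [hFΛ]
  refine ⟨?_, fun c hc => ?_⟩
  · rw [hF, hΛ]
    have h0 := hf0s 0 Fin.elim0
    rw [Finset.univ_eq_empty, Finset.sum_empty, Finset.sum_empty] at h0
    exact h0
  · -- the two sides of the homotopy formula for `Λ`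
    have h1 : ∑ k, rmul (vbC w γ (vbF w e Y (μ k))) (Λ (e k)) = vbC w γ (vbF w e Y Λ) := by
      have h2 : vbF w e Y Λ = ∑ k, tw w (Λ (e k)) • vbF w e Y (μ k) := by
        conv_lhs => rw [vb_expand e μ hμ Λ]
        rw [vbF_sum]
        exact Finset.sum_congr rfl fun k _ => vbF_rmul hm e Y _ _
      rw [h2, vbC_sum]
      refine Finset.sum_congr rfl fun k _ => ?_
      rw [vbC_smul hm, tw_tw hw hm]
    have h3' : ∑ k, rmul (∑ l, rmul (s l) (((μ k).comp X.d3) (e' l))) (Λ (e k)) = 0 := by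
      have h4 : ∀ k, rmul (∑ l, rmul (s l) (((μ k).comp X.d3) (e' l))) (Λ (e k)) =
          ∑ l, rmul (s l) (μ k (X.d3 (e' l)) * Λ (e k)) := by
        intro k
        rw [vb_sum_left]
        refine Finset.sum_congr rfl fun l _ => ?_
        rw [vb_rmul_rmul, LinearMap.comp_apply]
      rw [Finset.sum_congr rfl fun k _ => h4 k, Finset.sum_comm]
      refine Finset.sum_eq_zero fun l _ => ?_
      rw [← vb_sum_right]
      have h5 : ∑ k, μ k (X.d3 (e' l)) * Λ (e k) = 0 := by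
        have h6 : Λ (X.d3 (e' l)) = 0 := by
          have h7 := congrArg (fun φ => φ (e' l)) hΛ
          exact h7
        rw [← h6]
        conv_rhs => rw [hμ (X.d3 (e' l))]
        rw [map_sum]
        refine Finset.sum_congr rfl fun k _ => ?_
        rw [map_smul, smul_eq_mul]
      rw [h5, vb_zero_right]
    have h8 : ∑ k, (rmul (π k) (Λ (e k))).comp X.d2 = vbC w γ (vbF w e Y Λ) - Λ := by
      have h9 : ∀ k, (rmul (π k) (Λ (e k))).comp X.d2 =
          rmul (vbC w γ (vbF w e Y (μ k))) (Λ (e k)) - rmul (μ k) (Λ (e k)) -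
            rmul (∑ l, rmul (s l) (((μ k).comp X.d3) (e' l))) (Λ (e k)) := by
        intro k
        rw [vb_comp, ← hπ, vb_sub_left, vb_sub_left]
      rw [Finset.sum_congr rfl fun k _ => h9 k, Finset.sum_sub_distrib, Finset.sum_sub_distrib,
        h1, h3', sub_zero, ← vb_expand e μ hμ Λ]
    have h10 : vbC w γ (vbF w e Y Λ) = ∑ l, (rmul (ω l) (tw w (c l))).comp X.d2 := by
      rw [hc, vbC_sum]
      refine Finset.sum_congr rfl fun l _ => ?_
      rw [vbC_smul hm, hω, vb_comp]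
    rw [LinearMap.sub_comp, vb_sum_comp, vb_sum_comp, h8, ← h10]
    abel

end Pool.Agent.RFR
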