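import Pool.Agent.RFR.VQ
import Pool.Agent.RFR.VA
import Pool.Agent.RFR.VB

set_option autoImplicit false

/-! RFR-VC (V3): the dual slab lemma: a cochain whose coboundary is in a slab can be replaced by a cochain in a slightly
larger slab with the same coboundary. -/

namespace Pool.Agent.RFR

open MonoidAlgebra PDC

private theorem VC_le {κ : Type} [Fintype κ] {B : κ → ℤ} (h : ∀ k, 0 ≤ B k) (k : κ) :
    B k ≤ ∑ k, B k :=
  Finset.single_le_sum (fun i _ => h i) (Finset.mem_univ k)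

private theorem VC_nonneg {κ : Type} [Fintype κ] {B : κ → ℤ} (h : ∀ k, 0 ≤ B k) :
    0 ≤ ∑ k, B k := Finset.sum_nonneg fun i _ => h i

private theorem VC_nsmul {G : Type} [Group G] {T : G → ℤ} {a b : ℤ} {c : MonoidAlgebra ℤ G}
    (h : InSz T a b c) (m : ℕ) : InSz T a b (m • c) := by
  intro g hg
  apply h g
  intro h0
  apply hg
  rw [coeff_smul, Finsupp.smul_apply, h0, smul_zero]

/-- the value on a fixed relation -/
private theorem VC_rel {G : Type} [Group G] {n N : ℕ} (x : Fin n → G)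
    (ρ : Fin N → Fin n → MonoidAlgebra ℤ G)
    (hρ : Submodule.span (MonoidAlgebra ℤ G) (Set.range ρ) = LinearMap.ker (bd x)) {T : G → ℤ}
    (hT : BdR T) (y : Fin n → MonoidAlgebra ℤ G) (hy : bd x y = 0) :
    ∃ B : ℤ, 0 ≤ B ∧ ∀ (a b : ℤ) (lam : Fin n → MonoidAlgebra ℤ G),
      (∀ k, InSz (Tv T) a b (∑ j, ρ k j * lam j)) →
        InSz (Tv T) (a - B) (b + B) (∑ j, y j * lam j) := by
  have h1 : y ∈ Submodule.span (MonoidAlgebra ℤ G) (Set.range ρ) := by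
    rw [hρ]
    exact hy
  obtain ⟨c, hc⟩ := (Submodule.mem_span_range_iff_exists_fun (MonoidAlgebra ℤ G)).1 h1
  choose B hB0 hB using fun k => inSz_lmul hT (c k)
  refine ⟨∑ k, B k, VC_nonneg hB0, fun a b lam hl => ?_⟩
  have h2 : ∑ j, y j * lam j = ∑ k, c k * ∑ j, ρ k j * lam j := by
    rw [← hc]
    simp only [Finset.sum_apply, Pi.smul_apply, smul_eq_mul, Finset.sum_mul, Finset.mul_sum]
    rw [Finset.sum_comm]
    simp only [mul_assoc]
  rw [h2]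
  refine inSz_sum _ _ fun k _ => ?_
  have h3 := VC_le hB0 k
  exact inSz_mono (hB k a b _ (hl k)) (by linarith) (by linarith)

/-- the integral version -/
private theorem VC_int {G : Type} [Group G] (X : PD3 G) {n N : ℕ} (x : Fin n → G)
    (hx : Subgroup.closure (Set.range x) = ⊤) (ρ : Fin N → Fin n → MonoidAlgebra ℤ G)
    (hρ : Submodule.span (MonoidAlgebra ℤ G) (Set.range ρ) = LinearMap.ker (bd x)) (T : G → ℤ)
    (hT : BdR T) (hS : SlabR T x fun k => (fun j => cz (ρ k j))) :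
    ∃ C : ℤ, 0 ≤ C ∧ ∀ (a b : ℤ) (lam : Fin n → MonoidAlgebra ℤ G),
      (∀ k, InSz (Tv T) a b (∑ j, ρ k j * lam j)) → ∃ (m : ℕ) (_ : 0 < m)
        (lam' : Fin n → MonoidAlgebra ℤ G), (∀ j, InSz (Tv T) (a - C) (b + C) (lam' j)) ∧
        ∀ k, ∑ j, ρ k j * lam' j = m • ∑ j, ρ k j * lam j := by
  obtain ⟨w, hw, hm, hθ⟩ := sign_exists X
  obtain ⟨p, β, σ, hβ, hσ, hc⟩ := comp_G X x hx
  obtain ⟨M, e, μ, hμ⟩ := dual_basis (MonoidAlgebra ℤ G) X.P2
  have hρ0 : ∀ l, bd x (ρ l) = 0 := by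
    intro l
    have h1 : ρ l ∈ LinearMap.ker (bd x) := by
      rw [← hρ]
      exact Submodule.subset_span ⟨l, rfl⟩
    exact h1
  obtain ⟨Y, ω, π, hD⟩ := dual_comp X hw hm hθ x hx ρ hρ0 e μ hμ
  obtain ⟨C0, hC0, hS⟩ := hS
  have h12 : ∀ z : X.P2, X.d1 (X.d2 z) = 0 := fun z => (X.ex1 _).2 ⟨z, rfl⟩
  have h23 : ∀ z : X.P3, X.d2 (X.d3 z) = 0 := fun z => (X.ex2 _).2 ⟨z, rfl⟩
  choose B1 hB1 hb1 using fun k : Fin M =>
    VC_rel x ρ hρ hT (β (X.d2 (e k))) (hβ _ (h12 (e k)))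
  choose B2 hB2 hb2 using fun q : Fin M × Fin n => inSz_mul hT (Y q.1 q.2)
  choose B3 hB3 hb3 using fun q : Fin N × Fin n => inSz_lmul hT (ω q.1 (p q.2))
  choose B4 hB4 hb4 using fun q : Fin M × Fin n => inSz_lmul hT (π q.1 (p q.2))
  choose B5 hB5 hb5 using fun j : Fin n => VC_rel x ρ hρ hT (σ j) (hσ j)
  have p1 := VC_nonneg hB1
  have p2 := VC_nonneg hB2
  have p3 := VC_nonneg hB3
  have p4 := VC_nonneg hB4
  have p5 := VC_nonneg hB5
  refine ⟨C0 + ∑ k, B1 k + ∑ q, B2 q + ∑ q, B3 q + ∑ q, B4 q + ∑ j, B5 j, by positivity,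
    fun a b lam hl => ?_⟩
  obtain ⟨Lam, hLam⟩ : ∃ Lam : (Fin n → MonoidAlgebra ℤ G) →ₗ[MonoidAlgebra ℤ G]
      MonoidAlgebra ℤ G, ∀ y, Lam y = ∑ j, y j * lam j :=
    ⟨Fintype.linearCombination (MonoidAlgebra ℤ G) lam, fun y => by
      rw [Fintype.linearCombination_apply]
      rfl⟩
  obtain ⟨Λ, hΛ⟩ : ∃ Λ : X.P2 →ₗ[MonoidAlgebra ℤ G] MonoidAlgebra ℤ G,
      ∀ q, Λ q = Lam (β (X.d2 q)) := ⟨Lam.comp (β.comp X.d2), fun _ => rfl⟩
  have hΛ3 : Λ.comp X.d3 = 0 := by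
    ext1 z
    rw [LinearMap.comp_apply, hΛ, h23, map_zero, map_zero]
    rfl
  -- bounds for `Λ (e k)`
  have q1 : ∀ k, InSz (Tv T) (a - ∑ k, B1 k) (b + ∑ k, B1 k) (Λ (e k)) := by
    intro k
    have h3 := VC_le hB1 k
    rw [hΛ, hLam]
    exact inSz_mono (hb1 k a b lam hl) (by linarith) (by linarith)
  -- the relation `F`
  obtain ⟨F, hF⟩ : ∃ F : Fin n → MonoidAlgebra ℤ G, F = ∑ k, tw w (Λ (e k)) • Y k := ⟨_, rfl⟩
  have hF0 : bd x F = 0 := by
    rw [hF]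
    exact (hD Λ hΛ3).1
  have q2 : ∀ j, InSz T (a - ∑ k, B1 k - ∑ q, B2 q) (b + ∑ k, B1 k + ∑ q, B2 q) (F j) := by
    intro j
    rw [hF, Finset.sum_apply]
    refine inSz_sum _ _ fun k _ => ?_
    have h3 := VC_le hB2 (k, j)
    rw [Pi.smul_apply, smul_eq_mul]
    exact inSz_mono (hb2 (k, j) _ _ _ (inSz_tw hw hm (q1 k))) (by linarith) (by linarith)
  obtain ⟨c, hc1, hc2⟩ := hS (a - ∑ k, B1 k - ∑ q, B2 q) (b + ∑ k, B1 k + ∑ q, B2 q)
    (fun j => cz (F j)) (by rw [bq_cz, hF0, map_zero]) (fun j => (inSl_cz _ _ _ _).2 (q2 j))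
  obtain ⟨m, hm0, c', hc'⟩ := clear_den c
  have q3 : ∀ l, InSz T (a - ∑ k, B1 k - ∑ q, B2 q - C0) (b + ∑ k, B1 k + ∑ q, B2 q + C0)
      (c' l) := by
    intro l
    rw [← inSl_cz, hc', inSl_nsmul hm0]
    exact hc2 l
  have hmF : m • F = ∑ l, c' l • ρ l := by
    funext j
    apply cz_injective
    have h1 := congrFun hc1 j
    simp only [Finset.sum_apply, Pi.smul_apply, smul_eq_mul] at h1 ⊢
    rw [map_nsmul, h1, map_sum, Finset.smul_sum]
    refine Finset.sum_congr rfl fun l _ => ?_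
    rw [map_mul, hc', smul_mul_assoc]
  have hmΛ3 : (m • Λ).comp X.d3 = 0 := by
    ext1 z
    have h1 := LinearMap.congr_fun hΛ3 z
    rw [LinearMap.comp_apply] at h1
    rw [LinearMap.comp_apply, LinearMap.smul_apply, h1]
    exact smul_zero m
  have hη := (hD (m • Λ) hmΛ3).2 c' (by
    rw [← hmF, hF, Finset.smul_sum]
    refine Finset.sum_congr rfl fun k _ => ?_
    rw [LinearMap.smul_apply, map_nsmul, smul_assoc])
  obtain ⟨η, hη1⟩ : ∃ η : X.P1 →ₗ[MonoidAlgebra ℤ G] MonoidAlgebra ℤ G,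
      η = ∑ l, rmul (ω l) (tw w (c' l)) - ∑ k, rmul (π k) ((m • Λ) (e k)) := ⟨_, rfl⟩
  rw [← hη1] at hη
  refine ⟨m, hm0, fun j => η (p j) - m • Lam (σ j), ?_, ?_⟩
  · intro j
    refine inSz_sub ?_ ?_
    · rw [hη1, LinearMap.sub_apply, LinearMap.sum_apply, LinearMap.sum_apply]
      refine inSz_sub (inSz_sum _ _ fun l _ => ?_) (inSz_sum _ _ fun k _ => ?_)
      · rw [rmul_apply]
        have h3 := VC_le hB3 (l, j)
        exact inSz_mono (hb3 (l, j) _ _ _ (inSz_tw' hw hm (q3 l))) (by linarith) (by linarith)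
      · rw [rmul_apply]
        have h3 := VC_le hB4 (k, j)
        exact inSz_mono (hb4 (k, j) _ _ _ (VC_nsmul (q1 k) m)) (by linarith) (by linarith)
    · rw [hLam]
      have h3 := VC_le hB5 j
      exact inSz_mono (VC_nsmul (hb5 j a b lam hl) m) (by linarith) (by linarith)
  · intro k
    obtain ⟨h1, h2⟩ := hc (ρ k) (hρ0 k)
    obtain ⟨q, hq⟩ := (X.ex1 _).1 h1
    rw [← hq] at h2
    have h3 : Lam (ρ k) = Λ q - ∑ j, ρ k j * Lam (σ j) := by
      conv_lhs => rw [h2]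
      rw [map_sub, map_sum, hΛ]
      simp only [map_smul, smul_eq_mul]
    have h4 : (m • Λ) q = η (∑ j, ρ k j • p j) := by
      rw [hη, LinearMap.comp_apply, hq]
    rw [← hLam, h3, smul_sub, ← LinearMap.smul_apply, h4, map_sum, Finset.smul_sum,
      ← Finset.sum_sub_distrib]
    refine Finset.sum_congr rfl fun j _ => ?_
    rw [map_smul, smul_eq_mul, mul_sub, mul_smul_comm]

theorem cosl {G : Type} [Group G] (X : PD3 G) {n N : ℕ} (x : Fin n → G)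
    (hx : Subgroup.closure (Set.range x) = ⊤) (ρ : Fin N → Fin n → MonoidAlgebra ℤ G)
    (hρ : Submodule.span (MonoidAlgebra ℤ G) (Set.range ρ) = LinearMap.ker (bd x)) (T : G → ℤ)
    (hT : BdR T) (hS : SlabR T x fun k => (fun j => cz (ρ k j))) :
    CoSl T fun k => (fun j => cz (ρ k j)) := by
  obtain ⟨C, hC0, hC⟩ := VC_int X x hx ρ hρ T hT hS
  refine ⟨C, hC0, fun a b lam hl => ?_⟩
  obtain ⟨m0, hm0, z, hz⟩ := clear_den lam
  have h1 : ∀ k, cz (∑ j, ρ k j * z j) = m0 • ∑ j, cz (ρ k j) * lam j := by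
    intro k
    rw [map_sum, Finset.smul_sum]
    refine Finset.sum_congr rfl fun j _ => ?_
    rw [map_mul, hz, mul_smul_comm]
  obtain ⟨m, hm, lam', hl1, hl2⟩ := hC a b z (fun k => by
    rw [← inSl_cz, h1, inSl_nsmul hm0]
    exact hl k)
  have hm1 : (m : ℚ) ≠ 0 := by
    have := hm.ne'
    exact_mod_cast this
  have hm2 : (m0 : ℚ) ≠ 0 := by
    have := hm0.ne'
    exact_mod_cast this
  refine ⟨fun j => ((m : ℚ) * m0)⁻¹ • cz (lam' j), ?_, ?_⟩
  · intro j g hg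
    refine (inSl_cz _ _ _ _).2 (hl1 j) g fun h => hg ?_
    rw [coeff_smul, Finsupp.smul_apply, h, smul_zero]
  · intro k
    have h2 := hl2 k
    have h3 : ∑ j, cz (ρ k j) * (((m : ℚ) * m0)⁻¹ • cz (lam' j)) =
        ((m : ℚ) * m0)⁻¹ • cz (∑ j, ρ k j * lam' j) := by
      rw [map_sum, Finset.smul_sum]
      refine Finset.sum_congr rfl fun j _ => ?_
      rw [map_mul, mul_smul_comm]
    show ∑ j, cz (ρ k j) * (((m : ℚ) * m0)⁻¹ • cz (lam' j)) = ∑ j, cz (ρ k j) * lam j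
    rw [h3, h2, map_nsmul, h1, ← Nat.cast_smul_eq_nsmul ℚ, ← Nat.cast_smul_eq_nsmul ℚ, smul_smul,
      smul_smul]
    have h4 : ((m : ℚ) * m0)⁻¹ * m * m0 = 1 := by
      field_simp
    rw [h4, one_smul]

end Pool.Agent.RFR
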