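import Pool.Agent.RFR.VQ
import Pool.Agent.PDC.AugI
import Pool.Agent.PDC.Der

set_option autoImplicit false

/-! RFR-VD (V4): `H¹(G; ℚG) = 0` in terms of tuples.

PLAN.  `clear_den`: `cz (z j) = m • lam j`, `z` integral; `∑ j, ρ k j * z j = 0` (`cz_injective`).  `Lam y = ∑ j, y j * z j` vanishes on `ker (bd x)`, the span of the `ρ k`.  For `g` choose `a g` with `bd x (a g) = of g - 1` (`aug_exact`), `c g = Lam (a g)`; `c (g h) = c g + of g * c h` since
`a (g h) - a g - of g • a h` is in `ker (bd x)`.  `der_inner X c`: `c g = (of g - 1) * b`.  `c (x j) = z j` (`a (x j) - Pi.single j 1` is in the kernel).  `ν = (1/m) • cz b`. -/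

namespace Pool.Agent.RFR

open MonoidAlgebra PDC

theorem h1z {G : Type} [Group G] (X : PD3 G) {n N : ℕ} (x : Fin n → G)
    (hx : Subgroup.closure (Set.range x) = ⊤) (ρ : Fin N → Fin n → MonoidAlgebra ℤ G)
    (hρ : Submodule.span (MonoidAlgebra ℤ G) (Set.range ρ) = LinearMap.ker (bd x)) :
    H1Z x fun k => (fun j => cz (ρ k j)) := by
  classical
  intro lam hlam
  obtain ⟨m, hm, z, hz⟩ := clear_den lam
  have hm0 : (m : ℚ) ≠ 0 := by exact_mod_cast hm.ne'
  let Lam : (Fin n → MonoidAlgebra ℤ G) →ₗ[MonoidAlgebra ℤ G] MonoidAlgebra ℤ G :=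
    Fintype.linearCombination (MonoidAlgebra ℤ G) z
  have hLam : ∀ y, Lam y = ∑ j, y j * z j := by
    intro y
    simp [Lam, Fintype.linearCombination_apply, smul_eq_mul]
  have hrel : ∀ k, Lam (ρ k) = 0 := by
    intro k
    apply cz_injective
    rw [hLam, map_sum, map_zero]
    have h1 : ∀ j, cz (ρ k j * z j) = m • (cz (ρ k j) * lam j) := by
      intro j
      rw [map_mul, hz, mul_smul_comm]
    rw [Finset.sum_congr rfl fun j _ => h1 j, ← Finset.smul_sum]
    have h2 := hlam k
    simp only at h2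
    rw [h2, smul_zero]
  have hker : ∀ y, bd x y = 0 → Lam y = 0 := by
    intro y hy
    have h1 : y ∈ LinearMap.ker (bd x) := hy
    rw [← hρ] at h1
    have h2 : Submodule.span (MonoidAlgebra ℤ G) (Set.range ρ) ≤ LinearMap.ker Lam := by
      rw [Submodule.span_le]
      rintro _ ⟨k, rfl⟩
      exact hrel k
    exact h2 h1
  have hex : ∀ g : G, ∃ p, bd x p = of ℤ G g - 1 := fun g =>
    aug_exact x hx _ (by rw [map_sub, aug_of, map_one, sub_self])
  choose a ha using hex
  obtain ⟨b, hb⟩ := der_inner X (fun g => Lam (a g)) (by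
    intro k k'
    have h1 : Lam (a (k * k') - a k - of ℤ G k • a k') = 0 := by
      apply hker
      rw [map_sub, map_sub, map_smul, ha, ha, ha, smul_eq_mul, map_mul, mul_sub, mul_one]
      abel
    rw [map_sub, map_sub, map_smul, smul_eq_mul] at h1
    have h2 : Lam (a (k * k')) - (Lam (a k) + of ℤ G k * Lam (a k')) = 0 := by
      rw [← h1]
      abel
    exact sub_eq_zero.1 h2)
  have hzj : ∀ j, z j = (of ℤ G (x j) - 1) * b := by
    intro j
    rw [← hb (x j)]
    have h1 : Lam (a (x j) - Pi.single j 1) = 0 := by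
      apply hker
      rw [map_sub, ha, bd_apply, Finset.sum_eq_single j]
      · rw [Pi.single_eq_same, one_mul, sub_self]
      · intro i _ hi
        rw [Pi.single_eq_of_ne hi, zero_mul]
      · intro hj
        exact absurd (Finset.mem_univ j) hj
    have h2 : Lam (Pi.single j 1) = z j := by
      rw [hLam, Finset.sum_eq_single j]
      · rw [Pi.single_eq_same, one_mul]
      · intro i _ hi
        rw [Pi.single_eq_of_ne hi, zero_mul]
      · intro hj
        exact absurd (Finset.mem_univ j) hj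
    rw [map_sub, h2] at h1
    exact (sub_eq_zero.1 h1).symm
  refine ⟨(m : ℚ)⁻¹ • cz b, fun j => ?_⟩
  have h1 := hz j
  rw [hzj j, map_mul, map_sub, map_one, cz_of, ← Nat.cast_smul_eq_nsmul ℚ] at h1
  rw [mul_smul_comm, h1, smul_smul, inv_mul_cancel₀ hm0, one_smul]

end Pool.Agent.RFR
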