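import Pool.Agent.RFR.PDefs
import Pool.Agent.RFR.DGm
import Pool.Agent.PDC.Basic

set_option autoImplicit false

/-! Project RFR (MP_8a0829_al), part V (Theorem F: virtually RFRS PD3-groups virtually fibre; paper proof
/team-store/rfv_proof.md): definitions. -/

namespace Pool.Agent.RFR

open MonoidAlgebra PDC

/-- the inclusion of the integral group ring in the rational one -/
noncomputable def cz {G : Type} [Group G] : MonoidAlgebra ℤ G →+* MonoidAlgebra ℚ G :=
  MonoidAlgebra.mapRingHom G (Int.castRingHom ℚ)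

theorem cz_coeff {G : Type} [Group G] (z : MonoidAlgebra ℤ G) (g : G) :
    (cz z).coeff g = ((z.coeff g : ℤ) : ℚ) := by
  unfold cz
  rw [MonoidAlgebra.coeff_mapRingHom]
  rfl

theorem cz_injective {G : Type} [Group G] :
    Function.Injective (cz : MonoidAlgebra ℤ G →+* MonoidAlgebra ℚ G) := by
  intro a b h
  ext g
  have h1 := congrArg (fun c : MonoidAlgebra ℚ G => c.coeff g) h
  simp only [cz_coeff] at h1
  exact Int.cast_injective h1

theorem cz_of {G : Type} [Group G] (g : G) : cz (of ℤ G g) = of ℚ G g := by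
  unfold cz
  rw [of_apply, of_apply, MonoidAlgebra.mapRingHom_single]
  simp

/-- the support of the integral element `c` is contained in the slab `a ≤ T ≤ b` -/
def InSz {K : Type} (T : K → ℤ) (a b : ℤ) (c : MonoidAlgebra ℤ K) : Prop :=
  ∀ g, c.coeff g ≠ 0 → a ≤ T g ∧ T g ≤ b

/-- the function `T` of the inverse -/
def Tv {K : Type} [Group K] (T : K → ℤ) : K → ℤ := fun g => T g⁻¹

/-- left multiplication changes `T` by a bounded amount -/
def BdL {K : Type} [Group K] (T : K → ℤ) : Prop := ∀ v, ∃ B : ℤ, ∀ w, |T (v * w) - T w| ≤ B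

/-- the twisted anti-automorphism `∑ a_g g ↦ ∑ a_g w(g) g⁻¹` of the integral group ring -/
noncomputable def tw {G : Type} [Group G] (w : G → ℤ) : MonoidAlgebra ℤ G →+ MonoidAlgebra ℤ G :=
  extZ fun g => w g • of ℤ G g⁻¹

/-- the dual slab property: coboundaries in a slab are coboundaries of cochains in a slightly
larger slab (for the function `Tv T`) -/
def CoSl {K : Type} [Group K] (T : K → ℤ) {n N : ℕ} (ρ : Fin N → Fin n → MonoidAlgebra ℚ K) : Prop :=
  ∃ C : ℤ, 0 ≤ C ∧ ∀ (a b : ℤ) (lam : Fin n → MonoidAlgebra ℚ K),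
    (∀ k, InSl (Tv T) a b (∑ j, ρ k j * lam j)) → ∃ lam' : Fin n → MonoidAlgebra ℚ K,
      (∀ j, InSl (Tv T) (a - C) (b + C) (lam' j)) ∧
      ∀ k, ∑ j, ρ k j * lam' j = ∑ j, ρ k j * lam j

/-- there is no cohomology in degree one: cocycles (in terms of tuples) are coboundaries -/
def H1Z {K : Type} [Group K] {n N : ℕ} (x : Fin n → K) (ρ : Fin N → Fin n → MonoidAlgebra ℚ K) :
    Prop :=
  ∀ lam : Fin n → MonoidAlgebra ℚ K, (∀ k, ∑ j, ρ k j * lam j = 0) →
    ∃ ν : MonoidAlgebra ℚ K, ∀ j, lam j = (of ℚ K (x j) - 1) * ν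

/-- the half spaces `T ≥ T 1` are connected in a slightly larger half space -/
def ConnH {K : Type} [Group K] (T : K → ℤ) {n : ℕ} (x : Fin n → K) : Prop :=
  ∃ c : ℤ, 0 ≤ c ∧ ∀ g : K, T 1 ≤ T g → ∃ y : Fin n → MonoidAlgebra ℚ K, bq x y = of ℚ K g - 1 ∧
    ∀ j v, (y j).coeff v ≠ 0 → T 1 - c ≤ T v

/-- the level set of `T 1` is connected in a slab -/
def ConnS {K : Type} [Group K] (T : K → ℤ) {n : ℕ} (x : Fin n → K) : Prop :=
  ∃ c : ℤ, 0 ≤ c ∧ ∀ g : K, T g = T 1 → ∃ y : Fin n → MonoidAlgebra ℚ K, bq x y = of ℚ K g - 1 ∧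
    ∀ j, InSl T (T 1 - c) (T 1 + c) (y j)

end Pool.Agent.RFR
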