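import Pool.Agent.RFR.PDefs

set_option autoImplicit false

/-! RFR-VR (claim in V5): functions of finite support, constant along the rays of an element `z` of infinite order in a half space.

PLAN.  `M > 0` with `z ^ M ∈ E` and so `u * z ^ M * u⁻¹ ∈ E` for all `u` (normal; `Subgroup.exists_pow_mem_of_index_ne_zero` or `pow_index_mem`).  `c` bounds `|T (w * z ^ k) - T w|` for `k < M` (`BdR`; a finite maximum).  Let `K + c < T u`, `e = u * z ^ M * u⁻¹`.  Case `T 1 ≤ T e`: `T (u * z ^ (M * i + k)) =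
T (e ^ i * (u * z ^ k)) = T (u * z ^ k) + (T (e ^ i) - T 1)`, `T (e ^ i) - T 1 = i * (T e - T 1) ≥ 0` (induction on `i` with `hT`), so `T (u * z ^ q) > K` for all `q : ℕ` and `f (u * z ^ q) = f u` by induction; the elements `u * z ^ q` are distinct, the support is finite, so `f u = 0`.
Case `T e < T 1`: the same with `z ^ (-q)`: `e⁻¹ ∈ E`, `T e⁻¹ - T 1 = -(T e - T 1) > 0`; `u * z ^ (-(M * i)) * z ^ k`, `k < M`, `f (u * z ^ (-q)) = f (u * z ^ (-q-1))`. -/

namespace Pool.Agent.RFR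

private theorem VR_pow {G : Type} [Group G] (E : Subgroup G) (T : G → ℤ)
    (hT : ∀ g ∈ E, ∀ w, T (g * w) = T w + (T g - T 1)) {e : G} (he : e ∈ E) (i : ℕ) :
    T (e ^ i) - T 1 = i * (T e - T 1) := by
  induction i with
  | zero => simp
  | succ i ih =>
    rw [pow_succ', hT e he]
    push_cast
    linarith

private theorem VR_conj {G : Type} [Group G] (u z : G) (M i : ℕ) :
    (u * z ^ M * u⁻¹) ^ i * u = u * z ^ (M * i) := by
  rw [conj_pow, inv_mul_cancel_right, ← pow_mul]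

private theorem VR_low {G : Type} [Group G] (E : Subgroup G) (hE : E.Normal) (T : G → ℤ)
    (hT : ∀ g ∈ E, ∀ w, T (g * w) = T w + (T g - T 1)) (hB : BdR T) (z : G) {M : ℕ}
    (hM : 0 < M) (hMz : z ^ M ∈ E) :
    ∃ c : ℤ, 0 ≤ c ∧ ∀ u, (∀ q : ℕ, T u - c ≤ T (u * z ^ q)) ∨
      ∀ q : ℕ, T u - c ≤ T (u * (z ^ q)⁻¹) := by
  choose B hB' using hB
  refine ⟨∑ k ∈ Finset.range (M + 1), |B (z ^ k)|, Finset.sum_nonneg fun _ _ => abs_nonneg _,
    fun u => ?_⟩
  set c : ℤ := ∑ k ∈ Finset.range (M + 1), |B (z ^ k)| with hc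
  have h1 : ∀ k ≤ M, T u - c ≤ T (u * z ^ k) := by
    intro k hk
    have h2 : |B (z ^ k)| ≤ c :=
      Finset.single_le_sum (f := fun k => |B (z ^ k)|) (fun _ _ => abs_nonneg _)
        (Finset.mem_range.2 (Nat.lt_succ_iff.2 hk))
    have h3 := (abs_le.1 (hB' (z ^ k) u)).1
    have h4 := le_abs_self (B (z ^ k))
    linarith
  have he : u * z ^ M * u⁻¹ ∈ E := hE.conj_mem _ hMz u
  have hpow := VR_pow E T hT he
  rcases le_total (T 1) (T (u * z ^ M * u⁻¹)) with h | h
  · left
    intro q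
    have h5 : u * z ^ q = (u * z ^ M * u⁻¹) ^ (q / M) * (u * z ^ (q % M)) := by
      rw [← mul_assoc, VR_conj, mul_assoc, ← pow_add, Nat.div_add_mod]
    rw [h5, hT _ (E.pow_mem he _), hpow]
    have h6 := h1 (q % M) (Nat.mod_lt q hM).le
    have h7 : 0 ≤ ((q / M : ℕ) : ℤ) * (T (u * z ^ M * u⁻¹) - T 1) :=
      mul_nonneg (Int.natCast_nonneg _) (by linarith)
    linarith
  · right
    intro q
    have hi : q ≤ M * (q / M + 1) := (Nat.lt_mul_div_succ q hM).le
    have hk : M * (q / M + 1) - q ≤ M := by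
      have := Nat.div_add_mod q M
      rw [Nat.mul_add, Nat.mul_one]
      omega
    have h8 : z ^ q * z ^ (M * (q / M + 1) - q) = z ^ (M * (q / M + 1)) := by
      rw [← pow_add]
      congr 1
      omega
    have h9 : (z ^ q)⁻¹ = (z ^ (M * (q / M + 1)))⁻¹ * z ^ (M * (q / M + 1) - q) := by
      rw [← h8, mul_inv_rev]
      have h10 : Commute (z ^ q)⁻¹ (z ^ (M * (q / M + 1) - q)) :=
        ((Commute.refl z).pow_pow _ _).inv_left
      rw [mul_assoc, h10.eq, inv_mul_cancel_left]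
    have h11 : u * (z ^ (M * (q / M + 1)))⁻¹ = ((u * z ^ M * u⁻¹) ^ (q / M + 1))⁻¹ * u := by
      have h12 := VR_conj u z M (q / M + 1)
      rw [eq_inv_mul_iff_mul_eq, ← mul_assoc, h12, mul_inv_cancel_right]
    have h13 : u * (z ^ q)⁻¹ =
        ((u * z ^ M * u⁻¹) ^ (q / M + 1))⁻¹ * (u * z ^ (M * (q / M + 1) - q)) := by
      rw [h9, ← mul_assoc, h11, mul_assoc]
    have h14 : T (((u * z ^ M * u⁻¹) ^ (q / M + 1))⁻¹) - T 1 =
        -(((q / M + 1 : ℕ) : ℤ) * (T (u * z ^ M * u⁻¹) - T 1)) := by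
      have h15 := hT _ (E.pow_mem he (q / M + 1)) (((u * z ^ M * u⁻¹) ^ (q / M + 1))⁻¹)
      rw [mul_inv_cancel, hpow] at h15
      linarith
    rw [h13, hT _ (E.inv_mem (E.pow_mem he _)), h14]
    have h6 := h1 _ hk
    have h7 : 0 ≤ ((q / M + 1 : ℕ) : ℤ) * (T 1 - T (u * z ^ M * u⁻¹)) :=
      mul_nonneg (Int.natCast_nonneg _) (by linarith)
    linarith

private theorem VR_inj {G : Type} [Group G] (z : G) (hz : ∀ k : ℕ, 0 < k → z ^ k ≠ 1) :
    Function.Injective fun q : ℕ => z ^ q := by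
  intro a b hab
  have hab' : z ^ a = z ^ b := hab
  by_contra hne
  rcases lt_or_gt_of_ne hne with h | h
  · refine hz (b - a) (by omega) ?_
    rw [pow_sub z h.le, hab', mul_inv_cancel]
  · refine hz (a - b) (by omega) ?_
    rw [pow_sub z h.le, hab', mul_inv_cancel]

private theorem VR_fin {G : Type} [Group G] (u : G) (f : G → ℚ) (hf : (Function.support f).Finite)
    (g : ℕ → G) (hg : Function.Injective g) (h : ∀ q, f (g q) = f u) : f u = 0 := by
  by_contra h0
  refine Set.infinite_range_of_injective hg (hf.subset ?_)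
  rintro _ ⟨q, rfl⟩
  rw [Function.mem_support, h q]
  exact h0

theorem ray_zero {G : Type} [Group G] (E : Subgroup G) [E.FiniteIndex] (hE : E.Normal) (T : G → ℤ)
    (hT : ∀ g ∈ E, ∀ w, T (g * w) = T w + (T g - T 1)) (hB : BdR T) (z : G)
    (hz : ∀ k : ℕ, 0 < k → z ^ k ≠ 1) :
    ∃ c : ℤ, 0 ≤ c ∧ ∀ (K : ℤ) (f : G → ℚ), (Function.support f).Finite →
      (∀ v, K < T v → f (v * z) = f v) → ∀ u, K + c < T u → f u = 0 := by
  obtain ⟨M, hM, -, hMz⟩ := Subgroup.exists_pow_mem_of_index_ne_zero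
    (Subgroup.FiniteIndex.index_ne_zero (H := E)) z
  obtain ⟨c, hc, hlow⟩ := VR_low E hE T hT hB z hM hMz
  refine ⟨c, hc, fun K f hf hfz u hu => ?_⟩
  rcases hlow u with h | h
  · refine VR_fin u f hf (fun q => u * z ^ q) ?_ ?_
    · intro a b hab
      exact VR_inj z hz (mul_left_cancel (a := u) hab)
    · intro q
      induction q with
      | zero => simp
      | succ q ih =>
        have h1 := hfz (u * z ^ q) (by have := h q; linarith)
        rw [mul_assoc, ← pow_succ] at h1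
        exact h1.trans ih
  · refine VR_fin u f hf (fun q => u * (z ^ q)⁻¹) ?_ ?_
    · intro a b hab
      exact VR_inj z hz (inv_injective (mul_left_cancel (a := u) hab))
    · intro q
      induction q with
      | zero => simp
      | succ q ih =>
        have h1 := hfz (u * (z ^ (q + 1))⁻¹) (by have := h (q + 1); linarith)
        have h2 : u * (z ^ (q + 1))⁻¹ * z = u * (z ^ q)⁻¹ := by
          rw [pow_succ', mul_inv_rev, mul_assoc, inv_mul_cancel_right]
        rw [h2] at h1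
        exact h1.symm.trans ih

end Pool.Agent.RFR
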