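import Pool.Agent.RFR.VDefs
import Pool.Agent.RFR.VR

set_option autoImplicit false

/-! RFR-VE (V5): the column lemma.  The part of `y` in the half space `m ≤ T` defines a tuple of elements of the group ring whose
coboundary is in a slab; by the dual slab property and the vanishing of the cohomology in degree one `y j v = f (v * x j) - f v`
outside of a slab, for a function `f` of finite support, and `f` vanishes in a half space by `ray_zero`. -/

namespace Pool.Agent.RFR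

open MonoidAlgebra

private theorem VE_bd {G : Type} [Group G] {T : G → ℤ} (hB : BdR T) {n N : ℕ} (x : Fin n → G)
    (ρ : Fin N → Fin n → MonoidAlgebra ℚ G) :
    ∃ c : ℤ, 0 ≤ c ∧ (∀ k j, ∀ g ∈ (ρ k j).coeff.support, ∀ w, |T (w * g) - T w| ≤ c) ∧
      ∀ j w, |T (w * x j) - T w| ≤ c := by
  choose B hB' using hB
  have h1 : ∀ k j, 0 ≤ ∑ g ∈ (ρ k j).coeff.support, |B g| := fun k j =>
    Finset.sum_nonneg fun _ _ => abs_nonneg _
  have h2 : 0 ≤ ∑ k, ∑ j, ∑ g ∈ (ρ k j).coeff.support, |B g| :=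
    Finset.sum_nonneg fun k _ => Finset.sum_nonneg fun j _ => h1 k j
  have h3 : 0 ≤ ∑ j, |B (x j)| := Finset.sum_nonneg fun _ _ => abs_nonneg _
  refine ⟨(∑ k, ∑ j, ∑ g ∈ (ρ k j).coeff.support, |B g|) + ∑ j, |B (x j)|, add_nonneg h2 h3,
    fun k j g hg w => ?_, fun j w => ?_⟩
  · have h4 : |B g| ≤ ∑ g ∈ (ρ k j).coeff.support, |B g| :=
      Finset.single_le_sum (f := fun g => |B g|) (fun _ _ => abs_nonneg _) hg
    have h5 : ∑ g ∈ (ρ k j).coeff.support, |B g| ≤ ∑ j, ∑ g ∈ (ρ k j).coeff.support, |B g| :=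
      Finset.single_le_sum (f := fun j => ∑ g ∈ (ρ k j).coeff.support, |B g|) (fun i _ => h1 k i)
        (Finset.mem_univ j)
    have h6 : ∑ j, ∑ g ∈ (ρ k j).coeff.support, |B g| ≤
        ∑ k, ∑ j, ∑ g ∈ (ρ k j).coeff.support, |B g| :=
      Finset.single_le_sum (f := fun k => ∑ j, ∑ g ∈ (ρ k j).coeff.support, |B g|)
        (fun i _ => Finset.sum_nonneg fun j _ => h1 i j) (Finset.mem_univ k)
    have h7 := hB' g w
    have h8 := le_abs_self (B g)
    linarith
  · have h4 : |B (x j)| ≤ ∑ j, |B (x j)| :=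
      Finset.single_le_sum (f := fun j => |B (x j)|) (fun _ _ => abs_nonneg _) (Finset.mem_univ j)
    have h7 := hB' (x j) w
    have h8 := le_abs_self (B (x j))
    linarith

private theorem VE_lam {G : Type} [Group G] {T : G → ℤ} {n : ℕ} {y : Fin n → G → ℚ}
    (hy : ∀ j m, {v | y j v ≠ 0 ∧ m ≤ T v}.Finite) (m : ℤ) :
    ∃ lam : Fin n → MonoidAlgebra ℚ G, ∀ j v, (lam j).coeff v⁻¹ = if m ≤ T v then y j v else 0 := by
  have hfin : ∀ j, (Function.support fun h : G => if m ≤ T h⁻¹ then y j h⁻¹ else 0).Finite := by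
    intro j
    refine ((hy j m).preimage (f := fun h : G => h⁻¹) inv_injective.injOn).subset ?_
    intro h hh
    rw [Function.mem_support] at hh
    by_cases hm : m ≤ T h⁻¹
    · rw [if_pos hm] at hh
      exact ⟨hh, hm⟩
    · rw [if_neg hm] at hh
      exact absurd rfl hh
  refine ⟨fun j => MonoidAlgebra.ofCoeff (Finsupp.ofSupportFinite _ (hfin j)), fun j v => ?_⟩
  change (if m ≤ T v⁻¹⁻¹ then y j v⁻¹⁻¹ else 0) = _
  rw [inv_inv]

private theorem VE_mul {G : Type} [Group G] {n : ℕ} (r lam : Fin n → MonoidAlgebra ℚ G) (v : G) :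
    (∑ j, r j * lam j).coeff v⁻¹ =
      ∑ j, (r j).coeff.sum fun g c => c * (lam j).coeff (v * g)⁻¹ := by
  rw [coeff_sum, Finsupp.finsetSum_apply]
  refine Finset.sum_congr rfl fun j _ => ?_
  rw [coeff_mul_apply_left]
  refine Finsupp.sum_congr fun g _ => ?_
  rw [mul_inv_rev]

private theorem VE_of {G : Type} [Group G] (z : G) (ν : MonoidAlgebra ℚ G) (v : G) :
    ((of ℚ G z - 1) * ν).coeff v⁻¹ = ν.coeff (v * z)⁻¹ - ν.coeff v⁻¹ := by
  rw [sub_mul, one_mul, coeff_sub, Finsupp.sub_apply, of_apply, coeff_single_mul_apply, one_mul, mul_inv_rev]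

theorem column {G : Type} [Group G] (E : Subgroup G) [E.FiniteIndex] (hE : E.Normal) (T : G → ℤ)
    (hT : ∀ g ∈ E, ∀ w, T (g * w) = T w + (T g - T 1)) (hB : BdR T) {n N : ℕ} (x : Fin n → G)
    (ρ : Fin N → Fin n → MonoidAlgebra ℚ G) (hC : CoSl T ρ) (hH : H1Z x ρ) (j0 : Fin n)
    (hj0 : ∀ k : ℕ, 0 < k → x j0 ^ k ≠ 1) (y : Fin n → G → ℚ)
    (hy : ∀ j m, {v | y j v ≠ 0 ∧ m ≤ T v}.Finite)
    (hy0 : ∀ k u, ∑ j, (ρ k j).coeff.sum (fun g c => c * y j (u * g)) = 0)
    (hyj : ∀ v, y j0 v = 0) : ∀ j u, y j u = 0 := by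
  obtain ⟨c0, hc0, hρ, hx⟩ := VE_bd hB x ρ
  obtain ⟨C, hC0, hC⟩ := hC
  obtain ⟨c1, hc1, hray⟩ := ray_zero E hE T hT hB (x j0) hj0
  intro j u
  obtain ⟨m, hm⟩ : ∃ m : ℤ, m = T u - (2 * c0 + C + c1 + 1) := ⟨_, rfl⟩
  obtain ⟨lam, hlam⟩ := VE_lam hy m
  have hslab : ∀ k, InSl (Tv T) (m - c0) (m + c0) (∑ j, ρ k j * lam j) := by
    intro k h hh
    obtain ⟨v, rfl⟩ : ∃ v, h = v⁻¹ := ⟨h⁻¹, (inv_inv h).symm⟩
    rw [VE_mul] at hh
    have hv : Tv T v⁻¹ = T v := by
      unfold Tv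
      rw [inv_inv]
    rw [hv]
    by_contra hcon
    refine hh ?_
    rw [not_and_or, not_le, not_le] at hcon
    rcases hcon with hlt | hgt
    · refine Finset.sum_eq_zero fun i _ => ?_
      refine Finset.sum_eq_zero fun g hg => ?_
      have h1 := (abs_le.1 (hρ k i g hg v)).2
      change (ρ k i).coeff g * (lam i).coeff (v * g)⁻¹ = 0
      rw [hlam, if_neg (by linarith), mul_zero]
    · rw [← hy0 k v]
      refine Finset.sum_congr rfl fun i _ => ?_
      refine Finset.sum_congr rfl fun g hg => ?_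
      have h1 := (abs_le.1 (hρ k i g hg v)).1
      change (ρ k i).coeff g * (lam i).coeff (v * g)⁻¹ = (ρ k i).coeff g * y i (v * g)
      rw [hlam, if_pos (by linarith)]
  obtain ⟨lam', hl1, hl2⟩ := hC (m - c0) (m + c0) lam hslab
  obtain ⟨ν, hν⟩ := hH (fun j => lam j - lam' j) (by
    intro k
    simp only [mul_sub, Finset.sum_sub_distrib]
    rw [hl2 k, sub_self])
  have hf : (Function.support fun v : G => ν.coeff v⁻¹).Finite := by
    refine ((ν.coeff.support.finite_toSet).preimage (f := fun v : G => v⁻¹) inv_injective.injOn).subset ?_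
    intro v hv
    exact Finsupp.mem_support_iff.2 hv
  have hyf : ∀ i v, m + c0 + C < T v → y i v = ν.coeff (v * x i)⁻¹ - ν.coeff v⁻¹ := by
    intro i v hv
    have h1 := congrArg (fun z : MonoidAlgebra ℚ G => z.coeff v⁻¹) (hν i)
    change (lam i - lam' i).coeff v⁻¹ = ((of ℚ G (x i) - 1) * ν).coeff v⁻¹ at h1
    rw [VE_of, coeff_sub, Finsupp.sub_apply, hlam, if_pos (by linarith)] at h1
    have h2 : (lam' i).coeff v⁻¹ = 0 := by
      by_contra h3
      have h4 := (hl1 i v⁻¹ h3).2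
      unfold Tv at h4
      rw [inv_inv] at h4
      linarith
    rw [h2, sub_zero] at h1
    exact h1
  have hz : ∀ v, m + c0 + C + c1 < T v → ν.coeff v⁻¹ = 0 := by
    refine hray (m + c0 + C) (fun v => ν.coeff v⁻¹) hf ?_
    intro v hv
    have h1 := hyf j0 v hv
    rw [hyj] at h1
    exact (sub_eq_zero.1 h1.symm)
  have h1 := (abs_le.1 (hx j u)).1
  rw [hyf j u (by linarith), hz u (by linarith), hz (u * x j) (by linarith), sub_zero]

end Pool.Agent.RFR
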