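import Mathlib

set_option autoImplicit false

/-! RFR-VF (V6): linear algebra over a division ring (pure Mathlib).

PLAN.  Let `R` be the span in the left `D`-module `Fin n → D` of the rows `M k` and of `Pi.single j0 1`.  `R = ⊤`: otherwise there is a nonzero linear map `F : (Fin n → D) →ₗ[D] D` vanishing on `R` (`Submodule.exists_le_ker_of_lt_top`), `F v = ∑ j, v j * F (Pi.single j 1)` (see `exists_functional` in RExt.lean),
`f j = F (Pi.single j 1)` satisfies `∑ j, M k j * f j = 0` and `f j0 = 0`, so `f = 0` and `F = 0`.  So `Pi.single i 1 = ∑ k, d i k • M k + b i • Pi.single j0 1` (`Submodule.span_insert`/`mem_span_insert`, `Submodule.mem_span_range_iff_exists_fun`).  Pair with `a`: `a i = b i * a j0`. -/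

namespace Pool.Agent.RFR

theorem lin_dec {D : Type} [DivisionRing D] {n N : ℕ} (M : Fin N → Fin n → D) (a : Fin n → D)
    (j0 : Fin n) (ha : a j0 ≠ 0) (hrel : ∀ k, ∑ j, M k j * a j = 0)
    (hinj : ∀ f : Fin n → D, (∀ k, ∑ j, M k j * f j = 0) → f j0 = 0 → f = 0) :
    ∃ d : Fin n → Fin N → D, ∀ i j, (if i = j then (1 : D) else 0) =
      ∑ k, d i k * M k j + (if j = j0 then a i * (a j0)⁻¹ else 0) := by
  classical
  have htop : Submodule.span D (insert (Pi.single j0 (1 : D)) (Set.range M)) = ⊤ := by
    by_contra hne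
    obtain ⟨F, hF0, hF⟩ := Submodule.exists_le_ker_of_lt_top _ (lt_top_iff_ne_top.2 hne)
    have hexp : ∀ v : Fin n → D, F v = ∑ j, v j * F (Pi.single j 1) := by
      intro v
      have hv : v = ∑ j, v j • (Pi.single j (1 : D) : Fin n → D) := by
        funext i
        rw [Finset.sum_apply]
        simp [Pi.single_apply]
      have h1 : F v = F (∑ j, v j • (Pi.single j (1 : D) : Fin n → D)) := by rw [← hv]
      rw [h1, map_sum]
      refine Finset.sum_congr rfl fun j _ => ?_
      rw [map_smul, smul_eq_mul]
    have hz : (fun j => F (Pi.single j 1)) = 0 := by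
      apply hinj
      · intro k
        have h1 : M k ∈ LinearMap.ker F :=
          hF (Submodule.subset_span (Set.mem_insert_of_mem _ ⟨k, rfl⟩))
        have h2 := LinearMap.mem_ker.1 h1
        rw [hexp] at h2
        exact h2
      · exact LinearMap.mem_ker.1 (hF (Submodule.subset_span (Set.mem_insert _ _)))
    apply hF0
    refine LinearMap.ext fun v => ?_
    rw [hexp]
    have h3 : ∀ j, F (Pi.single j 1) = 0 := fun j => congrFun hz j
    simp [h3]
  have hdec : ∀ i : Fin n, ∃ (b : D) (d : Fin N → D),
      (Pi.single i (1 : D) : Fin n → D) = b • Pi.single j0 1 + ∑ k, d k • M k := by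
    intro i
    have h1 : (Pi.single i (1 : D) : Fin n → D) ∈
        Submodule.span D (insert (Pi.single j0 (1 : D)) (Set.range M)) := by
      rw [htop]
      exact Submodule.mem_top
    obtain ⟨b, z, hz, hb⟩ := Submodule.mem_span_insert.1 h1
    obtain ⟨d, hd⟩ := (Submodule.mem_span_range_iff_exists_fun D).1 hz
    exact ⟨b, d, by rw [hd, hb]⟩
  choose b d hbd using hdec
  have hent : ∀ i j, (if i = j then (1 : D) else 0) =
      ∑ k, d i k * M k j + (if j = j0 then b i else 0) := by
    intro i j
    have h1 := congrFun (hbd i) j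
    rw [Pi.add_apply, Finset.sum_apply, Pi.smul_apply, Pi.single_apply, Pi.single_apply] at h1
    simp only [Pi.smul_apply, smul_eq_mul, mul_ite, mul_one, mul_zero] at h1
    rw [add_comm, ← h1]
    simp only [eq_comm]
  have hb : ∀ i, b i = a i * (a j0)⁻¹ := by
    intro i
    rw [eq_mul_inv_iff_mul_eq₀ ha]
    have h1 : ∑ j, (if i = j then (1 : D) else 0) * a j = a i := by simp
    have h2 : ∑ j, (∑ k, d i k * M k j + (if j = j0 then b i else 0)) * a j = b i * a j0 := by
      have h3 : ∀ j, (∑ k, d i k * M k j + (if j = j0 then b i else 0)) * a j =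
          ∑ k, d i k * (M k j * a j) + (if j = j0 then b i * a j else 0) := by
        intro j
        rw [add_mul, Finset.sum_mul, ite_mul, zero_mul]
        simp only [mul_assoc]
      simp only [h3]
      rw [Finset.sum_add_distrib, Finset.sum_comm]
      simp only [← Finset.mul_sum, hrel]
      simp
    rw [← h2, ← h1]
    refine Finset.sum_congr rfl fun j _ => ?_
    rw [← hent i j]
  exact ⟨d, fun i j => by rw [hent i j, hb i]⟩

end Pool.Agent.RFR
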