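import Pool.Agent.RFR.VDefs
import Pool.Agent.RFR.DMul

set_option autoImplicit false

/-! RFR-VG (V7): half spaces are connected.

PLAN (paper proof V7).  `T v = s * t.TT L r v`.  `c = r * C + c0`, `c0 ≥ 0` a bound of `|T (v * h) - T v|` for `h⁻¹` in the supports of the `ρ k j` (`TT_lip`; finite set).  Let `T 1 ≤ T g`, `y` with `bq x y = of g - 1` (`hgen`).  `ζ k v = (∑ i, mm (gm (y i)) (Xd i k)) s 1 v = ∑ i, (y i).coeff.sum fun h c => c * Xd i k s h v` (`gm_mm`).
`{v | ζ k v ≠ 0 ∧ T v ≤ m}` is finite (`fin_T` for each `h` in the support of `y i`).  `low k : MonoidAlgebra ℚ G` with the coefficients of `ζ k` on `{T v < T 1}`; `y' = y - ∑ k, low k • ρ k`, `bq x y' = bq x y`.  Evaluate `hdec y j` at `(s, 1, v)`: `(y j).coeff v = ∑ k, (ρ k j).coeff.sum (fun h c => ζ k (v * h⁻¹) * c) +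
(if j = j0 then A s g v - A s 1 v else 0)` (`mm_gm`, `gm_mm` for `bq x y = of g - 1`).  `(low k * ρ k j).coeff v = (ρ k j).coeff.sum (fun h c => (low k).coeff (v * h⁻¹) * c)` (`coeff_mul_apply_right`).  If `T v < T 1 - c` then all `T (v * h⁻¹) < T 1` so the two sums agree, and `A s g v = 0 = A s 1 v` (`ty_T`: `A s g v ≠ 0` gives `-(r * C) ≤ T v - T g`). -/

namespace Pool.Agent.RFR

open MonoidAlgebra

private theorem vg_bd {G : Type} [Group G] {t : PT G} (L : ℤ) (r : ℕ) (s : ℤˣ) (S : Finset G) :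
    ∃ B : ℤ, 0 ≤ B ∧ ∀ h ∈ S, ∀ v, |(s : ℤ) * t.TT L r (v * h⁻¹) - (s : ℤ) * t.TT L r v| ≤ B := by
  obtain ⟨A, hA⟩ := TT_lip t L r
  refine ⟨∑ h ∈ S, (A : ℤ) * t.ell h⁻¹, Finset.sum_nonneg fun h _ => by positivity,
    fun h hh v => ?_⟩
  rw [← mul_sub, abs_mul]
  have h1 : |(s : ℤ)| = 1 := by
    rcases Int.units_eq_one_or s with h | h <;> rw [h] <;> rfl
  rw [h1, one_mul]
  refine (hA v h⁻¹).trans ?_
  exact Finset.single_le_sum (f := fun h => (A : ℤ) * t.ell h⁻¹) (fun i _ => by positivity) hh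

private theorem vg_cut {G : Type} (p : G → Prop) [DecidablePred p] (f : G → ℚ)
    (hf : {v | p v ∧ f v ≠ 0}.Finite) : ∃ a : MonoidAlgebra ℚ G, ∀ v, a.coeff v =
      if p v then f v else 0 := by
  classical
  refine ⟨MonoidAlgebra.ofCoeff (Finsupp.onFinset hf.toFinset (fun v => if p v then f v else 0) ?_),
    fun v => rfl⟩
  intro v hv
  rw [Set.Finite.mem_toFinset]
  by_cases h : p v
  · rw [if_pos h] at hv
    exact ⟨h, hv⟩
  · rw [if_neg h] at hv
    exact absurd rfl hv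

private theorem vg_fin {G : Type} [Group G] {t : PT G} {n : ℕ} {r : ℕ} {L C : ℤ}
    (X : Fin n → Mx G) (hX : ∀ i, Ty t r L C (X i)) (s : ℤˣ) (y : Fin n → MonoidAlgebra ℚ G)
    (m : ℤ) : {v | (∑ i, mm (gm (y i)) (X i)) s 1 v ≠ 0 ∧ (s : ℤ) * t.TT L r v < m}.Finite := by
  classical
  have h1 : (⋃ i : Fin n, ⋃ h ∈ (y i).coeff.support, {w | X i s h w ≠ 0 ∧
      (s : ℤ) * (t.TT L r w - t.TT L r h) ≤ m - (s : ℤ) * t.TT L r h}).Finite :=
    Set.finite_iUnion fun i => Set.Finite.biUnion (Finset.finite_toSet _) fun h _ =>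
      fin_T (hX i) s h _
  refine h1.subset ?_
  rintro v ⟨hv, hm⟩
  rw [Finset.sum_apply, Finset.sum_apply, Finset.sum_apply] at hv
  obtain ⟨i, _, hi⟩ := Finset.exists_ne_zero_of_sum_ne_zero hv
  rw [gm_mm] at hi
  obtain ⟨h, hh, hne⟩ := Finset.exists_ne_zero_of_sum_ne_zero hi
  refine Set.mem_iUnion.2 ⟨i, Set.mem_iUnion₂.2 ⟨h, hh, ?_⟩⟩
  refine ⟨?_, ?_⟩
  · have h2 := right_ne_zero_of_mul hne
    rwa [one_mul] at h2
  · rw [mul_sub]
    linarith

theorem conn_half {G : Type} [Group G] {t : PT G} {n N : ℕ} (x : Fin n → G)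
    (hgen : ∀ g : G, ∃ y : Fin n → MonoidAlgebra ℚ G, bq x y = of ℚ G g - 1)
    (ρ : Fin N → Fin n → MonoidAlgebra ℚ G) (hρ : ∀ k, bq x (ρ k) = 0) {r : ℕ} {L C : ℤ}
    (Xd : Fin n → Fin N → Mx G) (hXd : ∀ i k, Ty t r L C (Xd i k)) (A : Mx G) (hA : Ty t r L C A)
    (j0 : Fin n) (hdec : ∀ (y : Fin n → MonoidAlgebra ℚ G) (j : Fin n), gm (y j) =
      ∑ k, mm (∑ i, mm (gm (y i)) (Xd i k)) (gm (ρ k j)) +
        (if j = j0 then mm (gm (bq x y)) A else 0)) (s : ℤˣ) :
    ConnH (fun w => (s : ℤ) * t.TT L r w) x := by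
  classical
  obtain ⟨B, hB0, hB⟩ := vg_bd (t := t) L r s
    (Finset.univ.biUnion fun k : Fin N => Finset.univ.biUnion fun j : Fin n => (ρ k j).coeff.support)
  have hC := hA.C0
  refine ⟨r * C + B, by positivity, fun g hg => ?_⟩
  have hg' : (s : ℤ) * t.TT L r 1 ≤ (s : ℤ) * t.TT L r g := hg
  obtain ⟨y, hy⟩ := hgen g
  have hex : ∀ k : Fin N, ∃ a : MonoidAlgebra ℚ G, ∀ v, a.coeff v =
      if (s : ℤ) * t.TT L r v < (s : ℤ) * t.TT L r 1 then
        (∑ i, mm (gm (y i)) (Xd i k)) s 1 v else 0 := by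
    intro k
    refine vg_cut _ _ ?_
    exact (vg_fin (fun i => Xd i k) (fun i => hXd i k) s y ((s : ℤ) * t.TT L r 1)).subset
      fun v hv => ⟨hv.2, hv.1⟩
  choose low hlow using hex
  refine ⟨y - ∑ k, low k • ρ k, ?_, ?_⟩
  · rw [map_sub, map_sum, hy]
    simp [hρ]
  · intro j v hv
    by_contra hlt
    rw [not_le] at hlt
    have hlt' : (s : ℤ) * t.TT L r v < (s : ℤ) * t.TT L r 1 - (r * C + B) := hlt
    apply hv
    have e1 : (y j).coeff v = ∑ k, (ρ k j).coeff.sum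
        (fun h c => (∑ i, mm (gm (y i)) (Xd i k)) s 1 (v * h⁻¹) * c) +
        (if j = j0 then mm (gm (bq x y)) A else 0) s 1 v := by
      have h1 := congrFun (congrFun (congrFun (hdec y j) s) 1) v
      rw [Pi.add_apply, Pi.add_apply, Pi.add_apply, Finset.sum_apply, Finset.sum_apply,
        Finset.sum_apply] at h1
      simp only [mm_gm] at h1
      rw [← h1]
      simp [gm]
    have e2 : (if j = j0 then mm (gm (bq x y)) A else 0) s 1 v = 0 := by
      split_ifs
      · rw [hy, gm_mm]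
        refine Finset.sum_eq_zero fun h hh => ?_
        have hh1 : h = g ∨ h = 1 := by
          by_contra hc
          rw [not_or] at hc
          apply Finsupp.mem_support_iff.1 hh
          rw [of_apply, one_def, coeff_sub, Finsupp.sub_apply, coeff_single, coeff_single,
            Finsupp.single_apply, Finsupp.single_apply, if_neg (fun e => hc.1 e.symm),
            if_neg (fun e => hc.2 e.symm), sub_zero]
        have h3 : (s : ℤ) * t.TT L r 1 ≤ (s : ℤ) * t.TT L r h := by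
          rcases hh1 with rfl | rfl
          · exact hg'
          · exact le_rfl
        have h4 : A s (1 * h) v = 0 := by
          by_contra hc
          have h5 := ty_T hA hc
          rw [one_mul, mul_sub] at h5
          linarith
        show (of ℚ G g - 1 : MonoidAlgebra ℚ G).coeff h * A s (1 * h) v = 0
        rw [h4, mul_zero]
      · rfl
    have e3 : (y - ∑ k, low k • ρ k) j = y j - ∑ k, low k * ρ k j := by
      rw [Pi.sub_apply, Finset.sum_apply]
      rfl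
    rw [e3, coeff_sub, Finsupp.sub_apply, coeff_sum, Finsupp.finsetSum_apply, e1, e2, add_zero,
      ← Finset.sum_sub_distrib]
    refine Finset.sum_eq_zero fun k _ => ?_
    rw [coeff_mul_apply_right, sub_eq_zero]
    refine Finset.sum_congr rfl fun h hh => ?_
    have h6 := hB h (Finset.mem_biUnion.2 ⟨k, Finset.mem_univ _, Finset.mem_biUnion.2
      ⟨j, Finset.mem_univ _, hh⟩⟩) v
    have h7 := (abs_le.1 h6).2
    have h8 : (0 : ℤ) ≤ r * C := by positivity
    have h9 := hlow k (v * h⁻¹)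
    rw [if_pos (by linarith)] at h9
    show (∑ i, mm (gm (y i)) (Xd i k)) s 1 (v * h⁻¹) * (ρ k j).coeff h =
      (low k).coeff (v * h⁻¹) * (ρ k j).coeff h
    rw [h9]

end Pool.Agent.RFR
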