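import Pool.Agent.RFR.VDefs

set_option autoImplicit false

/-! RFR-VH (V8): slabs are connected.

PLAN (paper proof V8).  `cp`, `cm` from `hp`, `hm`; `c0 ≥ 0` a bound of `|T (v * h) - T v|` for `h⁻¹` and `h` in the supports of the `ρ k j` (finite set, `BdR`); `c = max cp cm + c0`.  For `T g = T 1`: `yp`, `ym` (`- T 1 ≤ - T g`), `yp - ym` in `ker (bq x)`, so `yp - ym = ∑ k, d k • ρ k` (`hρ`, `Submodule.mem_span_range_iff_exists_fun`).
`dp k` = the part of `d k` on `{T 1 ≤ T v}` (`ofCoeff (Finsupp.filter ..)`), `dm k = d k - dp k` the part on `{T v < T 1}`.  `y = yp - ∑ k, dp k • ρ k = ym + ∑ k, dm k • ρ k`; the first expression vanishes at `v` if `T v < T 1 - c`, the second one if `T v > T 1 + c`. -/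

namespace Pool.Agent.RFR

open MonoidAlgebra

section aux

variable {K : Type} [Group K] {T : K → ℤ}

private theorem vh_mul (hB : BdR T) (d : MonoidAlgebra ℚ K) :
    ∃ C : ℤ, 0 ≤ C ∧ ∀ (c : MonoidAlgebra ℚ K) (g : K), (c * d).coeff g ≠ 0 →
      ∃ h, c.coeff h ≠ 0 ∧ |T g - T h| ≤ C := by
  choose B hB using hB
  refine ⟨∑ v ∈ d.coeff.support, |B v|, Finset.sum_nonneg (fun _ _ => abs_nonneg _), ?_⟩
  intro c g hg
  rw [coeff_mul_apply_right, Finsupp.sum] at hg
  obtain ⟨v, hv, h2⟩ := Finset.exists_ne_zero_of_sum_ne_zero hg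
  refine ⟨g * v⁻¹, left_ne_zero_of_mul h2, ?_⟩
  have h5 := hB v (g * v⁻¹)
  rw [inv_mul_cancel_right] at h5
  have h6 : |B v| ≤ ∑ v ∈ d.coeff.support, |B v| :=
    Finset.single_le_sum (f := fun v => |B v|) (fun _ _ => abs_nonneg _) hv
  exact h5.trans ((le_abs_self (B v)).trans h6)

private theorem vh_fam (hB : BdR T) {J : Type} [Fintype J] (d : J → MonoidAlgebra ℚ K) :
    ∃ C : ℤ, 0 ≤ C ∧ ∀ (c : MonoidAlgebra ℚ K) (j : J) (g : K), (c * d j).coeff g ≠ 0 →
      ∃ h, c.coeff h ≠ 0 ∧ |T g - T h| ≤ C := by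
  choose B hB0 hB using fun j => vh_mul hB (d j)
  refine ⟨∑ j, B j, Finset.sum_nonneg (fun j _ => hB0 j), ?_⟩
  intro c j g hg
  obtain ⟨h, h1, h2⟩ := hB j c g hg
  have h6 : B j ≤ ∑ j, B j :=
    Finset.single_le_sum (f := fun j => B j) (fun j _ => hB0 j) (Finset.mem_univ j)
  exact ⟨h, h1, h2.trans h6⟩

end aux

theorem conn_slab {G : Type} [Group G] (T : G → ℤ) (hB : BdR T) {n N : ℕ} (x : Fin n → G)
    (ρ : Fin N → Fin n → MonoidAlgebra ℚ G)
    (hρ : Submodule.span (MonoidAlgebra ℚ G) (Set.range ρ) = LinearMap.ker (bq x))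
    (hp : ConnH T x) (hm : ConnH (fun w => - T w) x) : ConnS T x := by
  classical
  obtain ⟨cp, hcp0, hcp⟩ := hp
  obtain ⟨cm, hcm0, hcm⟩ := hm
  obtain ⟨C, hC0, hC⟩ := vh_fam hB (fun q : Fin N × Fin n => ρ q.1 q.2)
  refine ⟨cp + cm + C, by positivity, fun g hg => ?_⟩
  obtain ⟨yp, hyp, hyp'⟩ := hcp g hg.ge
  obtain ⟨ym, hym, hym'⟩ := hcm g (by simp only [hg]; exact le_refl _)
  have hker : yp - ym ∈ Submodule.span (MonoidAlgebra ℚ G) (Set.range ρ) := by
    rw [hρ, LinearMap.mem_ker, map_sub, hyp, hym, sub_self]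
  obtain ⟨d, hd⟩ := Submodule.mem_span_range_iff_exists_fun _ |>.1 hker
  set dp : Fin N → MonoidAlgebra ℚ G := fun k =>
    MonoidAlgebra.ofCoeff ((d k).coeff.filter (fun v => T 1 ≤ T v)) with hdp
  have hdpc : ∀ k v, (dp k).coeff v = if T 1 ≤ T v then (d k).coeff v else 0 := by
    intro k v
    rw [hdp]
    simp only
    rw [Finsupp.filter_apply]
  have hρ0 : ∀ k, bq x (ρ k) = 0 := by
    intro k
    have h1 : ρ k ∈ LinearMap.ker (bq x) := by
      rw [← hρ]
      exact Submodule.subset_span ⟨k, rfl⟩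
    exact h1
  refine ⟨yp - ∑ k, dp k • ρ k, ?_, ?_⟩
  · rw [map_sub, hyp, map_sum, Finset.sum_eq_zero, sub_zero]
    intro k _
    rw [map_smul, hρ0, smul_zero]
  · intro j v hv
    have hj : ∀ e : Fin N → MonoidAlgebra ℚ G, (∑ k, e k • ρ k) j = ∑ k, e k * ρ k j := by
      intro e
      rw [Finset.sum_apply]
      rfl
    have e1 : (yp - ∑ k, dp k • ρ k) j = yp j - ∑ k, dp k * ρ k j := by
      rw [Pi.sub_apply, hj]
    have e2 : (yp - ∑ k, dp k • ρ k) j = ym j + ∑ k, (d k - dp k) * ρ k j := by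
      have h3 : yp j - ym j = ∑ k, d k * ρ k j := by
        rw [← hj, hd, Pi.sub_apply]
      have h4 : ∑ k, (d k - dp k) * ρ k j = ∑ k, d k * ρ k j - ∑ k, dp k * ρ k j := by
        rw [← Finset.sum_sub_distrib]
        exact Finset.sum_congr rfl fun k _ => sub_mul _ _ _
      rw [e1, h4, ← h3]
      abel
    constructor
    · rw [e1, coeff_sub, Finsupp.sub_apply, coeff_sum, Finsupp.finsetSum_apply] at hv
      by_cases h1 : (yp j).coeff v = 0
      · rw [h1, zero_sub, neg_ne_zero] at hv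
        obtain ⟨k, _, hk⟩ := Finset.exists_ne_zero_of_sum_ne_zero hv
        obtain ⟨w, hw, hw'⟩ := hC (dp k) (k, j) v hk
        rw [hdpc] at hw
        by_cases h2 : T 1 ≤ T w
        · rw [abs_le] at hw'
          linarith [hw'.1]
        · rw [if_neg h2] at hw
          exact absurd rfl hw
      · have := hyp' j v h1
        linarith
    · rw [e2, coeff_add, Finsupp.add_apply, coeff_sum, Finsupp.finsetSum_apply] at hv
      by_cases h1 : (ym j).coeff v = 0
      · rw [h1, zero_add] at hv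
        obtain ⟨k, _, hk⟩ := Finset.exists_ne_zero_of_sum_ne_zero hv
        obtain ⟨w, hw, hw'⟩ := hC (d k - dp k) (k, j) v hk
        rw [coeff_sub, Finsupp.sub_apply, hdpc] at hw
        by_cases h2 : T 1 ≤ T w
        · rw [if_pos h2, sub_self] at hw
          exact absurd rfl hw
        · rw [abs_le] at hw'
          linarith [hw'.2]
      · have := hym' j v h1
        simp only at this
        linarith

end Pool.Agent.RFR
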