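import Pool.Agent.RFR.VDefs

set_option autoImplicit false

/-! RFR-VI (V9): finite generation of the kernel.

PLAN (paper proof V9).  `N = θ.ker.map E.subtype = {g ∈ E | T g = T 1}` (as a subgroup of `G`); for `n ∈ N`: `T (n * v) = T v`.  `c` from `h`, `a = c + c0`, `c0` a bound of `|T (v * x j) - T v|`.  The set `S = {v | |T v - T 1| ≤ a}`: if `v, v' ∈ S` have the same class in `E \ G` (`QuotientGroup.rightRel E`, a finite quotient) and `T v = T v'`
then `v' * v⁻¹ ∈ N` (`hT` for `v' = (v' v⁻¹) v`).  So there is a finite set `F ⊆ G` (choose one `v` in `S` for every possible pair (class, value in `[T 1 - a, T 1 + a]`)) with: every `v ∈ S` is `n * f`, `n ∈ N`, `f ∈ F`; add `1` to `F`.  `Σ = {n ∈ N | ∃ f f' ∈ F, n * f' = f ∨ ∃ j, n * f' = f * x j}` is finite.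
`M = Subgroup.closure Σ ≤ N`, `A = {v | ∃ m ∈ M, ∃ f ∈ F, v = m * f}`.  For `v, v * x j ∈ S`: `v ∈ A ↔ v * x j ∈ A`.  For `g ∈ N`, `y` from `h`: apply the additive map `MonoidAlgebra ℚ G → ℚ`, `b ↦ b.coeff.sum fun v q => if v ∈ A then q else 0`, to `∑ j, y j * (of (x j) - 1) = of g - 1`
(`bq_apply`; it sends `single v q * (of (x j) - 1)` to `q * (1_A (v x j) - 1_A v)`, which is `0` for `v` in the support of `y j`).  So `1_A g = 1_A 1 = 1`; `g = m * f`, `f = m⁻¹ * g ∈ N ∩ F`, `f ∈ Σ` (with `f' = 1`), `g ∈ M`.  So `N = M` is finitely generated and so is `θ.ker` (`Subgroup.fg_iff..`, `E.subtype` injective: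
`Subgroup.equivMapOfInjective`, `Group.fg_iff_subgroup_fg`). -/

namespace Pool.Agent.RFR

open MonoidAlgebra

/-- the additive functional of a weight function -/
private noncomputable def rfrvi_L {G : Type} [Group G] (φ : G → ℚ) : MonoidAlgebra ℚ G →+ ℚ :=
  (Finsupp.liftAddHom fun v => (AddMonoidHom.mulRight (φ v))).comp
    coeffAddEquiv.toAddMonoidHom

private theorem rfrvi_L_single {G : Type} [Group G] (φ : G → ℚ) (v : G) (q : ℚ) :
    rfrvi_L φ (single v q) = q * φ v := by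
  simp [rfrvi_L]

private theorem rfrvi_L_apply {G : Type} [Group G] (φ : G → ℚ) (b : MonoidAlgebra ℚ G) :
    rfrvi_L φ b = b.coeff.sum fun v q => q * φ v := by
  simp only [rfrvi_L, AddMonoidHom.comp_apply, Finsupp.liftAddHom_apply]
  rfl

private theorem rfrvi_L_of {G : Type} [Group G] (φ : G → ℚ) (v : G) :
    rfrvi_L φ (of ℚ G v) = φ v := by
  rw [of_apply, rfrvi_L_single, one_mul]

private theorem rfrvi_L_one {G : Type} [Group G] (φ : G → ℚ) :
    rfrvi_L φ (1 : MonoidAlgebra ℚ G) = φ 1 := by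
  rw [one_def, rfrvi_L_single, one_mul]

private theorem rfrvi_L_mul {G : Type} [Group G] (φ : G → ℚ) (x : G) (y : MonoidAlgebra ℚ G) :
    rfrvi_L φ (y * (of ℚ G x - 1)) = rfrvi_L (fun v => φ (v * x) - φ v) y := by
  have h : (rfrvi_L φ).comp (AddMonoidHom.mulRight (of ℚ G x - 1)) =
      rfrvi_L (fun v => φ (v * x) - φ v) := by
    apply addMonoidHom_ext
    intro v q
    rw [AddMonoidHom.comp_apply, AddMonoidHom.mulRight_apply, mul_sub, mul_one, of_apply,
      single_mul_single, mul_one, map_sub, rfrvi_L_single, rfrvi_L_single, rfrvi_L_single]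
    ring
  exact DFunLike.congr_fun h y

private theorem rfrvi_L_zero {G : Type} [Group G] (φ : G → ℚ) (y : MonoidAlgebra ℚ G)
    (h : ∀ v, y.coeff v ≠ 0 → φ v = 0) : rfrvi_L φ y = 0 := by
  rw [rfrvi_L_apply, Finsupp.sum]
  apply Finset.sum_eq_zero
  intro v hv
  rw [h v (Finsupp.mem_support_iff.1 hv), mul_zero]

theorem fg_of_conn {G : Type} [Group G] (E : Subgroup G) [E.FiniteIndex] (T : G → ℤ)
    (hT : ∀ g ∈ E, ∀ w, T (g * w) = T w + (T g - T 1)) (hB : BdR T) {n : ℕ} (x : Fin n → G)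
    (h : ConnS T x) (θ : E →* Multiplicative ℤ) (hθ : ∀ g : E, g ∈ θ.ker ↔ T g = T 1) :
    θ.ker.FG := by
  classical
  -- the subgroup N of G
  set N : Subgroup G := θ.ker.map E.subtype with hNdef
  have hN : ∀ g, g ∈ N ↔ g ∈ E ∧ T g = T 1 := by
    intro g
    rw [hNdef, Subgroup.mem_map]
    constructor
    · rintro ⟨k, hk, rfl⟩
      exact ⟨k.2, (hθ k).1 hk⟩
    · rintro ⟨h1, h2⟩
      exact ⟨⟨g, h1⟩, (hθ _).2 h2, rfl⟩
  suffices hfg : N.FG by
    have e := Subgroup.equivMapOfInjective θ.ker E.subtype E.subtype_injective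
    rw [← Group.fg_iff_subgroup_fg] at hfg ⊢
    have : Group.FG (θ.ker.map E.subtype) := hfg
    exact Group.fg_of_surjective (f := e.symm.toMonoidHom) e.symm.surjective
  obtain ⟨c, hc0, hc⟩ := h
  choose B hBB using hB
  have hB0 : ∀ v, 0 ≤ B v := fun v => (abs_nonneg _).trans (hBB v 1)
  set a : ℤ := c + ∑ j, B (x j) with ha
  have hs : ∀ j, B (x j) ≤ ∑ j, B (x j) := fun j =>
    Finset.single_le_sum (f := fun j => B (x j)) (fun j _ => hB0 _) (Finset.mem_univ j)
  have hs0 : 0 ≤ ∑ j, B (x j) := Finset.sum_nonneg fun j _ => hB0 _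
  let S : Set G := {v | |T v - T 1| ≤ a}
  let κ : G → (G ⧸ E) × ℤ := fun v => ((v⁻¹ : G), T v)
  have hfin : (κ '' S).Finite := by
    apply ((Set.finite_univ (α := G ⧸ E)).prod (Set.finite_Icc (T 1 - a) (T 1 + a))).subset
    rintro _ ⟨v, hv, rfl⟩
    have h1 : |T v - T 1| ≤ a := hv
    rw [abs_le] at h1
    exact ⟨Set.mem_univ _, by constructor <;> simp only [κ] <;> linarith [h1.1, h1.2]⟩
  obtain ⟨F0, hF0S, hF0⟩ := Set.exists_subset_bijOn S κ
  have hF0fin : F0.Finite := hF0.finite_iff_finite.2 hfin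
  let F : Set G := insert 1 F0
  have hFfin : F.Finite := hF0fin.insert 1
  have hcov : ∀ v ∈ S, ∃ m ∈ N, ∃ f ∈ F, v = m * f := by
    intro v hv
    obtain ⟨f, hf, hfv⟩ := hF0.surjOn ⟨v, hv, rfl⟩
    have h1 : ((f⁻¹ : G) : G ⧸ E) = ((v⁻¹ : G) : G ⧸ E) := congrArg Prod.fst hfv
    have h2 : T f = T v := congrArg Prod.snd hfv
    have h3 : v * f⁻¹ ∈ E := by
      have h4 := QuotientGroup.eq.1 h1.symm
      rwa [inv_inv] at h4
    refine ⟨v * f⁻¹, (hN _).2 ⟨h3, ?_⟩, f, Set.mem_insert_of_mem _ hf, by group⟩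
    have h5 := hT _ h3 f
    rw [inv_mul_cancel_right] at h5
    linarith
  let Sg : Set G := {m | m ∈ N ∧ ∃ f ∈ F, ∃ f' ∈ F, m * f' = f ∨ ∃ j, m * f' = f * x j}
  have hSgfin : Sg.Finite := by
    have h1 : ((F ×ˢ F ×ˢ (Set.univ : Set (Option (Fin n)))).image
        fun p => p.1 * (p.2.2.elim 1 x) * p.2.1⁻¹).Finite :=
      (hFfin.prod (hFfin.prod Set.finite_univ)).image _
    apply h1.subset
    rintro m ⟨_, f, hf, f', hf', h2 | ⟨j, h2⟩⟩
    · exact ⟨(f, f', none), ⟨hf, hf', Set.mem_univ _⟩, by simp [← h2]⟩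
    · exact ⟨(f, f', some j), ⟨hf, hf', Set.mem_univ _⟩, by simp [← h2]⟩
  set M : Subgroup G := Subgroup.closure Sg with hM
  have hMN : M ≤ N := by
    rw [hM, Subgroup.closure_le]
    intro m hm
    exact hm.1
  let A : Set G := {v | ∃ m ∈ M, ∃ f ∈ F, v = m * f}
  have hA : ∀ v j, v ∈ S → v * x j ∈ S → (v ∈ A ↔ v * x j ∈ A) := by
    intro v j h1 h2
    constructor
    · rintro ⟨m, hm, f, hf, rfl⟩
      obtain ⟨n', hn', f', hf', h3⟩ := hcov _ h2
      have h4 : m⁻¹ * n' ∈ Sg := by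
        refine ⟨N.mul_mem (N.inv_mem (hMN hm)) hn', f, hf, f', hf', Or.inr ⟨j, ?_⟩⟩
        rw [mul_assoc, ← h3]
        group
      refine ⟨n', ?_, f', hf', h3⟩
      have h5 := M.mul_mem hm (Subgroup.subset_closure h4)
      rwa [mul_inv_cancel_left] at h5
    · rintro ⟨m, hm, f', hf', h3⟩
      obtain ⟨n', hn', f, hf, h4⟩ := hcov _ h1
      have h5 : n'⁻¹ * m ∈ Sg := by
        refine ⟨N.mul_mem (N.inv_mem hn') (hMN hm), f, hf, f', hf', Or.inr ⟨j, ?_⟩⟩
        rw [mul_assoc, ← h3, h4]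
        group
      refine ⟨n', ?_, f, hf, h4⟩
      have h6 := M.mul_mem hm (M.inv_mem (Subgroup.subset_closure h5))
      have h7 : m * (n'⁻¹ * m)⁻¹ = n' := by group
      rwa [h7] at h6
  have h1A : (1 : G) ∈ A := ⟨1, M.one_mem, 1, Set.mem_insert _ _, by simp⟩
  have hNA : ∀ g ∈ N, g ∈ A := by
    intro g hg
    obtain ⟨y, hy, hyS⟩ := hc g ((hN g).1 hg).2
    let φ : G → ℚ := fun v => if v ∈ A then 1 else 0
    have h1 := congrArg (rfrvi_L φ) hy
    rw [bq_apply, map_sum, map_sub, rfrvi_L_one, rfrvi_L_of] at h1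
    have h2 : ∑ j, rfrvi_L φ (y j * (of ℚ G (x j) - 1)) = 0 := by
      apply Finset.sum_eq_zero
      intro j _
      rw [rfrvi_L_mul]
      apply rfrvi_L_zero
      intro v hv
      have h3 := hyS j v hv
      have h4 := hBB (x j) v
      rw [abs_le] at h4
      have h5 : v ∈ S := by
        change |T v - T 1| ≤ a
        rw [abs_le]
        constructor <;> linarith [h3.1, h3.2]
      have h6 : v * x j ∈ S := by
        change |T (v * x j) - T 1| ≤ a
        rw [abs_le]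
        constructor <;> linarith [h3.1, h3.2, h4.1, h4.2, hs j]
      have h7 := hA v j h5 h6
      by_cases h8 : v ∈ A
      · simp [φ, h8, h7.1 h8]
      · have h9 : v * x j ∉ A := fun h => h8 (h7.2 h)
        simp [φ, h8, h9]
    rw [h2] at h1
    by_contra hgA
    simp [φ, hgA, h1A] at h1
  have hNM : N = M := by
    apply le_antisymm _ hMN
    intro g hg
    obtain ⟨m, hm, f, hf, h1⟩ := hNA g hg
    have h2 : f ∈ Sg := by
      refine ⟨?_, f, hf, 1, Set.mem_insert _ _, Or.inl (mul_one f)⟩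
      have h3 : f = m⁻¹ * g := by rw [h1]; group
      rw [h3]
      exact N.mul_mem (N.inv_mem (hMN hm)) hg
    rw [h1]
    exact M.mul_mem hm (Subgroup.subset_closure h2)
  rw [hNM, Subgroup.fg_iff]
  exact ⟨Sg, rfl, hSgfin⟩

end Pool.Agent.RFR
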