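import Pool.Agent.RFR.DPot
import Pool.Agent.RFR.DBas

set_option autoImplicit false

/-! RFR-VJ (V10): the homomorphism `TT - TT 1` on `E r` is not zero.

PLAN (paper proof V10).  For `e ∈ E r`: `t.F L k e - t.F L k 1 = ∑ j ∈ range (k + 1), L ^ (k - j) * t.φ j e` for `k < r` (induction on `k`, `t.f_mul j e _ 1`), so `TT L r e - TT L r 1 = ∑ j ∈ range r, W (r - j) * t.φ j e` with `W 0 = 0`, `W (m + 1) = 1 + L * W m` (or use `F_change`-like sums; any form is fine).  For `L ≥ 1`: `0 ≤ W m ≤ W m'` for `m ≤ m'`, `W m ≥ 1` for `m ≥ 1`.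
There are `i` and `g ∈ E i` with `φ i g ≠ 0`: otherwise `E k = ⊤` for all `k` (induction with `t.ne`) and every `g` is `1` (`t.sep`).  `r0 = i + 1`; for `r > i`, `g ^ M ∈ E r` with `M` the index of `E r` (`Subgroup.pow_index_mem`, normal), `φ i (g ^ M) = M * φ i g ≠ 0`.  So the set of `k < r` for which `φ k` is not zero on `E r` is nonempty;
`k` minimal, `e ∈ E r` with `φ k e ≠ 0`.  `L0 = 1 + ∑ j ∈ range r, |φ j e|`.  For `L ≥ L0`: `|∑_{j > k} W (r - j) * φ j e| ≤ W (r - k - 1) * ∑ |φ j e| ≤ W (r - k - 1) * L < W (r - k) ≤ |W (r - k) * φ k e|`. -/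

namespace Pool.Agent.RFR

private theorem vj_pow {G : Type} [Group G] (t : PT G) {i : ℕ} {g : G} (hg : g ∈ t.E i) (m : ℕ) :
    t.φ i (g ^ m) = m * t.φ i g := by
  induction m with
  | zero => rw [pow_zero, t.phi_one, Nat.cast_zero, zero_mul]
  | succ m ih =>
    rw [pow_succ, t.hom i _ (pow_mem hg m) _ hg, ih]
    push_cast
    ring

private theorem vj_zero {G : Type} [Group G] (t : PT G) {L : ℤ} {e : G} (he : e ∈ t.E 0) :
    t.F L 0 e - t.F L 0 1 = t.φ 0 e := by
  have h := t.f_mul 0 e he 1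
  rw [mul_one] at h
  show t.f 0 e - t.f 0 1 = t.φ 0 e
  omega

private theorem vj_succ {G : Type} [Group G] (t : PT G) {L : ℤ} {k : ℕ} {e : G}
    (he : e ∈ t.E (k + 1)) :
    t.F L (k + 1) e - t.F L (k + 1) 1 = L * (t.F L k e - t.F L k 1) + t.φ (k + 1) e := by
  have h := t.f_mul (k + 1) e he 1
  rw [mul_one] at h
  show (L * t.F L k e + t.f (k + 1) e) - (L * t.F L k 1 + t.f (k + 1) 1) =
    L * (t.F L k e - t.F L k 1) + t.φ (k + 1) e
  rw [h]
  ring

private theorem vj_exists {G : Type} [Group G] [Nontrivial G] (t : PT G) :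
    ∃ i, ∃ g ∈ t.E i, t.φ i g ≠ 0 := by
  by_contra hcon
  push Not at hcon
  have h1 : ∀ k, ∀ g, g ∈ t.E k := by
    intro k
    induction k using Nat.strong_induction_on with
    | _ k ih =>
      intro g
      exact t.ne k g fun j hj => ⟨ih j hj g, hcon j g (ih j hj g)⟩
  obtain ⟨g, hg⟩ := exists_ne (1 : G)
  exact hg (t.sep g fun j => ⟨h1 j g, hcon j g (h1 j g)⟩)

theorem theta_ne {G : Type} [Group G] [Nontrivial G] (t : PT G) :
    ∃ r0 : ℕ, ∀ r, r0 ≤ r → ∃ L0 : ℤ, ∀ L, L0 ≤ L → ∃ e ∈ t.E r, t.TT L r e ≠ t.TT L r 1 := by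
  classical
  obtain ⟨i, g, hg, hφg⟩ := vj_exists t
  refine ⟨i + 1, fun r hr => ?_⟩
  have hn := t.nrm r
  have hf := t.fin r
  obtain ⟨e, he⟩ : ∃ e, e = g ^ (t.E r).index := ⟨_, rfl⟩
  have heE : e ∈ t.E r := by
    rw [he]
    exact Subgroup.pow_index_mem (t.E r) g
  have hφe : t.φ i e ≠ 0 := by
    rw [he, vj_pow t hg]
    refine mul_ne_zero ?_ hφg
    have h1 : (t.E r).index ≠ 0 := hf.index_ne_zero
    exact_mod_cast h1
  have hex : ∃ j, t.φ j e ≠ 0 := ⟨i, hφe⟩
  obtain ⟨k, hk⟩ : ∃ k, k = Nat.find hex := ⟨_, rfl⟩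
  have hk1 : t.φ k e ≠ 0 := by
    rw [hk]
    exact Nat.find_spec hex
  have hk2 : ∀ j < k, t.φ j e = 0 := by
    intro j hj
    rw [hk] at hj
    by_contra h
    exact Nat.find_min hex hj h
  have hki : k ≤ i := by
    rw [hk]
    exact Nat.find_min' hex hφe
  refine ⟨1 + ∑ j ∈ Finset.range r, |t.φ j e|, fun L hL => ⟨e, heE, ?_⟩⟩
  have hB : ∀ j < r, |t.φ j e| ≤ L - 1 := by
    intro j hj
    have h1 : |t.φ j e| ≤ ∑ j ∈ Finset.range r, |t.φ j e| :=
      Finset.single_le_sum (f := fun j => |t.φ j e|) (fun j _ => abs_nonneg _)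
        (Finset.mem_range.2 hj)
    omega
  have hE : ∀ j ≤ r, e ∈ t.E j := fun j hj => t.E_le hj heE
  -- the differences
  have hd0 : ∀ j < k, t.F L j e - t.F L j 1 = 0 := by
    intro j
    induction j with
    | zero =>
      intro hj
      rw [vj_zero t (hE 0 (Nat.zero_le r)), hk2 0 hj]
    | succ j ih =>
      intro hj
      rw [vj_succ t (hE (j + 1) (by omega)), ih (by omega), hk2 (j + 1) hj]
      ring
  have hdk : t.F L k e - t.F L k 1 = t.φ k e := by
    rcases Nat.eq_zero_or_pos k with h | h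
    · rw [h]
      exact vj_zero t (hE 0 (Nat.zero_le r))
    · obtain ⟨m, hm⟩ : ∃ m, k = m + 1 := ⟨k - 1, by omega⟩
      rw [hm, vj_succ t (hE (m + 1) (by omega)), hd0 m (by omega)]
      ring
  obtain ⟨s, hs1, hs2⟩ : ∃ s : ℤ, (s = 1 ∨ s = -1) ∧ 1 ≤ s * t.φ k e := by
    rcases lt_or_gt_of_ne hk1 with h | h
    · exact ⟨-1, Or.inr rfl, by omega⟩
    · exact ⟨1, Or.inl rfl, by omega⟩
  have hsabs : ∀ x : ℤ, -|x| ≤ s * x := by
    intro x
    rcases hs1 with h | h
    · rw [h, one_mul]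
      exact neg_abs_le x
    · rw [h]
      have := le_abs_self x
      omega
  have hd : ∀ m, k + m < r → 1 ≤ s * (t.F L (k + m) e - t.F L (k + m) 1) := by
    intro m
    induction m with
    | zero =>
      intro _
      rw [Nat.add_zero, hdk]
      exact hs2
    | succ m ih =>
      intro hm
      have h1 := ih (by omega)
      have h2 : k + (m + 1) = (k + m) + 1 := by omega
      rw [h2, vj_succ t (hE (k + m + 1) (by omega))]
      have h3 := hB (k + m + 1) (by omega)
      have h4 := hsabs (t.φ (k + m + 1) e)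
      have h5 : 0 ≤ L := by
        have := abs_nonneg (t.φ (k + m + 1) e)
        omega
      have h6 : L * 1 ≤ L * (s * (t.F L (k + m) e - t.F L (k + m) 1)) :=
        mul_le_mul_of_nonneg_left h1 h5
      have h7 : s * (L * (t.F L (k + m) e - t.F L (k + m) 1) + t.φ (k + m + 1) e) =
          L * (s * (t.F L (k + m) e - t.F L (k + m) 1)) + s * t.φ (k + m + 1) e := by ring
      rw [h7]
      omega
  have hall : ∀ j ∈ Finset.range r, 0 ≤ s * (t.F L j e - t.F L j 1) := by
    intro j hj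
    rw [Finset.mem_range] at hj
    by_cases hjk : j < k
    · rw [hd0 j hjk, mul_zero]
    · have h1 := hd (j - k) (by omega)
      have h2 : k + (j - k) = j := by omega
      rw [h2] at h1
      omega
  have hsum : s * (t.TT L r e - t.TT L r 1) =
      ∑ j ∈ Finset.range r, s * (t.F L j e - t.F L j 1) := by
    unfold PT.TT
    rw [← Finset.mul_sum, Finset.sum_sub_distrib]
  have hge : s * (t.F L k e - t.F L k 1) ≤
      ∑ j ∈ Finset.range r, s * (t.F L j e - t.F L j 1) :=
    Finset.single_le_sum hall (Finset.mem_range.2 (by omega))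
  intro heq
  rw [heq, sub_self, mul_zero] at hsum
  have h1 := hd 0 (by omega)
  rw [Nat.add_zero] at h1
  omega

end Pool.Agent.RFR
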