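import Pool.Agent.RFR.VE
import Pool.Agent.RFR.DMul
import Pool.Agent.RFR.DMonB
import Pool.Agent.RFR.DPot

set_option autoImplicit false

/-! RFR-VM (V5): `H¹` vanishes over the tame matrices.

The columns of tame matrices of a common type `(r, L, C)` have finitely many entries in the half spaces `m ≤ s * TT`, so
the column lemma applies to every column. -/

namespace Pool.Agent.RFR

open MonoidAlgebra

private theorem vm_fin {H : Type} [Group H] {t : PT H} {r : ℕ} {L C : ℤ} {X : Mx H} (h : Ty t r L C X)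
    (s : ℤˣ) (w : H) (m : ℤ) : {v | X s v w ≠ 0 ∧ m ≤ (s : ℤ) * t.TT L r v}.Finite := by
  refine ((t.ell_fin (C * (1 + ((s : ℤ) * t.TT L r w - m) + r * C)).toNat).image
    (fun g => w * g⁻¹)).subset ?_
  rintro v ⟨hv, hm⟩
  refine ⟨v⁻¹ * w, ?_, by group⟩
  have h0 : (s : ℤ) * (t.TT L r w - t.TT L r v) =
      ∑ k ∈ Finset.range r, (s : ℤ) * (t.F L k w - t.F L k v) := by
    unfold PT.TT
    rw [← Finset.sum_sub_distrib, Finset.mul_sum]
  have h1 := h.len s v w hv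
  rw [Finset.sum_add_distrib, Finset.sum_const, Finset.card_range, ← h0, nsmul_eq_mul,
    ← add_assoc] at h1
  have h2 : C * (1 + (s : ℤ) * (t.TT L r w - t.TT L r v) + r * C) ≤
      C * (1 + ((s : ℤ) * t.TT L r w - m) + r * C) :=
    mul_le_mul_of_nonneg_left (by rw [mul_sub]; linarith) h.C0
  have h3 := h1.trans h2
  show t.ell (v⁻¹ * w) ≤ (C * (1 + ((s : ℤ) * t.TT L r w - m) + r * C)).toNat
  generalize C * (1 + ((s : ℤ) * t.TT L r w - m) + r * C) = B at h3 ⊢
  omega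

theorem h1_tame {G : Type} [Group G] {t : PT G} {n N : ℕ} (x : Fin n → G)
    (ρ : Fin N → Fin n → MonoidAlgebra ℚ G)
    (hC : ∀ (r : ℕ) (L : ℤ) (s : ℤˣ), CoSl (fun w => (s : ℤ) * t.TT L r w) ρ) (hH : H1Z x ρ)
    (j0 : Fin n) (hj0 : ∀ k : ℕ, 0 < k → x j0 ^ k ≠ 1) (X : Fin n → Mx G)
    (hX : ∀ j, Tame t (X j)) (hz : X j0 = 0)
    (h : ∀ k, ∑ j, mm (gm (ρ k j)) (X j) = 0) : ∀ j, X j = 0 := by
  obtain ⟨r, hr⟩ := tame_all hX
  obtain ⟨L, hL⟩ := hr r le_rfl
  obtain ⟨C, hT⟩ := hL L le_rfl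
  obtain ⟨A, hA⟩ := TT_lip t L r
  intro j
  funext s u w
  haveI := t.fin r
  refine column (t.E r) (t.nrm r) (fun w => (s : ℤ) * t.TT L r w) ?_ ?_ x ρ (hC r L s) hH j0 hj0
    (fun j v => X j s v w) ?_ ?_ ?_ j u
  · intro g hg v
    have h1 := TT_mul t L r hg v
    show (s : ℤ) * t.TT L r (g * v) = (s : ℤ) * t.TT L r v + ((s : ℤ) * t.TT L r g - (s : ℤ) * t.TT L r 1)
    rw [h1]
    ring
  · intro v
    refine ⟨A * t.ell v, fun w => ?_⟩
    rw [← mul_sub, abs_mul]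
    have h1 : |(s : ℤ)| = 1 := by
      rcases Int.units_eq_one_or s with h | h <;> rw [h] <;> rfl
    rw [h1, one_mul]
    exact hA w v
  · intro j m
    exact vm_fin (hT j) s w m
  · intro k u
    have h1 := congrFun (congrFun (congrFun (h k) s) u) w
    rw [Finset.sum_apply, Finset.sum_apply, Finset.sum_apply] at h1
    refine Eq.trans (Finset.sum_congr rfl fun j _ => ?_) h1
    exact (gm_mm (ρ k j) (X j) s u w).symm
  · intro v
    show X j0 s v w = 0
    rw [hz]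
    rfl

end Pool.Agent.RFR
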