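import Pool.Agent.PDC.DualB

set_option autoImplicit false

/-! RFR-VS: PD3-groups are not trivial; nonzero homomorphisms to `ℤ` can be made surjective.

PLAN.  `pd3_nontrivial`: if `G` is trivial, `ℤG` is `ℤ`: the map `φ q = (X.ε q : MonoidAlgebra ℤ G)` (integer cast, i.e. `X.ε q • 1`) is `ℤG`-linear (`eps_smul`; every element of `ℤG` is `aug r • 1`: `zg_induction` and `g = 1`), `φ.comp d1 = 0` (`X.ex0`), so `φ = 0` (`X.h0`), but `X.ε` is surjective and `1 ≠ 0`.
`surj_of_ne`: the range of `θ` is a nontrivial subgroup of `Multiplicative ℤ`; it is `zpowers` of `ofAdd d`, `d > 0` (`Subgroup` of `Multiplicative ℤ`, `Int.subgroup_cyclic`, `AddSubgroup.mem_zmultiples`); `θ' g = ofAdd (toAdd (θ g) / d)`. -/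

namespace Pool.Agent.RFR

open MonoidAlgebra PDC

private theorem vs_aug_eq {G : Type} [Group G] [Subsingleton G] (r : MonoidAlgebra ℤ G) :
    ((aug r : ℤ) : MonoidAlgebra ℤ G) = r := by
  induction r using zg_induction with
  | h0 => simp
  | hadd x y hx hy => rw [map_add, Int.cast_add, hx, hy]
  | hneg x hx => rw [map_neg, Int.cast_neg, hx]
  | hof g =>
    rw [aug_of, Int.cast_one, Subsingleton.elim g 1, map_one]

theorem pd3_nontrivial {G : Type} [Group G] (X : PD3 G) : Nontrivial G := by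
  by_contra hG
  rw [not_nontrivial_iff_subsingleton] at hG
  let φ : X.P0 →ₗ[MonoidAlgebra ℤ G] MonoidAlgebra ℤ G :=
    { toFun := fun q => ((X.ε q : ℤ) : MonoidAlgebra ℤ G)
      map_add' := fun x y => by rw [map_add, Int.cast_add]
      map_smul' := fun r q => by
        rw [eps_smul, Int.cast_mul, vs_aug_eq, RingHom.id_apply, smul_eq_mul] }
  have h1 : φ.comp X.d1 = 0 := by
    ext x : 1
    change ((X.ε (X.d1 x) : ℤ) : MonoidAlgebra ℤ G) = 0
    rw [X.ex0.apply_apply_eq_zero, Int.cast_zero]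
  have h2 := X.h0 φ h1
  obtain ⟨q, hq⟩ := X.surj 1
  have h3 : φ q = 0 := by rw [h2]; rfl
  have h4 : ((X.ε q : ℤ) : MonoidAlgebra ℤ G) = 0 := h3
  rw [hq, Int.cast_one] at h4
  exact one_ne_zero h4

theorem surj_of_ne {E : Type} [Group E] (θ : E →* Multiplicative ℤ) (h : ∃ e, θ e ≠ 1) :
    ∃ θ' : E →* Multiplicative ℤ, Function.Surjective θ' ∧ θ'.ker = θ.ker := by
  let S : AddSubgroup ℤ :=
    { carrier := {n | ∃ e, Multiplicative.toAdd (θ e) = n}
      zero_mem' := ⟨1, by rw [map_one]; rfl⟩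
      add_mem' := by
        rintro _ _ ⟨e, rfl⟩ ⟨f, rfl⟩
        exact ⟨e * f, by rw [map_mul, toAdd_mul]⟩
      neg_mem' := by
        rintro _ ⟨e, rfl⟩
        exact ⟨e⁻¹, by rw [map_inv, toAdd_inv]⟩ }
  obtain ⟨d, hd⟩ := Int.subgroup_cyclic S
  have hdvd : ∀ e, d ∣ Multiplicative.toAdd (θ e) := by
    intro e
    have h1 : Multiplicative.toAdd (θ e) ∈ S := ⟨e, rfl⟩
    rw [hd, AddSubgroup.mem_closure_singleton] at h1
    obtain ⟨n, hn⟩ := h1
    exact ⟨n, by rw [← hn, smul_eq_mul, mul_comm]⟩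
  have hdS : d ∈ S := by
    rw [hd]
    exact AddSubgroup.subset_closure (Set.mem_singleton d)
  obtain ⟨e0, he0⟩ := hdS
  have hd0 : d ≠ 0 := by
    rintro rfl
    obtain ⟨e, he⟩ := h
    apply he
    have h1 := zero_dvd_iff.1 (hdvd e)
    exact Multiplicative.toAdd.injective (by rw [h1]; rfl)
  refine ⟨{ toFun := fun e => Multiplicative.ofAdd (Multiplicative.toAdd (θ e) / d)
            map_one' := ?_
            map_mul' := ?_ }, ?_, ?_⟩
  · rw [map_one, toAdd_one, Int.zero_ediv, ofAdd_zero]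
  · intro e f
    rw [map_mul, toAdd_mul, Int.add_ediv_of_dvd_left (hdvd e), ofAdd_add]
  · intro n
    refine ⟨e0 ^ (Multiplicative.toAdd n), ?_⟩
    change Multiplicative.ofAdd (Multiplicative.toAdd (θ (e0 ^ (Multiplicative.toAdd n))) / d) = n
    rw [map_zpow, toAdd_zpow, he0, smul_eq_mul, Int.mul_ediv_cancel _ hd0, ofAdd_toAdd]
  · ext e
    rw [MonoidHom.mem_ker, MonoidHom.mem_ker]
    change Multiplicative.ofAdd (Multiplicative.toAdd (θ e) / d) = 1 ↔ _
    constructor
    · intro h1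
      have h2 : Multiplicative.toAdd (θ e) / d = 0 := by
        rw [← ofAdd_zero] at h1
        exact Multiplicative.ofAdd.injective h1
      have h3 := Int.ediv_mul_cancel (hdvd e)
      rw [h2, zero_mul] at h3
      exact Multiplicative.toAdd.injective (by rw [← h3]; rfl)
    · intro h1
      rw [h1, toAdd_one, Int.zero_ediv, ofAdd_zero]

end Pool.Agent.RFR
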