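import Pool.Agent.RFR.FFin
import Pool.Agent.RFR.VC
import Pool.Agent.RFR.VD
import Pool.Agent.RFR.VM
import Pool.Agent.RFR.VF
import Pool.Agent.RFR.VG
import Pool.Agent.RFR.VH
import Pool.Agent.RFR.VI
import Pool.Agent.RFR.VJ
import Pool.Agent.RFR.VS
import Pool.Agent.PDC.FIC
import Pool.Agent.PDC.ThmA

set_option autoImplicit false

/-! RFR-VK: Theorem F: virtually RFRS PD3-groups virtually fibre. -/

namespace Pool.Agent.RFR

open MonoidAlgebra PDC

/-- a subgroup of finite index maps onto `ℤ` with finitely generated kernel -/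
def VFib (G : Type) [Group G] : Prop :=
  ∃ E : Subgroup G, E.FiniteIndex ∧ ∃ θ : E →* Multiplicative ℤ, Function.Surjective θ ∧ θ.ker.FG

private theorem VK_tame {G : Type} [Group G] {t : PT G} {ι : Type} [Fintype ι] {X : ι → Mx G}
    (h : ∀ i, Tame t (X i)) :
    ∃ r0, ∀ r, r0 ≤ r → ∃ L0, ∀ L, L0 ≤ L → ∃ C, ∀ i, Ty t r L C (X i) := by
  let e := Fintype.equivFin ι
  obtain ⟨r0, h0⟩ := tame_all (X := fun k => X (e.symm k)) fun k => h _
  refine ⟨r0, fun r hr => ?_⟩
  obtain ⟨L0, h1⟩ := h0 r hr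
  refine ⟨L0, fun L hL => ?_⟩
  obtain ⟨C, h2⟩ := h1 L hL
  refine ⟨C, fun i => ?_⟩
  have h3 := h2 (e i)
  rw [Equiv.symm_apply_apply] at h3
  exact h3

theorem fib_rfrs {G : Type} [Group G] (X : PD3 G) (hR : RFRS G) : VFib G := by
  classical
  have hnt : Nontrivial G := pd3_nontrivial X
  obtain ⟨S, -, hS⟩ := fg_of_PD3 X
  have hFG : Group.FG G := ⟨⟨S, hS⟩⟩
  obtain ⟨n, x, hx⟩ : ∃ (n : ℕ) (x : Fin n → G), Subgroup.closure (Set.range x) = ⊤ := by
    refine ⟨S.card, fun i => (S.equivFin.symm i : G), ?_⟩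
    rw [← hS]
    congr 1
    ext g
    constructor
    · rintro ⟨i, rfl⟩
      exact (S.equivFin.symm i).2
    · intro hg
      exact ⟨S.equivFin ⟨g, hg⟩, by simp⟩
  obtain ⟨t, ht⟩ := tower_exists G hR
  obtain ⟨D, hD, ev, j, hev, hj, hadd, hmul, hgm, htame⟩ := exists_D t ht
  have hf : Function.Injective (j.comp (cz : MonoidAlgebra ℤ G →+* MonoidAlgebra ℚ G)) :=
    hj.comp cz_injective
  have hrel : ∀ K : Subgroup G, RelFG K := fun K => thmA X (j.comp cz) hf K
  have hrelG : RelFG G := relFG_of_equiv Subgroup.topEquiv (hrel ⊤)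
  obtain ⟨N, ρ, hρ⟩ := Submodule.fg_iff_exists_fin_generating_family.1 (hrelG n x hx)
  have hρ0 : ∀ k, bd x (ρ k) = 0 := by
    intro k
    have h1 : ρ k ∈ LinearMap.ker (bd x) := by
      rw [← hρ]
      exact Submodule.subset_span ⟨k, rfl⟩
    exact h1
  have hspan := span_cz x ρ hρ
  have hρq : ∀ k, bq x (fun i => cz (ρ k i)) = 0 := by
    intro k
    rw [bq_cz, hρ0, map_zero]
  have hRQ : ∀ K : Subgroup G, RelQ K := fun K => relQ_of_relFG (hrel K)
  have hBd : ∀ (r : ℕ) (L : ℤ) (s : ℤˣ), BdR (fun w => (s : ℤ) * t.TT L r w) := by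
    intro r L s v
    obtain ⟨A, hA⟩ := TT_lip t L r
    refine ⟨A * t.ell v, fun w => ?_⟩
    have h1 := hA w v
    have h2 : (s : ℤ) * t.TT L r (w * v) - (s : ℤ) * t.TT L r w =
        (s : ℤ) * (t.TT L r (w * v) - t.TT L r w) := by ring
    rw [h2, abs_mul]
    rcases Int.units_eq_one_or s with hs | hs
    · rw [hs]
      simpa using h1
    · rw [hs]
      simpa using h1
  have hSL : ∀ (r : ℕ) (L : ℤ) (s : ℤˣ), SlabR (fun w => (s : ℤ) * t.TT L r w) x
      (fun k => (fun i => cz (ρ k i))) := by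
    intro r L s
    have : (t.E r).FiniteIndex := t.fin r
    have hEfg : Group.FG (t.E r) := Subgroup.fg_of_index_ne_zero _
    refine slab_lemma (t.E r) ((Group.fg_iff_subgroup_fg _).1 hEfg) _ ?_ (hBd r L s) ?_ (hRQ _) x hx
      _ hspan
    · intro g hg w
      rw [TT_mul t L r hg w]
      ring
    · intro B _
      have h1 : RelFG (B.map (t.E r).subtype) := hrel _
      exact relQ_of_relFG (relFG_of_equiv
        (B.equivMapOfInjective (t.E r).subtype (t.E r).subtype_injective).symm h1)
  have hCo : ∀ (r : ℕ) (L : ℤ) (s : ℤˣ), CoSl (fun w => (s : ℤ) * t.TT L r w)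
      (fun k => (fun i => cz (ρ k i))) := fun r L s =>
    cosl X x hx ρ hρ _ (hBd r L s) (hSL r L s)
  have hH1 := h1z X x hx ρ hρ
  -- a generator of infinite order
  obtain ⟨j0, hj0⟩ : ∃ j0, x j0 ≠ 1 := by
    by_contra hcon
    push Not at hcon
    have h1 : Subgroup.closure (Set.range x) = ⊥ := by
      rw [eq_bot_iff, Subgroup.closure_le]
      rintro _ ⟨i, rfl⟩
      exact hcon i
    rw [hx] at h1
    exact absurd h1 (top_ne_bot)
  have hj0' : ∀ k : ℕ, 0 < k → x j0 ^ k ≠ 1 := fun k hk h => hj0 (rfrs_tf hR hk h)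
  have hev0 : ev 0 = 0 := by
    have h1 := hadd 0 0
    rw [add_zero] at h1
    exact left_eq_add.1 h1
  have hevs : ∀ (κ : Type) (S : Finset κ) (F : κ → D), ev (∑ i ∈ S, F i) = ∑ i ∈ S, ev (F i) := by
    intro κ S F
    induction S using Finset.induction_on with
    | empty => rw [Finset.sum_empty, Finset.sum_empty, hev0]
    | insert a S ha ih => rw [Finset.sum_insert ha, Finset.sum_insert ha, hadd, ih]
  obtain ⟨d, hd⟩ := lin_dec (fun (k : Fin N) i => j (cz (ρ k i))) (fun i => j (of ℚ G (x i) - 1)) j0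
    (by
      intro h1
      have h2 : of ℚ G (x j0) - 1 = 0 := hj (by rw [h1, map_zero])
      rw [sub_eq_zero] at h2
      have h3 : of ℚ G (x j0) = of ℚ G 1 := by rw [h2, map_one]
      exact hj0 (of_injective h3))
    (by
      intro k
      have h1 := congrArg j (hρq k)
      rw [bq_apply, map_sum, map_zero] at h1
      rw [← h1]
      exact Finset.sum_congr rfl fun i _ => by rw [map_mul])
    (by
      intro f h1 h2
      have h3 := h1_tame (t := t) x (fun k => (fun i => cz (ρ k i))) hCo hH1 j0 hj0'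
        (fun i => ev (f i)) (fun i => htame _) (by
          show ev (f j0) = 0
          rw [h2, hev0]) (by
          intro k
          have h4 := congrArg ev (h1 k)
          rw [hev0, hevs] at h4
          rw [← h4]
          exact Finset.sum_congr rfl fun i _ => by rw [hmul, hgm])
      funext i
      exact hev (by rw [h3 i]; exact hev0.symm))
  -- a common type
  let Z : Option (Fin n × Fin N) → Mx G := fun o => match o with
    | none => ev (j (of ℚ G (x j0) - 1))⁻¹
    | some p => ev (d p.1 p.2)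
  have hZ : ∀ o, Tame t (Z o) := by
    intro o
    cases o with
    | none => exact htame _
    | some p => exact htame _
  obtain ⟨r1, hr1⟩ := VK_tame hZ
  obtain ⟨r2, hr2⟩ := theta_ne t
  obtain ⟨L1, hL1⟩ := hr1 (max r1 r2) (le_max_left _ _)
  obtain ⟨L2, hL2⟩ := hr2 (max r1 r2) (le_max_right _ _)
  obtain ⟨C, hC⟩ := hL1 (max L1 L2) (le_max_left _ _)
  obtain ⟨e0, he0, hne⟩ := hL2 (max L1 L2) (le_max_right _ _)
  generalize max r1 r2 = r at hC he0 hne
  generalize max L1 L2 = L at hC hne
  have hdec : ∀ (y : Fin n → MonoidAlgebra ℚ G) (i : Fin n), gm (y i) =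
      ∑ k, mm (∑ i', mm (gm (y i')) (Z (some (i', k)))) (gm (cz (ρ k i))) +
        (if i = j0 then mm (gm (bq x y)) (Z none) else 0) := by
    intro y i
    have h1 : j (y i) = ∑ k, (∑ i', j (y i') * d i' k) * j (cz (ρ k i)) +
        (if i = j0 then j (bq x y) * (j (of ℚ G (x j0) - 1))⁻¹ else 0) := by
      have h2 : j (y i) = ∑ i', j (y i') * (if i' = i then (1 : D) else 0) := by
        simp
      rw [h2]
      have h3 : ∀ i', j (y i') * (if i' = i then (1 : D) else 0) =
          ∑ k, j (y i') * d i' k * j (cz (ρ k i)) + (if i = j0 then j (y i') *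
            j (of ℚ G (x i') - 1) * (j (of ℚ G (x j0) - 1))⁻¹ else 0) := by
        intro i'
        rw [hd i' i, mul_add, Finset.mul_sum]
        congr 1
        · exact Finset.sum_congr rfl fun k _ => by rw [mul_assoc]
        · by_cases h4 : i = j0
          · rw [if_pos h4, if_pos h4, mul_assoc]
          · rw [if_neg h4, if_neg h4, mul_zero]
      rw [Finset.sum_congr rfl fun i' _ => h3 i', Finset.sum_add_distrib, Finset.sum_comm]
      congr 1
      · exact Finset.sum_congr rfl fun k _ => by rw [Finset.sum_mul]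
      · by_cases h4 : i = j0
        · simp only [if_pos h4]
          rw [← Finset.sum_mul, bq_apply, map_sum]
          congr 1
          exact Finset.sum_congr rfl fun i' _ => by rw [map_mul]
        · simp only [if_neg h4]
          exact Finset.sum_const_zero
    have h5 := congrArg ev h1
    rw [hgm, hadd, hevs] at h5
    rw [h5]
    congr 1
    · refine Finset.sum_congr rfl fun k _ => ?_
      rw [hmul, hevs, hgm]
      congr 1
      exact Finset.sum_congr rfl fun i' _ => by rw [hmul, hgm]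
    · by_cases h4 : i = j0
      · rw [if_pos h4, if_pos h4, hmul, hgm]
      · rw [if_neg h4, if_neg h4, hev0]
  have hgen : ∀ g : G, ∃ y : Fin n → MonoidAlgebra ℚ G, bq x y = of ℚ G g - 1 := by
    intro g
    obtain ⟨p, hp⟩ := aug_exact x hx (of ℤ G g - 1) (by rw [map_sub, aug_of, map_one, sub_self])
    refine ⟨fun i => cz (p i), ?_⟩
    rw [bq_cz, hp, map_sub, cz_of, map_one]
  have hhalf := conn_half x hgen (fun k => (fun i => cz (ρ k i))) hρq (fun i k => Z (some (i, k)))
    (fun i k => hC (some (i, k))) (Z none) (hC none) j0 hdec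
  have hp : ConnH (t.TT L r) x := by
    have h1 := hhalf 1
    simpa using h1
  have hm : ConnH (fun w => - t.TT L r w) x := by
    have h1 := hhalf (-1)
    simpa using h1
  have hB : BdR (t.TT L r) := by
    have h1 := hBd r L 1
    simpa using h1
  have hslab := conn_slab (t.TT L r) hB x _ hspan hp hm
  have : (t.E r).FiniteIndex := t.fin r
  have hker : (thE t L r).ker.FG := fg_of_conn (t.E r) (t.TT L r) (fun g hg w => TT_mul t L r hg w)
    hB x hslab (thE t L r) (fun g => mem_ker_thE t L r g)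
  obtain ⟨θ, hθ1, hθ2⟩ := surj_of_ne (thE t L r) ⟨⟨e0, he0⟩, fun h1 => hne
    ((mem_ker_thE t L r ⟨e0, he0⟩).1 h1)⟩
  exact ⟨t.E r, t.fin r, θ, hθ1, by rw [hθ2]; exact hker⟩

private theorem VK_up {H : Type} [Group H] (K0 : Subgroup H) (hK0 : K0.FiniteIndex)
    (h : VFib K0) : VFib H := by
  obtain ⟨E, hE, θ, hθ, hk⟩ := h
  let e' := E.equivMapOfInjective K0.subtype K0.subtype_injective
  refine ⟨E.map K0.subtype, ?_, θ.comp e'.symm.toMonoidHom, hθ.comp e'.symm.surjective, ?_⟩
  · refine ⟨?_⟩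
    rw [Subgroup.index_map_subtype]
    exact mul_ne_zero hE.index_ne_zero hK0.index_ne_zero
  · have h1 : (θ.comp e'.symm.toMonoidHom).ker = θ.ker.map e'.toMonoidHom := by
      ext g
      constructor
      · intro hg
        exact ⟨e'.symm g, hg, e'.apply_symm_apply g⟩
      · rintro ⟨g', hg', rfl⟩
        change θ (e'.symm (e' g')) = 1
        rw [e'.symm_apply_apply]
        exact hg'
    rw [h1]
    have h2 : Group.FG θ.ker := (Group.fg_iff_subgroup_fg _).2 hk
    exact (Group.fg_iff_subgroup_fg _).1 (Group.fg_of_surjective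
      (f := (θ.ker.equivMapOfInjective e'.toMonoidHom e'.injective).toMonoidHom)
      (θ.ker.equivMapOfInjective e'.toMonoidHom e'.injective).surjective)

/-- THEOREM F -/
theorem thmF {G : Type} [Group G] (X : PD3 G) (hV : VRFRS G) : VFib G := by
  obtain ⟨K0, hK0, hR⟩ := hV
  obtain ⟨X'⟩ := pd3_finiteIndex X K0
  exact VK_up K0 hK0 (fib_rfrs X' hR)

end Pool.Agent.RFR
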