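import Pool.Agent.RFR.VDefs

set_option autoImplicit false

/-! RFR-VQ: from `ℤ` to `ℚ`: clearing denominators, relations, slabs.

PLAN.  `clear_den`: finitely many coefficients (see `PRel_clear` in PRel.lean, private there: copy).  `bq_cz`: `bq_apply`, `bd_apply`.  `span_cz`: if `bq x y = 0` take `m > 0` and `z` integral with `cz (z i) = m • y i`; `bd x z = 0` (`cz_injective`), so `z = ∑ c k • ρ k` over `ℤG`
(`Submodule.span_range` membership: `Submodule.mem_span_range_iff_exists_fun`), so `y = m⁻¹ • ...`.  `inSl_cz`: `cz_coeff`.  The last lemmas: supports. -/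

namespace Pool.Agent.RFR

open MonoidAlgebra PDC

variable {G : Type} [Group G]

private theorem VQ_clear1 (y : MonoidAlgebra ℚ G) :
    ∃ N : ℕ, 0 < N ∧ ∃ z : MonoidAlgebra ℤ G, cz z = N • y := by
  induction y using MonoidAlgebra.induction_linear with
  | zero => exact ⟨1, one_pos, 0, by rw [map_zero, smul_zero]⟩
  | add a b ha hb =>
    obtain ⟨N, hN, z, hz⟩ := ha
    obtain ⟨M, hM, w, hw⟩ := hb
    refine ⟨N * M, Nat.mul_pos hN hM, M • z + N • w, ?_⟩
    rw [map_add, map_nsmul, map_nsmul, hz, hw, smul_add, ← mul_smul, ← mul_smul, mul_comm M N]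
  | single g q =>
    refine ⟨q.den, q.den_pos, MonoidAlgebra.single g q.num, ?_⟩
    unfold cz
    rw [MonoidAlgebra.mapRingHom_single]
    apply MonoidAlgebra.ext
    ext k
    have h1 : ((q.num : ℤ) : ℚ) = (q.den : ℚ) * q := by
      have := Rat.num_div_den q
      have h2 : (q.den : ℚ) ≠ 0 := by exact_mod_cast q.den_ne_zero
      field_simp at this
      linarith
    have h3 : ((q.den • MonoidAlgebra.single g q : MonoidAlgebra ℚ G)).coeff k =
        q.den • (MonoidAlgebra.single g q : MonoidAlgebra ℚ G).coeff k := rfl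
    rw [h3, MonoidAlgebra.coeff_single, MonoidAlgebra.coeff_single]
    by_cases hk : g = k
    · subst hk
      rw [Finsupp.single_eq_same, Finsupp.single_eq_same, nsmul_eq_mul]
      exact h1
    · rw [Finsupp.single_eq_of_ne (Ne.symm hk), Finsupp.single_eq_of_ne (Ne.symm hk), smul_zero]

theorem clear_den {ι : Type} [Finite ι] (y : ι → MonoidAlgebra ℚ G) :
    ∃ m : ℕ, 0 < m ∧ ∃ z : ι → MonoidAlgebra ℤ G, ∀ i, cz (z i) = m • y i := by
  classical
  obtain ⟨hfin⟩ := nonempty_fintype ι
  choose N hN z hz using fun i => VQ_clear1 (y i)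
  refine ⟨∏ i, N i, Finset.prod_pos fun i _ => hN i,
    fun i => (∏ j ∈ Finset.univ.erase i, N j) • z i, fun i => ?_⟩
  rw [map_nsmul, hz, ← mul_smul, Finset.prod_erase_mul _ _ (Finset.mem_univ i)]

theorem bq_cz {n : ℕ} (x : Fin n → G) (z : Fin n → MonoidAlgebra ℤ G) :
    bq x (fun i => cz (z i)) = cz (bd x z) := by
  rw [bq_apply, PDC.bd_apply, map_sum]
  refine Finset.sum_congr rfl fun j _ => ?_
  rw [map_mul, map_sub, map_one, cz_of]

private theorem VQ_span {n N : ℕ} (ρ : Fin N → Fin n → MonoidAlgebra ℤ G)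
    (q : Fin n → MonoidAlgebra ℤ G)
    (hq : q ∈ Submodule.span (MonoidAlgebra ℤ G) (Set.range ρ)) :
    (fun j => cz (q j)) ∈
      Submodule.span (MonoidAlgebra ℚ G) (Set.range fun k => (fun j => cz (ρ k j))) := by
  induction hq using Submodule.span_induction with
  | mem a ha =>
    obtain ⟨k, rfl⟩ := ha
    exact Submodule.subset_span ⟨k, rfl⟩
  | zero =>
    have h : (fun j => cz ((0 : Fin n → MonoidAlgebra ℤ G) j)) = 0 := by
      funext j
      exact map_zero cz
    rw [h]
    exact Submodule.zero_mem _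
  | add a b _ _ ha hb =>
    have h : (fun j => cz ((a + b) j)) = (fun j => cz (a j)) + fun j => cz (b j) := by
      funext j
      exact map_add cz _ _
    rw [h]
    exact Submodule.add_mem _ ha hb
  | smul c a _ ha =>
    have h : (fun j => cz ((c • a) j)) = cz c • fun j => cz (a j) := by
      funext j
      exact map_mul cz _ _
    rw [h]
    exact Submodule.smul_mem _ _ ha

theorem span_cz {n N : ℕ} (x : Fin n → G) (ρ : Fin N → Fin n → MonoidAlgebra ℤ G)
    (hρ : Submodule.span (MonoidAlgebra ℤ G) (Set.range ρ) = LinearMap.ker (bd x)) :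
    Submodule.span (MonoidAlgebra ℚ G) (Set.range fun k => (fun j => cz (ρ k j))) =
      LinearMap.ker (bq x) := by
  apply le_antisymm
  · rw [Submodule.span_le]
    rintro _ ⟨k, rfl⟩
    have h1 : ρ k ∈ LinearMap.ker (bd x) := by
      rw [← hρ]
      exact Submodule.subset_span ⟨k, rfl⟩
    change bq x (fun j => cz (ρ k j)) = 0
    rw [bq_cz, LinearMap.mem_ker.1 h1, map_zero]
  · intro y hy
    obtain ⟨m, hm, z, hz⟩ := clear_den y
    have h1 : (fun j => cz (z j)) = (m : ℚ) • y := by
      funext j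
      rw [hz, Pi.smul_apply, Nat.cast_smul_eq_nsmul]
    have h2 : z ∈ LinearMap.ker (bd x) := by
      rw [LinearMap.mem_ker]
      apply cz_injective
      have h3 : (fun j => cz (z j)) = m • y := by
        funext j
        exact hz j
      rw [map_zero, ← bq_cz, h3, map_nsmul, LinearMap.mem_ker.1 hy, smul_zero]
    rw [← hρ] at h2
    have h4 := VQ_span ρ z h2
    rw [h1] at h4
    have hm0 : (m : ℚ) ≠ 0 := by exact_mod_cast hm.ne'
    have h5 := Submodule.smul_of_tower_mem
      (Submodule.span (MonoidAlgebra ℚ G) (Set.range fun k => (fun j => cz (ρ k j)))) (m : ℚ)⁻¹ h4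
    rwa [smul_smul, inv_mul_cancel₀ hm0, one_smul] at h5

theorem inSl_cz (T : G → ℤ) (a b : ℤ) (z : MonoidAlgebra ℤ G) :
    InSl T a b (cz z) ↔ InSz T a b z := by
  unfold InSl InSz
  refine forall_congr' fun g => ?_
  rw [cz_coeff, Int.cast_ne_zero]

/-- multiplication by a nonzero integer does not change the support -/
theorem inSl_nsmul {T : G → ℤ} {a b : ℤ} {m : ℕ} (hm : 0 < m) (c : MonoidAlgebra ℚ G) :
    InSl T a b (m • c) ↔ InSl T a b c := by
  unfold InSl
  refine forall_congr' fun g => ?_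
  have h1 : (m • c).coeff g = m • c.coeff g := rfl
  have h2 : (m • c.coeff g ≠ 0) ↔ (c.coeff g ≠ 0) := by
    rw [nsmul_eq_mul, Ne, mul_eq_zero, not_or]
    have hm0 : (m : ℚ) ≠ 0 := by exact_mod_cast hm.ne'
    exact ⟨fun h => h.2, fun h => ⟨hm0, h⟩⟩
  rw [h1, h2]

end Pool.Agent.RFR
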