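import Pool.Agent.RFR.VDefs
import Pool.Agent.PDC.Sign

set_option autoImplicit false

/-! RFR-VT: the twisted anti-automorphism `tw` and supports in slabs.

`tw` is checked on group elements (`zg_induction`); the coefficients of a product are sums over the
support of one factor, and the bound is the maximum of the bounds of `BdR T` on this support. -/

namespace Pool.Agent.RFR

open MonoidAlgebra PDC

variable {G : Type} [Group G]

theorem tw_of (w : G → ℤ) (g : G) : tw w (of ℤ G g) = w g • of ℤ G g⁻¹ := by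
  unfold tw
  rw [extZ_of]

private theorem VT_w_one {w : G → ℤ} (hw : ∀ g, w g = 1 ∨ w g = -1)
    (hm : ∀ g g', w (g * g') = w g * w g') : w 1 = 1 := by
  have h := hm 1 1
  rw [mul_one] at h
  rcases hw 1 with h1 | h1
  · exact h1
  · rw [h1] at h
    norm_num at h

private theorem VT_w_inv {w : G → ℤ} (hw : ∀ g, w g = 1 ∨ w g = -1)
    (hm : ∀ g g', w (g * g') = w g * w g') (g : G) : w g * w g⁻¹ = 1 := by
  rw [← hm, mul_inv_cancel, VT_w_one hw hm]

private theorem VT_w_inv' {w : G → ℤ} (hw : ∀ g, w g = 1 ∨ w g = -1)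
    (hm : ∀ g g', w (g * g') = w g * w g') (g : G) : w g⁻¹ = w g := by
  have h := VT_w_inv hw hm g
  rcases hw g with h1 | h1
  · rw [h1, one_mul] at h
    rw [h, h1]
  · rw [h1] at h
    rw [h1]
    linarith

theorem tw_mul {w : G → ℤ} (hm : ∀ g g', w (g * g') = w g * w g') (a b : MonoidAlgebra ℤ G) :
    tw w (a * b) = tw w b * tw w a := by
  induction a using zg_induction with
  | h0 => simp
  | hadd x y hx hy => rw [add_mul, map_add, hx, hy, map_add, mul_add]
  | hneg x hx => rw [neg_mul, map_neg, hx, map_neg, mul_neg]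
  | hof g =>
    induction b using zg_induction with
    | h0 => simp
    | hadd x y hx hy => rw [mul_add, map_add, hx, hy, map_add, add_mul]
    | hneg x hx => rw [mul_neg, map_neg, hx, map_neg, neg_mul]
    | hof k =>
      rw [← map_mul, tw_of, tw_of, tw_of, smul_mul_smul_comm, ← map_mul, hm, mul_inv_rev,
        mul_comm (w g)]

theorem tw_tw {w : G → ℤ} (hw : ∀ g, w g = 1 ∨ w g = -1) (hm : ∀ g g', w (g * g') = w g * w g')
    (a : MonoidAlgebra ℤ G) : tw w (tw w a) = a := by
  induction a using zg_induction with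
  | h0 => simp
  | hadd x y hx hy => rw [map_add, map_add, hx, hy]
  | hneg x hx => rw [map_neg, map_neg, hx]
  | hof g =>
    rw [tw_of, map_zsmul, tw_of, inv_inv, smul_smul, VT_w_inv hw hm, one_smul]

theorem tw_coeff {w : G → ℤ} (hw : ∀ g, w g = 1 ∨ w g = -1)
    (hm : ∀ g g', w (g * g') = w g * w g') (a : MonoidAlgebra ℤ G) (g : G) :
    (tw w a).coeff g = w g * a.coeff g⁻¹ := by
  induction a using zg_induction with
  | h0 => simp
  | hadd x y hx hy =>
    rw [map_add, coeff_add, coeff_add, Finsupp.add_apply, Finsupp.add_apply, hx, hy, mul_add]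
  | hneg x hx =>
    rw [map_neg, coeff_neg, coeff_neg, Finsupp.neg_apply, Finsupp.neg_apply, hx, mul_neg]
  | hof k =>
    classical
    rw [tw_of, coeff_smul, Finsupp.smul_apply, of_apply, of_apply, coeff_single, coeff_single,
      Finsupp.single_apply, Finsupp.single_apply]
    by_cases h : k⁻¹ = g
    · have h' : k = g⁻¹ := by rw [← h, inv_inv]
      rw [if_pos h, if_pos h', ← h, VT_w_inv' hw hm, smul_eq_mul]
    · have h' : ¬ k = g⁻¹ := fun e => h (by rw [e, inv_inv])
      rw [if_neg h, if_neg h', smul_zero, mul_zero]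

/-- the map `θ` of a PD3-group and multiplication from the right -/
theorem tw_theta (X : PD3 G) {w : G → ℤ}
    (hθ : ∀ (g : G) (φ : X.P3 →ₗ[MonoidAlgebra ℤ G] MonoidAlgebra ℤ G),
      X.θ (rmul φ (of ℤ G g)) = w g * X.θ φ)
    (φ : X.P3 →ₗ[MonoidAlgebra ℤ G] MonoidAlgebra ℤ G) (r : MonoidAlgebra ℤ G) :
    X.θ (rmul φ r) = aug (tw w r) * X.θ φ := by
  induction r using zg_induction with
  | h0 =>
    have e : rmul φ 0 = 0 := by
      ext q : 1
      rw [rmul_apply, mul_zero, LinearMap.zero_apply]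
    rw [e, map_zero, map_zero, map_zero, zero_mul]
  | hadd x y hx hy =>
    have e : rmul φ (x + y) = rmul φ x + rmul φ y := by
      ext q : 1
      rw [LinearMap.add_apply, rmul_apply, rmul_apply, rmul_apply, mul_add]
    rw [e, map_add, hx, hy, map_add, map_add, add_mul]
  | hneg x hx =>
    have e : rmul φ (-x) = -rmul φ x := by
      ext q : 1
      rw [LinearMap.neg_apply, rmul_apply, rmul_apply, mul_neg]
    rw [e, map_neg, hx, map_neg, map_neg, neg_mul]
  | hof g =>
    rw [hθ, tw_of, map_zsmul, aug_of, smul_eq_mul, mul_one]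

theorem inSz_tw {w : G → ℤ} (hw : ∀ g, w g = 1 ∨ w g = -1)
    (hm : ∀ g g', w (g * g') = w g * w g') {T : G → ℤ} {a b : ℤ} {c : MonoidAlgebra ℤ G}
    (h : InSz (Tv T) a b c) : InSz T a b (tw w c) := by
  intro g hg
  rw [tw_coeff hw hm] at hg
  have h1 := h g⁻¹ (right_ne_zero_of_mul hg)
  change a ≤ T (g⁻¹)⁻¹ ∧ T (g⁻¹)⁻¹ ≤ b at h1
  rwa [inv_inv] at h1

theorem inSz_tw' {w : G → ℤ} (hw : ∀ g, w g = 1 ∨ w g = -1)
    (hm : ∀ g g', w (g * g') = w g * w g') {T : G → ℤ} {a b : ℤ} {c : MonoidAlgebra ℤ G}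
    (h : InSz T a b c) : InSz (Tv T) a b (tw w c) := by
  intro g hg
  rw [tw_coeff hw hm] at hg
  exact h g⁻¹ (right_ne_zero_of_mul hg)

theorem inSz_mono {T : G → ℤ} {a b a' b' : ℤ} {c : MonoidAlgebra ℤ G} (h : InSz T a b c)
    (ha : a' ≤ a) (hb : b ≤ b') : InSz T a' b' c := fun g hg =>
  ⟨ha.trans (h g hg).1, (h g hg).2.trans hb⟩

theorem inSz_sum {κ : Type} {T : G → ℤ} {a b : ℤ} (s : Finset κ) (c : κ → MonoidAlgebra ℤ G)
    (h : ∀ i ∈ s, InSz T a b (c i)) : InSz T a b (∑ i ∈ s, c i) := by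
  classical
  induction s using Finset.induction_on with
  | empty =>
    intro g hg
    exact absurd (by simp) hg
  | insert i s hi ih =>
    intro g hg
    rw [Finset.sum_insert hi, coeff_add, Finsupp.add_apply] at hg
    by_cases h1 : (c i).coeff g = 0
    · rw [h1, zero_add] at hg
      exact ih (fun j hj => h j (Finset.mem_insert_of_mem hj)) g hg
    · exact h i (Finset.mem_insert_self i s) g h1

theorem inSz_sub {T : G → ℤ} {a b : ℤ} {c d : MonoidAlgebra ℤ G} (hc : InSz T a b c)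
    (hd : InSz T a b d) : InSz T a b (c - d) := by
  intro g hg
  rw [coeff_sub, Finsupp.sub_apply] at hg
  by_cases h1 : c.coeff g = 0
  · refine hd g fun h2 => hg ?_
    rw [h1, h2, sub_zero]
  · exact hc g h1

/-- multiplication from the right by a fixed element -/
theorem inSz_mul {T : G → ℤ} (hT : BdR T) (r : MonoidAlgebra ℤ G) :
    ∃ B : ℤ, 0 ≤ B ∧ ∀ (a b : ℤ) (c : MonoidAlgebra ℤ G), InSz T a b c →
      InSz T (a - B) (b + B) (c * r) := by
  choose B hB using hT
  refine ⟨∑ v ∈ r.coeff.support, |B v|, Finset.sum_nonneg fun v _ => abs_nonneg _, ?_⟩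
  intro a b c hc g hg
  rw [coeff_mul_apply_right] at hg
  obtain ⟨v, hv, hv'⟩ := Finset.exists_ne_zero_of_sum_ne_zero hg
  have h1 := hc (g * v⁻¹) (left_ne_zero_of_mul hv')
  have h2 := hB v (g * v⁻¹)
  rw [inv_mul_cancel_right] at h2
  have h3 : |B v| ≤ ∑ v ∈ r.coeff.support, |B v| :=
    Finset.single_le_sum (f := fun v => |B v|) (fun v _ => abs_nonneg _) hv
  have h4 := le_abs_self (B v)
  rw [abs_le] at h2
  constructor <;> linarith [h1.1, h1.2, h2.1, h2.2]

/-- multiplication from the left by a fixed element -/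
theorem inSz_lmul {T : G → ℤ} (hT : BdR T) (r : MonoidAlgebra ℤ G) :
    ∃ B : ℤ, 0 ≤ B ∧ ∀ (a b : ℤ) (c : MonoidAlgebra ℤ G), InSz (Tv T) a b c →
      InSz (Tv T) (a - B) (b + B) (r * c) := by
  choose B hB using hT
  refine ⟨∑ v ∈ r.coeff.support, |B v|, Finset.sum_nonneg fun v _ => abs_nonneg _, ?_⟩
  intro a b c hc g hg
  rw [coeff_mul_apply_left] at hg
  obtain ⟨v, hv, hv'⟩ := Finset.exists_ne_zero_of_sum_ne_zero hg
  have h1 := hc (v⁻¹ * g) (right_ne_zero_of_mul hv')
  change a ≤ T (v⁻¹ * g)⁻¹ ∧ T (v⁻¹ * g)⁻¹ ≤ b at h1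
  rw [mul_inv_rev, inv_inv] at h1
  have h2 := hB v g⁻¹
  have h3 : |B v| ≤ ∑ v ∈ r.coeff.support, |B v| :=
    Finset.single_le_sum (f := fun v => |B v|) (fun v _ => abs_nonneg _) hv
  have h4 := le_abs_self (B v)
  rw [abs_le] at h2
  change a - _ ≤ T g⁻¹ ∧ T g⁻¹ ≤ b + _
  constructor <;> linarith [h1.1, h1.2, h2.1, h2.2]

end Pool.Agent.RFR
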